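import Mathlib

/-!
# MP_03bc95 : product sets of three short intervals modulo a prime, definitions

Paper proof: /team-store/h6_03bc95_PROOF.md (helper6).
`I = S + {1..h}`, `t = h^(1/3)`, `m` bounds twice the number of divisors.
-/

open Finset

namespace Pool.Agent.H.MP_03bc95_nt

/-- `m` bounds twice the number of divisors of all nonzero integers up to `1000 h^6`. -/
def DivB (m h : ℕ) : Prop :=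
  ∀ n : ℤ, n ≠ 0 → |n| ≤ 1000 * (h : ℤ) ^ 6 → 2 * n.natAbs.divisors.card ≤ m

/-- The standing hypotheses on the interval `I = S + {1..h}`. -/
structure Hyp (p : ℕ) (S : ℤ) (h m : ℕ) : Prop where
  hh : 1 ≤ h
  hp : 100000 * h ^ 3 ≤ p
  hS : ∀ x : ℤ, 1 ≤ x → x ≤ h → ((S + x : ℤ) : ZMod p) ≠ 0
  hm : DivB m h

/-- Solutions `(b,c,g)` in `[1,h]^3` of `(S+b)(S+c) = ρ (S+g)` modulo `p`. -/
noncomputable def Sol (p : ℕ) (S : ℤ) (h : ℕ) (ρ : ZMod p) : Finset (ℤ × ℤ × ℤ) :=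
  (Icc (1 : ℤ) h ×ˢ Icc (1 : ℤ) h ×ˢ Icc (1 : ℤ) h).filter fun z =>
    ((S + z.1 : ℤ) : ZMod p) * ((S + z.2.1 : ℤ) : ZMod p) = ρ * ((S + z.2.2 : ℤ) : ZMod p)

/-- The trivial solutions: `g = b` and `S + c = ρ`, or `g = c` and `S + b = ρ`. -/
noncomputable def Triv (p : ℕ) (S : ℤ) (h : ℕ) (ρ : ZMod p) : Finset (ℤ × ℤ × ℤ) :=
  (Icc (1 : ℤ) h ×ˢ Icc (1 : ℤ) h ×ˢ Icc (1 : ℤ) h).filter fun z =>
    (z.2.2 = z.1 ∧ ((S + z.2.1 : ℤ) : ZMod p) = ρ) ∨ (z.2.2 = z.2.1 ∧ ((S + z.1 : ℤ) : ZMod p) = ρ)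

/-- Membership in the lattice `u S + v = ρ g` modulo `p`. -/
def InLam (p : ℕ) (S : ℤ) (ρ : ZMod p) (f : ℤ × ℤ × ℤ) : Prop :=
  ((f.1 * S + f.2.1 : ℤ) : ZMod p) = ρ * (f.2.2 : ZMod p)

/-- The lattice points with `|u| ≤ 3h`, `|v| ≤ 3h^2`, `|g| ≤ 3h`. -/
noncomputable def Lam3 (p : ℕ) (S : ℤ) (h : ℕ) (ρ : ZMod p) : Finset (ℤ × ℤ × ℤ) :=
  (Icc (-(3 * (h : ℤ))) (3 * h) ×ˢ Icc (-(3 * (h : ℤ) ^ 2)) (3 * (h : ℤ) ^ 2) ×ˢ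
    Icc (-(3 * (h : ℤ))) (3 * h)).filter fun f =>
    ((f.1 * S + f.2.1 : ℤ) : ZMod p) = ρ * (f.2.2 : ZMod p)

/-- Every nonzero `(a,b)` with `a S + b = 0` modulo `p` has scaled norm at least `κ`
(`|a| ≥ κ h` or `|b| ≥ κ h^2`). -/
def LBS (p : ℕ) (S : ℤ) (h : ℕ) (κ : ℝ) : Prop :=
  ∀ a b : ℤ, ¬ (a = 0 ∧ b = 0) → ((a * S + b : ℤ) : ZMod p) = 0 →
    κ * h ≤ |(a : ℝ)| ∨ κ * (h : ℝ) ^ 2 ≤ |(b : ℝ)|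

/-- Every nonzero `(a,b)` with `a = ρ b` modulo `p` has scaled norm at least `κ`
(`|a| ≥ κ h^2` or `|b| ≥ κ h`). -/
def LBR (p : ℕ) (h : ℕ) (ρ : ZMod p) (κ : ℝ) : Prop :=
  ∀ a b : ℤ, ¬ (a = 0 ∧ b = 0) → (a : ZMod p) = ρ * (b : ZMod p) →
    κ * (h : ℝ) ^ 2 ≤ |(a : ℝ)| ∨ κ * h ≤ |(b : ℝ)|

/-- `E(λ)`: the number of `(x1,x2,y1,y2)` in `[1,h]^4` with
`(S+x1)(S+x2) = λ (S+y1)(S+y2)` modulo `p`. -/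
noncomputable def E4 (p : ℕ) (S : ℤ) (h : ℕ) (l : ZMod p) : ℕ :=
  ((Icc (1 : ℤ) h ×ˢ Icc (1 : ℤ) h ×ˢ Icc (1 : ℤ) h ×ˢ Icc (1 : ℤ) h).filter fun z =>
    ((S + z.1 : ℤ) : ZMod p) * ((S + z.2.1 : ℤ) : ZMod p)
      = l * (((S + z.2.2.1 : ℤ) : ZMod p) * ((S + z.2.2.2 : ℤ) : ZMod p))).card

/-- `r(λ)`: the number of `(x,y)` in `[1,h]^2` with `S + x = λ (S + y)` modulo `p`. -/
noncomputable def R2 (p : ℕ) (S : ℤ) (h : ℕ) (l : ZMod p) : ℕ :=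
  ((Icc (1 : ℤ) h ×ˢ Icc (1 : ℤ) h).filter fun z =>
    ((S + z.1 : ℤ) : ZMod p) = l * ((S + z.2 : ℤ) : ZMod p)).card

end Pool.Agent.H.MP_03bc95_nt
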