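import Mathlib

open Finset
open scoped Pointwise

namespace Pool.Agent.H.MP_03bc95_nt

/-- `M(A,B,C)`: number of `(a,b,c,a',b',c')` with `a b c = a' b' c'`. -/
noncomputable def M6 {p : ℕ} (A B C : Finset (ZMod p)) : ℕ := by
  classical
  exact (((A ×ˢ B ×ˢ C) ×ˢ (A ×ˢ B ×ˢ C)).filter fun z =>
    z.1.1 * z.1.2.1 * z.1.2.2 = z.2.1 * z.2.2.1 * z.2.2.2).card

/-- Pairs with equal images, counted over the fibres. -/
theorem card_eq_pairs {α β γ : Type*} [DecidableEq γ] (U : Finset α) (V : Finset β)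
    (W : Finset γ) (φ : α → γ) (ψ : β → γ) (h : ∀ u ∈ U, φ u ∈ W) :
    ((U ×ˢ V).filter fun z => φ z.1 = ψ z.2).card =
      ∑ z ∈ W, (U.filter fun u => φ u = z).card * (V.filter fun v => ψ v = z).card := by
  classical
  rw [Finset.card_eq_sum_card_fiberwise (f := fun z : α × β => φ z.1) (t := W)]
  · refine Finset.sum_congr rfl fun z _ => ?_
    rw [← Finset.card_product]
    congr 1
    ext ⟨u, v⟩
    simp only [Finset.mem_filter, Finset.mem_product]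
    constructor
    · rintro ⟨⟨⟨hu, hv⟩, h1⟩, h2⟩
      exact ⟨⟨hu, h2⟩, hv, by rw [← h1, h2]⟩
    · rintro ⟨⟨hu, h2⟩, hv, h1⟩
      exact ⟨⟨⟨hu, hv⟩, by rw [h1, h2]⟩, h2⟩
  · intro z hz
    have hz' := Finset.mem_coe.1 hz
    rw [Finset.mem_filter, Finset.mem_product] at hz'
    exact Finset.mem_coe.2 (h _ hz'.1.1)

/-- Cauchy-Schwarz for the number of representations on the product set. -/
theorem prod_card {p : ℕ} [Fact p.Prime] (A B C : Finset (ZMod p)) :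
    (A.card * B.card * C.card) ^ 2 ≤ (A * B * C).card * M6 A B C := by
  classical
  set U : Finset (ZMod p × ZMod p × ZMod p) := A ×ˢ B ×ˢ C with hU
  set φ : ZMod p × ZMod p × ZMod p → ZMod p := fun u => u.1 * u.2.1 * u.2.2 with hφ
  have hmem : ∀ u ∈ U, φ u ∈ A * B * C := by
    intro u hu
    rw [hU, Finset.mem_product, Finset.mem_product] at hu
    exact Finset.mul_mem_mul (Finset.mul_mem_mul hu.1 hu.2.1) hu.2.2
  have h1 : M6 A B C = ∑ z ∈ A * B * C, (U.filter fun u => φ u = z).card ^ 2 := by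
    have h := card_eq_pairs U U (A * B * C) φ φ hmem
    simp only [← sq] at h
    rw [← h]
    unfold M6
    congr
  have h2 : A.card * B.card * C.card = ∑ z ∈ A * B * C, (U.filter fun u => φ u = z).card := by
    rw [← Finset.card_eq_sum_card_fiberwise (s := U) (t := A * B * C) (f := φ)]
    · rw [hU, Finset.card_product, Finset.card_product, mul_assoc]
    · intro u hu
      exact Finset.mem_coe.2 (hmem u (Finset.mem_coe.1 hu))
  rw [h1, h2]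
  exact sq_sum_le_card_mul_sum_sq

/-- The representation function behind `m6_sq_le`. -/
theorem m6_eq_sum {p : ℕ} [Fact p.Prime] (A B C : Finset (ZMod p)) (hA : (0 : ZMod p) ∉ A)
    (hB : (0 : ZMod p) ∉ B) (_hC : (0 : ZMod p) ∉ C) :
    M6 A B C = ∑ z : ZMod p,
      ((A ×ˢ A ×ˢ C).filter fun u => u.2.2 * u.1 * u.2.1⁻¹ = z).card *
      ((B ×ˢ B ×ˢ C).filter fun u => u.2.2 * u.1 * u.2.1⁻¹ = z).card := by
  classical
  rw [← card_eq_pairs (A ×ˢ A ×ˢ C) (B ×ˢ B ×ˢ C) Finset.univ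
    (fun u => u.2.2 * u.1 * u.2.1⁻¹) (fun u => u.2.2 * u.1 * u.2.1⁻¹) (fun _ _ => Finset.mem_univ _)]
  unfold M6
  refine Finset.card_bij' (fun z _ => ((z.1.1, z.2.1, z.1.2.2), (z.2.2.1, z.1.2.1, z.2.2.2)))
    (fun w _ => ((w.1.1, w.2.2.1, w.1.2.2), (w.1.2.1, w.2.1, w.2.2.2))) ?_ ?_ ?_ ?_
  · rintro ⟨⟨a, b, c⟩, ⟨a', b', c'⟩⟩ hz
    simp only [Finset.mem_filter, Finset.mem_product] at hz ⊢
    obtain ⟨⟨⟨ha, hb, hc⟩, ha', hb', hc'⟩, he⟩ := hz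
    have ha0 : a' ≠ 0 := fun h => hA (h ▸ ha')
    have hb0 : b ≠ 0 := fun h => hB (h ▸ hb)
    refine ⟨⟨⟨ha, ha', hc⟩, hb', hb, hc'⟩, ?_⟩
    field_simp
    linear_combination he
  · rintro ⟨⟨a, a', c⟩, ⟨b', b, c'⟩⟩ hz
    simp only [Finset.mem_filter, Finset.mem_product] at hz ⊢
    obtain ⟨⟨⟨ha, ha', hc⟩, hb', hb, hc'⟩, he⟩ := hz
    have ha0 : a' ≠ 0 := fun h => hA (h ▸ ha')
    have hb0 : b ≠ 0 := fun h => hB (h ▸ hb)
    refine ⟨⟨⟨ha, hb, hc⟩, ha', hb', hc'⟩, ?_⟩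
    field_simp at he
    linear_combination he
  · rintro ⟨⟨a, b, c⟩, ⟨a', b', c'⟩⟩ _
    rfl
  · rintro ⟨⟨a, a', c⟩, ⟨b', b, c'⟩⟩ _
    rfl

/-- `M(A,B,C)^2 ≤ M(A,A,C) M(B,B,C)`: with `R_A(q) = #{(x,y) ∈ A² : x = q y}` (`R_A(q) = R_A(1/q)`) and
`f_A(z) = ∑_{c ∈ C} R_A (z/c)` one has `M(A,B,C) = ∑_z f_A(z) f_B(z)` (and the same for `(A,A)`,
`(B,B)`). -/
theorem m6_sq_le {p : ℕ} [Fact p.Prime] (A B C : Finset (ZMod p)) (hA : (0 : ZMod p) ∉ A)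
    (hB : (0 : ZMod p) ∉ B) (hC : (0 : ZMod p) ∉ C) :
    (M6 A B C) ^ 2 ≤ M6 A A C * M6 B B C := by
  rw [m6_eq_sum A B C hA hB hC, m6_eq_sum A A C hA hA hC, m6_eq_sum B B C hB hB hC]
  simp only [← sq]
  exact Finset.sum_mul_sq_le_sq_mul_sq _ _ _

end Pool.Agent.H.MP_03bc95_nt
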