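import Pool.Agent.H.MP_03bc95_nt.P1

open Finset

namespace Pool.Agent.H.MP_03bc95_nt

/-- `E(λ)` is the sum over `y2` of the number of solutions for `ρ = λ (S + y2)`. -/
theorem e4_eq (p : ℕ) (S : ℤ) (h : ℕ) (l : ZMod p) :
    E4 p S h l = ∑ y ∈ Icc (1 : ℤ) h, (Sol p S h (l * ((S + y : ℤ) : ZMod p))).card := by
  classical
  unfold E4
  rw [Finset.card_eq_sum_card_fiberwise (f := fun z : ℤ × ℤ × ℤ × ℤ => z.2.2.2)
    (t := Icc (1 : ℤ) h)]
  · apply Finset.sum_congr rfl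
    intro y hy
    refine Finset.card_bij' (fun z _ => (z.1, z.2.1, z.2.2.1)) (fun z _ => (z.1, z.2.1, z.2.2, y))
      ?_ ?_ ?_ ?_
    · intro z hz
      simp only [Sol, Finset.mem_filter, Finset.mem_product] at hz ⊢
      obtain ⟨⟨⟨h1, h2, h3, h4⟩, h5⟩, h6⟩ := hz
      refine ⟨⟨h1, h2, h3⟩, ?_⟩
      rw [h5, h6]
      ring
    · intro z hz
      simp only [Sol, Finset.mem_filter, Finset.mem_product] at hz ⊢
      obtain ⟨⟨h1, h2, h3⟩, h5⟩ := hz
      refine ⟨⟨⟨h1, h2, h3, hy⟩, ?_⟩, trivial⟩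
      rw [h5]
      ring
    · intro z hz
      simp only [Finset.mem_filter, Finset.mem_product] at hz
      obtain ⟨_, h6⟩ := hz
      obtain ⟨z1, z2, z3, z4⟩ := z
      simp only at h6 ⊢
      rw [h6]
    · intro z hz
      rfl
  · intro z hz
    have hz' := Finset.mem_coe.mp hz
    simp only [Finset.mem_filter, Finset.mem_product] at hz'
    exact Finset.mem_coe.mpr hz'.1.2.2.2

/-- `r(λ) ≤ 1 + 2t`: `par2` with `s1 = s2 = h`, `D = 1`, `r = 1/(2t)`. Differences `(a,b)` of two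
pairs `(x,y)`, `(x',y')` satisfy `a = λ b`, so determinants vanish modulo `p` and are `≤ 2h^2 < p`.
Lower bound: from `S + x = λ (S + y)` and `a = λ b`: `b (S + x) = a (S + y)`, so
`(b - a) S + (b x - a y) = 0`; if `b = a` then `a = λ a` with `λ ≠ 1` gives `a = b = 0`; so `LBS` gives
`h/t ≤ |b-a| ≤ 2 max(|a|,|b|)` or `h^2/t ≤ |b x - a y| ≤ 2 h max(|a|,|b|)`. -/
theorem r2_le {p : ℕ} [Fact p.Prime] {S : ℤ} {h m : ℕ} (H : Hyp p S h m) (l : ZMod p)
    (hl : l ≠ 0) (hl1 : l ≠ 1) (t : ℝ) (ht : 1 ≤ t) (hL : LBS p S h (1 / t)) :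
    (R2 p S h l : ℝ) ≤ 2 * t + 1 := by
  classical
  have hh := H.hh
  have hp := H.hp
  have hh1 : (1 : ℤ) ≤ h := by exact_mod_cast hh
  have hhR : (1 : ℝ) ≤ h := by exact_mod_cast hh
  have hpz : 100000 * (h : ℤ) ^ 3 ≤ p := by exact_mod_cast hp
  have hh3 : (h : ℤ) ^ 2 ≤ (h : ℤ) ^ 3 := by
    have : (0 : ℤ) ≤ (h : ℤ) ^ 2 := by positivity
    nlinarith
  have hh2 : (h : ℤ) ≤ (h : ℤ) ^ 2 := by nlinarith
  have ht0 : 0 < t := by linarith
  unfold R2
  set F := ((Icc (1 : ℤ) h ×ˢ Icc (1 : ℤ) h).filter fun z =>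
    ((S + z.1 : ℤ) : ZMod p) = l * ((S + z.2 : ℤ) : ZMod p)) with hF
  have hmem : ∀ i ∈ F, (1 ≤ i.1 ∧ i.1 ≤ (h : ℤ)) ∧ (1 ≤ i.2 ∧ i.2 ≤ (h : ℤ)) ∧
      ((S + i.1 : ℤ) : ZMod p) = l * ((S + i.2 : ℤ) : ZMod p) := by
    intro i hi
    simp only [hF, Finset.mem_filter, Finset.mem_product, Finset.mem_Icc] at hi
    exact ⟨hi.1.1, hi.1.2, hi.2⟩
  have hdiff : ∀ i ∈ F, ∀ j ∈ F, ((i.1 - j.1 : ℤ) : ZMod p) = l * ((i.2 - j.2 : ℤ) : ZMod p) := by
    intro i hi j hj
    have h1 := (hmem i hi).2.2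
    have h2 := (hmem j hj).2.2
    push_cast at h1 h2 ⊢
    linear_combination h1 - h2
  have key : (F.card : ℝ) ≤ 1 / (1 / (2 * t)) + 1 := by
    apply par2 F (fun z => z.1) (fun z => z.2) (h : ℝ) (h : ℝ) 1 (1 / (2 * t)) (by linarith)
      (by linarith) (by positivity) (by norm_num)
    · intro i hi j hj k hk q hq
      have h1 := hdiff i hi j hj
      have h2 := hdiff k hk q hq
      have hz : (((i.1 - j.1) * (k.2 - q.2) - (i.2 - j.2) * (k.1 - q.1) : ℤ) : ZMod p) = 0 := by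
        push_cast at h1 h2 ⊢
        linear_combination ((k.2 : ZMod p) - q.2) * h1 - ((i.2 : ZMod p) - j.2) * h2
      rw [ZMod.intCast_zmod_eq_zero_iff_dvd] at hz
      obtain ⟨⟨i1, i2⟩, ⟨i3, i4⟩, _⟩ := hmem i hi
      obtain ⟨⟨j1, j2⟩, ⟨j3, j4⟩, _⟩ := hmem j hj
      obtain ⟨⟨k1, k2⟩, ⟨k3, k4⟩, _⟩ := hmem k hk
      obtain ⟨⟨q1, q2⟩, ⟨q3, q4⟩, _⟩ := hmem q hq
      have e1 : |(i.1 - j.1) * (k.2 - q.2)| ≤ (h : ℤ) ^ 2 := by
        rw [abs_mul, pow_two]
        apply mul_le_mul _ _ (abs_nonneg _) (by linarith)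
        · rw [abs_le]; constructor <;> linarith
        · rw [abs_le]; constructor <;> linarith
      have e2 : |(i.2 - j.2) * (k.1 - q.1)| ≤ (h : ℤ) ^ 2 := by
        rw [abs_mul, pow_two]
        apply mul_le_mul _ _ (abs_nonneg _) (by linarith)
        · rw [abs_le]; constructor <;> linarith
        · rw [abs_le]; constructor <;> linarith
      have e3 : |(i.1 - j.1) * (k.2 - q.2) - (i.2 - j.2) * (k.1 - q.1)| < p := by
        calc |(i.1 - j.1) * (k.2 - q.2) - (i.2 - j.2) * (k.1 - q.1)|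
            ≤ |(i.1 - j.1) * (k.2 - q.2)| + |(i.2 - j.2) * (k.1 - q.1)| := abs_sub _ _
          _ ≤ (h : ℤ) ^ 2 + (h : ℤ) ^ 2 := add_le_add e1 e2
          _ < p := by nlinarith
      have := Int.eq_zero_of_abs_lt_dvd hz e3
      show (i.1 - j.1) * (k.2 - q.2) = (i.2 - j.2) * (k.1 - q.1)
      linarith
    · intro i hi j hj hij
      show 1 / (2 * t) * (h : ℝ) ≤ |((i.1 - j.1 : ℤ) : ℝ)| ∨
        1 / (2 * t) * (h : ℝ) ≤ |((i.2 - j.2 : ℤ) : ℝ)|
      have h1 := hdiff i hi j hj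
      obtain ⟨⟨i1, i2⟩, ⟨i3, i4⟩, i5⟩ := hmem i hi
      obtain ⟨⟨j1, j2⟩, ⟨j3, j4⟩, j5⟩ := hmem j hj
      set a : ℤ := i.1 - j.1 with ha
      set b : ℤ := i.2 - j.2 with hb
      have hne : ¬ (b - a = 0 ∧ b * i.1 - a * i.2 = 0) := by
        rintro ⟨hba, _⟩
        have hab : b = a := by linarith
        rw [hab] at h1
        have h3 : (1 - l) * ((a : ℤ) : ZMod p) = 0 := by linear_combination h1
        have h4 : ((a : ℤ) : ZMod p) = 0 := by
          rcases mul_eq_zero.mp h3 with h5 | h5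
          · exact absurd (sub_eq_zero.mp h5).symm hl1
          · exact h5
        rw [ZMod.intCast_zmod_eq_zero_iff_dvd] at h4
        have h5 : |a| < p := by
          rw [abs_lt]; constructor <;> nlinarith
        have h6 := Int.eq_zero_of_abs_lt_dvd h4 h5
        apply hij
        apply Prod.ext
        · linarith
        · linarith
      have heq : (((b - a) * S + (b * i.1 - a * i.2) : ℤ) : ZMod p) = 0 := by
        push_cast at h1 i5 ⊢
        linear_combination (b : ZMod p) * i5 - ((S : ZMod p) + i.2) * h1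
      have hcase := hL (b - a) (b * i.1 - a * i.2) hne heq
      have hA : |(a : ℝ)| = |((a : ℤ) : ℝ)| := rfl
      have hsum : (h : ℝ) / t ≤ |(a : ℝ)| + |(b : ℝ)| := by
        rcases hcase with hc | hc
        · have : |((b - a : ℤ) : ℝ)| ≤ |(a : ℝ)| + |(b : ℝ)| := by
            push_cast
            have := abs_sub (b : ℝ) (a : ℝ)
            linarith
          calc (h : ℝ) / t = 1 / t * h := by ring
            _ ≤ _ := hc
            _ ≤ _ := this
        · have hi1 : |(i.1 : ℝ)| ≤ h := by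
            rw [abs_le]
            constructor
            · have : (1 : ℝ) ≤ i.1 := by exact_mod_cast i1
              linarith
            · exact_mod_cast i2
          have hi2 : |(i.2 : ℝ)| ≤ h := by
            rw [abs_le]
            constructor
            · have : (1 : ℝ) ≤ i.2 := by exact_mod_cast i3
              linarith
            · exact_mod_cast i4
          have : |((b * i.1 - a * i.2 : ℤ) : ℝ)| ≤ (|(a : ℝ)| + |(b : ℝ)|) * h := by
            push_cast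
            calc |(b : ℝ) * i.1 - a * i.2| ≤ |(b : ℝ) * i.1| + |(a : ℝ) * i.2| := abs_sub _ _
              _ = |(b : ℝ)| * |(i.1 : ℝ)| + |(a : ℝ)| * |(i.2 : ℝ)| := by rw [abs_mul, abs_mul]
              _ ≤ |(b : ℝ)| * h + |(a : ℝ)| * h :=
                add_le_add (mul_le_mul_of_nonneg_left hi1 (abs_nonneg _))
                  (mul_le_mul_of_nonneg_left hi2 (abs_nonneg _))
              _ = _ := by ring
          have h7 : (h : ℝ) / t * h ≤ (|(a : ℝ)| + |(b : ℝ)|) * h := by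
            calc (h : ℝ) / t * h = 1 / t * (h : ℝ) ^ 2 := by ring
              _ ≤ _ := hc
              _ ≤ _ := this
          exact le_of_mul_le_mul_right h7 (by linarith)
      have e : 1 / (2 * t) * (h : ℝ) = (h : ℝ) / t / 2 := by
        field_simp
      rw [e]
      by_contra hcon
      push Not at hcon
      obtain ⟨c1, c2⟩ := hcon
      linarith
    · intro i hi j hj
      obtain ⟨⟨i1, i2⟩, ⟨i3, i4⟩, i5⟩ := hmem i hi
      obtain ⟨⟨j1, j2⟩, ⟨j3, j4⟩, j5⟩ := hmem j hj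
      constructor
      · have : |i.1 - j.1| ≤ (h : ℤ) := by rw [abs_le]; constructor <;> linarith
        have h2 : ((|i.1 - j.1| : ℤ) : ℝ) ≤ ((h : ℤ) : ℝ) := by exact_mod_cast this
        rw [Int.cast_abs] at h2
        simpa using h2
      · have : |i.2 - j.2| ≤ (h : ℤ) := by rw [abs_le]; constructor <;> linarith
        have h2 : ((|i.2 - j.2| : ℤ) : ℝ) ≤ ((h : ℤ) : ℝ) := by exact_mod_cast this
        rw [Int.cast_abs] at h2
        simpa using h2
  have e2 : (1 : ℝ) / (1 / (2 * t)) = 2 * t := by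
    rw [one_div_one_div]
  rw [e2] at key
  exact key

/-- Sum of the trivial solutions: `Triv ρ` has at most `2 h #{c : S + c = ρ}` elements. -/
theorem triv_sum (p : ℕ) (S : ℤ) (h : ℕ) (l : ZMod p) :
    ∑ y ∈ Icc (1 : ℤ) h, (Triv p S h (l * ((S + y : ℤ) : ZMod p))).card ≤ 2 * h * R2 p S h l := by
  classical
  have hcardI : (Icc (1 : ℤ) h).card = h := by simp
  have h1 : ∀ ρ : ZMod p, (Triv p S h ρ).card ≤
      2 * h * ((Icc (1 : ℤ) h).filter fun c => ((S + c : ℤ) : ZMod p) = ρ).card := by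
    intro ρ
    set G := (Icc (1 : ℤ) h).filter fun c => ((S + c : ℤ) : ZMod p) = ρ with hG
    have hsub : Triv p S h ρ ⊆ ((Icc (1 : ℤ) h ×ˢ G).image fun z => (z.1, z.2, z.1)) ∪
        ((Icc (1 : ℤ) h ×ˢ G).image fun z => (z.2, z.1, z.1)) := by
      intro z hz
      simp only [Triv, Finset.mem_filter, Finset.mem_product] at hz
      obtain ⟨⟨hz1, hz2, hz3⟩, hz4⟩ := hz
      obtain ⟨b, c, g⟩ := z
      simp only at hz1 hz2 hz3 hz4
      rw [Finset.mem_union]
      rcases hz4 with ⟨hg, hc⟩ | ⟨hg, hc⟩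
      · left
        rw [Finset.mem_image]
        refine ⟨(b, c), ?_, ?_⟩
        · rw [Finset.mem_product, hG, Finset.mem_filter]
          exact ⟨hz1, hz2, hc⟩
        · rw [hg]
      · right
        rw [Finset.mem_image]
        refine ⟨(c, b), ?_, ?_⟩
        · rw [Finset.mem_product, hG, Finset.mem_filter]
          exact ⟨hz2, hz1, hc⟩
        · rw [hg]
    calc (Triv p S h ρ).card ≤ _ := Finset.card_le_card hsub
      _ ≤ ((Icc (1 : ℤ) h ×ˢ G).image fun z => (z.1, z.2, z.1)).card +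
          ((Icc (1 : ℤ) h ×ˢ G).image fun z => (z.2, z.1, z.1)).card := Finset.card_union_le _ _
      _ ≤ (Icc (1 : ℤ) h ×ˢ G).card + (Icc (1 : ℤ) h ×ˢ G).card :=
          add_le_add Finset.card_image_le Finset.card_image_le
      _ = 2 * h * G.card := by rw [Finset.card_product, hcardI]; ring
  have h2 : R2 p S h l = ∑ y ∈ Icc (1 : ℤ) h,
      ((Icc (1 : ℤ) h).filter fun c => ((S + c : ℤ) : ZMod p) = l * ((S + y : ℤ) : ZMod p)).card := by
    unfold R2
    rw [Finset.card_eq_sum_card_fiberwise (f := fun z : ℤ × ℤ => z.2) (t := Icc (1 : ℤ) h)]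
    · apply Finset.sum_congr rfl
      intro y hy
      refine Finset.card_bij' (fun z _ => z.1) (fun z _ => (z, y)) ?_ ?_ ?_ ?_
      · intro z hz
        simp only [Finset.mem_filter, Finset.mem_product] at hz ⊢
        obtain ⟨⟨⟨h1, h2⟩, h3⟩, h4⟩ := hz
        exact ⟨h1, by rw [h3, h4]⟩
      · intro z hz
        simp only [Finset.mem_filter, Finset.mem_product] at hz ⊢
        exact ⟨⟨⟨hz.1, hy⟩, hz.2⟩, trivial⟩
      · intro z hz
        simp only [Finset.mem_filter, Finset.mem_product] at hz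
        obtain ⟨_, h4⟩ := hz
        obtain ⟨z1, z2⟩ := z
        simp only at h4 ⊢
        rw [h4]
      · intro z hz
        rfl
    · intro z hz
      have hz' := Finset.mem_coe.mp hz
      simp only [Finset.mem_filter, Finset.mem_product] at hz'
      exact Finset.mem_coe.mpr hz'.1.2
  rw [h2, Finset.mul_sum]
  exact Finset.sum_le_sum fun y _ => h1 _

/-- `LBR` always holds with `κ = 1/h`: for `(a,b) ≠ 0`, `a = ρ b`: `|b| ≥ 1`, or `b = 0` and
`p | a ≠ 0`, `|a| ≥ p ≥ h`. -/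
theorem lbr_one_div {p : ℕ} [Fact p.Prime] {S : ℤ} {h m : ℕ} (H : Hyp p S h m) (ρ : ZMod p) :
    LBR p h ρ (1 / (h : ℝ)) := by
  have hh := H.hh
  have hp := H.hp
  have hhR : (1 : ℝ) ≤ h := by exact_mod_cast hh
  intro a b hab he
  by_cases hb : b = 0
  · left
    subst hb
    have ha : a ≠ 0 := fun h0 => hab ⟨h0, rfl⟩
    rw [Int.cast_zero, mul_zero, ZMod.intCast_zmod_eq_zero_iff_dvd] at he
    have h1 : (p : ℤ) ≤ |a| := Int.le_of_dvd (abs_pos.mpr ha) ((dvd_abs _ _).mpr he)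
    have h2 : (h : ℤ) ≤ p := by
      have hpz : 100000 * (h : ℤ) ^ 3 ≤ p := by exact_mod_cast hp
      have hh1 : (1 : ℤ) ≤ h := by exact_mod_cast hh
      have hh2 : (h : ℤ) ≤ (h : ℤ) ^ 2 := by nlinarith
      have hh3 : (h : ℤ) ^ 2 ≤ (h : ℤ) ^ 3 := by
        have : (0 : ℤ) ≤ (h : ℤ) ^ 2 := by positivity
        nlinarith
      nlinarith
    have h3 : ((h : ℤ) : ℝ) ≤ ((|a| : ℤ) : ℝ) := by exact_mod_cast le_trans h2 h1
    rw [Int.cast_abs] at h3
    have e : 1 / (h : ℝ) * (h : ℝ) ^ 2 = h := by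
      field_simp
    rw [e]
    simpa using h3
  · right
    have h1 : (1 : ℤ) ≤ |b| := Int.one_le_abs hb
    have h3 : ((1 : ℤ) : ℝ) ≤ ((|b| : ℤ) : ℝ) := by exact_mod_cast h1
    rw [Int.cast_abs] at h3
    have e : 1 / (h : ℝ) * (h : ℝ) = 1 := by
      field_simp
    rw [e]
    simpa using h3

end Pool.Agent.H.MP_03bc95_nt
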