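import Pool.Agent.H.MP_03bc95_nt.P1

open Finset

namespace Pool.Agent.H.MP_03bc95_nt

/-- Points of a set of integers, pairwise congruent modulo `g`: the extreme elements are at
distance at least `(k-1) g`. -/
lemma card_cong (G : Finset ℤ) (g : ℕ) (hg : 0 < g)
    (h1 : ∀ y ∈ G, ∀ y' ∈ G, (g : ℤ) ∣ y - y') (y0 y1 : ℤ)
    (h0 : ∀ y ∈ G, y0 ≤ y ∧ y ≤ y1) (h0m : y0 ∈ G) :
    ((G.card : ℤ) - 1) * g ≤ y1 - y0 := by
  have hg' : (0 : ℤ) < g := by exact_mod_cast hg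
  have hle : y0 ≤ y1 := (h0 y0 h0m).2
  have hq : 0 ≤ (y1 - y0) / (g : ℤ) := Int.ediv_nonneg (by linarith) hg'.le
  have hsub : G ⊆ (Finset.range (((y1 - y0) / (g : ℤ) + 1).toNat)).image
      (fun j : ℕ => y0 + (g : ℤ) * j) := by
    intro y hy
    obtain ⟨c, hc⟩ := h1 y hy y0 h0m
    have hb := h0 y hy
    have hc0 : 0 ≤ c := by
      by_contra hneg
      push Not at hneg
      nlinarith
    rw [Finset.mem_image]
    refine ⟨c.toNat, ?_, ?_⟩
    · rw [Finset.mem_range]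
      have h2 : c ≤ (y1 - y0) / (g : ℤ) := by
        rw [Int.le_ediv_iff_mul_le hg']
        nlinarith
      omega
    · have h3 : ((c.toNat : ℕ) : ℤ) = c := Int.toNat_of_nonneg hc0
      simp only [h3]
      linarith
  have hcard : G.card ≤ ((y1 - y0) / (g : ℤ) + 1).toNat := by
    calc G.card ≤ _ := Finset.card_le_card hsub
      _ ≤ _ := Finset.card_image_le
      _ = _ := Finset.card_range _
  have hcard' : (G.card : ℤ) - 1 ≤ (y1 - y0) / (g : ℤ) := by omega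
  calc ((G.card : ℤ) - 1) * g ≤ ((y1 - y0) / (g : ℤ)) * g := by
        exact mul_le_mul_of_nonneg_right hcard' hg'.le
    _ ≤ y1 - y0 := Int.ediv_mul_le _ hg'.ne'

/-- A nonzero integer of absolute value less than `p` is nonzero modulo `p`. -/
lemma cast_ne_zero_of_lt {p : ℕ} (n : ℤ) (hn : n ≠ 0) (hlt : |n| < (p : ℤ)) :
    (n : ZMod p) ≠ 0 := by
  intro h
  rw [ZMod.intCast_zmod_eq_zero_iff_dvd] at h
  exact hn (Int.eq_zero_of_abs_lt_dvd h hlt)

/-- Case of a plane: `a_y, b_y` nonzero integers, `|a_y| ≤ κ h^2`, `|b_y| ≤ κ h`,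
`a_y = λ (S+y) b_y`, and an integer vector `(N1,N2,N3)`, with no common divisor, such that
`b_y (N1 + N2 y) = - N3 a_y` on `F`, `|N3| ≤ 1000 h^6` (so at most `m` divisors). Then
`|F| ≤ m (1 + 3 κ h t)`.
Proof: assume `|F| ≥ 2`. `N3 ≠ 0` (otherwise `N1 + N2 y = 0` for two `y`, so `N1 = N2 = 0`, `N = 0`).
Modulo `p`: `N1 + N2 y = - N3 λ (S+y)` for `y ∈ F` (cancel `b_y`), two values of `y`
(`|y - y'| < p`) give `N2 = -N3 λ`, `N1 = -N3 λ S`, so `N2 S - N1 = 0`; `(N2, -N1) ≠ 0`, otherwise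
`N3 λ = 0`, `p | N3`, and `gcd = |N3| = 1` contradiction.
`g_y = gcd (N1 + N2 y, N3)`; `(N1 + N2 y)/g_y` divides `a_y ≠ 0`: `|N1 + N2 y| ≤ g_y κ h^2`.
Fix `g` (a divisor of `N3`, at most `m` of them) and `F_g`, `k = |F_g| ≥ 2`. `gcd (N2, g) = 1`, so
`g | y - y'` on `F_g`, and extreme elements satisfy `y' - y ≥ (k-1) g`; so
`|N2| (k-1) g ≤ 2 g κ h^2`, `|N2| ≤ 2κh^2/(k-1)`, and `g ≤ h/(k-1)`,
`|N1| ≤ g κ h^2 + |N2| h ≤ 3 κ h^3/(k-1)`. `LBS` with `(N2, -N1)` gives `k - 1 ≤ 3 κ h t`. -/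
theorem plane_case {p : ℕ} [Fact p.Prime] {S : ℤ} {h m : ℕ} (H : Hyp p S h m) (l : ZMod p)
    (hl : l ≠ 0) (t : ℝ) (ht : 1 ≤ t) (hL : LBS p S h (1 / t)) (κ : ℝ) (hκ : 0 < κ)
    (hκ1 : κ ≤ 1) (F : Finset ℤ) (hF : F ⊆ Icc (1 : ℤ) h) (a b : ℤ → ℤ)
    (hab : ∀ y ∈ F, a y ≠ 0 ∧ b y ≠ 0 ∧ |(a y : ℝ)| ≤ κ * (h : ℝ) ^ 2 ∧ |(b y : ℝ)| ≤ κ * h ∧
      (a y : ZMod p) = l * ((S + y : ℤ) : ZMod p) * (b y : ZMod p))
    (N1 N2 N3 : ℤ) (hgcd : ∀ d : ℤ, d ∣ N1 → d ∣ N2 → d ∣ N3 → d.natAbs = 1)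
    (hN3 : |N3| ≤ 1000 * (h : ℤ) ^ 6)
    (hpl : ∀ y ∈ F, b y * (N1 + N2 * y) + N3 * a y = 0) :
    (F.card : ℝ) ≤ m * (1 + 3 * κ * h * t) := by
  classical
  have hh1 : 1 ≤ h := H.hh
  have hh1Z : (1 : ℤ) ≤ h := by exact_mod_cast hh1
  have hh1R : (1 : ℝ) ≤ h := by exact_mod_cast hh1
  have hhp : (h : ℤ) < p := by
    have h1 : 100000 * h ^ 3 ≤ p := H.hp
    have h2 : h ≤ h ^ 3 := Nat.le_self_pow (by norm_num) h
    have : h < p := by omega
    exact_mod_cast this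
  have hm2 : 2 ≤ m := by
    have := H.hm 1 one_ne_zero (by
      have : (1 : ℤ) ≤ (h : ℤ) ^ 6 := one_le_pow₀ hh1Z
      simp only [abs_one]; linarith)
    simpa using this
  have hm1R : (1 : ℝ) ≤ m := by
    have : 1 ≤ m := by omega
    exact_mod_cast this
  have hterm : (0 : ℝ) ≤ 3 * κ * h * t := by positivity
  by_cases hc1 : F.card ≤ 1
  · calc (F.card : ℝ) ≤ 1 := by exact_mod_cast hc1
      _ = 1 * 1 := by ring
      _ ≤ m * (1 + 3 * κ * h * t) :=
        mul_le_mul hm1R (by linarith) (by norm_num) (by linarith)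
  push Not at hc1
  obtain ⟨y1, hy1, y2, hy2, hne⟩ := Finset.one_lt_card.mp hc1
  have hN3ne : N3 ≠ 0 := by
    intro h0
    have e1 : N1 + N2 * y1 = 0 := by
      have := hpl y1 hy1
      rw [h0, zero_mul, add_zero] at this
      exact (mul_eq_zero.mp this).resolve_left (hab y1 hy1).2.1
    have e2 : N1 + N2 * y2 = 0 := by
      have := hpl y2 hy2
      rw [h0, zero_mul, add_zero] at this
      exact (mul_eq_zero.mp this).resolve_left (hab y2 hy2).2.1
    have e3 : N2 * (y1 - y2) = 0 := by linear_combination e1 - e2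
    have e4 : N2 = 0 := (mul_eq_zero.mp e3).resolve_right (sub_ne_zero.mpr hne)
    have e5 : N1 = 0 := by rw [e4, zero_mul, add_zero] at e1; exact e1
    have := hgcd 0 (by rw [e5]) (by rw [e4]) (by rw [h0])
    simp at this
  have hmod : ∀ y ∈ F, ((N1 + N2 * y : ℤ) : ZMod p) =
      -((N3 : ZMod p) * l * ((S + y : ℤ) : ZMod p)) := by
    intro y hy
    obtain ⟨-, hb0, -, hb1, hay⟩ := hab y hy
    have hbp : (b y : ZMod p) ≠ 0 := by
      apply cast_ne_zero_of_lt _ hb0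
      have h1 : |(b y : ℝ)| ≤ h := hb1.trans (by nlinarith)
      have h2 : |b y| ≤ (h : ℤ) := by exact_mod_cast h1
      linarith
    have h1 := hpl y hy
    have h2 : ((b y * (N1 + N2 * y) + N3 * a y : ℤ) : ZMod p) = 0 := by rw [h1]; simp
    push_cast at h2 hay ⊢
    rw [hay] at h2
    apply mul_left_cancel₀ hbp
    linear_combination h2
  have hyy : ((y1 - y2 : ℤ) : ZMod p) ≠ 0 := by
    apply cast_ne_zero_of_lt _ (sub_ne_zero.mpr hne)
    have h1 := Finset.mem_Icc.mp (hF hy1)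
    have h2 := Finset.mem_Icc.mp (hF hy2)
    rw [abs_lt]
    constructor <;> linarith
  have hN2p : (N2 : ZMod p) = -((N3 : ZMod p) * l) := by
    have e1 := hmod y1 hy1
    have e2 := hmod y2 hy2
    push_cast at e1 e2 hyy
    apply mul_right_cancel₀ hyy
    linear_combination e1 - e2
  have hN1p : (N1 : ZMod p) = -((N3 : ZMod p) * l * (S : ZMod p)) := by
    have e1 := hmod y1 hy1
    push_cast at e1
    linear_combination e1 - (y1 : ZMod p) * hN2p
  have hNS : ((N2 * S + (-N1) : ℤ) : ZMod p) = 0 := by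
    push_cast
    rw [hN2p, hN1p]
    ring
  have hNne : ¬ (N2 = 0 ∧ -N1 = 0) := by
    rintro ⟨h1, h2⟩
    have h3 : N1 = 0 := by linarith
    have := hpl y1 hy1
    rw [h1, h3] at this
    simp only [zero_mul, add_zero, mul_zero, zero_add] at this
    exact (mul_ne_zero hN3ne (hab y1 hy1).1) this
  have hLL := hL N2 (-N1) hNne hNS
  -- the gcd bound
  have hgb : ∀ y ∈ F, |((N1 + N2 * y : ℤ) : ℝ)| ≤
      (Int.gcd (N1 + N2 * y) N3 : ℝ) * (κ * (h : ℝ) ^ 2) := by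
    intro y hy
    obtain ⟨ha0, hb0, ha1, hb1, hay⟩ := hab y hy
    have hgpos : 0 < Int.gcd (N1 + N2 * y) N3 := Int.gcd_pos_of_ne_zero_right _ hN3ne
    obtain ⟨u, w, hcop, hu, hw⟩ := Int.exists_gcd_one hgpos
    set g : ℕ := Int.gcd (N1 + N2 * y) N3 with hgdef
    have hgZ : (g : ℤ) ≠ 0 := by exact_mod_cast hgpos.ne'
    have e1 := hpl y hy
    rw [hu, hw] at e1
    have e2 : b y * u + w * a y = 0 := by
      apply mul_right_cancel₀ hgZ
      rw [zero_mul]
      linear_combination e1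
    have hdvd : u ∣ w * a y := ⟨-b y, by linear_combination e2⟩
    have hdvd2 : u ∣ a y := (Int.isCoprime_iff_gcd_eq_one.mpr hcop).dvd_of_dvd_mul_left hdvd
    have hule : |u| ≤ |a y| := by
      have := Int.le_of_dvd (abs_pos.mpr ha0) ((abs_dvd_abs u (a y)).mpr hdvd2)
      exact this
    have huleR : |(u : ℝ)| ≤ |(a y : ℝ)| := by exact_mod_cast hule
    rw [hu]
    push_cast
    rw [abs_mul, Nat.abs_cast, mul_comm]
    exact mul_le_mul_of_nonneg_left (huleR.trans ha1) (Nat.cast_nonneg _)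
  -- the fibres
  have hfib : ∀ g ∈ N3.natAbs.divisors,
      ((F.filter (fun y => Int.gcd (N1 + N2 * y) N3 = g)).card : ℝ) ≤ 1 + 3 * κ * h * t := by
    intro g hg
    set G := F.filter (fun y => Int.gcd (N1 + N2 * y) N3 = g) with hG
    by_cases hGc : G.card ≤ 1
    · have : (G.card : ℝ) ≤ 1 := by exact_mod_cast hGc
      linarith
    push Not at hGc
    have hGne : G.Nonempty := Finset.card_pos.mp (by omega)
    have hgpos : 0 < g := Nat.pos_of_mem_divisors hg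
    have hmemG : ∀ y ∈ G, y ∈ F ∧ Int.gcd (N1 + N2 * y) N3 = g := by
      intro y hy
      exact Finset.mem_filter.mp hy
    have hcop : IsCoprime (g : ℤ) N2 := by
      rw [Int.isCoprime_iff_gcd_eq_one]
      obtain ⟨y, hy⟩ := hGne
      obtain ⟨hyF, hgy⟩ := hmemG y hy
      have d1 : ((Int.gcd (g : ℤ) N2 : ℕ) : ℤ) ∣ (g : ℤ) := Int.gcd_dvd_left _ _
      have d2 : ((Int.gcd (g : ℤ) N2 : ℕ) : ℤ) ∣ N2 := Int.gcd_dvd_right _ _
      have d3 : (g : ℤ) ∣ N1 + N2 * y := by rw [← hgy]; exact Int.gcd_dvd_left _ _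
      have d4 : (g : ℤ) ∣ N3 := by rw [← hgy]; exact Int.gcd_dvd_right _ _
      have d5 : ((Int.gcd (g : ℤ) N2 : ℕ) : ℤ) ∣ N1 := by
        have := d1.trans d3
        exact (dvd_add_left (d2.mul_right y)).mp this
      have := hgcd _ d5 d2 (d1.trans d4)
      simpa using this
    have hcong : ∀ y ∈ G, ∀ y' ∈ G, (g : ℤ) ∣ y - y' := by
      intro y hy y' hy'
      obtain ⟨-, h1⟩ := hmemG y hy
      obtain ⟨-, h2⟩ := hmemG y' hy'
      have d1 : (g : ℤ) ∣ N1 + N2 * y := by rw [← h1]; exact Int.gcd_dvd_left _ _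
      have d2 : (g : ℤ) ∣ N1 + N2 * y' := by rw [← h2]; exact Int.gcd_dvd_left _ _
      have d3 : (g : ℤ) ∣ N2 * (y - y') := by
        have := dvd_sub d1 d2
        have e : N1 + N2 * y - (N1 + N2 * y') = N2 * (y - y') := by ring
        rwa [e] at this
      exact hcop.dvd_of_dvd_mul_left d3
    have hmin := G.min'_mem hGne
    have hmax := G.max'_mem hGne
    have hext := card_cong G g hgpos hcong (G.min' hGne) (G.max' hGne)
      (fun y hy => ⟨G.min'_le y hy, G.le_max' y hy⟩) hmin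
    set ym := G.min' hGne with hym
    set yM := G.max' hGne with hyM
    obtain ⟨hmF, hmg⟩ := hmemG ym hmin
    obtain ⟨hMF, hMg⟩ := hmemG yM hmax
    have b1 := Finset.mem_Icc.mp (hF hmF)
    have b2 := Finset.mem_Icc.mp (hF hMF)
    have hgbm := hgb ym hmF
    have hgbM := hgb yM hMF
    rw [hmg] at hgbm
    rw [hMg] at hgbM
    -- real numbers
    set k : ℝ := (G.card : ℝ) - 1 with hk
    have hkpos : 0 < k := by
      have : (2 : ℝ) ≤ G.card := by exact_mod_cast hGc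
      rw [hk]; linarith
    have hgR : (0 : ℝ) < g := by exact_mod_cast hgpos
    have hextR : k * g ≤ (yM : ℝ) - ym := by
      rw [hk]; exact_mod_cast hext
    have hymR : (1 : ℝ) ≤ ym := by exact_mod_cast b1.1
    have hyMR : (yM : ℝ) ≤ h := by exact_mod_cast b2.2
    have hym0 : (ym : ℝ) ≤ h := by exact_mod_cast b1.2
    have hkg : k * g ≤ h := by linarith
    have hN2b : |(N2 : ℝ)| * k ≤ 2 * (κ * (h : ℝ) ^ 2) := by
      have e1 : (N2 : ℝ) * ((yM : ℝ) - ym) =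
          ((N1 + N2 * yM : ℤ) : ℝ) - ((N1 + N2 * ym : ℤ) : ℝ) := by
        push_cast; ring
      have e2 : |(N2 : ℝ) * ((yM : ℝ) - ym)| ≤ 2 * ((g : ℝ) * (κ * (h : ℝ) ^ 2)) := by
        rw [e1]
        refine (abs_sub _ _).trans ?_
        linarith
      rw [abs_mul] at e2
      have e3 : k * g ≤ |(yM : ℝ) - ym| := hextR.trans (le_abs_self _)
      have e4 : |(N2 : ℝ)| * (k * g) ≤ |(N2 : ℝ)| * |(yM : ℝ) - ym| :=
        mul_le_mul_of_nonneg_left e3 (abs_nonneg _)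
      have e5 : (|(N2 : ℝ)| * k) * g ≤ (2 * (κ * (h : ℝ) ^ 2)) * g := by
        calc (|(N2 : ℝ)| * k) * g = |(N2 : ℝ)| * (k * g) := by ring
          _ ≤ _ := e4.trans e2
          _ = _ := by ring
      exact le_of_mul_le_mul_right e5 hgR
    have hN1b : |(N1 : ℝ)| * k ≤ 3 * κ * (h : ℝ) ^ 3 := by
      have e1 : (N1 : ℝ) = ((N1 + N2 * ym : ℤ) : ℝ) - (N2 : ℝ) * ym := by push_cast; ring
      have e2 : |(N1 : ℝ)| ≤ (g : ℝ) * (κ * (h : ℝ) ^ 2) + |(N2 : ℝ)| * h := by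
        rw [e1]
        refine (abs_sub _ _).trans ?_
        rw [abs_mul]
        have : |(ym : ℝ)| ≤ h := by rw [abs_of_nonneg (by linarith)]; exact hym0
        have := mul_le_mul_of_nonneg_left this (abs_nonneg (N2 : ℝ))
        linarith
      calc |(N1 : ℝ)| * k ≤ ((g : ℝ) * (κ * (h : ℝ) ^ 2) + |(N2 : ℝ)| * h) * k :=
            mul_le_mul_of_nonneg_right e2 hkpos.le
        _ = (k * g) * (κ * (h : ℝ) ^ 2) + (|(N2 : ℝ)| * k) * h := by ring
        _ ≤ h * (κ * (h : ℝ) ^ 2) + (2 * (κ * (h : ℝ) ^ 2)) * h := by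
            apply add_le_add
            · exact mul_le_mul_of_nonneg_right hkg (by positivity)
            · exact mul_le_mul_of_nonneg_right hN2b (by positivity)
        _ = 3 * κ * (h : ℝ) ^ 3 := by ring
    have htpos : (0 : ℝ) < t := by linarith
    have hhpos : (0 : ℝ) < h := by linarith
    have hfin : k ≤ 3 * κ * h * t := by
      rcases hLL with h1 | h1
      · -- `h / t ≤ |N2|`
        have e1 : (h : ℝ) ≤ |(N2 : ℝ)| * t := by
          have := mul_le_mul_of_nonneg_right h1 htpos.le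
          have e : 1 / t * (h : ℝ) * t = h := by field_simp
          rwa [e] at this
        have e2 : (h : ℝ) * k ≤ h * (2 * κ * h * t) := by
          calc (h : ℝ) * k ≤ (|(N2 : ℝ)| * t) * k := mul_le_mul_of_nonneg_right e1 hkpos.le
            _ = (|(N2 : ℝ)| * k) * t := by ring
            _ ≤ (2 * (κ * (h : ℝ) ^ 2)) * t := mul_le_mul_of_nonneg_right hN2b htpos.le
            _ = h * (2 * κ * h * t) := by ring
        have e3 := le_of_mul_le_mul_left e2 hhpos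
        have : (0 : ℝ) ≤ κ * h * t := by positivity
        linarith
      · have h1' : 1 / t * (h : ℝ) ^ 2 ≤ |(N1 : ℝ)| := by
          have e : |((-N1 : ℤ) : ℝ)| = |(N1 : ℝ)| := by push_cast; rw [abs_neg]
          rwa [e] at h1
        have e1 : (h : ℝ) ^ 2 ≤ |(N1 : ℝ)| * t := by
          have := mul_le_mul_of_nonneg_right h1' htpos.le
          have e : 1 / t * (h : ℝ) ^ 2 * t = (h : ℝ) ^ 2 := by field_simp
          rwa [e] at this
        have e2 : (h : ℝ) ^ 2 * k ≤ (h : ℝ) ^ 2 * (3 * κ * h * t) := by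
          calc (h : ℝ) ^ 2 * k ≤ (|(N1 : ℝ)| * t) * k := mul_le_mul_of_nonneg_right e1 hkpos.le
            _ = (|(N1 : ℝ)| * k) * t := by ring
            _ ≤ (3 * κ * (h : ℝ) ^ 3) * t := mul_le_mul_of_nonneg_right hN1b htpos.le
            _ = (h : ℝ) ^ 2 * (3 * κ * h * t) := by ring
        exact le_of_mul_le_mul_left e2 (by positivity)
    rw [hk] at hfin
    linarith
  have hmaps : ∀ y ∈ F, Int.gcd (N1 + N2 * y) N3 ∈ N3.natAbs.divisors := by
    intro y hy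
    rw [Nat.mem_divisors]
    refine ⟨?_, by simpa using hN3ne⟩
    exact Int.natCast_dvd.mp (Int.gcd_dvd_right _ _)
  have hsum : F.card = ∑ g ∈ N3.natAbs.divisors,
      (F.filter (fun y => Int.gcd (N1 + N2 * y) N3 = g)).card :=
    Finset.card_eq_sum_card_fiberwise hmaps
  have hdiv : (N3.natAbs.divisors.card : ℝ) ≤ m := by
    have := H.hm N3 hN3ne hN3
    have : N3.natAbs.divisors.card ≤ m := by omega
    exact_mod_cast this
  rw [hsum]
  push_cast
  calc ∑ g ∈ N3.natAbs.divisors,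
      ((F.filter (fun y => Int.gcd (N1 + N2 * y) N3 = g)).card : ℝ)
      ≤ ∑ g ∈ N3.natAbs.divisors, (1 + 3 * κ * h * t) := Finset.sum_le_sum hfib
    _ = N3.natAbs.divisors.card * (1 + 3 * κ * h * t) := by
        rw [Finset.sum_const, nsmul_eq_mul]
    _ ≤ m * (1 + 3 * κ * h * t) := mul_le_mul_of_nonneg_right hdiv (by linarith)

end Pool.Agent.H.MP_03bc95_nt
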