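import Pool.Agent.H.MP_03bc95_nt.P3
import Pool.Agent.H.MP_03bc95_nt.S6a

open Finset

namespace Pool.Agent.H.MP_03bc95_nt

/-- The set `G` of `y ∈ [1,h]` such that `λ (S+y)` does not satisfy the lower bound `κ`, i.e. there are
integers `(a,b) ≠ 0`, `a = λ (S+y) b`, `|a| < κ h^2`, `|b| < κ h`. -/
noncomputable def GSet (p : ℕ) (S : ℤ) (h : ℕ) (l : ZMod p) (κ : ℝ) : Finset ℤ := by
  classical
  exact (Icc (1 : ℤ) h).filter fun y => ¬ LBR p h (l * ((S + y : ℤ) : ZMod p)) κ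

/-- Divide an integer vector with nonzero last coordinate by its greatest common divisor. -/
lemma exists_primitive (n1 n2 n3 : ℤ) (h3 : n3 ≠ 0) :
    ∃ (d N1 N2 N3 : ℤ), 0 < d ∧ n1 = d * N1 ∧ n2 = d * N2 ∧ n3 = d * N3 ∧
      (∀ e : ℤ, e ∣ N1 → e ∣ N2 → e ∣ N3 → e.natAbs = 1) := by
  set d : ℕ := Int.gcd (Int.gcd n1 n2) n3 with hd
  have hdpos : 0 < d := Int.gcd_pos_of_ne_zero_right _ h3
  have hdZ : (d : ℤ) ≠ 0 := by exact_mod_cast hdpos.ne'
  have d0 : (d : ℤ) ∣ (Int.gcd n1 n2 : ℤ) := Int.gcd_dvd_left _ _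
  have d3 : (d : ℤ) ∣ n3 := Int.gcd_dvd_right _ _
  have d1 : (d : ℤ) ∣ n1 := d0.trans (Int.gcd_dvd_left _ _)
  have d2 : (d : ℤ) ∣ n2 := d0.trans (Int.gcd_dvd_right _ _)
  obtain ⟨N1, h1⟩ := d1
  obtain ⟨N2, h2⟩ := d2
  obtain ⟨N3, h3'⟩ := d3
  refine ⟨d, N1, N2, N3, by exact_mod_cast hdpos, h1, h2, h3', ?_⟩
  intro e e1 e2 e3
  have f1 : (d : ℤ) * e ∣ n1 := by rw [h1]; exact mul_dvd_mul_left _ e1
  have f2 : (d : ℤ) * e ∣ n2 := by rw [h2]; exact mul_dvd_mul_left _ e2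
  have f3 : (d : ℤ) * e ∣ n3 := by rw [h3']; exact mul_dvd_mul_left _ e3
  have f4 : (d : ℤ) * e ∣ (Int.gcd n1 n2 : ℤ) := Int.dvd_coe_gcd f1 f2
  have f5 : (d : ℤ) * e ∣ (d : ℤ) := Int.dvd_coe_gcd f4 f3
  have f6 : e ∣ 1 := by
    have : (d : ℤ) * e ∣ (d : ℤ) * 1 := by rwa [mul_one]
    exact (mul_dvd_mul_iff_left hdZ).mp this
  exact Int.natAbs_eq_iff.mpr (by
    rcases Int.isUnit_iff.mp (isUnit_of_dvd_one f6) with h | h
    · left; simpa using h
    · right; simpa using h)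

/-- Lemma 6. For `y ∈ G` choose `(a_y, b_y)`; both are nonzero (sizes `< p`, `λ (S+y) ≠ 0`).
`v_y = (b_y, b_y y, a_y)`: these satisfy `λ S b + λ c - a = 0`; `y ↦ v_y` injective.
If three `v_y` have `det3 ≠ 0`: `pack3` with `s = κ (h, h^2, h^2)` (for the `Finset` of all
the `v_y`), `8 κ h + 1 ≤ 9 κ h` because `κ h ≥ |b_y| ≥ 1`; so `p |G| ≤ 729 κ^3 h^5`, `|G| ≤ κ^3 h^2`.
Otherwise `exists_normal`; more precisely if `|G| ≥ 2` take `N = v_y × v_y'` for two different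
`y, y'` (they are not parallel), divide by the gcd; `|N3| ≤ 2 h^4`; `plane_case`. -/
theorem lemma6 {p : ℕ} [Fact p.Prime] {S : ℤ} {h m : ℕ} (H : Hyp p S h m) (l : ZMod p)
    (hl : l ≠ 0) (t : ℝ) (ht : 1 ≤ t) (hL : LBS p S h (1 / t)) (κ : ℝ) (hκ : 0 < κ)
    (hκ1 : κ ≤ 1) :
    ((GSet p S h l κ).card : ℝ) ≤ 1 + κ ^ 3 * (h : ℝ) ^ 2 + m * (1 + 3 * κ * h * t) := by
  classical
  have hh1 : 1 ≤ h := H.hh
  have hh1Z : (1 : ℤ) ≤ h := by exact_mod_cast hh1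
  have hh1R : (1 : ℝ) ≤ h := by exact_mod_cast hh1
  have hhp3 : (h : ℤ) ^ 3 < p := by
    have h1 : 100000 * h ^ 3 ≤ p := H.hp
    have h2 : 1 ≤ h ^ 3 := Nat.one_le_pow _ _ hh1
    have : h ^ 3 < p := by omega
    exact_mod_cast this
  have hh23 : (h : ℤ) ^ 2 ≤ (h : ℤ) ^ 3 := pow_le_pow_right₀ hh1Z (by norm_num)
  have hh13 : (h : ℤ) ≤ (h : ℤ) ^ 3 := le_self_pow₀ hh1Z (by norm_num)
  have hmem : ∀ y ∈ GSet p S h l κ, 1 ≤ y ∧ y ≤ (h : ℤ) ∧
      ¬ LBR p h (l * ((S + y : ℤ) : ZMod p)) κ := by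
    intro y hy
    unfold GSet at hy
    rw [Finset.mem_filter, Finset.mem_Icc] at hy
    exact ⟨hy.1.1, hy.1.2, hy.2⟩
  have hex : ∀ y : ℤ, ∃ ab : ℤ × ℤ, y ∈ GSet p S h l κ →
      ab.1 ≠ 0 ∧ ab.2 ≠ 0 ∧ |(ab.1 : ℝ)| ≤ κ * (h : ℝ) ^ 2 ∧ |(ab.2 : ℝ)| ≤ κ * h ∧
      (ab.1 : ZMod p) = l * ((S + y : ℤ) : ZMod p) * (ab.2 : ZMod p) := by
    intro y
    by_cases hy : y ∈ GSet p S h l κ
    · obtain ⟨hy1, hy2, hy3⟩ := hmem y hy
      unfold LBR at hy3
      push Not at hy3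
      obtain ⟨a, b, hne, hcong, ha, hb⟩ := hy3
      refine ⟨(a, b), fun _ => ?_⟩
      have haZ : |a| < (h : ℤ) ^ 2 := by
        have : |(a : ℝ)| < (h : ℝ) ^ 2 := ha.trans_le (by nlinarith [sq_nonneg (h : ℝ)])
        exact_mod_cast this
      have hbZ : |b| < (h : ℤ) := by
        have : |(b : ℝ)| < (h : ℝ) := hb.trans_le (by nlinarith)
        exact_mod_cast this
      have hρ : l * ((S + y : ℤ) : ZMod p) ≠ 0 := mul_ne_zero hl (H.hS y hy1 hy2)
      have hb0 : b ≠ 0 := by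
        intro h0
        have ha0 : a ≠ 0 := fun h => hne h h0
        apply cast_ne_zero_of_lt (p := p) a ha0 (by linarith)
        rw [hcong, h0]
        simp
      have ha0 : a ≠ 0 := by
        intro h0
        apply cast_ne_zero_of_lt (p := p) b hb0 (by linarith)
        rw [h0, Int.cast_zero] at hcong
        exact (mul_eq_zero.mp hcong.symm).resolve_left hρ
      exact ⟨ha0, hb0, ha.le, hb.le, hcong⟩
    · exact ⟨(0, 0), fun h => absurd h hy⟩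
  choose ab hab using hex
  set G := GSet p S h l κ with hG
  -- the vectors
  set v : ℤ → ℤ × ℤ × ℤ := fun y => ((ab y).2, (ab y).2 * y, (ab y).1) with hv
  have hinj : Set.InjOn v (G : Set ℤ) := by
    intro y hy y' hy' he
    have e1 : (ab y).2 = (ab y').2 := congrArg (fun z => z.1) he
    have e2 : (ab y).2 * y = (ab y').2 * y' := congrArg (fun z => z.2.1) he
    rw [← e1] at e2
    exact mul_left_cancel₀ (hab y hy).2.1 e2
  have hcardV : (G.image v).card = G.card := Finset.card_image_of_injOn hinj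
  have hm0R : (0 : ℝ) ≤ m := Nat.cast_nonneg m
  have hhpos : (0 : ℝ) < h := by linarith
  have htpos : (0 : ℝ) < t := by linarith
  have hterm1 : (0 : ℝ) ≤ κ ^ 3 * (h : ℝ) ^ 2 := by positivity
  have hterm2 : (0 : ℝ) ≤ m * (1 + 3 * κ * h * t) := by positivity
  by_cases hc1 : G.card ≤ 1
  · have : (G.card : ℝ) ≤ 1 := by exact_mod_cast hc1
    linarith
  push Not at hc1
  obtain ⟨y1, hy1, y2, hy2, hne⟩ := Finset.one_lt_card.mp hc1
  by_cases hdet : ∃ v1 ∈ G.image v, ∃ v2 ∈ G.image v, ∃ v3 ∈ G.image v, det3 v1 v2 v3 ≠ 0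
  · obtain ⟨v1, hv1, v2, hv2, v3, hv3, hdet⟩ := hdet
    have hneg : (-1 : ZMod p) ≠ 0 := neg_ne_zero.mpr one_ne_zero
    have hpk := pack3 (p := p) (l * (S : ZMod p)) l (-1) (Or.inr (Or.inr hneg)) (G.image v)
      (κ * h) (κ * (h : ℝ) ^ 2) (κ * (h : ℝ) ^ 2) (by
        intro f hf
        obtain ⟨y, hy, rfl⟩ := Finset.mem_image.mp hf
        obtain ⟨ha0, hb0, ha, hb, hcong⟩ := hab y hy
        obtain ⟨hy1, hy2, -⟩ := hmem y hy
        have hyR : |(y : ℝ)| ≤ h := by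
          have : |y| ≤ (h : ℤ) := by rw [abs_of_nonneg (by linarith)]; exact hy2
          exact_mod_cast this
        refine ⟨hb, ?_, ha, ?_⟩
        · simp only [hv]
          push_cast
          rw [abs_mul]
          calc |((ab y).2 : ℝ)| * |(y : ℝ)| ≤ (κ * h) * h :=
                mul_le_mul hb hyR (abs_nonneg _) (by positivity)
            _ = κ * (h : ℝ) ^ 2 := by ring
        · simp only [hv]
          push_cast at hcong ⊢
          rw [hcong]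
          ring) v1 v2 v3 hv1 hv2 hv3 hdet
    rw [hcardV] at hpk
    have hκh : 1 ≤ κ * h := by
      obtain ⟨-, hb0, -, hb, -⟩ := hab y1 hy1
      have : (1 : ℤ) ≤ |(ab y1).2| := Int.one_le_abs hb0
      have : (1 : ℝ) ≤ |((ab y1).2 : ℝ)| := by exact_mod_cast this
      linarith
    have hκh2 : 1 ≤ κ * (h : ℝ) ^ 2 := by
      have : κ * (h : ℝ) ≤ κ * (h : ℝ) ^ 2 := by
        apply mul_le_mul_of_nonneg_left _ hκ.le
        nlinarith
      linarith
    have hb1 : (8 * (κ * h) + 1) * (8 * (κ * (h : ℝ) ^ 2) + 1) * (8 * (κ * (h : ℝ) ^ 2) + 1)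
        ≤ 729 * κ ^ 3 * (h : ℝ) ^ 5 := by
      calc (8 * (κ * h) + 1) * (8 * (κ * (h : ℝ) ^ 2) + 1) * (8 * (κ * (h : ℝ) ^ 2) + 1)
          ≤ (9 * (κ * h)) * (9 * (κ * (h : ℝ) ^ 2)) * (9 * (κ * (h : ℝ) ^ 2)) := by
            gcongr <;> linarith
        _ = 729 * κ ^ 3 * (h : ℝ) ^ 5 := by ring
    have hpR : (100000 : ℝ) * (h : ℝ) ^ 3 ≤ p := by exact_mod_cast H.hp
    have hfin : (G.card : ℝ) ≤ κ ^ 3 * (h : ℝ) ^ 2 := by
      have e1 : (100000 * (h : ℝ) ^ 3) * G.card ≤ (100000 * (h : ℝ) ^ 3) *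
          (κ ^ 3 * (h : ℝ) ^ 2) := by
        calc (100000 * (h : ℝ) ^ 3) * G.card ≤ (p : ℝ) * G.card :=
              mul_le_mul_of_nonneg_right hpR (Nat.cast_nonneg _)
          _ ≤ _ := hpk
          _ ≤ 729 * κ ^ 3 * (h : ℝ) ^ 5 := hb1
          _ ≤ 100000 * κ ^ 3 * (h : ℝ) ^ 5 := by
              have : (0 : ℝ) ≤ κ ^ 3 * (h : ℝ) ^ 5 := by positivity
              nlinarith
          _ = _ := by ring
      exact le_of_mul_le_mul_left e1 (by positivity)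
    linarith
  · push Not at hdet
    -- the normal vector
    set b1 := (ab y1).2 with hb1
    set a1 := (ab y1).1 with ha1
    set b2 := (ab y2).2 with hb2
    set a2 := (ab y2).1 with ha2
    have H1 := hab y1 hy1
    have H2 := hab y2 hy2
    obtain ⟨hy1a, hy1b, -⟩ := hmem y1 hy1
    obtain ⟨hy2a, hy2b, -⟩ := hmem y2 hy2
    have hn3 : b1 * b2 * (y2 - y1) ≠ 0 :=
      mul_ne_zero (mul_ne_zero H1.2.1 H2.2.1) (sub_ne_zero.mpr hne.symm)
    obtain ⟨d, N1, N2, N3, hd, e1, e2, e3, hprim⟩ :=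
      exists_primitive (b1 * y1 * a2 - a1 * (b2 * y2)) (a1 * b2 - b1 * a2)
        (b1 * b2 * (y2 - y1)) hn3
    have hbb : ∀ y ∈ G, |(ab y).2| ≤ (h : ℤ) := by
      intro y hy
      obtain ⟨-, -, -, hb, -⟩ := hab y hy
      have : |((ab y).2 : ℝ)| ≤ h := hb.trans (by nlinarith)
      exact_mod_cast this
    have hN3 : |N3| ≤ 1000 * (h : ℤ) ^ 6 := by
      have f1 : |N3| ≤ |b1 * b2 * (y2 - y1)| := by
        rw [e3, abs_mul]
        have : 1 ≤ |d| := Int.one_le_abs hd.ne'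
        nlinarith [abs_nonneg N3]
      have f2 : |b1 * b2 * (y2 - y1)| ≤ (h : ℤ) * h * h := by
        rw [abs_mul, abs_mul]
        have g3 : |y2 - y1| ≤ (h : ℤ) := by
          rw [abs_le]; constructor <;> linarith
        exact mul_le_mul (mul_le_mul (hbb y1 hy1) (hbb y2 hy2) (abs_nonneg _) (by positivity))
          g3 (abs_nonneg _) (by positivity)
      have f3 : (h : ℤ) * h * h = (h : ℤ) ^ 3 := by ring
      have f4 : (h : ℤ) ^ 3 ≤ (h : ℤ) ^ 6 := pow_le_pow_right₀ hh1Z (by norm_num)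
      have f5 : (0 : ℤ) ≤ (h : ℤ) ^ 6 := by positivity
      linarith
    have hpl : ∀ y ∈ G, (ab y).2 * (N1 + N2 * y) + N3 * (ab y).1 = 0 := by
      intro y hy
      have f1 := hdet (v y1) (Finset.mem_image_of_mem v hy1) (v y2)
        (Finset.mem_image_of_mem v hy2) (v y) (Finset.mem_image_of_mem v hy)
      have f2 : d * ((ab y).2 * (N1 + N2 * y) + N3 * (ab y).1) = 0 := by
        have : d * ((ab y).2 * (N1 + N2 * y) + N3 * (ab y).1) =
            (ab y).2 * (d * N1 + (d * N2) * y) + (d * N3) * (ab y).1 := by ring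
        rw [this, ← e1, ← e2, ← e3]
        simp only [det3, hv] at f1
        linear_combination f1
      exact (mul_eq_zero.mp f2).resolve_left hd.ne'
    have hGsub : G ⊆ Icc (1 : ℤ) h := by
      intro y hy
      obtain ⟨g1, g2, -⟩ := hmem y hy
      exact Finset.mem_Icc.mpr ⟨g1, g2⟩
    have := plane_case H l hl t ht hL κ hκ hκ1 G hGsub (fun y => (ab y).1) (fun y => (ab y).2)
      hab N1 N2 N3 hprim hN3 hpl
    linarith

end Pool.Agent.H.MP_03bc95_nt
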