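import Pool.Agent.H.MP_03bc95_nt.Five
import Pool.Agent.H.MP_03bc95_nt.S6b
import Pool.Agent.H.MP_03bc95_nt.Ea

open Finset

namespace Pool.Agent.H.MP_03bc95_nt

theorem two_le_of_hyp {p : ℕ} {S : ℤ} {h m : ℕ} (H : Hyp p S h m) : 2 ≤ m := by
  have h1 : (1 : ℤ) ≤ h := by exact_mod_cast H.hh
  have h2 : (1 : ℤ) ≤ (h : ℤ) ^ 6 := one_le_pow₀ h1
  have := H.hm 1 one_ne_zero (by rw [abs_one]; linarith)
  simpa using this

/-- Contribution of a layer. -/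
theorem layer_le (t κ h m : ℝ) (ht : 1 ≤ t) (ht3 : t ^ 3 = h) (hκ0 : 0 < κ) (hκ : 1 / h ≤ κ)
    (hκ1 : κ ≤ 1 / t) (hm : 1 ≤ m) :
    (1 + κ ^ 3 * h ^ 2 + m * (1 + 3 * κ * h * t)) * (1500 * m * Real.sqrt (h / κ))
      ≤ 9000 * m ^ 2 * t ^ 5 := by
  subst ht3
  have ht0 : 0 < t := by linarith
  have h3 : 0 < t ^ 3 := by positivity
  obtain ⟨s, hs⟩ : ∃ s, s = Real.sqrt (t ^ 3 / κ) := ⟨_, rfl⟩
  rw [← hs]
  have hs0 : 0 ≤ s := by rw [hs]; exact Real.sqrt_nonneg _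
  have hs2 : κ * s ^ 2 = t ^ 3 := by
    rw [hs, Real.sq_sqrt (by positivity)]
    field_simp
  have hkt : κ * t ≤ 1 := by
    rw [le_div_iff₀ ht0] at hκ1
    exact hκ1
  have hkh : 1 ≤ κ * t ^ 3 := by
    rw [div_le_iff₀ h3] at hκ
    exact hκ
  have ht5 : t ^ 3 ≤ t ^ 5 := pow_le_pow_right₀ ht (by norm_num)
  have hst : s ≤ t ^ 3 := by
    apply le_of_sq_le_sq _ h3.le
    have : s ^ 2 * 1 ≤ s ^ 2 * (κ * t ^ 3) := mul_le_mul_of_nonneg_left hkh (sq_nonneg s)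
    calc s ^ 2 = s ^ 2 * 1 := by ring
      _ ≤ s ^ 2 * (κ * t ^ 3) := this
      _ = (κ * s ^ 2) * t ^ 3 := by ring
      _ = (t ^ 3) ^ 2 := by rw [hs2]; ring
  have hu : κ * t ^ 4 * s ≤ t ^ 5 := by
    apply le_of_sq_le_sq _ (by positivity)
    calc (κ * t ^ 4 * s) ^ 2 = κ * t ^ 8 * (κ * s ^ 2) := by ring
      _ = (κ * t) * t ^ 10 := by rw [hs2]; ring
      _ ≤ 1 * t ^ 10 := mul_le_mul_of_nonneg_right hkt (by positivity)
      _ = (t ^ 5) ^ 2 := by ring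
  have hv : κ ^ 3 * t ^ 6 * s ≤ t ^ 5 := by
    apply le_of_sq_le_sq _ (by positivity)
    have h5 : (κ * t) ^ 5 ≤ 1 := pow_le_one₀ (by positivity) hkt
    calc (κ ^ 3 * t ^ 6 * s) ^ 2 = κ ^ 5 * t ^ 12 * (κ * s ^ 2) := by ring
      _ = (κ * t) ^ 5 * t ^ 10 := by rw [hs2]; ring
      _ ≤ 1 * t ^ 10 := mul_le_mul_of_nonneg_right h5 (by positivity)
      _ = (t ^ 5) ^ 2 := by ring
  have e : (1 + κ ^ 3 * (t ^ 3) ^ 2 + m * (1 + 3 * κ * t ^ 3 * t)) * (1500 * m * s)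
      = 1500 * m * (s + κ ^ 3 * t ^ 6 * s + m * s + 3 * m * (κ * t ^ 4 * s)) := by ring
  rw [e]
  have hm0 : 0 < m := by linarith
  have hx : 0 < t ^ 5 := by positivity
  have h1 : s ≤ t ^ 5 := hst.trans ht5
  have h2 : m * s ≤ m * t ^ 5 := mul_le_mul_of_nonneg_left h1 hm0.le
  have h4 : m * (κ * t ^ 4 * s) ≤ m * t ^ 5 := mul_le_mul_of_nonneg_left hu hm0.le
  have h6 : t ^ 5 ≤ m * t ^ 5 := by nlinarith
  have h7 : s + κ ^ 3 * t ^ 6 * s + m * s + 3 * m * (κ * t ^ 4 * s) ≤ 6 * (m * t ^ 5) := by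
    linarith
  calc 1500 * m * (s + κ ^ 3 * t ^ 6 * s + m * s + 3 * m * (κ * t ^ 4 * s))
      ≤ 1500 * m * (6 * (m * t ^ 5)) := mul_le_mul_of_nonneg_left h7 (by positivity)
    _ = 9000 * m ^ 2 * t ^ 5 := by ring

/-- Bound for one `y`. -/
theorem sol_y_le {p : ℕ} [Fact p.Prime] {S : ℤ} {h m : ℕ} (H : Hyp p S h m) (l : ZMod p)
    (hl : l ≠ 0) (t : ℝ) (ht : 1 ≤ t) (ht3 : t ^ 3 = h) (hL : LBS p S h (1 / t))
    (y : ℤ) (hy : y ∈ Icc (1 : ℤ) h) :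
    ((Sol p S h (l * ((S + y : ℤ) : ZMod p))).card : ℝ) ≤ 1200 * m * t ^ 2
      + ∑ j ∈ range (Nat.log 2 h + 1),
          (if y ∈ GSet p S h l (1 / 2 ^ j / t) ∧ 1 / (h : ℝ) < 1 / 2 ^ j / t then
            1500 * m * Real.sqrt (h / (1 / 2 ^ j / t)) else 0)
      + (Triv p S h (l * ((S + y : ℤ) : ZMod p))).card := by
  classical
  have ht0 : 0 < t := by linarith
  have hh : (1 : ℝ) ≤ h := by exact_mod_cast H.hh
  have hh0 : (0 : ℝ) < h := by linarith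
  have hth : t ≤ h := by
    rw [← ht3]
    calc t = t ^ 1 := (pow_one t).symm
      _ ≤ t ^ 3 := pow_le_pow_right₀ ht (by norm_num)
  have hy' := Finset.mem_Icc.mp hy
  obtain ⟨ρ, hρdef⟩ : ∃ ρ, ρ = l * ((S + y : ℤ) : ZMod p) := ⟨_, rfl⟩
  have hρ : ρ ≠ 0 := by
    rw [hρdef]
    exact mul_ne_zero hl (H.hS y hy'.1 hy'.2)
  have hm0 : (0 : ℝ) ≤ m := Nat.cast_nonneg m
  have hsum0 : 0 ≤ ∑ j ∈ range (Nat.log 2 h + 1),
          (if y ∈ GSet p S h l (1 / 2 ^ j / t) ∧ 1 / (h : ℝ) < 1 / 2 ^ j / t then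
            1500 * m * Real.sqrt (h / (1 / 2 ^ j / t)) else 0) := by
    apply Finset.sum_nonneg
    intro j _
    split_ifs
    · positivity
    · exact le_refl _
  rw [← hρdef]
  let P : ℕ → Prop := fun j => LBR p h ρ (max (1 / 2 ^ j / t) (1 / (h : ℝ)))
  have hex : ∃ j, P j := by
    refine ⟨h, ?_⟩
    have hle : 1 / 2 ^ h / t ≤ 1 / (h : ℝ) := by
      rw [div_div]
      apply one_div_le_one_div_of_le hh0
      have h2 : (h : ℝ) < 2 ^ h := by exact_mod_cast Nat.lt_two_pow_self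
      have : (2 : ℝ) ^ h * 1 ≤ 2 ^ h * t := mul_le_mul_of_nonneg_left ht (by positivity)
      linarith
    change LBR p h ρ (max (1 / 2 ^ h / t) (1 / (h : ℝ)))
    rw [max_eq_right hle]
    exact lbr_one_div H ρ
  have hj : P (Nat.find hex) := Nat.find_spec hex
  rcases Nat.eq_zero_or_pos (Nat.find hex) with h0 | hpos
  · rw [h0] at hj
    have hle : 1 / (h : ℝ) ≤ 1 / t := one_div_le_one_div_of_le ht0 hth
    have hj' : LBR p h ρ (1 / t) := by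
      have : max (1 / 2 ^ 0 / t) (1 / (h : ℝ)) = 1 / t := by
        rw [pow_zero, div_one, max_eq_left hle]
      change LBR p h ρ (max (1 / 2 ^ 0 / t) (1 / (h : ℝ))) at hj
      rwa [this] at hj
    have h5 := lemma5 H ρ hρ t ht ht3 hL (1 / t) hle hj'
    have hsq : Real.sqrt (h / (1 / t)) = t ^ 2 := by
      rw [← ht3]
      have : t ^ 3 / (1 / t) = (t ^ 2) ^ 2 := by field_simp
      rw [this, Real.sqrt_sq (by positivity)]
    rw [hsq] at h5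
    have : 600 * (m : ℝ) * (t ^ 2 + t ^ 2) = 1200 * m * t ^ 2 := by ring
    rw [this] at h5
    linarith
  · obtain ⟨i, hi⟩ : ∃ i, Nat.find hex = i + 1 := ⟨Nat.find hex - 1, by omega⟩
    have hni : ¬ P i := Nat.find_min hex (by omega)
    rw [hi] at hj
    have hlt : 1 / (h : ℝ) < 1 / 2 ^ i / t := by
      by_contra hcon
      push Not at hcon
      apply hni
      change LBR p h ρ (max (1 / 2 ^ i / t) (1 / (h : ℝ)))
      rw [max_eq_right hcon]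
      exact lbr_one_div H ρ
    have hG : y ∈ GSet p S h l (1 / 2 ^ i / t) := by
      unfold GSet
      rw [Finset.mem_filter]
      refine ⟨hy, ?_⟩
      rw [← hρdef]
      intro hc
      apply hni
      change LBR p h ρ (max (1 / 2 ^ i / t) (1 / (h : ℝ)))
      rw [max_eq_left hlt.le]
      exact hc
    have hilog : i ≤ Nat.log 2 h := by
      apply Nat.le_log_of_pow_le (by norm_num)
      have h1 : (2 : ℝ) ^ i * t < h := by
        rw [div_div] at hlt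
        exact (one_div_lt_one_div hh0 (by positivity)).mp hlt
      have h2 : (2 : ℝ) ^ i * 1 ≤ 2 ^ i * t := mul_le_mul_of_nonneg_left ht (by positivity)
      have h3 : (2 : ℝ) ^ i ≤ h := by linarith
      exact_mod_cast h3
    obtain ⟨κ, hκdef⟩ : ∃ κ : ℝ, κ = 1 / 2 ^ i / t := ⟨_, rfl⟩
    have hκ0 : 0 < κ := by rw [hκdef]; positivity
    have hκt : κ * t ≤ 1 := by
      rw [hκdef, div_mul_cancel₀ _ ht0.ne']
      rw [div_le_one (by positivity)]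
      exact one_le_pow₀ (by norm_num)
    have hk2 : κ / 2 ≤ max (1 / 2 ^ (i + 1) / t) (1 / (h : ℝ)) := by
      apply le_trans _ (le_max_left _ _)
      rw [hκdef, pow_succ]
      apply le_of_eq
      field_simp
    have h5 := lemma5 H ρ hρ t ht ht3 hL (max (1 / 2 ^ (i + 1) / t) (1 / (h : ℝ)))
      (le_max_right _ _) hj
    have hs2 : (t ^ 2) ≤ Real.sqrt (h / κ) := by
      apply Real.le_sqrt_of_sq_le
      rw [le_div_iff₀ hκ0, ← ht3]
      calc (t ^ 2) ^ 2 * κ = t ^ 3 * (κ * t) := by ring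
        _ ≤ t ^ 3 * 1 := mul_le_mul_of_nonneg_left hκt (by positivity)
        _ = t ^ 3 := by ring
    have hs3 : Real.sqrt (h / max (1 / 2 ^ (i + 1) / t) (1 / (h : ℝ)))
        ≤ (3 / 2) * Real.sqrt (h / κ) := by
      have h1 : (h : ℝ) / max (1 / 2 ^ (i + 1) / t) (1 / (h : ℝ)) ≤ (3 / 2) ^ 2 * (h / κ) := by
        calc (h : ℝ) / max (1 / 2 ^ (i + 1) / t) (1 / (h : ℝ)) ≤ h / (κ / 2) :=
              div_le_div_of_nonneg_left hh0.le (by positivity) hk2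
          _ = 2 * (h / κ) := by field_simp
          _ ≤ (3 / 2) ^ 2 * (h / κ) := by
              apply mul_le_mul_of_nonneg_right (by norm_num)
              positivity
      calc Real.sqrt (h / max (1 / 2 ^ (i + 1) / t) (1 / (h : ℝ)))
          ≤ Real.sqrt ((3 / 2) ^ 2 * (h / κ)) := Real.sqrt_le_sqrt h1
        _ = (3 / 2) * Real.sqrt (h / κ) := by
            rw [Real.sqrt_mul (by positivity), Real.sqrt_sq (by norm_num)]
    have hmain : ((Sol p S h ρ).card : ℝ) ≤ 1500 * m * Real.sqrt (h / κ)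
        + (Triv p S h ρ).card := by
      have h6 : t ^ 2 + Real.sqrt (h / max (1 / 2 ^ (i + 1) / t) (1 / (h : ℝ)))
          ≤ (5 / 2) * Real.sqrt (h / κ) := by linarith
      have h7 : 600 * (m : ℝ) * (t ^ 2 + Real.sqrt (h / max (1 / 2 ^ (i + 1) / t) (1 / (h : ℝ))))
          ≤ 600 * m * ((5 / 2) * Real.sqrt (h / κ)) :=
        mul_le_mul_of_nonneg_left h6 (by positivity)
      have h8 : 600 * (m : ℝ) * ((5 / 2) * Real.sqrt (h / κ)) = 1500 * m * Real.sqrt (h / κ) := by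
        ring
      linarith
    have hone : 1500 * (m : ℝ) * Real.sqrt (h / κ) ≤ ∑ j ∈ range (Nat.log 2 h + 1),
          (if y ∈ GSet p S h l (1 / 2 ^ j / t) ∧ 1 / (h : ℝ) < 1 / 2 ^ j / t then
            1500 * m * Real.sqrt (h / (1 / 2 ^ j / t)) else 0) := by
      have h9 := Finset.single_le_sum (s := range (Nat.log 2 h + 1))
        (f := fun j => (if y ∈ GSet p S h l (1 / 2 ^ j / t) ∧ 1 / (h : ℝ) < 1 / 2 ^ j / t then
            1500 * (m : ℝ) * Real.sqrt (h / (1 / 2 ^ j / t)) else 0))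
        (fun j _ => by
          split_ifs
          · positivity
          · exact le_refl _) (Finset.mem_range.mpr (by omega : i < Nat.log 2 h + 1))
      rw [if_pos ⟨hG, hlt⟩] at h9
      rw [hκdef]
      exact h9
    have hpos : 0 ≤ 1200 * (m : ℝ) * t ^ 2 := by positivity
    linarith

/-- Section 3. For `y ∈ [1,h]`, `ρ = λ (S+y)`. If `LBR ρ (1/t)`, `lemma5` with `k = 1/t` gives
`600 m (t^2 + √(h t)) = 1200 m t^2` (+ Triv). Otherwise let `j ≥ 1` be the least with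
`LBR ρ (k_j)`, `k_j = max (2^{-j}/t) (1/h)` (exists because of `lbr_one_div`, and
`j ≤ 1 + Nat.log 2 h` since `2^{-j}/t ≤ 1/h` as soon as `2^j ≥ h`). Then `k_{j-1} = κ` does not
satisfy `LBR` (so `κ > 1/h`, `κ = 2^{-(j-1)}/t ≤ 1/t`), i.e. `y ∈ GSet κ`, and `k_j ≥ κ/2`:
`lemma5` gives `600 m (t^2 + √(2h/κ)) ≤ 1500 m √(h/κ)` (+ Triv), because `h/κ ≥ h t = t^4`.
By `lemma6` the number of such `y` is `≤ m (3 + 3 κ t^4 + κ^3 t^6)`, and
`(3 + 3 κ t^4 + κ^3 t^6) √(h/κ) ≤ 7 t^5` for `1/h ≤ κ ≤ 1/t` (`√(h/κ) ≤ h = t^3`;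
`κ t^4 √(h/κ) = √κ t^{11/2} ≤ t^5`; `κ^3 t^6 √(h/κ) = κ^{5/2} t^{15/2} ≤ t^5`). So each layer contributes
`≤ 10500 m^2 t^5`, there are at most `1 + Nat.log 2 h` layers; `Triv` contributes
`2 h (2t+1) ≤ 6 t^4`. (`e4_eq`, `triv_sum`, `r2_le`.) -/
theorem e4_le {p : ℕ} [Fact p.Prime] {S : ℤ} {h m : ℕ} (H : Hyp p S h m) (l : ZMod p)
    (hl : l ≠ 0) (hl1 : l ≠ 1) (t : ℝ) (ht : 1 ≤ t) (ht3 : t ^ 3 = h) (hL : LBS p S h (1 / t)) :
    (E4 p S h l : ℝ) ≤ 20000 * (m : ℝ) ^ 2 * t ^ 5 * (1 + Nat.log 2 h) := by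
  classical
  have ht0 : 0 < t := by linarith
  have hh : (1 : ℝ) ≤ h := by exact_mod_cast H.hh
  have hh0 : (0 : ℝ) < h := by linarith
  have hm2 : (2 : ℝ) ≤ m := by exact_mod_cast two_le_of_hyp H
  have hm1 : (1 : ℝ) ≤ m := by linarith
  have hcard : (((Icc (1 : ℤ) h).card : ℕ) : ℝ) = t ^ 3 := by
    rw [ht3]
    simp
  rw [e4_eq, Nat.cast_sum]
  have h1 : ∑ y ∈ Icc (1 : ℤ) h, ((Sol p S h (l * ((S + y : ℤ) : ZMod p))).card : ℝ)
      ≤ ∑ y ∈ Icc (1 : ℤ) h, (1200 * m * t ^ 2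
      + ∑ j ∈ range (Nat.log 2 h + 1),
          (if y ∈ GSet p S h l (1 / 2 ^ j / t) ∧ 1 / (h : ℝ) < 1 / 2 ^ j / t then
            1500 * m * Real.sqrt (h / (1 / 2 ^ j / t)) else 0)
      + (Triv p S h (l * ((S + y : ℤ) : ZMod p))).card) :=
    Finset.sum_le_sum fun y hy => sol_y_le H l hl t ht ht3 hL y hy
  rw [Finset.sum_add_distrib, Finset.sum_add_distrib, Finset.sum_const, nsmul_eq_mul, hcard,
    Finset.sum_comm] at h1
  have h2 : ∀ j ∈ range (Nat.log 2 h + 1), ∑ y ∈ Icc (1 : ℤ) h,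
      (if y ∈ GSet p S h l (1 / 2 ^ j / t) ∧ 1 / (h : ℝ) < 1 / 2 ^ j / t then
            1500 * (m : ℝ) * Real.sqrt (h / (1 / 2 ^ j / t)) else 0)
      ≤ 9000 * (m : ℝ) ^ 2 * t ^ 5 := by
    intro j _
    by_cases hj : 1 / (h : ℝ) < 1 / 2 ^ j / t
    · have hκ0 : (0 : ℝ) < 1 / 2 ^ j / t := by positivity
      have hκt : (1 : ℝ) / 2 ^ j / t ≤ 1 / t := by
        apply div_le_div_of_nonneg_right _ ht0.le
        rw [div_le_one (by positivity)]
        exact one_le_pow₀ (by norm_num)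
      have hκ1 : (1 : ℝ) / 2 ^ j / t ≤ 1 := hκt.trans (by
        rw [div_le_one ht0]
        exact ht)
      have hsub : (Icc (1 : ℤ) h).filter (fun y => y ∈ GSet p S h l (1 / 2 ^ j / t))
          = GSet p S h l (1 / 2 ^ j / t) := by
        ext y
        rw [Finset.mem_filter]
        constructor
        · exact fun h => h.2
        · intro hy
          refine ⟨?_, hy⟩
          unfold GSet at hy
          exact (Finset.mem_filter.mp hy).1
      have e1 : ∑ y ∈ Icc (1 : ℤ) h,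
          (if y ∈ GSet p S h l (1 / 2 ^ j / t) ∧ 1 / (h : ℝ) < 1 / 2 ^ j / t then
            1500 * (m : ℝ) * Real.sqrt (h / (1 / 2 ^ j / t)) else 0)
          = (GSet p S h l (1 / 2 ^ j / t)).card * (1500 * m * Real.sqrt (h / (1 / 2 ^ j / t))) := by
        simp only [hj, and_true]
        rw [← Finset.sum_filter, hsub, Finset.sum_const, nsmul_eq_mul]
      rw [e1]
      have h6 := lemma6 H l hl t ht hL (1 / 2 ^ j / t) hκ0 hκ1
      have h7 := layer_le t (1 / 2 ^ j / t) h m ht ht3 hκ0 hj.le hκt hm1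
      refine le_trans (mul_le_mul_of_nonneg_right h6 (by positivity)) h7
    · have e1 : ∑ y ∈ Icc (1 : ℤ) h,
          (if y ∈ GSet p S h l (1 / 2 ^ j / t) ∧ 1 / (h : ℝ) < 1 / 2 ^ j / t then
            1500 * (m : ℝ) * Real.sqrt (h / (1 / 2 ^ j / t)) else 0) = 0 := by
        apply Finset.sum_eq_zero
        intro y _
        rw [if_neg]
        exact fun hc => hj hc.2
      rw [e1]
      positivity
  have h3 := Finset.sum_le_sum h2
  rw [Finset.sum_const, nsmul_eq_mul, Finset.card_range] at h3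
  have h4 : (∑ y ∈ Icc (1 : ℤ) h, ((Triv p S h (l * ((S + y : ℤ) : ZMod p))).card : ℝ))
      ≤ 2 * t ^ 3 * (2 * t + 1) := by
    have h5 : ((∑ y ∈ Icc (1 : ℤ) h, (Triv p S h (l * ((S + y : ℤ) : ZMod p))).card : ℕ) : ℝ)
        ≤ ((2 * h * R2 p S h l : ℕ) : ℝ) := by exact_mod_cast triv_sum p S h l
    rw [Nat.cast_sum, Nat.cast_mul, Nat.cast_mul, Nat.cast_ofNat] at h5
    have h6 := r2_le H l hl hl1 t ht hL
    have h7 : 2 * (h : ℝ) * (R2 p S h l : ℝ) ≤ 2 * h * (2 * t + 1) :=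
      mul_le_mul_of_nonneg_left h6 (by positivity)
    rw [ht3]
    exact h5.trans h7
  have hlog : (0 : ℝ) ≤ Nat.log 2 h := Nat.cast_nonneg _
  push_cast at h3
  have ht4 : t ^ 4 ≤ t ^ 5 := pow_le_pow_right₀ ht (by norm_num)
  have ht3' : t ^ 3 ≤ t ^ 5 := pow_le_pow_right₀ ht (by norm_num)
  have hx : 0 < t ^ 5 := by positivity
  have hb : 2 * t ^ 3 * (2 * t + 1) ≤ 6 * t ^ 5 := by
    have : 2 * t ^ 3 * (2 * t + 1) = 4 * t ^ 4 + 2 * t ^ 3 := by ring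
    rw [this]; linarith
  have hm4 : (4 : ℝ) ≤ m ^ 2 := by nlinarith
  have hm3 : (2 : ℝ) * m ≤ m ^ 2 := by nlinarith
  have hc : 6 * t ^ 5 ≤ 6 * (m : ℝ) ^ 2 * t ^ 5 := by nlinarith
  have hd : t ^ 3 * (1200 * m * t ^ 2) ≤ 600 * (m : ℝ) ^ 2 * t ^ 5 := by
    have : t ^ 3 * (1200 * m * t ^ 2) = 600 * (2 * (m : ℝ)) * t ^ 5 := by ring
    rw [this]
    exact mul_le_mul_of_nonneg_right (mul_le_mul_of_nonneg_left hm3 (by norm_num)) hx.le
  have hfin : 606 * (m : ℝ) ^ 2 * t ^ 5 + ((Nat.log 2 h : ℝ) + 1) * (9000 * (m : ℝ) ^ 2 * t ^ 5)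
      ≤ 20000 * (m : ℝ) ^ 2 * t ^ 5 * (1 + Nat.log 2 h) := by
    have hq : 0 ≤ (m : ℝ) ^ 2 * t ^ 5 := by positivity
    have hq2 : 0 ≤ (m : ℝ) ^ 2 * t ^ 5 * Nat.log 2 h := by positivity
    nlinarith
  linarith

end Pool.Agent.H.MP_03bc95_nt
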