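import Pool.Agent.H.MP_03bc95_nt.P1

open Finset

namespace Pool.Agent.H.MP_03bc95_nt

/-- `E(1) ≤ 2 m h^2`. For a solution put `u = x1 + x2`, `v = x1 x2`, `u' = y1 + y2`, `v' = y1 y2`:
`(a,b) = (u - u', v - v')` satisfies `a S + b = 0`, `|a| ≤ 2h`, `|b| ≤ h^2`. If all these `(a,b)` are `0`:
`{x1,x2} = {y1,y2}` and there are at most `2 h^2` solutions. Otherwise fix a nonzero one, `(A, -B)`:
`A S = B`, `A ≠ 0`; all others are parallel: `A b + B a = 0` (it is `0` modulo `p`, and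
`≤ 4 h^3 < p`). So `(B + A x1)(B + A x2) = (B + A y1)(B + A y2)` exactly
(`= B^2 + A (B u + A v)`), a nonzero integer (`B + A x = A (S + x)` modulo `p`), `≤ (3 h^2)^2`:
for each `(y1,y2)` at most `m` pairs `(x1,x2)` (`card_factor`). -/
theorem e4_one {p : ℕ} [Fact p.Prime] {S : ℤ} {h m : ℕ} (H : Hyp p S h m) :
    E4 p S h 1 ≤ 2 * m * h ^ 2 := by
  classical
  obtain ⟨hh, hp, hS, hm⟩ := H
  have hhZ : (1 : ℤ) ≤ h := by exact_mod_cast hh
  have hpZ : 100000 * (h : ℤ) ^ 3 ≤ p := by exact_mod_cast hp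
  have h2 : (h : ℤ) ≤ (h : ℤ) ^ 2 := by nlinarith
  have h3 : (h : ℤ) ^ 2 ≤ (h : ℤ) ^ 3 := by nlinarith [sq_nonneg (h : ℤ)]
  have h46 : (h : ℤ) ^ 4 ≤ (h : ℤ) ^ 6 := by
    have : (h : ℤ) ^ 4 * 1 ≤ (h : ℤ) ^ 4 * (h : ℤ) ^ 2 :=
      mul_le_mul_of_nonneg_left (by nlinarith) (by positivity)
    nlinarith
  have h6 : (1 : ℤ) ≤ (h : ℤ) ^ 6 := one_le_pow₀ hhZ
  have hm2 : 2 ≤ m := by
    have := hm 1 one_ne_zero (by rw [abs_one]; linarith)
    simpa using this
  unfold E4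
  set s := (Icc (1 : ℤ) h ×ˢ Icc (1 : ℤ) h ×ˢ Icc (1 : ℤ) h ×ˢ Icc (1 : ℤ) h).filter fun z =>
    ((S + z.1 : ℤ) : ZMod p) * ((S + z.2.1 : ℤ) : ZMod p)
      = 1 * (((S + z.2.2.1 : ℤ) : ZMod p) * ((S + z.2.2.2 : ℤ) : ZMod p)) with hs
  have hmem : ∀ z ∈ s, (1 ≤ z.1 ∧ z.1 ≤ h) ∧ (1 ≤ z.2.1 ∧ z.2.1 ≤ h) ∧
      (1 ≤ z.2.2.1 ∧ z.2.2.1 ≤ h) ∧ (1 ≤ z.2.2.2 ∧ z.2.2.2 ≤ h) ∧
      (p : ℤ) ∣ ((z.1 + z.2.1 - z.2.2.1 - z.2.2.2) * S + (z.1 * z.2.1 - z.2.2.1 * z.2.2.2)) := by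
    intro z hz
    rw [hs, mem_filter] at hz
    obtain ⟨hz1, hz2⟩ := hz
    simp only [mem_product, mem_Icc] at hz1
    refine ⟨hz1.1, hz1.2.1, hz1.2.2.1, hz1.2.2.2, ?_⟩
    rw [← ZMod.intCast_zmod_eq_zero_iff_dvd] 
    rw [one_mul] at hz2
    have : (((S + z.1) * (S + z.2.1) - (S + z.2.2.1) * (S + z.2.2.2) : ℤ) : ZMod p) = 0 := by
      push_cast at hz2 ⊢
      rw [hz2]; ring
    rw [← this]
    congr 1
    ring
  have hcard : (Icc (1 : ℤ) h ×ˢ Icc (1 : ℤ) h).card = h ^ 2 := by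
    rw [card_product, Int.card_Icc]
    have : ((h : ℤ) + 1 - 1).toNat = h := by
      rw [add_sub_cancel_right]; exact Int.toNat_natCast h
    rw [this, sq]
  have hmaps : ∀ z ∈ s, ((z.2.2.1, z.2.2.2) : ℤ × ℤ) ∈ Icc (1 : ℤ) h ×ˢ Icc (1 : ℤ) h := by
    intro z hz
    obtain ⟨-, -, h3, h4, -⟩ := hmem z hz
    simp only [mem_product, mem_Icc]
    exact ⟨h3, h4⟩
  by_cases hall : ∀ z ∈ s, z.1 + z.2.1 - z.2.2.1 - z.2.2.2 = 0 ∧
      z.1 * z.2.1 - z.2.2.1 * z.2.2.2 = 0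
  · have h1 : s.card ≤ 2 * (Icc (1 : ℤ) h ×ˢ Icc (1 : ℤ) h).card := by
      refine card_le_mul_card_image_of_maps_to (f := fun z => ((z.2.2.1, z.2.2.2) : ℤ × ℤ)) hmaps 2 ?_
      rintro ⟨y1, y2⟩ -
      refine (card_le_card (t := {(y1, y2, y1, y2), (y2, y1, y1, y2)}) ?_).trans card_le_two
      rintro ⟨x1, x2, w1, w2⟩ hz
      rw [mem_filter] at hz
      obtain ⟨hz, he⟩ := hz
      simp only [Prod.mk.injEq] at he
      obtain ⟨rfl, rfl⟩ := he
      obtain ⟨ha, hb⟩ := hall _ hz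
      simp only at ha hb
      have hx : (x1 - w1) * (x1 - w2) = 0 := by
        have e1 : w1 + w2 = x1 + x2 := by linarith
        have e2 : w1 * w2 = x1 * x2 := by linarith
        linear_combination (-x1) * e1 + e2
      simp only [mem_insert, mem_singleton, Prod.mk.injEq]
      rcases mul_eq_zero.1 hx with hx | hx
      · left; exact ⟨by linarith, by linarith, trivial⟩
      · right; exact ⟨by linarith, by linarith, trivial⟩
    rw [hcard] at h1
    refine h1.trans ?_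
    exact Nat.mul_le_mul_right _ (by omega)
  · push Not at hall
    obtain ⟨z0, hz0, hne⟩ := hall
    obtain ⟨hx1, hx2, hy1, hy2, hdvd⟩ := hmem z0 hz0
    set a0 := z0.1 + z0.2.1 - z0.2.2.1 - z0.2.2.2 with ha0
    set b0 := z0.1 * z0.2.1 - z0.2.2.1 * z0.2.2.2 with hb0
    have hA : |a0| ≤ 2 * h := by rw [abs_le]; constructor <;> linarith [hx1.1, hx1.2, hx2.1, hx2.2, hy1.1, hy1.2, hy2.1, hy2.2]
    have hprod : ∀ x y : ℤ, 1 ≤ x ∧ x ≤ h → 1 ≤ y ∧ y ≤ h → 0 ≤ x * y ∧ x * y ≤ (h : ℤ) ^ 2 := by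
      intro x y hx hy
      constructor
      · exact mul_nonneg (by linarith [hx.1]) (by linarith [hy.1])
      · nlinarith [hx.1, hx.2, hy.1, hy.2]
    have hB : |b0| ≤ (h : ℤ) ^ 2 := by
      have e1 := hprod _ _ hx1 hx2
      have e2 := hprod _ _ hy1 hy2
      rw [abs_le]; constructor <;> linarith [e1.1, e1.2, e2.1, e2.2]
    have hA0 : a0 ≠ 0 := by
      intro h0
      have hb : b0 = 0 := by
        rw [h0, zero_mul, zero_add] at hdvd
        apply Int.eq_zero_of_abs_lt_dvd hdvd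
        linarith
      exact hne h0 hb
    -- general solutions
    have hpar : ∀ z ∈ s, (z.1 + z.2.1 - z.2.2.1 - z.2.2.2) * (-b0) +
        a0 * (z.1 * z.2.1 - z.2.2.1 * z.2.2.2) = 0 := by
      intro z hz
      obtain ⟨gx1, gx2, gy1, gy2, gd⟩ := hmem z hz
      set a := z.1 + z.2.1 - z.2.2.1 - z.2.2.2 with ha
      set b := z.1 * z.2.1 - z.2.2.1 * z.2.2.2 with hb
      have gA : |a| ≤ 2 * h := by rw [abs_le]; constructor <;> linarith [gx1.1, gx1.2, gx2.1, gx2.2, gy1.1, gy1.2, gy2.1, gy2.2]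
      have gB : |b| ≤ (h : ℤ) ^ 2 := by
        have e1 := hprod _ _ gx1 gx2
        have e2 := hprod _ _ gy1 gy2
        rw [abs_le]; constructor <;> linarith [e1.1, e1.2, e2.1, e2.2]
      have hd : (p : ℤ) ∣ a * (-b0) + a0 * b := by
        have e : a * (-b0) + a0 * b = a0 * (a * S + b) - a * (a0 * S + b0) := by ring
        rw [e]
        exact dvd_sub (Dvd.dvd.mul_left gd _) (Dvd.dvd.mul_left hdvd _)
      apply Int.eq_zero_of_abs_lt_dvd hd
      have e1 : |a * (-b0)| ≤ 2 * h * (h : ℤ) ^ 2 := by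
        rw [abs_mul, abs_neg]
        exact mul_le_mul gA hB (abs_nonneg _) (by positivity)
      have e2 : |a0 * b| ≤ 2 * h * (h : ℤ) ^ 2 := by
        rw [abs_mul]
        exact mul_le_mul hA gB (abs_nonneg _) (by positivity)
      have e3 := abs_add_le (a * (-b0)) (a0 * b)
      have e4 : 2 * (h : ℤ) * (h : ℤ) ^ 2 = 2 * (h : ℤ) ^ 3 := by ring
      have e5 : 0 < (h : ℤ) ^ 3 := by positivity
      linarith
    have hnz : ∀ x : ℤ, 1 ≤ x → x ≤ h → -b0 + a0 * x ≠ 0 := by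
      intro x hx hx' h0
      have hd : (p : ℤ) ∣ a0 * (S + x) := by
        have e : a0 * (S + x) = (a0 * S + b0) + (-b0 + a0 * x) := by ring
        rw [e, h0, add_zero]; exact hdvd
      have hpp : Prime (p : ℤ) := Nat.prime_iff_prime_int.1 (Fact.out)
      rcases hpp.dvd_or_dvd hd with hd | hd
      · apply hA0
        apply Int.eq_zero_of_abs_lt_dvd hd
        linarith
      · apply hS x hx hx'
        rw [ZMod.intCast_zmod_eq_zero_iff_dvd]
        exact hd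
    have hsz : ∀ x : ℤ, 1 ≤ x → x ≤ h → |-b0 + a0 * x| ≤ 3 * (h : ℤ) ^ 2 := by
      intro x hx hx'
      have e1 : |a0 * x| ≤ 2 * h * (h : ℤ) := by
        rw [abs_mul]
        exact mul_le_mul hA (by rw [abs_le]; constructor <;> linarith) (abs_nonneg _) (by positivity)
      have e3 := abs_add_le (-b0) (a0 * x)
      rw [abs_neg] at e3
      nlinarith
    have h1 : s.card ≤ m * (Icc (1 : ℤ) h ×ˢ Icc (1 : ℤ) h).card := by
      refine card_le_mul_card_image_of_maps_to (f := fun z => ((z.2.2.1, z.2.2.2) : ℤ × ℤ)) hmaps m ?_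
      rintro ⟨y1, y2⟩ hy
      simp only [mem_product, mem_Icc] at hy
      obtain ⟨hy1', hy2'⟩ := hy
      have hn : (-b0 + a0 * y1) * (-b0 + a0 * y2) ≠ 0 :=
        mul_ne_zero (hnz _ hy1'.1 hy1'.2) (hnz _ hy2'.1 hy2'.2)
      refine (card_factor _ (fun z => -b0 + a0 * z.1) (fun z => -b0 + a0 * z.2.1) _ hn ?_ ?_).trans
        (hm _ hn ?_)
      · rintro ⟨x1, x2, w1, w2⟩ hz
        rw [mem_filter] at hz
        obtain ⟨hz, he⟩ := hz
        simp only [Prod.mk.injEq] at he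
        obtain ⟨rfl, rfl⟩ := he
        have := hpar _ hz
        simp only at this ⊢
        linear_combination a0 * this
      · rintro ⟨x1, x2, w1, w2⟩ hz ⟨x1', x2', w1', w2'⟩ hz' hEq
        rw [mem_filter] at hz hz'
        obtain ⟨hz, he⟩ := hz
        obtain ⟨hz', he'⟩ := hz'
        simp only [Prod.mk.injEq] at he he'
        obtain ⟨rfl, rfl⟩ := he
        obtain ⟨rfl, rfl⟩ := he'
        simp only at hEq
        have hx : x1 = x1' := by
          have : a0 * x1 = a0 * x1' := by linarith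
          exact mul_left_cancel₀ hA0 this
        subst hx
        have q1 := hpar _ hz
        have q2 := hpar _ hz'
        simp only at q1 q2
        obtain ⟨gx1, gx2, gy1, gy2, gd⟩ := hmem _ hz
        have hx1' := hnz x1 gx1.1 gx1.2
        have e : (-b0 + a0 * x1) * (x2 - x2') = 0 := by
          linear_combination q1 - q2
        rcases mul_eq_zero.1 e with e | e
        · exact absurd e hx1'
        · have : x2 = x2' := by linarith
          rw [this]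
      · rw [abs_mul]
        have e1 := hsz _ hy1'.1 hy1'.2
        have e2 := hsz _ hy2'.1 hy2'.2
        have e3 : |-b0 + a0 * y1| * |-b0 + a0 * y2| ≤ (3 * (h : ℤ) ^ 2) * (3 * (h : ℤ) ^ 2) :=
          mul_le_mul e1 e2 (abs_nonneg _) (by positivity)
        nlinarith
    rw [hcard] at h1
    refine h1.trans ?_
    exact Nat.mul_le_mul_right _ (by omega)

end Pool.Agent.H.MP_03bc95_nt
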