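import Pool.Agent.H.MP_03bc95_nt.La

open Finset

namespace Pool.Agent.H.MP_03bc95_nt

/-- Pigeonhole in cells of size `κ s` for one real coordinate in `[-3s, 3s]`. -/
theorem Lb.one {α : Type*} [DecidableEq α] (F : Finset α) (x : α → ℝ) (s κ B : ℝ) (hs : 0 < s)
    (hκ : 0 < κ) (hκ1 : κ ≤ 1) (hx : ∀ a ∈ F, |x a| ≤ 3 * s)
    (hB : ∀ G ⊆ F, (∀ a ∈ G, ∀ b ∈ G, |x a - x b| ≤ κ * s) → (G.card : ℝ) ≤ B) :
    (F.card : ℝ) ≤ 7 / κ * B := by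
  have hB0 : 0 ≤ B := by
    have := hB ∅ (empty_subset _) (by simp)
    simpa using this
  have hκs : 0 < κ * s := by positivity
  have hnn : ∀ a ∈ F, 0 ≤ (x a + 3 * s) / (κ * s) := by
    intro a ha
    have := (abs_le.mp (hx a ha)).1
    apply div_nonneg _ hκs.le
    linarith
  have hmem : ∀ a ∈ F, ⌊(x a + 3 * s) / (κ * s)⌋₊ ∈ range (⌊6 / κ⌋₊ + 1) := by
    intro a ha
    rw [mem_range, Nat.lt_succ_iff]
    apply Nat.floor_mono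
    have h2 := (abs_le.mp (hx a ha)).2
    rw [div_le_div_iff₀ hκs hκ]
    nlinarith
  have hcard : F.card = ∑ i ∈ range (⌊6 / κ⌋₊ + 1),
      (F.filter fun a => ⌊(x a + 3 * s) / (κ * s)⌋₊ = i).card :=
    card_eq_sum_card_fiberwise hmem
  have hfib : ∀ i ∈ range (⌊6 / κ⌋₊ + 1),
      (((F.filter fun a => ⌊(x a + 3 * s) / (κ * s)⌋₊ = i).card : ℕ) : ℝ) ≤ B := by
    intro i _
    apply hB _ (filter_subset _ _)
    intro a ha b hb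
    rw [mem_filter] at ha hb
    have a1 := Nat.floor_le (hnn a ha.1)
    have a2 := Nat.lt_floor_add_one ((x a + 3 * s) / (κ * s))
    have b1 := Nat.floor_le (hnn b hb.1)
    have b2 := Nat.lt_floor_add_one ((x b + 3 * s) / (κ * s))
    rw [ha.2] at a1 a2
    rw [hb.2] at b1 b2
    rw [le_div_iff₀ hκs] at a1 b1
    rw [div_lt_iff₀ hκs] at a2 b2
    rw [abs_le]
    constructor <;> nlinarith
  have hM : (((⌊6 / κ⌋₊ + 1 : ℕ)) : ℝ) ≤ 7 / κ := by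
    push_cast
    have h1 := Nat.floor_le (show (0 : ℝ) ≤ 6 / κ by positivity)
    have h2 : (1 : ℝ) ≤ 1 / κ := by rw [le_div_iff₀ hκ]; linarith
    calc (⌊6 / κ⌋₊ : ℝ) + 1 ≤ 6 / κ + 1 / κ := by linarith
      _ = 7 / κ := by ring
  rw [hcard]
  push_cast
  calc (∑ i ∈ range (⌊6 / κ⌋₊ + 1),
        (((F.filter fun a => ⌊(x a + 3 * s) / (κ * s)⌋₊ = i).card : ℕ) : ℝ))
      ≤ ∑ i ∈ range (⌊6 / κ⌋₊ + 1), B := sum_le_sum hfib
    _ = ((⌊6 / κ⌋₊ + 1 : ℕ) : ℝ) * B := by rw [sum_const, card_range, nsmul_eq_mul]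
    _ ≤ 7 / κ * B := by gcongr

/-- The third coordinate in a plane. -/
theorem Lb.third (n1 n2 n3 x1 x2 x3 s1 s2 s3 κ : ℝ) (hκ : 0 < κ)
    (h1 : |n1| * s1 ≤ |n3| * s3) (h2 : |n2| * s2 ≤ |n3| * s3) (hn : n3 ≠ 0)
    (h : n1 * x1 + n2 * x2 + n3 * x3 = 0) (hx1 : |x1| ≤ κ / 2 * s1) (hx2 : |x2| ≤ κ / 2 * s2) :
    |x3| ≤ κ * s3 := by
  have hn' : 0 < |n3| := abs_pos.mpr hn
  have e : |n3| * |x3| ≤ |n1| * |x1| + |n2| * |x2| := by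
    have : n3 * x3 = -(n1 * x1 + n2 * x2) := by linarith
    calc |n3| * |x3| = |n3 * x3| := (abs_mul _ _).symm
      _ = |n1 * x1 + n2 * x2| := by rw [this, abs_neg]
      _ ≤ |n1 * x1| + |n2 * x2| := abs_add_le _ _
      _ = _ := by rw [abs_mul, abs_mul]
  have a1 : |n1| * |x1| ≤ κ / 2 * (|n3| * s3) := by
    calc |n1| * |x1| ≤ |n1| * (κ / 2 * s1) := by gcongr
      _ = κ / 2 * (|n1| * s1) := by ring
      _ ≤ _ := by gcongr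
  have a2 : |n2| * |x2| ≤ κ / 2 * (|n3| * s3) := by
    calc |n2| * |x2| ≤ |n2| * (κ / 2 * s2) := by gcongr
      _ = κ / 2 * (|n2| * s2) := by ring
      _ ≤ _ := by gcongr
  have : |n3| * |x3| ≤ |n3| * (κ * s3) := by
    calc |n3| * |x3| ≤ κ / 2 * (|n3| * s3) + κ / 2 * (|n3| * s3) := by linarith
      _ = _ := by ring
  exact le_of_mul_le_mul_left this hn'

/-- Points of `Lam3` with all differences of size at most `κ`. -/
theorem Lb.close {p : ℕ} [Fact p.Prime] {S : ℤ} {h m : ℕ} (H : Hyp p S h m) (ρ : ZMod p)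
    (k κ : ℝ) (hk : 0 < k) (hκ : 0 < κ) (hκ1 : κ ≤ 1) (hR : LBR p h ρ k)
    (hno : ∀ f : ℤ × ℤ × ℤ, InLam p S ρ f → |(f.1 : ℝ)| ≤ κ * h →
      |(f.2.1 : ℝ)| ≤ κ * (h : ℝ) ^ 2 → |(f.2.2 : ℝ)| ≤ κ * h → f.1 = 0)
    (G : Finset (ℤ × ℤ × ℤ)) (hG : G ⊆ Lam3 p S h ρ)
    (h1 : ∀ a ∈ G, ∀ b ∈ G, |(a.1 : ℝ) - b.1| ≤ κ * h)
    (h2 : ∀ a ∈ G, ∀ b ∈ G, |(a.2.1 : ℝ) - b.2.1| ≤ κ * (h : ℝ) ^ 2)
    (h3 : ∀ a ∈ G, ∀ b ∈ G, |(a.2.2 : ℝ) - b.2.2| ≤ κ * h) :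
    (G.card : ℝ) ≤ 1 + κ / k := by
  rw [add_comm]
  refine same_u H ρ k κ hk hκ hκ1 hR G hG fun a ha b hb => ⟨?_, ?_, ?_⟩
  · have m1 := (La.mem_Lam3.mp (hG ha)).2.2.2
    have m2 := (La.mem_Lam3.mp (hG hb)).2.2.2
    have := hno (a.1 - b.1, a.2.1 - b.2.1, a.2.2 - b.2.2) (by
      unfold InLam
      push_cast at m1 m2 ⊢
      linear_combination m1 - m2) (by push_cast; exact h1 a ha b hb)
      (by push_cast; exact h2 a ha b hb) (by push_cast; exact h3 a ha b hb)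
    exact sub_eq_zero.mp this
  · push_cast; exact h2 a ha b hb
  · push_cast; exact h3 a ha b hb

theorem Lb.bounds {p : ℕ} {S : ℤ} {h : ℕ} {ρ : ZMod p} {f : ℤ × ℤ × ℤ} (hf : f ∈ Lam3 p S h ρ) :
    |(f.1 : ℝ)| ≤ 3 * (h : ℝ) ∧ |(f.2.1 : ℝ)| ≤ 3 * (h : ℝ) ^ 2 ∧ |(f.2.2 : ℝ)| ≤ 3 * (h : ℝ) := by
  obtain ⟨h1, h2, h3, -⟩ := La.mem_Lam3.mp hf
  exact ⟨by exact_mod_cast h1, by exact_mod_cast h2, by exact_mod_cast h3⟩

/-- Lemma 4, general case: if no lattice vector with `u ≠ 0` has size at most `κ`, then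
`L ≤ (7/κ)^3 (1 + κ/k)`. Cells `(⌊(u+3h)/(κh)⌋, ⌊(v+3h^2)/(κh^2)⌋, ⌊(g+3h)/(κh)⌋)`: each is in
`[0, 6/κ]`, at most `6/κ + 1 ≤ 7/κ` values; points in the same cell have all differences `≤ κ (h,h^2,h)`, so the same `u`; `same_u`. -/
theorem cells3 {p : ℕ} [Fact p.Prime] {S : ℤ} {h m : ℕ} (H : Hyp p S h m) (ρ : ZMod p)
    (k κ : ℝ) (hk : 0 < k) (hκ : 0 < κ) (hκ1 : κ ≤ 1) (hR : LBR p h ρ k)
    (hno : ∀ f : ℤ × ℤ × ℤ, InLam p S ρ f → |(f.1 : ℝ)| ≤ κ * h →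
      |(f.2.1 : ℝ)| ≤ κ * (h : ℝ) ^ 2 → |(f.2.2 : ℝ)| ≤ κ * h → f.1 = 0) :
    ((Lam3 p S h ρ).card : ℝ) ≤ (7 / κ) ^ 3 * (1 + κ / k) := by
  have hh : (1 : ℝ) ≤ h := by exact_mod_cast H.hh
  have hh0 : (0 : ℝ) < h := by linarith
  have hh2 : (0 : ℝ) < (h : ℝ) ^ 2 := by positivity
  have e : (7 / κ) ^ 3 * (1 + κ / k) = 7 / κ * (7 / κ * (7 / κ * (1 + κ / k))) := by ring
  rw [e]
  refine Lb.one _ (fun f => (f.1 : ℝ)) h κ _ hh0 hκ hκ1 (fun a ha => (Lb.bounds ha).1)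
    fun G1 hG1 c1 => ?_
  refine Lb.one _ (fun f => (f.2.1 : ℝ)) ((h : ℝ) ^ 2) κ _ hh2 hκ hκ1
    (fun a ha => (Lb.bounds (hG1 ha)).2.1) fun G2 hG2 c2 => ?_
  refine Lb.one _ (fun f => (f.2.2 : ℝ)) h κ _ hh0 hκ hκ1
    (fun a ha => (Lb.bounds (hG1 (hG2 ha))).2.2) fun G3 hG3 c3 => ?_
  exact Lb.close H ρ k κ hk hκ hκ1 hR hno G3 (hG3.trans (hG2.trans hG1))
    (fun a ha b hb => c1 a (hG2 (hG3 ha)) b (hG2 (hG3 hb)))
    (fun a ha b hb => c2 a (hG3 ha) b (hG3 hb)) c3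

/-- Lemma 4, plane case: all points of `Lam3` are orthogonal to a nonzero integer vector `n`. Among
`|n1| h`, `|n2| h^2`, `|n3| h` take a largest one and drop this coordinate; use cells of size `κ/2`
for the two other coordinates (shifted as in `cells3`; at most `12/κ + 1 ≤ 14/κ` values each). If two points are in the same cell, the
third difference is `≤ κ` times its scale by the equation of the plane. -/
theorem cells2 {p : ℕ} [Fact p.Prime] {S : ℤ} {h m : ℕ} (H : Hyp p S h m) (ρ : ZMod p)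
    (k κ : ℝ) (hk : 0 < k) (hκ : 0 < κ) (hκ1 : κ ≤ 1) (hR : LBR p h ρ k)
    (hno : ∀ f : ℤ × ℤ × ℤ, InLam p S ρ f → |(f.1 : ℝ)| ≤ κ * h →
      |(f.2.1 : ℝ)| ≤ κ * (h : ℝ) ^ 2 → |(f.2.2 : ℝ)| ≤ κ * h → f.1 = 0)
    (n : ℤ × ℤ × ℤ) (hn : ¬ (n.1 = 0 ∧ n.2.1 = 0 ∧ n.2.2 = 0))
    (hpl : ∀ f ∈ Lam3 p S h ρ, n.1 * f.1 + n.2.1 * f.2.1 + n.2.2 * f.2.2 = 0) :
    ((Lam3 p S h ρ).card : ℝ) ≤ (14 / κ) ^ 2 * (1 + κ / k) := by
  have hh : (1 : ℝ) ≤ h := by exact_mod_cast H.hh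
  have hh0 : (0 : ℝ) < h := by linarith
  have hh2 : (0 : ℝ) < (h : ℝ) ^ 2 := by positivity
  have hκ2 : 0 < κ / 2 := by positivity
  have hκ21 : κ / 2 ≤ 1 := by linarith
  have e : (14 / κ) ^ 2 * (1 + κ / k) = 7 / (κ / 2) * (7 / (κ / 2) * (1 + κ / k)) := by
    field_simp
    ring
  rw [e]
  have pl : ∀ f ∈ Lam3 p S h ρ, ∀ f' ∈ Lam3 p S h ρ,
      (n.1 : ℝ) * ((f.1 : ℝ) - f'.1) + (n.2.1 : ℝ) * ((f.2.1 : ℝ) - f'.2.1)
        + (n.2.2 : ℝ) * ((f.2.2 : ℝ) - f'.2.2) = 0 := by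
    intro f hf f' hf'
    have a1 : (n.1 : ℝ) * f.1 + n.2.1 * f.2.1 + n.2.2 * f.2.2 = 0 := by exact_mod_cast hpl f hf
    have a2 : (n.1 : ℝ) * f'.1 + n.2.1 * f'.2.1 + n.2.2 * f'.2.2 = 0 := by
      exact_mod_cast hpl f' hf'
    linear_combination a1 - a2
  have half : ∀ x s : ℝ, 0 < s → |x| ≤ κ / 2 * s → |x| ≤ κ * s := by
    intro x s hs hx
    refine hx.trans ?_
    have : κ / 2 ≤ κ := by linarith
    gcongr
  have zero_of : ∀ (n' : ℤ) (s : ℝ), 0 < s → |(n' : ℝ)| * s ≤ 0 → n' = 0 := by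
    intro n' s hs h0
    by_contra hne
    have : 0 < |(n' : ℝ)| := abs_pos.mpr (by exact_mod_cast hne)
    have := mul_pos this hs
    linarith
  -- the three cases
  rcases le_total (|(n.1 : ℝ)| * h) (|(n.2.2 : ℝ)| * h) with c13 | c13
  · rcases le_total (|(n.2.1 : ℝ)| * (h : ℝ) ^ 2) (|(n.2.2 : ℝ)| * h) with c23 | c23
    · -- the third coordinate is dropped
      have hn3 : (n.2.2 : ℝ) ≠ 0 := by
        intro h0
        rw [h0, abs_zero, zero_mul] at c13 c23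
        exact hn ⟨zero_of _ _ hh0 c13, zero_of _ _ hh2 c23, by exact_mod_cast h0⟩
      refine Lb.one _ (fun f => (f.1 : ℝ)) h (κ / 2) _ hh0 hκ2 hκ21
        (fun a ha => (Lb.bounds ha).1) fun G1 hG1 c1 => ?_
      refine Lb.one _ (fun f => (f.2.1 : ℝ)) ((h : ℝ) ^ 2) (κ / 2) _ hh2 hκ2 hκ21
        (fun a ha => (Lb.bounds (hG1 ha)).2.1) fun G2 hG2 c2 => ?_
      refine Lb.close H ρ k κ hk hκ hκ1 hR hno G2 (hG2.trans hG1)
        (fun a ha b hb => half _ _ hh0 (c1 a (hG2 ha) b (hG2 hb)))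
        (fun a ha b hb => half _ _ hh2 (c2 a ha b hb)) (fun a ha b hb => ?_)
      refine Lb.third n.1 n.2.1 n.2.2 _ _ _ h ((h : ℝ) ^ 2) h κ hκ c13 c23 hn3
        (pl a (hG1 (hG2 ha)) b (hG1 (hG2 hb))) (c1 a (hG2 ha) b (hG2 hb)) (c2 a ha b hb)
    · -- the second coordinate is dropped
      have c12 := c13.trans c23
      have hn2 : (n.2.1 : ℝ) ≠ 0 := by
        intro h0
        rw [h0, abs_zero, zero_mul] at c12 c23
        exact hn ⟨zero_of _ _ hh0 c12, by exact_mod_cast h0, zero_of _ _ hh0 c23⟩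
      refine Lb.one _ (fun f => (f.1 : ℝ)) h (κ / 2) _ hh0 hκ2 hκ21
        (fun a ha => (Lb.bounds ha).1) fun G1 hG1 c1 => ?_
      refine Lb.one _ (fun f => (f.2.2 : ℝ)) h (κ / 2) _ hh0 hκ2 hκ21
        (fun a ha => (Lb.bounds (hG1 ha)).2.2) fun G2 hG2 c2 => ?_
      refine Lb.close H ρ k κ hk hκ hκ1 hR hno G2 (hG2.trans hG1)
        (fun a ha b hb => half _ _ hh0 (c1 a (hG2 ha) b (hG2 hb))) (fun a ha b hb => ?_)
        (fun a ha b hb => half _ _ hh0 (c2 a ha b hb))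
      refine Lb.third n.1 n.2.2 n.2.1 _ _ _ h h ((h : ℝ) ^ 2) κ hκ c12 c23 hn2 ?_
        (c1 a (hG2 ha) b (hG2 hb)) (c2 a ha b hb)
      linear_combination pl a (hG1 (hG2 ha)) b (hG1 (hG2 hb))
  · rcases le_total (|(n.2.1 : ℝ)| * (h : ℝ) ^ 2) (|(n.1 : ℝ)| * h) with c21 | c21
    · -- the first coordinate is dropped
      have hn1 : (n.1 : ℝ) ≠ 0 := by
        intro h0
        rw [h0, abs_zero, zero_mul] at c13 c21
        exact hn ⟨by exact_mod_cast h0, zero_of _ _ hh2 c21, zero_of _ _ hh0 c13⟩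
      refine Lb.one _ (fun f => (f.2.1 : ℝ)) ((h : ℝ) ^ 2) (κ / 2) _ hh2 hκ2 hκ21
        (fun a ha => (Lb.bounds ha).2.1) fun G1 hG1 c1 => ?_
      refine Lb.one _ (fun f => (f.2.2 : ℝ)) h (κ / 2) _ hh0 hκ2 hκ21
        (fun a ha => (Lb.bounds (hG1 ha)).2.2) fun G2 hG2 c2 => ?_
      refine Lb.close H ρ k κ hk hκ hκ1 hR hno G2 (hG2.trans hG1) (fun a ha b hb => ?_)
        (fun a ha b hb => half _ _ hh2 (c1 a (hG2 ha) b (hG2 hb)))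
        (fun a ha b hb => half _ _ hh0 (c2 a ha b hb))
      refine Lb.third n.2.1 n.2.2 n.1 _ _ _ ((h : ℝ) ^ 2) h h κ hκ c21 c13 hn1 ?_
        (c1 a (hG2 ha) b (hG2 hb)) (c2 a ha b hb)
      linear_combination pl a (hG1 (hG2 ha)) b (hG1 (hG2 hb))
    · -- the second coordinate is dropped
      have c32 := c13.trans c21
      have hn2 : (n.2.1 : ℝ) ≠ 0 := by
        intro h0
        rw [h0, abs_zero, zero_mul] at c32 c21
        exact hn ⟨zero_of _ _ hh0 c21, by exact_mod_cast h0, zero_of _ _ hh0 c32⟩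
      refine Lb.one _ (fun f => (f.1 : ℝ)) h (κ / 2) _ hh0 hκ2 hκ21
        (fun a ha => (Lb.bounds ha).1) fun G1 hG1 c1 => ?_
      refine Lb.one _ (fun f => (f.2.2 : ℝ)) h (κ / 2) _ hh0 hκ2 hκ21
        (fun a ha => (Lb.bounds (hG1 ha)).2.2) fun G2 hG2 c2 => ?_
      refine Lb.close H ρ k κ hk hκ hκ1 hR hno G2 (hG2.trans hG1)
        (fun a ha b hb => half _ _ hh0 (c1 a (hG2 ha) b (hG2 hb))) (fun a ha b hb => ?_)
        (fun a ha b hb => half _ _ hh0 (c2 a ha b hb))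
      refine Lb.third n.1 n.2.2 n.2.1 _ _ _ h h ((h : ℝ) ^ 2) κ hκ c21 c32 hn2 ?_
        (c1 a (hG2 ha) b (hG2 hb)) (c2 a ha b hb)
      linear_combination pl a (hG1 (hG2 ha)) b (hG1 (hG2 hb))

end Pool.Agent.H.MP_03bc95_nt
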