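import Pool.Agent.H.MP_03bc95_nt.L2
import Pool.Agent.H.MP_03bc95_nt.Lb

open Finset

namespace Pool.Agent.H.MP_03bc95_nt

theorem five_rank3 {L Φ k t h : ℝ} (hL0 : 0 < L) (hΦ1 : 1 ≤ Φ) (hk : 0 < k) (ht : 1 ≤ t)
    (ht3 : t ^ 3 = h) (hΦt : t ^ 2 ≤ Φ) (hΦk : h / k ≤ Φ ^ 2) (hLh : L ≤ h) :
    (7 / (300 * Φ / L)) ^ 3 * (1 + (300 * Φ / L) / k) < L := by
  have e : (7 / (300 * Φ / L)) ^ 3 * (1 + (300 * Φ / L) / k) =
      343 * (L ^ 2 / Φ ^ 3 / 27000000 + L / k / Φ ^ 2 / 90000) * L := by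
    field_simp
    ring
  rw [e]
  have h1 : L ^ 2 / Φ ^ 3 ≤ 1 := by
    rw [div_le_one (by positivity)]
    calc L ^ 2 ≤ h ^ 2 := by gcongr
      _ = (t ^ 2) ^ 3 := by rw [← ht3]; ring
      _ ≤ Φ ^ 3 := by gcongr
  have h2 : L / k / Φ ^ 2 ≤ 1 := by
    rw [div_le_one (by positivity)]
    calc L / k ≤ h / k := by gcongr
      _ ≤ Φ ^ 2 := hΦk
  have h3 : 343 * (L ^ 2 / Φ ^ 3 / 27000000 + L / k / Φ ^ 2 / 90000) < 1 := by linarith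
  nlinarith

theorem five_plane {L Φ k t h : ℝ} (hL0 : 0 < L) (hΦ1 : 1 ≤ Φ) (hk : 0 < k) (ht : 1 ≤ t)
    (ht3 : t ^ 3 = h) (hΦt : t ^ 2 ≤ Φ) (hΦk : 1 ≤ Φ * k) (hLh : L ≤ 7 * h * (6 * t + 1)) :
    (14 / (300 * Φ / L)) ^ 2 * (1 + (300 * Φ / L) / k) < L := by
  have e : (14 / (300 * Φ / L)) ^ 2 * (1 + (300 * Φ / L) / k) =
      196 * (L / Φ ^ 2 / 90000 + 1 / (Φ * k) / 300) * L := by
    field_simp
    ring
  rw [e]
  have h1 : L / Φ ^ 2 ≤ 49 := by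
    rw [div_le_iff₀ (by positivity)]
    calc L ≤ 7 * h * (6 * t + 1) := hLh
      _ ≤ 7 * t ^ 3 * (7 * t) := by
        rw [ht3]
        have : 0 ≤ h := by rw [← ht3]; positivity
        gcongr
        linarith
      _ = 49 * (t ^ 2) ^ 2 := by ring
      _ ≤ 49 * Φ ^ 2 := by gcongr
  have h2 : 1 / (Φ * k) ≤ 1 := by
    rw [div_le_one (by positivity)]
    exact hΦk
  have h3 : 196 * (L / Φ ^ 2 / 90000 + 1 / (Φ * k) / 300) < 1 := by linarith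
  nlinarith

/-- Lemma 5. `k ≥ 1/h` is a lower bound for the scaled norm of the vectors `(a,b)`, `a = ρ b`.
`Φ = t^2 + √(h/k)`. Proof: `L = #Lam3`. If `L ≤ 300 Φ` use `sol_le_two_lam`. Otherwise put
`κ = 300 Φ / L < 1`. If there is `f ∈ Lam` with `f_u ≠ 0` of size `≤ κ`, use `lemma1`
(`2 m κ L = 600 m Φ`). If not: when some `det3 ≠ 0`, `L ≤ h = t^3` and `cells3` gives
`1 ≤ 343 (L^2/(300Φ)^3 + L/((300Φ)^2 k))`, but `Φ^3 ≥ t^6 ≥ L^2` and `Φ^2 ≥ h/k ≥ L/k`: contradiction.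
When all `det3 = 0`: `exists_normal`, `cells2`:
`1 ≤ 196 (L/(300Φ)^2 + 1/(300 Φ k))` with `L ≤ 7 t^3 (6t+1) ≤ 49 t^4`, `Φ^2 ≥ t^4`,
`Φ ≥ √(h/k) ≥ 1/k` (because `h k ≥ 1`): contradiction. -/
theorem lemma5 {p : ℕ} [Fact p.Prime] {S : ℤ} {h m : ℕ} (H : Hyp p S h m) (ρ : ZMod p)
    (hρ : ρ ≠ 0) (t : ℝ) (ht : 1 ≤ t) (ht3 : t ^ 3 = h) (hL : LBS p S h (1 / t))
    (k : ℝ) (hk : 1 / (h : ℝ) ≤ k) (hR : LBR p h ρ k) :
    ((Sol p S h ρ).card : ℝ) ≤ 600 * m * (t ^ 2 + Real.sqrt (h / k)) + (Triv p S h ρ).card := by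
  have hh : (1 : ℝ) ≤ h := by exact_mod_cast H.hh
  have hh0 : (0 : ℝ) < h := by linarith
  have hk0 : 0 < k := lt_of_lt_of_le (by positivity) hk
  have hhk : 1 ≤ k * h := by rwa [div_le_iff₀ hh0] at hk
  have hQ0 : 0 ≤ Real.sqrt (h / k) := Real.sqrt_nonneg _
  have hQ2 : Real.sqrt (h / k) ^ 2 = h / k := Real.sq_sqrt (by positivity)
  have hQk : 1 ≤ Real.sqrt (h / k) * k := by
    have h1 : (1 / k) ≤ Real.sqrt (h / k) := by
      apply Real.le_sqrt_of_sq_le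
      rw [div_pow, one_pow, div_le_div_iff₀ (by positivity) hk0]
      nlinarith
    rwa [div_le_iff₀ hk0] at h1
  generalize Real.sqrt (h / k) = Q at hQ0 hQ2 hQk
  have ht2 : 1 ≤ t ^ 2 := one_le_pow₀ ht
  obtain ⟨Φ, hΦ⟩ : ∃ Φ, Φ = t ^ 2 + Q := ⟨_, rfl⟩
  rw [← hΦ]
  have hΦt : t ^ 2 ≤ Φ := by linarith
  have hΦ1 : 1 ≤ Φ := by linarith
  have hΦQ : Q ≤ Φ := by linarith
  have hm : 2 ≤ m := by
    have h1 := H.hm 1 one_ne_zero (by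
      have : (1 : ℤ) ≤ (h : ℤ) ^ 6 := by
        have : (1 : ℤ) ≤ h := by exact_mod_cast H.hh
        exact one_le_pow₀ this
      rw [abs_one]
      linarith)
    simpa using h1
  have hm' : (2 : ℝ) ≤ m := by exact_mod_cast hm
  have hT : (0 : ℝ) ≤ (Triv p S h ρ).card := Nat.cast_nonneg _
  by_cases hc : ((Lam3 p S h ρ).card : ℝ) ≤ 300 * Φ
  · have h1 : ((Sol p S h ρ).card : ℝ) ≤ 2 * (Lam3 p S h ρ).card := by
      exact_mod_cast sol_le_two_lam H ρ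
    have h2 : 600 * Φ ≤ 600 * m * Φ := by nlinarith
    linarith
  · push Not at hc
    have hL0 : (0 : ℝ) < (Lam3 p S h ρ).card := by linarith
    have hκ : 0 < 300 * Φ / (Lam3 p S h ρ).card := by positivity
    have hκ1 : 300 * Φ / (Lam3 p S h ρ).card ≤ 1 := by
      rw [div_le_one hL0]
      exact hc.le
    by_cases hf : ∃ f : ℤ × ℤ × ℤ, InLam p S ρ f ∧
        |(f.1 : ℝ)| ≤ 300 * Φ / (Lam3 p S h ρ).card * h ∧
        |(f.2.1 : ℝ)| ≤ 300 * Φ / (Lam3 p S h ρ).card * (h : ℝ) ^ 2 ∧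
        |(f.2.2 : ℝ)| ≤ 300 * Φ / (Lam3 p S h ρ).card * h ∧ f.1 ≠ 0
    · obtain ⟨f, hf0, hf1, hf2, hf3, hfu⟩ := hf
      have h1 := lemma1 H ρ hρ f _ hκ hκ1 hf0 hfu hf1 hf2 hf3
      have e : 2 * (m : ℝ) * (300 * Φ / (Lam3 p S h ρ).card) * (Lam3 p S h ρ).card =
          600 * m * Φ := by
        field_simp
        ring
      rw [e] at h1
      exact h1
    · exfalso
      have hno : ∀ f : ℤ × ℤ × ℤ, InLam p S ρ f →
          |(f.1 : ℝ)| ≤ 300 * Φ / (Lam3 p S h ρ).card * h →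
          |(f.2.1 : ℝ)| ≤ 300 * Φ / (Lam3 p S h ρ).card * (h : ℝ) ^ 2 →
          |(f.2.2 : ℝ)| ≤ 300 * Φ / (Lam3 p S h ρ).card * h → f.1 = 0 := by
        intro f h0 h1 h2 h3
        by_contra hne
        exact hf ⟨f, h0, h1, h2, h3, hne⟩
      by_cases h3 : ∃ a ∈ Lam3 p S h ρ, ∃ b ∈ Lam3 p S h ρ, ∃ c ∈ Lam3 p S h ρ, det3 a b c ≠ 0
      · have h4 := lam3_rank3 H ρ h3
        have h4' : ((Lam3 p S h ρ).card : ℝ) ≤ h := by exact_mod_cast h4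
        have h5 := cells3 H ρ k _ hk0 hκ hκ1 hR hno
        have h6 := five_rank3 hL0 hΦ1 hk0 ht ht3 hΦt (by rw [← hQ2]; gcongr) h4'
        exact absurd h5 (not_le.2 h6)
      · have h3' : ∀ a ∈ Lam3 p S h ρ, ∀ b ∈ Lam3 p S h ρ, ∀ c ∈ Lam3 p S h ρ,
            det3 a b c = 0 := by
          intro a ha b hb c hc
          by_contra hne
          exact h3 ⟨a, ha, b, hb, c, hc, hne⟩
        obtain ⟨n, hn, hpl⟩ := exists_normal _ h3'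
        have h4 := lam3_le H ρ t ht hL
        have h5 := cells2 H ρ k _ hk0 hκ hκ1 hR hno n hn hpl
        have h6 := five_plane hL0 hΦ1 hk0 ht ht3 hΦt (by nlinarith) h4
        exact absurd h5 (not_le.2 h6)

end Pool.Agent.H.MP_03bc95_nt
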