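import Pool.Agent.H.MP_03bc95_nt.P1

open Finset

namespace Pool.Agent.H.MP_03bc95_nt

/-- The nondegenerate solutions for the direction `f`. -/
noncomputable def NDeg (p : ℕ) (S : ℤ) (h : ℕ) (ρ : ZMod p) (f : ℤ × ℤ × ℤ) : Finset (ℤ × ℤ × ℤ) :=
  (Sol p S h ρ).filter fun z => (f.2.1 - f.1 * z.1) * (f.2.1 - f.1 * z.2.1) ≠ 0

theorem mem_Sol_L1 {p : ℕ} {S : ℤ} {h : ℕ} {ρ : ZMod p} {z : ℤ × ℤ × ℤ} :
    z ∈ Sol p S h ρ ↔ ((1 ≤ z.1 ∧ z.1 ≤ h) ∧ (1 ≤ z.2.1 ∧ z.2.1 ≤ h) ∧ (1 ≤ z.2.2 ∧ z.2.2 ≤ h)) ∧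
      ((S + z.1 : ℤ) : ZMod p) * ((S + z.2.1 : ℤ) : ZMod p) = ρ * ((S + z.2.2 : ℤ) : ZMod p) := by
  rw [Sol, mem_filter, mem_product, mem_product, mem_Icc, mem_Icc, mem_Icc]

theorem mem_Lam3_L1 {p : ℕ} {S : ℤ} {h : ℕ} {ρ : ZMod p} {f : ℤ × ℤ × ℤ} :
    f ∈ Lam3 p S h ρ ↔ ((-(3 * (h : ℤ)) ≤ f.1 ∧ f.1 ≤ 3 * h) ∧
      (-(3 * (h : ℤ) ^ 2) ≤ f.2.1 ∧ f.2.1 ≤ 3 * (h : ℤ) ^ 2) ∧
      (-(3 * (h : ℤ)) ≤ f.2.2 ∧ f.2.2 ≤ 3 * h)) ∧
      ((f.1 * S + f.2.1 : ℤ) : ZMod p) = ρ * (f.2.2 : ZMod p) := by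
  rw [Lam3, mem_filter, mem_product, mem_product, mem_Icc, mem_Icc, mem_Icc]

/-- the difference of two solutions plus a multiple of a lattice vector is in the box -/
theorem diff_mem_L1 {p : ℕ} {S : ℤ} {h : ℕ} {ρ : ZMod p} {z z' f : ℤ × ℤ × ℤ} {j : ℤ}
    (hz : z ∈ Sol p S h ρ) (hz' : z' ∈ Sol p S h ρ) (hf : InLam p S ρ f)
    (h1 : |j * f.1| ≤ h) (h2 : |j * f.2.1| ≤ (h : ℤ) ^ 2) (h3 : |j * f.2.2| ≤ h) :
    (z.1 + z.2.1 - (z'.1 + z'.2.1) + j * f.1, z.1 * z.2.1 - z'.1 * z'.2.1 + j * f.2.1,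
      z.2.2 - z'.2.2 + j * f.2.2) ∈ Lam3 p S h ρ := by
  rw [mem_Sol_L1] at hz hz'
  obtain ⟨⟨a1, a2, a3⟩, a4⟩ := hz
  obtain ⟨⟨b1, b2, b3⟩, b4⟩ := hz'
  rw [abs_le] at h1 h2 h3
  have c1 : 1 ≤ z.1 * z.2.1 := by nlinarith [a1.1, a2.1]
  have c2 : z.1 * z.2.1 ≤ (h : ℤ) ^ 2 := by nlinarith [a1.1, a1.2, a2.1, a2.2]
  have c3 : 1 ≤ z'.1 * z'.2.1 := by nlinarith [b1.1, b2.1]
  have c4 : z'.1 * z'.2.1 ≤ (h : ℤ) ^ 2 := by nlinarith [b1.1, b1.2, b2.1, b2.2]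
  rw [mem_Lam3_L1]
  refine ⟨⟨⟨?_, ?_⟩, ⟨?_, ?_⟩, ⟨?_, ?_⟩⟩, ?_⟩
  · dsimp only
    linarith [a1.1, a2.1, b1.2, b2.2, h1.1]
  · dsimp only
    linarith [a1.2, a2.2, b1.1, b2.1, h1.2]
  · dsimp only
    nlinarith [h2.1]
  · dsimp only
    nlinarith [h2.2]
  · dsimp only
    linarith [a3.1, b3.2, h3.1]
  · dsimp only
    linarith [a3.2, b3.1, h3.2]
  · have hf' : ((f.1 * S + f.2.1 : ℤ) : ZMod p) = ρ * (f.2.2 : ZMod p) := hf
    push_cast at a4 b4 hf' ⊢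
    linear_combination a4 - b4 + (j : ZMod p) * hf'

/-- the elements of `NDeg` on one line -/
theorem fibre_L1 {p : ℕ} {S : ℤ} {h m : ℕ} (H : Hyp p S h m) (ρ : ZMod p)
    (f : ℤ × ℤ × ℤ) (hfu : f.1 ≠ 0) (h1 : |f.1| ≤ h) (h2 : |f.2.1| ≤ (h : ℤ) ^ 2)
    (z' w : ℤ × ℤ × ℤ) (T : ℕ) :
    ((NDeg p S h ρ f ×ˢ range T).filter fun q : (ℤ × ℤ × ℤ) × ℕ =>
      (q.1.1 + q.1.2.1 - (z'.1 + z'.2.1) + (q.2 : ℤ) * f.1,
        q.1.1 * q.1.2.1 - z'.1 * z'.2.1 + (q.2 : ℤ) * f.2.1,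
        q.1.2.2 - z'.2.2 + (q.2 : ℤ) * f.2.2) = w).card ≤ m := by
  set F := ((NDeg p S h ρ f ×ˢ range T).filter fun q : (ℤ × ℤ × ℤ) × ℕ =>
      (q.1.1 + q.1.2.1 - (z'.1 + z'.2.1) + (q.2 : ℤ) * f.1,
        q.1.1 * q.1.2.1 - z'.1 * z'.2.1 + (q.2 : ℤ) * f.2.1,
        q.1.2.2 - z'.2.2 + (q.2 : ℤ) * f.2.2) = w) with hF
  rcases F.eq_empty_or_nonempty with he | ⟨q0, hq0⟩
  · rw [he, card_empty]
    exact Nat.zero_le _
  have hmem : ∀ q ∈ F, q.1 ∈ NDeg p S h ρ f ∧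
      q.1.1 + q.1.2.1 = w.1 + (z'.1 + z'.2.1) - (q.2 : ℤ) * f.1 ∧
      q.1.1 * q.1.2.1 = w.2.1 + z'.1 * z'.2.1 - (q.2 : ℤ) * f.2.1 ∧
      q.1.2.2 = w.2.2 + z'.2.2 - (q.2 : ℤ) * f.2.2 := by
    intro q hq
    rw [hF, mem_filter, mem_product] at hq
    obtain ⟨⟨e1, -⟩, e2⟩ := hq
    refine ⟨e1, ?_, ?_, ?_⟩
    · rw [← e2]
      dsimp only
      ring
    · rw [← e2]
      dsimp only
      ring
    · rw [← e2]
      dsimp only
      ring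
  obtain ⟨n, hn⟩ : ∃ n : ℤ, n = f.2.1 ^ 2 - f.2.1 * f.1 * (w.1 + (z'.1 + z'.2.1)) +
    f.1 ^ 2 * (w.2.1 + z'.1 * z'.2.1) := ⟨_, rfl⟩
  have hprod : ∀ q ∈ F, (f.2.1 - f.1 * q.1.1) * (f.2.1 - f.1 * q.1.2.1) = n := by
    intro q hq
    obtain ⟨-, e1, e2, -⟩ := hmem q hq
    rw [hn]
    linear_combination (-f.2.1 * f.1) * e1 + f.1 ^ 2 * e2
  have hn0 : n ≠ 0 := by
    rw [← hprod q0 hq0]
    have := (hmem q0 hq0).1
    rw [NDeg, mem_filter] at this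
    exact this.2
  have hb : |n| ≤ 1000 * (h : ℤ) ^ 6 := by
    have e0 := (hmem q0 hq0).1
    rw [NDeg, mem_filter, mem_Sol_L1] at e0
    obtain ⟨⟨⟨a1, a2, -⟩, -⟩, -⟩ := e0
    have hh : (1 : ℤ) ≤ h := by exact_mod_cast H.hh
    have e3 : |f.2.1 - f.1 * q0.1.1| ≤ 2 * (h : ℤ) ^ 2 := by
      refine (abs_sub _ _).trans ?_
      rw [abs_mul, abs_of_pos (lt_of_lt_of_le one_pos a1.1)]
      have : |f.1| * q0.1.1 ≤ (h : ℤ) * h := mul_le_mul h1 a1.2 (by linarith [a1.1]) (by linarith)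
      nlinarith
    have e4 : |f.2.1 - f.1 * q0.1.2.1| ≤ 2 * (h : ℤ) ^ 2 := by
      refine (abs_sub _ _).trans ?_
      rw [abs_mul, abs_of_pos (lt_of_lt_of_le one_pos a2.1)]
      have : |f.1| * q0.1.2.1 ≤ (h : ℤ) * h :=
        mul_le_mul h1 a2.2 (by linarith [a2.1]) (by linarith)
      nlinarith
    rw [← hprod q0 hq0, abs_mul]
    calc |f.2.1 - f.1 * q0.1.1| * |f.2.1 - f.1 * q0.1.2.1| ≤
        (2 * (h : ℤ) ^ 2) * (2 * (h : ℤ) ^ 2) := mul_le_mul e3 e4 (abs_nonneg _) (by positivity)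
      _ = 4 * (h : ℤ) ^ 4 := by ring
      _ ≤ 1000 * (h : ℤ) ^ 6 := by
        have : (h : ℤ) ^ 4 ≤ (h : ℤ) ^ 6 := pow_le_pow_right₀ hh (by norm_num)
        have h0 : (0 : ℤ) ≤ (h : ℤ) ^ 4 := by positivity
        linarith
  refine (card_factor F (fun q => f.2.1 - f.1 * q.1.1) (fun q => f.2.1 - f.1 * q.1.2.1) n hn0
    hprod ?_).trans (H.hm n hn0 hb)
  intro q hq q' hq' heq
  have e1 : q.1.1 = q'.1.1 := by
    have : f.1 * (q.1.1 - q'.1.1) = 0 := by linear_combination -heq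
    rcases mul_eq_zero.mp this with h4 | h4
    · exact absurd h4 hfu
    · linarith
  have hne : f.2.1 - f.1 * q.1.1 ≠ 0 := by
    intro h4
    apply hn0
    rw [← hprod q hq, h4, zero_mul]
  have e2 : q.1.2.1 = q'.1.2.1 := by
    have h4 : (f.2.1 - f.1 * q.1.1) * (f.1 * (q.1.2.1 - q'.1.2.1)) = 0 := by
      linear_combination -(hprod q hq) + (hprod q' hq') + (f.2.1 - f.1 * q'.1.2.1) * heq
    rcases mul_eq_zero.mp h4 with h5 | h5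
    · exact absurd h5 hne
    · rcases mul_eq_zero.mp h5 with h6 | h6
      · exact absurd h6 hfu
      · linarith
  obtain ⟨-, a1, -, a3⟩ := hmem q hq
  obtain ⟨-, b1, -, b3⟩ := hmem q' hq'
  have e3 : (q.2 : ℤ) = q'.2 := by
    have : f.1 * ((q.2 : ℤ) - q'.2) = 0 := by linear_combination a1 - b1 - e1 - e2
    rcases mul_eq_zero.mp this with h4 | h4
    · exact absurd h4 hfu
    · linarith
  have e4 : q.1.2.2 = q'.1.2.2 := by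
    rw [a3, b3, e3]
  exact Prod.ext (Prod.ext e1 (Prod.ext e2 e4)) (by exact_mod_cast e3)

/-- Nondegenerate solutions. `F(b,c) = (f_v - f_u b)(f_v - f_u c) = f_v^2 - f_v f_u u + f_u^2 v` with
`u = b + c`, `v = b c` is constant on each line `(u,v,g) + ℤ f`, and on one line the solutions with
`F ≠ 0` are at most `2 τ(|F|) ≤ m` (the divisor `f_v - f_u b` of `F` gives `b` (as `f_u ≠ 0`), then
`f_v - f_u c` gives `c`, then `u = b + c` gives the position on the line, hence `g`);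
`|F| ≤ (2 h^2)^2`. Let `T = ⌊1/κ⌋₊`. If there is no solution clear; fix a solution `τ*`. The map
`(τ, j) ↦ τ - τ* + j f` (in the coordinates `(u,v,g)`), `0 ≤ j ≤ T`, goes to `Lam3` and each fibre lies on
one line and has at most `m` elements. So `#NDeg (T+1) ≤ m #Lam3`, and `T + 1 ≥ 1/κ`. -/
theorem ndeg_card {p : ℕ} [Fact p.Prime] {S : ℤ} {h m : ℕ} (H : Hyp p S h m) (ρ : ZMod p)
    (f : ℤ × ℤ × ℤ) (κ : ℝ) (hκ : 0 < κ) (hκ1 : κ ≤ 1) (hf : InLam p S ρ f) (hfu : f.1 ≠ 0)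
    (h1 : |(f.1 : ℝ)| ≤ κ * h) (h2 : |(f.2.1 : ℝ)| ≤ κ * (h : ℝ) ^ 2)
    (h3 : |(f.2.2 : ℝ)| ≤ κ * h) :
    ((NDeg p S h ρ f).card : ℝ) ≤ m * κ * (Lam3 p S h ρ).card := by
  rcases (NDeg p S h ρ f).eq_empty_or_nonempty with he | ⟨z', hz'⟩
  · rw [he, card_empty, Nat.cast_zero]
    positivity
  have hh0 : (0 : ℝ) ≤ h := Nat.cast_nonneg h
  have hz'S : z' ∈ Sol p S h ρ := (mem_filter.mp hz').1
  obtain ⟨T, hT⟩ : ∃ T : ℕ, T = ⌊1 / κ⌋₊ := ⟨_, rfl⟩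
  have hT1 : (T : ℝ) * κ ≤ 1 := by
    have : (T : ℝ) ≤ 1 / κ := by
      rw [hT]
      exact Nat.floor_le (by positivity)
    calc (T : ℝ) * κ ≤ 1 / κ * κ := mul_le_mul_of_nonneg_right this hκ.le
      _ = 1 := by field_simp
  have hT2 : 1 ≤ ((T : ℝ) + 1) * κ := by
    have : 1 / κ < (T : ℝ) + 1 := by
      rw [hT]
      exact Nat.lt_floor_add_one _
    rw [div_lt_iff₀ hκ] at this
    exact this.le
  -- bounds for the multiples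
  have hmul : ∀ (x : ℤ) (B : ℕ), |(x : ℝ)| ≤ κ * B → ∀ j ∈ range (T + 1), |(j : ℤ) * x| ≤ B := by
    intro x B hx j hj
    rw [mem_range] at hj
    have hjT : (j : ℝ) ≤ T := by exact_mod_cast Nat.lt_succ_iff.mp hj
    have hB : (0 : ℝ) ≤ B := Nat.cast_nonneg B
    have e1 : |((j : ℤ) * x : ℝ)| ≤ B := by
      rw [abs_mul]
      have e2 : |((j : ℤ) : ℝ)| = j := by
        rw [Int.cast_natCast]
        exact abs_of_nonneg (Nat.cast_nonneg j)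
      rw [e2]
      calc (j : ℝ) * |(x : ℝ)| ≤ T * (κ * B) := mul_le_mul hjT hx (abs_nonneg _) (Nat.cast_nonneg T)
        _ = (T * κ) * B := by ring
        _ ≤ 1 * B := mul_le_mul_of_nonneg_right hT1 hB
        _ = B := one_mul _
    exact_mod_cast e1
  have h1' : ∀ j ∈ range (T + 1), |(j : ℤ) * f.1| ≤ h := hmul _ _ h1
  have h3' : ∀ j ∈ range (T + 1), |(j : ℤ) * f.2.2| ≤ h := hmul _ _ h3
  have h2' : ∀ j ∈ range (T + 1), |(j : ℤ) * f.2.1| ≤ (h : ℤ) ^ 2 := by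
    intro j hj
    have := hmul f.2.1 (h ^ 2) (by push_cast; exact h2) j hj
    exact_mod_cast this
  have g1 : |f.1| ≤ h := by
    have : |(f.1 : ℝ)| ≤ h := h1.trans (by nlinarith)
    exact_mod_cast this
  have g2 : |f.2.1| ≤ (h : ℤ) ^ 2 := by
    have : |(f.2.1 : ℝ)| ≤ (h : ℝ) ^ 2 := h2.trans (by nlinarith [sq_nonneg (h : ℝ)])
    exact_mod_cast this
  have key := card_le_mul_card_image_of_maps_to (s := NDeg p S h ρ f ×ˢ range (T + 1))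
    (t := Lam3 p S h ρ) (f := fun q : (ℤ × ℤ × ℤ) × ℕ =>
      (q.1.1 + q.1.2.1 - (z'.1 + z'.2.1) + (q.2 : ℤ) * f.1,
        q.1.1 * q.1.2.1 - z'.1 * z'.2.1 + (q.2 : ℤ) * f.2.1,
        q.1.2.2 - z'.2.2 + (q.2 : ℤ) * f.2.2)) (by
      intro q hq
      rw [mem_product] at hq
      exact diff_mem_L1 (mem_filter.mp hq.1).1 hz'S hf (h1' _ hq.2) (h2' _ hq.2) (h3' _ hq.2)) m
    (fun w _ => fibre_L1 H ρ f hfu g1 g2 z' w (T + 1))
  rw [card_product, card_range] at key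
  have key' : ((NDeg p S h ρ f).card : ℝ) * ((T : ℝ) + 1) ≤ m * (Lam3 p S h ρ).card := by
    exact_mod_cast key
  calc ((NDeg p S h ρ f).card : ℝ) = (NDeg p S h ρ f).card * 1 := (mul_one _).symm
    _ ≤ (NDeg p S h ρ f).card * (((T : ℝ) + 1) * κ) :=
      mul_le_mul_of_nonneg_left hT2 (Nat.cast_nonneg _)
    _ = ((NDeg p S h ρ f).card * ((T : ℝ) + 1)) * κ := by ring
    _ ≤ (m * (Lam3 p S h ρ).card) * κ := mul_le_mul_of_nonneg_right key' hκ.le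
    _ = m * κ * (Lam3 p S h ρ).card := by ring

/-- `N(ρ) ≤ 2 L`: fix one solution, all differences `(u,v,g)` are in `Lam3`, and `(u,v,g)` determines
`(b,c,g)` up to exchange of `b`, `c`. -/
theorem sol_le_two_lam {p : ℕ} [Fact p.Prime] {S : ℤ} {h m : ℕ} (H : Hyp p S h m) (ρ : ZMod p) :
    (Sol p S h ρ).card ≤ 2 * (Lam3 p S h ρ).card := by
  rcases (Sol p S h ρ).eq_empty_or_nonempty with he | ⟨z', hz'⟩
  · rw [he, card_empty]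
    exact Nat.zero_le _
  have hL0 : InLam p S ρ (0, 0, 0) := by
    unfold InLam
    simp
  refine card_le_mul_card_image_of_maps_to (f := fun z : ℤ × ℤ × ℤ =>
      (z.1 + z.2.1 - (z'.1 + z'.2.1) + 0 * (0 : ℤ), z.1 * z.2.1 - z'.1 * z'.2.1 + 0 * (0 : ℤ),
        z.2.2 - z'.2.2 + 0 * (0 : ℤ))) (fun z hz => ?_) 2 (fun w _ => ?_)
  · exact diff_mem_L1 (f := (0, 0, 0)) hz hz' hL0 (by simp) (by simp) (by simp)
  · rcases ((Sol p S h ρ).filter fun z : ℤ × ℤ × ℤ =>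
      (z.1 + z.2.1 - (z'.1 + z'.2.1) + 0 * (0 : ℤ), z.1 * z.2.1 - z'.1 * z'.2.1 + 0 * (0 : ℤ),
        z.2.2 - z'.2.2 + 0 * (0 : ℤ)) = w).eq_empty_or_nonempty with he | ⟨z0, hz0⟩
    · rw [he, card_empty]
      exact Nat.zero_le _
    · refine (card_le_card (t := {z0, (z0.2.1, z0.1, z0.2.2)}) ?_).trans card_le_two
      intro z hz
      rw [mem_filter] at hz hz0
      have e := hz.2.trans hz0.2.symm
      have e1 := congrArg Prod.fst e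
      have e2 := congrArg (fun q => q.2.1) e
      have e3 := congrArg (fun q => q.2.2) e
      dsimp only at e1 e2 e3
      have hs : z.1 + z.2.1 = z0.1 + z0.2.1 := by linarith
      have hp : z.1 * z.2.1 = z0.1 * z0.2.1 := by linarith
      have hg : z.2.2 = z0.2.2 := by linarith
      have hq : (z.1 - z0.1) * (z.1 - z0.2.1) = 0 := by linear_combination z.1 * hs - hp
      rw [mem_insert, mem_singleton]
      rcases mul_eq_zero.mp hq with h4 | h4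
      · left
        have e4 : z.1 = z0.1 := by linarith
        exact Prod.ext e4 (Prod.ext (by linarith) hg)
      · right
        have e4 : z.1 = z0.2.1 := by linarith
        exact Prod.ext e4 (Prod.ext (show z.2.1 = z0.1 by linarith) hg)

end Pool.Agent.H.MP_03bc95_nt
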