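import Pool.Agent.H.MP_03bc95_nt.L1

open Finset

namespace Pool.Agent.H.MP_03bc95_nt

/-- A nonzero integer of absolute value less than `p` is nonzero modulo `p`. -/
theorem l2_cast_ne {p : ℕ} (a : ℤ) (ha : a ≠ 0) (h : |a| < p) : (a : ZMod p) ≠ 0 := by
  intro h0
  rw [ZMod.intCast_zmod_eq_zero_iff_dvd] at h0
  exact ha (Int.eq_zero_of_abs_lt_dvd h0 h)

/-- The degenerate case: `f_v = f_u c`. Either the solution is trivial or we find a short vector
`(a, b')` with `a S + b' = 0`. -/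
theorem l2_deg {p : ℕ} [Fact p.Prime] {S : ℤ} {h m : ℕ} (H : Hyp p S h m) (ρ : ZMod p)
    (f : ℤ × ℤ × ℤ) (κ : ℝ) (hκ : 0 < κ) (hκ1 : κ ≤ 1) (hf : InLam p S ρ f)
    (hfu : f.1 ≠ 0) (h1 : |(f.1 : ℝ)| ≤ κ * h)
    (h3 : |(f.2.2 : ℝ)| ≤ κ * h) (b c g : ℤ) (hb : 1 ≤ b ∧ b ≤ h) (hc : 1 ≤ c ∧ c ≤ h)
    (hg : 1 ≤ g ∧ g ≤ h)
    (heq : ((S + b : ℤ) : ZMod p) * ((S + c : ℤ) : ZMod p) = ρ * ((S + g : ℤ) : ZMod p))
    (hF : f.2.1 = f.1 * c) :
    (g = b ∧ ((S + c : ℤ) : ZMod p) = ρ) ∨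
      ∃ a b' : ℤ, ¬ (a = 0 ∧ b' = 0) ∧ ((a * S + b' : ℤ) : ZMod p) = 0 ∧
        |(a : ℝ)| ≤ 2 * κ * h ∧ |(b' : ℝ)| ≤ 2 * κ * (h : ℝ) ^ 2 := by
  have hh1 : (1 : ℝ) ≤ h := by exact_mod_cast H.hh
  have hSc : ((S + c : ℤ) : ZMod p) ≠ 0 := H.hS c hc.1 hc.2
  have e1 : (f.1 : ZMod p) * ((S + c : ℤ) : ZMod p) = ρ * (f.2.2 : ZMod p) := by
    have := hf
    unfold InLam at this
    rw [← this, hF]
    push_cast
    ring
  have e2 : (f.1 : ZMod p) * ((S + g : ℤ) : ZMod p)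
      = (f.2.2 : ZMod p) * ((S + b : ℤ) : ZMod p) := by
    apply mul_right_cancel₀ hSc
    calc (f.1 : ZMod p) * ((S + g : ℤ) : ZMod p) * ((S + c : ℤ) : ZMod p)
        = ((f.1 : ZMod p) * ((S + c : ℤ) : ZMod p)) * ((S + g : ℤ) : ZMod p) := by ring
      _ = (f.2.2 : ZMod p) * (ρ * ((S + g : ℤ) : ZMod p)) := by rw [e1]; ring
      _ = (f.2.2 : ZMod p) * ((S + b : ℤ) : ZMod p) * ((S + c : ℤ) : ZMod p) := by
          rw [← heq]; ring
  by_cases h0 : f.1 - f.2.2 = 0 ∧ f.1 * g - f.2.2 * b = 0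
  · left
    obtain ⟨h01, h02⟩ := h0
    have h01' : f.2.2 = f.1 := by omega
    rw [h01'] at h02
    have hgb : g = b := by
      have : f.1 * (g - b) = 0 := by linarith [h02, mul_sub f.1 g b]
      rcases mul_eq_zero.mp this with h' | h'
      · exact absurd h' hfu
      · omega
    refine ⟨hgb, ?_⟩
    rw [h01'] at e1
    have hfp : (f.1 : ZMod p) ≠ 0 := by
      apply l2_cast_ne f.1 hfu
      have hle : |(f.1 : ℝ)| ≤ h := by
        refine h1.trans ?_
        nlinarith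
      have hle' : |f.1| ≤ (h : ℤ) := by exact_mod_cast hle
      have hp := H.hp
      have hh := H.hh
      have : (h : ℕ) < p := by
        have : h ≤ h ^ 3 := Nat.le_self_pow (by norm_num) h
        omega
      have : (h : ℤ) < p := by exact_mod_cast this
      omega
    have : (f.1 : ZMod p) * ((S + c : ℤ) : ZMod p) = (f.1 : ZMod p) * ρ := by
      rw [e1]; ring
    exact mul_left_cancel₀ hfp this
  · right
    refine ⟨f.1 - f.2.2, f.1 * g - f.2.2 * b, h0, ?_, ?_, ?_⟩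
    · have : (((f.1 - f.2.2) * S + (f.1 * g - f.2.2 * b) : ℤ) : ZMod p)
          = (f.1 : ZMod p) * ((S + g : ℤ) : ZMod p)
            - (f.2.2 : ZMod p) * ((S + b : ℤ) : ZMod p) := by
        push_cast
        ring
      rw [this, e2, sub_self]
    · push_cast
      calc |(f.1 : ℝ) - (f.2.2 : ℝ)| ≤ |(f.1 : ℝ)| + |(f.2.2 : ℝ)| := abs_sub _ _
        _ ≤ κ * h + κ * h := add_le_add h1 h3
        _ = 2 * κ * h := by ring
    · push_cast
      have hg1 : |(g : ℝ)| ≤ h := by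
        rw [abs_of_nonneg (by exact_mod_cast (by omega : (0 : ℤ) ≤ g))]
        exact_mod_cast hg.2
      have hb1 : |(b : ℝ)| ≤ h := by
        rw [abs_of_nonneg (by exact_mod_cast (by omega : (0 : ℤ) ≤ b))]
        exact_mod_cast hb.2
      have hκh : 0 ≤ κ * h := by positivity
      calc |(f.1 : ℝ) * (g : ℝ) - (f.2.2 : ℝ) * (b : ℝ)|
          ≤ |(f.1 : ℝ) * (g : ℝ)| + |(f.2.2 : ℝ) * (b : ℝ)| := abs_sub _ _
        _ = |(f.1 : ℝ)| * |(g : ℝ)| + |(f.2.2 : ℝ)| * |(b : ℝ)| := by rw [abs_mul, abs_mul]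
        _ ≤ κ * h * h + κ * h * h := by
            apply add_le_add
            · exact mul_le_mul h1 hg1 (abs_nonneg _) hκh
            · exact mul_le_mul h3 hb1 (abs_nonneg _) hκh
        _ = 2 * κ * (h : ℝ) ^ 2 := by ring

/-- If there is a short vector `(a, b')` with `a S + b' = 0` then all solutions are
nondegenerate for the direction `(a, b', 0)`. -/
theorem l2_short {p : ℕ} [Fact p.Prime] {S : ℤ} {h m : ℕ} (H : Hyp p S h m) (ρ : ZMod p)
    (κ : ℝ) (hκ : 0 < κ) (a b' : ℤ) (h0 : ¬ (a = 0 ∧ b' = 0))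
    (hab : ((a * S + b' : ℤ) : ZMod p) = 0) (ha : |(a : ℝ)| ≤ 2 * κ * h)
    (hb : |(b' : ℝ)| ≤ 2 * κ * (h : ℝ) ^ 2) :
    ((Sol p S h ρ).card : ℝ) ≤ 2 * m * κ * (Lam3 p S h ρ).card := by
  have hh1 : (1 : ℝ) ≤ h := by exact_mod_cast H.hh
  have hm2 : 2 ≤ m := by
    have := H.hm 1 (by norm_num) (by
      have : (1 : ℤ) ≤ (h : ℤ) ^ 6 := by
        have : (1 : ℤ) ≤ h := by exact_mod_cast H.hh
        exact one_le_pow₀ this
      rw [abs_one]; omega)
    simpa using this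
  have hm2' : (2 : ℝ) ≤ m := by exact_mod_cast hm2
  by_cases hk : 2 * κ ≤ 1
  · have hp := H.hp
    have hh := H.hh
    have hhp : (h : ℤ) ^ 2 < p := by
      have : h ^ 2 ≤ h ^ 3 := Nat.pow_le_pow_right hh (by norm_num)
      have h3 : 1 ≤ h ^ 3 := Nat.one_le_pow _ _ hh
      have : h ^ 2 < p := by omega
      exact_mod_cast this
    have hle : (h : ℤ) ≤ (h : ℤ) ^ 2 := by
      have : h ≤ h ^ 2 := Nat.le_self_pow (by norm_num) h
      exact_mod_cast this
    have ha' : |a| ≤ (h : ℤ) := by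
      have : |(a : ℝ)| ≤ h := ha.trans (by nlinarith)
      exact_mod_cast this
    have hb' : |b'| ≤ (h : ℤ) ^ 2 := by
      have : |(b' : ℝ)| ≤ (h : ℝ) ^ 2 := hb.trans (by nlinarith [sq_nonneg (h : ℝ)])
      exact_mod_cast this
    have ha0 : a ≠ 0 := by
      intro ha0
      subst ha0
      have hb0 : b' ≠ 0 := fun hb0 => h0 ⟨rfl, hb0⟩
      apply l2_cast_ne (p := p) b' hb0 (by omega)
      simpa using hab
    have hap : (a : ZMod p) ≠ 0 := l2_cast_ne a ha0 (by omega)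
    have hx : ∀ x : ℤ, 1 ≤ x → x ≤ h → b' - a * x ≠ 0 := by
      intro x hx1 hx2 hx0
      have hb0 : b' = a * x := by omega
      have : (a : ZMod p) * ((S + x : ℤ) : ZMod p) = 0 := by
        rw [← hab, hb0]
        push_cast
        ring
      rcases mul_eq_zero.mp this with h' | h'
      · exact hap h'
      · exact H.hS x hx1 hx2 h'
    have hEq : NDeg p S h ρ (a, b', 0) = Sol p S h ρ := by
      unfold NDeg
      apply Finset.filter_true_of_mem
      intro z hz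
      unfold Sol at hz
      simp only [Finset.mem_filter, Finset.mem_product, Finset.mem_Icc] at hz
      exact mul_ne_zero (hx z.1 hz.1.1.1 hz.1.1.2) (hx z.2.1 hz.1.2.1.1 hz.1.2.1.2)
    have key := ndeg_card H ρ (a, b', 0) (2 * κ) (by linarith) hk
      (by unfold InLam; simpa using hab) ha0 ha hb (by simp; positivity)
    rw [hEq] at key
    calc ((Sol p S h ρ).card : ℝ) ≤ m * (2 * κ) * (Lam3 p S h ρ).card := key
      _ = 2 * m * κ * (Lam3 p S h ρ).card := by ring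
  · push Not at hk
    have h2 : ((Sol p S h ρ).card : ℝ) ≤ 2 * (Lam3 p S h ρ).card := by
      exact_mod_cast sol_le_two_lam H ρ
    refine h2.trans ?_
    have hL : (0 : ℝ) ≤ (Lam3 p S h ρ).card := by positivity
    have : (2 : ℝ) ≤ 2 * m * κ := by nlinarith
    exact mul_le_mul_of_nonneg_right this hL

/-- Lemma 1. If some solution has `F = 0`, say `f_v = f_u c`: then `f_u (S+c) = ρ f_g`, so
`f_u (S+g) = f_g (S+b)` (multiply by `S+g`, use the equation, cancel `S+c ≠ 0`), i.e.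
`(a, b') = (f_u - f_g, f_u g - f_g b)` satisfies `a S + b' = 0`, `|a| ≤ 2κh`, `|b'| ≤ 2κh^2`.
If `(a,b') = 0` then `f_u = f_g`, `g = b` (`f_u ≠ 0`), and `S + c = ρ` (`|f_u| < p`): a trivial solution.
Otherwise use `ndeg_card` for the direction `(a, b', 0)`: its `F` never vanishes on solutions
(`a ≠ 0` since `|b'| < p`; `b' = a b` would give `a (S + b) = 0`), with `κ' = min (2κ) 1`
(if `2κ > 1` then `ndeg_card` is not applicable if the size exceeds 1: in this case simply use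
`#Sol ≤ 2 #Lam3 ≤ 2 m κ #Lam3` : translate all solutions by one fixed solution; each `(u,v,g)`
has at most two `(b,c)`; `m ≥ 2` from `H.hm 1`). -/
theorem lemma1 {p : ℕ} [Fact p.Prime] {S : ℤ} {h m : ℕ} (H : Hyp p S h m) (ρ : ZMod p)
    (hρ : ρ ≠ 0) (f : ℤ × ℤ × ℤ) (κ : ℝ) (hκ : 0 < κ) (hκ1 : κ ≤ 1) (hf : InLam p S ρ f)
    (hfu : f.1 ≠ 0) (h1 : |(f.1 : ℝ)| ≤ κ * h) (h2 : |(f.2.1 : ℝ)| ≤ κ * (h : ℝ) ^ 2)
    (h3 : |(f.2.2 : ℝ)| ≤ κ * h) :
    ((Sol p S h ρ).card : ℝ) ≤ 2 * m * κ * (Lam3 p S h ρ).card + (Triv p S h ρ).card := by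
  by_cases hex : ∃ a b' : ℤ, ¬ (a = 0 ∧ b' = 0) ∧ ((a * S + b' : ℤ) : ZMod p) = 0 ∧
        |(a : ℝ)| ≤ 2 * κ * h ∧ |(b' : ℝ)| ≤ 2 * κ * (h : ℝ) ^ 2
  · obtain ⟨a, b', h0, hab, ha, hb⟩ := hex
    have := l2_short H ρ κ hκ a b' h0 hab ha hb
    have hT : (0 : ℝ) ≤ (Triv p S h ρ).card := by positivity
    linarith
  · have hsub : Sol p S h ρ ⊆ NDeg p S h ρ f ∪ Triv p S h ρ := by
      intro z hz
      rw [Finset.mem_union]
      by_cases hF : (f.2.1 - f.1 * z.1) * (f.2.1 - f.1 * z.2.1) ≠ 0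
      · left
        unfold NDeg
        exact Finset.mem_filter.mpr ⟨hz, hF⟩
      · right
        push Not at hF
        have hz' := hz
        unfold Sol at hz'
        unfold Triv
        rw [Finset.mem_filter] at hz' ⊢
        refine ⟨hz'.1, ?_⟩
        obtain ⟨hz1, hz2⟩ := hz'
        simp only [Finset.mem_product, Finset.mem_Icc] at hz1
        obtain ⟨hb, hc, hg⟩ := hz1
        rcases mul_eq_zero.mp hF with hF' | hF'
        · right
          rcases l2_deg H ρ f κ hκ hκ1 hf hfu h1 h3 z.2.1 z.1 z.2.2 hc hb hg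
            (by rw [mul_comm]; exact hz2) (by omega) with h' | h'
          · exact h'
          · exact absurd h' hex
        · left
          rcases l2_deg H ρ f κ hκ hκ1 hf hfu h1 h3 z.1 z.2.1 z.2.2 hb hc hg
            hz2 (by omega) with h' | h'
          · exact h'
          · exact absurd h' hex
    have hcard : ((Sol p S h ρ).card : ℝ)
        ≤ (NDeg p S h ρ f).card + (Triv p S h ρ).card := by
      have := (Finset.card_le_card hsub).trans (Finset.card_union_le _ _)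
      exact_mod_cast this
    have hN := ndeg_card H ρ f κ hκ hκ1 hf hfu h1 h2 h3
    have hL : (0 : ℝ) ≤ m * κ * (Lam3 p S h ρ).card := by positivity
    calc ((Sol p S h ρ).card : ℝ)
        ≤ (NDeg p S h ρ f).card + (Triv p S h ρ).card := hcard
      _ ≤ m * κ * (Lam3 p S h ρ).card + (Triv p S h ρ).card := by linarith
      _ ≤ 2 * m * κ * (Lam3 p S h ρ).card + (Triv p S h ρ).card := by nlinarith

end Pool.Agent.H.MP_03bc95_nt
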