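import Pool.Agent.H.MP_03bc95_nt.Base

open Finset

namespace Pool.Agent.H.MP_03bc95_nt

/-- The determinant of three integer vectors. -/
def det3 (a b c : ℤ × ℤ × ℤ) : ℤ :=
  a.1 * (b.2.1 * c.2.2 - b.2.2 * c.2.1) - a.2.1 * (b.1 * c.2.2 - b.2.2 * c.1)
    + a.2.2 * (b.1 * c.2.1 - b.2.1 * c.1)

theorem fract_comb_P3 (l m n a b c s : ℝ) (ha : |a| ≤ s) (hb : |b| ≤ s) (hc : |c| ≤ s) :
    |Int.fract l * a + Int.fract m * b + Int.fract n * c| ≤ 3 * s := by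
  have key : ∀ t x : ℝ, |x| ≤ s → |Int.fract t * x| ≤ s := by
    intro t x hx
    rw [abs_mul, abs_of_nonneg (Int.fract_nonneg t)]
    have h1 := mul_le_mul (Int.fract_lt_one t).le hx (abs_nonneg _) zero_le_one
    linarith
  refine (abs_add_le _ _).trans ?_
  have h1 := (abs_add_le (Int.fract l * a) (Int.fract m * b))
  linarith [key l a ha, key m b hb, key n c hc]

/-- Rank three packing, same proof as `pack2` (representatives in the box `3 s_i`, sum in the box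
`4 s_i`). -/
theorem pack3 {p : ℕ} [Fact p.Prime] (α β γ : ZMod p) (h0 : α ≠ 0 ∨ β ≠ 0 ∨ γ ≠ 0)
    (F : Finset (ℤ × ℤ × ℤ)) (s1 s2 s3 : ℝ)
    (hF : ∀ f ∈ F, |(f.1 : ℝ)| ≤ s1 ∧ |(f.2.1 : ℝ)| ≤ s2 ∧ |(f.2.2 : ℝ)| ≤ s3 ∧
      α * (f.1 : ZMod p) + β * (f.2.1 : ZMod p) + γ * (f.2.2 : ZMod p) = 0)
    (v1 v2 v3 : ℤ × ℤ × ℤ) (h1 : v1 ∈ F) (h2 : v2 ∈ F) (h3 : v3 ∈ F)
    (hdet : det3 v1 v2 v3 ≠ 0) :
    (p : ℝ) * F.card ≤ (8 * s1 + 1) * (8 * s2 + 1) * (8 * s3 + 1) := by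
  obtain ⟨hu1, hu2, hu3, hu⟩ := hF v1 h1
  obtain ⟨hv1, hv2, hv3, hv⟩ := hF v2 h2
  obtain ⟨hw1, hw2, hw3, hw⟩ := hF v3 h3
  have hs1 : 0 ≤ s1 := (abs_nonneg _).trans hu1
  have hs2 : 0 ≤ s2 := (abs_nonneg _).trans hu2
  have hs3 : 0 ≤ s3 := (abs_nonneg _).trans hu3
  -- the class of a point
  let φ : ℤ × ℤ × ℤ → ZMod p := fun u =>
    α * (u.1 : ZMod p) + β * (u.2.1 : ZMod p) + γ * (u.2.2 : ZMod p)
  have hφadd : ∀ u u' : ℤ × ℤ × ℤ, φ (u + u') = φ u + φ u' := by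
    intro u u'
    simp only [φ, Prod.fst_add, Prod.snd_add, Int.cast_add]
    ring
  have hsurj : ∀ z : ZMod p, ∃ u : ℤ × ℤ × ℤ, φ u = z := by
    intro z
    rcases h0 with h | h | h
    · obtain ⟨a, ha⟩ := ZMod.intCast_surjective (z / α)
      refine ⟨(a, 0, 0), ?_⟩
      simp only [φ, ha]
      rw [Int.cast_zero, mul_zero, mul_zero, add_zero, add_zero, mul_div_cancel₀ _ h]
    · obtain ⟨a, ha⟩ := ZMod.intCast_surjective (z / β)
      refine ⟨(0, a, 0), ?_⟩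
      simp only [φ, ha]
      rw [Int.cast_zero, mul_zero, mul_zero, add_zero, zero_add, mul_div_cancel₀ _ h]
    · obtain ⟨a, ha⟩ := ZMod.intCast_surjective (z / γ)
      refine ⟨(0, 0, a), ?_⟩
      simp only [φ, ha]
      rw [Int.cast_zero, mul_zero, mul_zero, add_zero, zero_add, mul_div_cancel₀ _ h]
  -- reduced representatives
  have hD : ((det3 v1 v2 v3 : ℤ) : ℝ) ≠ 0 := by exact_mod_cast hdet
  have hrep : ∀ z : ZMod p, ∃ u : ℤ × ℤ × ℤ, φ u = z ∧ |(u.1 : ℝ)| ≤ 3 * s1 ∧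
      |(u.2.1 : ℝ)| ≤ 3 * s2 ∧ |(u.2.2 : ℝ)| ≤ 3 * s3 := by
    intro z
    obtain ⟨u, hz⟩ := hsurj z
    set D : ℝ := ((det3 v1 v2 v3 : ℤ) : ℝ) with hDdef
    have hDval : D = (v1.1 : ℝ) * (v2.2.1 * v3.2.2 - v2.2.2 * v3.2.1) -
        v1.2.1 * (v2.1 * v3.2.2 - v2.2.2 * v3.1) + v1.2.2 * (v2.1 * v3.2.1 - v2.2.1 * v3.1) := by
      rw [hDdef, det3]
      push_cast
      ring
    set l : ℝ := ((u.1 : ℝ) * (v2.2.1 * v3.2.2 - v2.2.2 * v3.2.1) -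
        u.2.1 * (v2.1 * v3.2.2 - v2.2.2 * v3.1) + u.2.2 * (v2.1 * v3.2.1 - v2.2.1 * v3.1)) / D
      with hl
    set m : ℝ := ((v1.1 : ℝ) * (u.2.1 * v3.2.2 - u.2.2 * v3.2.1) -
        v1.2.1 * (u.1 * v3.2.2 - u.2.2 * v3.1) + v1.2.2 * (u.1 * v3.2.1 - u.2.1 * v3.1)) / D
      with hm
    set n : ℝ := ((v1.1 : ℝ) * (v2.2.1 * u.2.2 - v2.2.2 * u.2.1) -
        v1.2.1 * (v2.1 * u.2.2 - v2.2.2 * u.1) + v1.2.2 * (v2.1 * u.2.1 - v2.2.1 * u.1)) / D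
      with hn
    have e1 : (u.1 : ℝ) = l * v1.1 + m * v2.1 + n * v3.1 := by
      rw [hl, hm, hn]
      field_simp
      rw [hDval]
      ring
    have e2 : (u.2.1 : ℝ) = l * v1.2.1 + m * v2.2.1 + n * v3.2.1 := by
      rw [hl, hm, hn]
      field_simp
      rw [hDval]
      ring
    have e3 : (u.2.2 : ℝ) = l * v1.2.2 + m * v2.2.2 + n * v3.2.2 := by
      rw [hl, hm, hn]
      field_simp
      rw [hDval]
      ring
    refine ⟨(u.1 - ⌊l⌋ * v1.1 - ⌊m⌋ * v2.1 - ⌊n⌋ * v3.1,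
      u.2.1 - ⌊l⌋ * v1.2.1 - ⌊m⌋ * v2.2.1 - ⌊n⌋ * v3.2.1,
      u.2.2 - ⌊l⌋ * v1.2.2 - ⌊m⌋ * v2.2.2 - ⌊n⌋ * v3.2.2), ?_, ?_, ?_, ?_⟩
    · simp only [φ] at hz ⊢
      push_cast
      linear_combination hz - (⌊l⌋ : ZMod p) * hu - (⌊m⌋ : ZMod p) * hv - (⌊n⌋ : ZMod p) * hw
    · have e4 : (((u.1 - ⌊l⌋ * v1.1 - ⌊m⌋ * v2.1 - ⌊n⌋ * v3.1 : ℤ)) : ℝ) =
          Int.fract l * v1.1 + Int.fract m * v2.1 + Int.fract n * v3.1 := by
        push_cast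
        rw [Int.fract, Int.fract, Int.fract]
        linear_combination e1
      simp only
      rw [e4]
      exact fract_comb_P3 _ _ _ _ _ _ _ hu1 hv1 hw1
    · have e4 : (((u.2.1 - ⌊l⌋ * v1.2.1 - ⌊m⌋ * v2.2.1 - ⌊n⌋ * v3.2.1 : ℤ)) : ℝ) =
          Int.fract l * v1.2.1 + Int.fract m * v2.2.1 + Int.fract n * v3.2.1 := by
        push_cast
        rw [Int.fract, Int.fract, Int.fract]
        linear_combination e2
      simp only
      rw [e4]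
      exact fract_comb_P3 _ _ _ _ _ _ _ hu2 hv2 hw2
    · have e4 : (((u.2.2 - ⌊l⌋ * v1.2.2 - ⌊m⌋ * v2.2.2 - ⌊n⌋ * v3.2.2 : ℤ)) : ℝ) =
          Int.fract l * v1.2.2 + Int.fract m * v2.2.2 + Int.fract n * v3.2.2 := by
        push_cast
        rw [Int.fract, Int.fract, Int.fract]
        linear_combination e3
      simp only
      rw [e4]
      exact fract_comb_P3 _ _ _ _ _ _ _ hu3 hv3 hw3
  choose q hq1 hq2 hq3 hq4 using hrep
  -- the box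
  set Bx : Finset (ℤ × ℤ × ℤ) := Finset.Icc (-⌊4 * s1⌋) ⌊4 * s1⌋ ×ˢ
    Finset.Icc (-⌊4 * s2⌋) ⌊4 * s2⌋ ×ˢ Finset.Icc (-⌊4 * s3⌋) ⌊4 * s3⌋ with hBx
  have hmem : ∀ (x : ℤ) (s : ℝ), |(x : ℝ)| ≤ 4 * s → x ∈ Finset.Icc (-⌊4 * s⌋) ⌊4 * s⌋ := by
    intro x s hx
    rw [abs_le] at hx
    rw [Finset.mem_Icc]
    refine ⟨?_, Int.le_floor.mpr hx.2⟩
    rw [neg_le]
    apply Int.le_floor.mpr
    push_cast
    linarith [hx.1]
  have hle : (Finset.univ ×ˢ F : Finset (ZMod p × (ℤ × ℤ × ℤ))).card ≤ Bx.card := by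
    refine Finset.card_le_card_of_injOn (fun zf => q zf.1 + zf.2) ?_ ?_
    · intro zf hzf
      rw [Finset.mem_coe, Finset.mem_product] at hzf
      obtain ⟨hf1, hf2, hf3, -⟩ := hF zf.2 hzf.2
      have h1 : |((q zf.1 + zf.2).1 : ℝ)| ≤ 4 * s1 := by
        rw [Prod.fst_add, Int.cast_add]
        refine (abs_add_le _ _).trans ?_
        linarith [hq2 zf.1]
      have h2 : |((q zf.1 + zf.2).2.1 : ℝ)| ≤ 4 * s2 := by
        rw [Prod.snd_add, Prod.fst_add, Int.cast_add]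
        refine (abs_add_le _ _).trans ?_
        linarith [hq3 zf.1]
      have h3 : |((q zf.1 + zf.2).2.2 : ℝ)| ≤ 4 * s3 := by
        rw [Prod.snd_add, Prod.snd_add, Int.cast_add]
        refine (abs_add_le _ _).trans ?_
        linarith [hq4 zf.1]
      rw [Finset.mem_coe, hBx, Finset.mem_product, Finset.mem_product]
      exact ⟨hmem _ _ h1, hmem _ _ h2, hmem _ _ h3⟩
    · intro zf hzf zf' hzf' he
      rw [Finset.mem_coe, Finset.mem_product] at hzf hzf'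
      have h0 : ∀ f ∈ F, φ f = 0 := fun f hf => (hF f hf).2.2.2
      have h1 : zf.1 = zf'.1 := by
        have h2 := congrArg φ he
        simp only [hφadd, hq1, h0 _ hzf.2, h0 _ hzf'.2, add_zero] at h2
        exact h2
      have h2 : zf.2 = zf'.2 := by
        simp only [h1] at he
        exact add_left_cancel he
      exact Prod.ext h1 h2
  rw [Finset.card_product, Finset.card_univ, ZMod.card] at hle
  have hle' : (p : ℝ) * F.card ≤ Bx.card := by exact_mod_cast hle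
  refine hle'.trans ?_
  rw [hBx, Finset.card_product, Finset.card_product, Int.card_Icc, Int.card_Icc, Int.card_Icc]
  push_cast
  have hb : ∀ s : ℝ, 0 ≤ s → (((⌊4 * s⌋ + 1 - -⌊4 * s⌋).toNat : ℕ) : ℝ) ≤ 8 * s + 1 := by
    intro s hs
    have h1 : (0 : ℤ) ≤ ⌊4 * s⌋ := Int.floor_nonneg.mpr (by linarith)
    have h2 : ((⌊4 * s⌋ + 1 - -⌊4 * s⌋).toNat : ℤ) = 2 * ⌊4 * s⌋ + 1 := by
      rw [Int.toNat_of_nonneg (by linarith)]
      ring
    have h3 : (((⌊4 * s⌋ + 1 - -⌊4 * s⌋).toNat : ℕ) : ℝ) = 2 * (⌊4 * s⌋ : ℝ) + 1 := by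
      exact_mod_cast h2
    rw [h3]
    linarith [Int.floor_le (4 * s)]
  rw [mul_assoc]
  refine mul_le_mul (hb s1 hs1) ?_ (by positivity) (by linarith)
  exact mul_le_mul (hb s2 hs2) (hb s3 hs3) (Nat.cast_nonneg _) (by linarith)

/-- Dichotomy: if all `det3` of points of `F` vanish there is a common integer normal `n ≠ 0`.
Proof: if some `v, w` in `F` have cross product `≠ 0`, take it. Otherwise all points of `F` are
parallel; take `v ≠ 0` in `F` (if none, any `n`), and `n = (v2, -v1, 0)` if `(v1, v2) ≠ 0`, otherwise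
`n = (1, 0, 0)`. -/
theorem exists_normal (F : Finset (ℤ × ℤ × ℤ))
    (h : ∀ a ∈ F, ∀ b ∈ F, ∀ c ∈ F, det3 a b c = 0) :
    ∃ n : ℤ × ℤ × ℤ, ¬ (n.1 = 0 ∧ n.2.1 = 0 ∧ n.2.2 = 0) ∧
      ∀ f ∈ F, n.1 * f.1 + n.2.1 * f.2.1 + n.2.2 * f.2.2 = 0 := by
  by_cases hc : ∃ b ∈ F, ∃ c ∈ F, ¬ (b.2.1 * c.2.2 - b.2.2 * c.2.1 = 0 ∧
      -(b.1 * c.2.2 - b.2.2 * c.1) = 0 ∧ b.1 * c.2.1 - b.2.1 * c.1 = 0)
  · obtain ⟨b, hb, c, hc, hne⟩ := hc
    refine ⟨(b.2.1 * c.2.2 - b.2.2 * c.2.1, -(b.1 * c.2.2 - b.2.2 * c.1),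
      b.1 * c.2.1 - b.2.1 * c.1), hne, fun f hf => ?_⟩
    have h1 := h f hf b hb c hc
    unfold det3 at h1
    simp only
    linear_combination h1
  · push Not at hc
    by_cases hv : ∃ v ∈ F, ¬ (v.1 = 0 ∧ v.2.1 = 0)
    · obtain ⟨v, hv, hne⟩ := hv
      refine ⟨(v.2.1, -v.1, 0), ?_, fun f hf => ?_⟩
      · rintro ⟨h1, h2, -⟩
        simp only at h1 h2
        exact hne ⟨by omega, h1⟩
      · obtain ⟨-, -, h1⟩ := hc v hv f hf
        simp only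
        linear_combination (-1) * h1
    · push Not at hv
      by_cases hz : ∃ v ∈ F, v.2.2 ≠ 0
      · obtain ⟨v, hvF, hne⟩ := hz
        refine ⟨(1, 0, 0), by simp, fun f hf => ?_⟩
        by_cases hf1 : f.1 = 0
        · simp [hf1]
        · exfalso
          obtain ⟨-, h2, -⟩ := hc v hvF f hf
          have h3 := hv f hf
          have hfv : v.1 = 0 := by
            by_contra hv1
            exact absurd (hv v hvF) (by
              intro hh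
              exact hv1 hh.1)
          exact hf1 h3.1
      · refine ⟨(1, 0, 0), by simp, fun f hf => ?_⟩
        have h3 := hv f hf
        simp [h3.1]

end Pool.Agent.H.MP_03bc95_nt
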