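import Pool.Agent.H.MP_03bc95_nt.P1
import Pool.Agent.H.MP_03bc95_nt.P3

open Finset

namespace Pool.Agent.H.MP_03bc95_nt

theorem La.mem_Lam3 {p : ℕ} {S : ℤ} {h : ℕ} {ρ : ZMod p} {f : ℤ × ℤ × ℤ} :
    f ∈ Lam3 p S h ρ ↔ |f.1| ≤ 3 * (h : ℤ) ∧ |f.2.1| ≤ 3 * (h : ℤ) ^ 2 ∧ |f.2.2| ≤ 3 * (h : ℤ) ∧
      ((f.1 * S + f.2.1 : ℤ) : ZMod p) = ρ * (f.2.2 : ZMod p) := by
  simp only [Lam3, mem_filter, mem_product, mem_Icc, abs_le]
  tauto

/-- An integer divisible by `p` of absolute value less than `p` vanishes. -/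
theorem La.eq_zero_of_cast {p : ℕ} (n : ℤ) (h0 : (n : ZMod p) = 0) (h1 : |n| < p) : n = 0 := by
  rw [ZMod.intCast_zmod_eq_zero_iff_dvd] at h0
  exact Int.eq_zero_of_abs_lt_dvd h0 h1

theorem La.abs_det_le (a b c d A B : ℤ) (ha : |a| ≤ A) (hb : |b| ≤ B) (hc : |c| ≤ A)
    (hd : |d| ≤ B) : |a * d - b * c| ≤ 2 * (A * B) := by
  have hA : 0 ≤ A := (abs_nonneg a).trans ha
  have hB : 0 ≤ B := (abs_nonneg b).trans hb
  have h1 : |a * d| ≤ A * B := by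
    rw [abs_mul]; exact mul_le_mul ha hd (abs_nonneg _) hA
  have h2 : |b * c| ≤ A * B := by
    rw [abs_mul, mul_comm A B]; exact mul_le_mul hb hc (abs_nonneg _) hB
  calc |a * d - b * c| ≤ |a * d| + |b * c| := abs_sub _ _
    _ ≤ 2 * (A * B) := by linarith

/-- Lemma 2 (a): `pack3` with `(α,β,γ) = (S, 1, -ρ)`, `s = (3h, 3h^2, 3h)`, then
`p L ≤ (24h+1)(24h^2+1)(24h+1) ≤ 15625 h^4` and `p ≥ 10^5 h^3`. -/
theorem lam3_rank3 {p : ℕ} [Fact p.Prime] {S : ℤ} {h m : ℕ} (H : Hyp p S h m) (ρ : ZMod p)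
    (h3 : ∃ a ∈ Lam3 p S h ρ, ∃ b ∈ Lam3 p S h ρ, ∃ c ∈ Lam3 p S h ρ, det3 a b c ≠ 0) :
    (Lam3 p S h ρ).card ≤ h := by
  obtain ⟨a, ha, b, hb, c, hc, hd⟩ := h3
  have key := pack3 (p := p) ((S : ℤ) : ZMod p) 1 (-ρ) (Or.inr (Or.inl one_ne_zero))
    (Lam3 p S h ρ) (3 * h) (3 * (h : ℝ) ^ 2) (3 * h) (fun f hf => by
      rw [La.mem_Lam3] at hf
      obtain ⟨h1, h2, h3, h4⟩ := hf
      refine ⟨by exact_mod_cast h1, by exact_mod_cast h2, by exact_mod_cast h3, ?_⟩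
      push_cast at h4
      linear_combination h4) a b c ha hb hc hd
  have hh : (1 : ℝ) ≤ h := by exact_mod_cast H.hh
  have hp : 100000 * (h : ℝ) ^ 3 ≤ p := by exact_mod_cast H.hp
  have h2 : (1 : ℝ) ≤ (h : ℝ) ^ 2 := one_le_pow₀ hh
  have e1 : (8 * (3 * (h : ℝ)) + 1) ≤ 25 * h := by linarith
  have e2 : (8 * (3 * (h : ℝ) ^ 2) + 1) ≤ 25 * (h : ℝ) ^ 2 := by linarith
  have e3 : (8 * (3 * (h : ℝ)) + 1) * (8 * (3 * (h : ℝ) ^ 2) + 1) * (8 * (3 * (h : ℝ)) + 1)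
      ≤ (25 * h) * (25 * (h : ℝ) ^ 2) * (25 * h) := by
    gcongr
  have hL : (0 : ℝ) ≤ (Lam3 p S h ρ).card := Nat.cast_nonneg _
  have e4 : 100000 * (h : ℝ) ^ 3 * (Lam3 p S h ρ).card ≤ 15625 * (h : ℝ) ^ 4 := by
    calc 100000 * (h : ℝ) ^ 3 * (Lam3 p S h ρ).card ≤ (p : ℝ) * (Lam3 p S h ρ).card := by
          gcongr
      _ ≤ _ := key
      _ ≤ _ := e3
      _ = 15625 * (h : ℝ) ^ 4 := by ring
  have h3 : (0 : ℝ) < (h : ℝ) ^ 3 := by positivity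
  have e5 : (100000 * ((Lam3 p S h ρ).card : ℝ)) * (h : ℝ) ^ 3 ≤ (15625 * h) * (h : ℝ) ^ 3 := by
    calc (100000 * ((Lam3 p S h ρ).card : ℝ)) * (h : ℝ) ^ 3
        = 100000 * (h : ℝ) ^ 3 * (Lam3 p S h ρ).card := by ring
      _ ≤ 15625 * (h : ℝ) ^ 4 := e4
      _ = (15625 * h) * (h : ℝ) ^ 3 := by ring
  have e6 := le_of_mul_le_mul_right e5 h3
  have e7 : ((Lam3 p S h ρ).card : ℝ) ≤ h := by linarith
  exact_mod_cast e7

/-- Lemma 2 (b): for each of the at most `6h+1 ≤ 7h` values of `g`, the points `(u,v)` have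
differences in the lattice `a S + b = 0`; these are pairwise parallel (two differences have
determinant `≡ 0` mod `p` and absolute value `≤ 2·6h·6h^2 < p`), norm at least `1/t`, at most `6`:
`par2` with `s1 = h`, `s2 = h^2`, `r = 1/t`, `D = 6`. -/
theorem lam3_le {p : ℕ} [Fact p.Prime] {S : ℤ} {h m : ℕ} (H : Hyp p S h m) (ρ : ZMod p)
    (t : ℝ) (ht : 1 ≤ t) (hL : LBS p S h (1 / t)) :
    ((Lam3 p S h ρ).card : ℝ) ≤ 7 * h * (6 * t + 1) := by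
  have hh : (1 : ℤ) ≤ h := by exact_mod_cast H.hh
  have hhR : (1 : ℝ) ≤ h := by exact_mod_cast H.hh
  have hpZ : 100000 * (h : ℤ) ^ 3 ≤ p := by exact_mod_cast H.hp
  have h3 : (1 : ℤ) ≤ (h : ℤ) ^ 3 := one_le_pow₀ hh
  have ht0 : 0 < t := by linarith
  have fib : ∀ g ∈ Icc (-(3 * (h : ℤ))) (3 * h),
      ((((Lam3 p S h ρ).filter fun f => f.2.2 = g).card : ℕ) : ℝ) ≤ 6 * t + 1 := by
    intro g _
    have hab : ∀ f ∈ (Lam3 p S h ρ).filter fun f => f.2.2 = g,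
        ∀ f' ∈ (Lam3 p S h ρ).filter fun f => f.2.2 = g,
        |f.1 - f'.1| ≤ 6 * (h : ℤ) ∧ |f.2.1 - f'.2.1| ≤ 6 * (h : ℤ) ^ 2 ∧
          (((f.1 - f'.1) * S + (f.2.1 - f'.2.1) : ℤ) : ZMod p) = 0 := by
      intro f hf f' hf'
      rw [mem_filter, La.mem_Lam3] at hf hf'
      obtain ⟨⟨a1, a2, a3, a4⟩, a5⟩ := hf
      obtain ⟨⟨b1, b2, b3, b4⟩, b5⟩ := hf'
      refine ⟨?_, ?_, ?_⟩
      · calc |f.1 - f'.1| ≤ |f.1| + |f'.1| := abs_sub _ _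
          _ ≤ 6 * (h : ℤ) := by linarith
      · calc |f.2.1 - f'.2.1| ≤ |f.2.1| + |f'.2.1| := abs_sub _ _
          _ ≤ 6 * (h : ℤ) ^ 2 := by linarith
      · rw [a5] at a4; rw [b5] at b4
        push_cast at a4 b4 ⊢
        linear_combination a4 - b4
    have key := par2 ((Lam3 p S h ρ).filter fun f => f.2.2 = g) (fun f => f.1) (fun f => f.2.1)
      h ((h : ℝ) ^ 2) 6 (1 / t) (by linarith) (by positivity) (by positivity) (by norm_num)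
      (by
        intro i hi j hj k hk l hl
        obtain ⟨a1, a2, a3⟩ := hab i hi j hj
        obtain ⟨b1, b2, b3⟩ := hab k hk l hl
        have hz := La.eq_zero_of_cast (p := p)
          ((i.1 - j.1) * (k.2.1 - l.2.1) - (i.2.1 - j.2.1) * (k.1 - l.1)) (by
            push_cast at a3 b3 ⊢
            linear_combination ((i.1 : ZMod p) - j.1) * b3 - ((k.1 : ZMod p) - l.1) * a3) (by
            have := La.abs_det_le (i.1 - j.1) (i.2.1 - j.2.1) (k.1 - l.1) (k.2.1 - l.2.1) _ _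
              a1 a2 b1 b2
            calc _ ≤ _ := this
              _ = 72 * (h : ℤ) ^ 3 := by ring
              _ < p := by linarith)
        linarith)
      (by
        intro i hi j hj hij
        obtain ⟨a1, a2, a3⟩ := hab i hi j hj
        rw [mem_filter] at hi hj
        exact hL _ _ (fun hc => hij (by
          obtain ⟨c1, c2⟩ := hc
          exact Prod.ext (sub_eq_zero.mp c1) (Prod.ext (sub_eq_zero.mp c2)
            (hi.2.trans hj.2.symm)))) a3)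
      (by
        intro i hi j hj
        obtain ⟨a1, a2, a3⟩ := hab i hi j hj
        exact ⟨by exact_mod_cast a1, by exact_mod_cast a2⟩)
    calc _ ≤ _ := key
      _ = 6 * t + 1 := by rw [div_div_eq_mul_div, div_one]
  have hc : (Lam3 p S h ρ).card
      = ∑ g ∈ Icc (-(3 * (h : ℤ))) (3 * h), ((Lam3 p S h ρ).filter fun f => f.2.2 = g).card := by
    refine card_eq_sum_card_fiberwise fun f hf => ?_
    have hf' : f ∈ Lam3 p S h ρ := hf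
    rw [La.mem_Lam3, abs_le, abs_le, abs_le] at hf'
    exact mem_coe.mpr (mem_Icc.mpr hf'.2.2.1)
  rw [hc]
  push_cast
  calc (∑ g ∈ Icc (-(3 * (h : ℤ))) (3 * h),
        ((((Lam3 p S h ρ).filter fun f => f.2.2 = g).card : ℕ) : ℝ))
      ≤ ∑ g ∈ Icc (-(3 * (h : ℤ))) (3 * h), (6 * t + 1) := sum_le_sum fib
    _ = ((Icc (-(3 * (h : ℤ))) (3 * h)).card : ℝ) * (6 * t + 1) := by
        rw [sum_const, nsmul_eq_mul]
    _ ≤ 7 * h * (6 * t + 1) := by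
        have hcard : ((Icc (-(3 * (h : ℤ))) (3 * h)).card : ℝ) ≤ 7 * h := by
          rw [Int.card_Icc]
          have : ((3 * (h : ℤ) + 1 - -(3 * (h : ℤ))).toNat : ℤ) = 6 * h + 1 := by
            rw [Int.toNat_of_nonneg (by linarith)]; ring
          have h' : (((3 * (h : ℤ) + 1 - -(3 * (h : ℤ))).toNat : ℕ) : ℝ) = 6 * h + 1 := by
            exact_mod_cast this
          rw [h']; linarith
        gcongr

/-- Lemma 3: points of `Lam3` with the same `u`, in a cell of size `κ ≤ 1`: at most `1 + κ/k`.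
Differences `(v,g)` satisfy `v = ρ g`, are pairwise parallel (determinant `≤ 2h^3 < p`): `par2` with
`s1 = h^2`, `s2 = h`, `r = k`, `D = κ`. -/
theorem same_u {p : ℕ} [Fact p.Prime] {S : ℤ} {h m : ℕ} (H : Hyp p S h m) (ρ : ZMod p)
    (k κ : ℝ) (hk : 0 < k) (hκ : 0 < κ) (hκ1 : κ ≤ 1) (hR : LBR p h ρ k)
    (F : Finset (ℤ × ℤ × ℤ)) (hF : F ⊆ Lam3 p S h ρ)
    (h1 : ∀ a ∈ F, ∀ b ∈ F, a.1 = b.1 ∧ |((a.2.1 - b.2.1 : ℤ) : ℝ)| ≤ κ * (h : ℝ) ^ 2 ∧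
      |((a.2.2 - b.2.2 : ℤ) : ℝ)| ≤ κ * h) :
    (F.card : ℝ) ≤ κ / k + 1 := by
  have hh : (1 : ℤ) ≤ h := by exact_mod_cast H.hh
  have hhR : (1 : ℝ) ≤ h := by exact_mod_cast H.hh
  have hpZ : 100000 * (h : ℤ) ^ 3 ≤ p := by exact_mod_cast H.hp
  have h3 : (1 : ℤ) ≤ (h : ℤ) ^ 3 := one_le_pow₀ hh
  have hab : ∀ f ∈ F, ∀ f' ∈ F,
      |f.2.1 - f'.2.1| ≤ (h : ℤ) ^ 2 ∧ |f.2.2 - f'.2.2| ≤ (h : ℤ) ∧
        ((f.2.1 - f'.2.1 : ℤ) : ZMod p) = ρ * ((f.2.2 - f'.2.2 : ℤ) : ZMod p) := by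
    intro f hf f' hf'
    obtain ⟨c1, c2, c3⟩ := h1 f hf f' hf'
    have m1 := La.mem_Lam3.mp (hF hf)
    have m2 := La.mem_Lam3.mp (hF hf')
    refine ⟨?_, ?_, ?_⟩
    · have : |((f.2.1 - f'.2.1 : ℤ) : ℝ)| ≤ (h : ℝ) ^ 2 :=
        c2.trans (mul_le_of_le_one_left (by positivity) hκ1)
      exact_mod_cast this
    · have : |((f.2.2 - f'.2.2 : ℤ) : ℝ)| ≤ (h : ℝ) :=
        c3.trans (mul_le_of_le_one_left (by positivity) hκ1)
      exact_mod_cast this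
    · have e1 := m1.2.2.2
      have e2 := m2.2.2.2
      rw [c1] at e1
      push_cast at e1 e2 ⊢
      linear_combination e1 - e2
  refine par2 F (fun f => f.2.1) (fun f => f.2.2) ((h : ℝ) ^ 2) h κ k (by positivity)
    (by linarith) hk hκ.le ?_ ?_ (fun i hi j hj => (h1 i hi j hj).2)
  · intro i hi j hj a ha l hl
    obtain ⟨a1, a2, a3⟩ := hab i hi j hj
    obtain ⟨b1, b2, b3⟩ := hab a ha l hl
    have hz := La.eq_zero_of_cast (p := p)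
      ((i.2.1 - j.2.1) * (a.2.2 - l.2.2) - (i.2.2 - j.2.2) * (a.2.1 - l.2.1)) (by
        push_cast at a3 b3 ⊢
        linear_combination ((a.2.2 : ZMod p) - l.2.2) * a3 - ((i.2.2 : ZMod p) - j.2.2) * b3) (by
        have := La.abs_det_le (i.2.1 - j.2.1) (i.2.2 - j.2.2) (a.2.1 - l.2.1) (a.2.2 - l.2.2) _ _
          a1 a2 b1 b2
        calc _ ≤ _ := this
          _ = 2 * (h : ℤ) ^ 3 := by ring
          _ < p := by linarith)
    linarith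
  · intro i hi j hj hij
    obtain ⟨a1, a2, a3⟩ := hab i hi j hj
    exact hR _ _ (fun hc => hij (by
      obtain ⟨c1, c2⟩ := hc
      exact Prod.ext (h1 i hi j hj).1 (Prod.ext (sub_eq_zero.mp c1) (sub_eq_zero.mp c2)))) a3

end Pool.Agent.H.MP_03bc95_nt
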