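import Pool.Agent.H.MP_03bc95_nt.Sc

open Finset

namespace Pool.Agent.H.MP_03bc95_nt

theorem Sd_mono {p : ℕ} {t : ℝ} (ht : 1 ≤ t) {ρ' : ZMod p} {ν ν' : ℝ} (h : ν' ≤ ν)
    (hL : LBW p t ρ' ν) : LBW p t ρ' ν' := by
  intro w g h1 h2
  have ht3 : (0 : ℝ) ≤ t ^ 3 := by positivity
  have ht8 : (0 : ℝ) ≤ 3 * t ^ 8 := by positivity
  rcases hL w g h1 h2 with h3 | h3
  · exact Or.inl ((mul_le_mul_of_nonneg_right h ht8).trans h3)
  · exact Or.inr ((mul_le_mul_of_nonneg_right h ht3).trans h3)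

theorem Sd_low {p : ℕ} [Fact p.Prime] {S : ℤ} {h m : ℕ} (H : Hyp p S h m) (t : ℝ)
    (ht : 1 ≤ t) (ht3 : t ^ 3 = h) (ρ' : ZMod p) : LBW p t ρ' (1 / t ^ 3) := by
  intro w g h1 h2
  have ht0 : (0 : ℝ) < t := by linarith
  have hne : t ^ 3 ≠ 0 := by positivity
  by_cases hg : g = 0
  · left
    have hw : w ≠ 0 := fun hw => h1 ⟨hw, hg⟩
    rw [hg] at h2
    simp only [Int.cast_zero, mul_zero] at h2
    have h3 : (p : ℤ) ∣ w := (ZMod.intCast_zmod_eq_zero_iff_dvd w p).1 h2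
    have h4 : (p : ℤ) ≤ |w| := Int.le_of_dvd (abs_pos.2 hw) ((dvd_abs _ _).2 h3)
    have h5 : (p : ℝ) ≤ |(w : ℝ)| := by exact_mod_cast h4
    have h6 : (100000 : ℝ) * (h : ℝ) ^ 3 ≤ p := by exact_mod_cast H.hp
    rw [← ht3] at h6
    have h7 : t ^ 5 ≤ t ^ 9 := pow_le_pow_right₀ ht (by norm_num)
    have h8 : 1 / t ^ 3 * (3 * t ^ 8) = 3 * t ^ 5 := by field_simp
    have h9 : (t ^ 3) ^ 3 = t ^ 9 := by ring
    have h10 : (0 : ℝ) < t ^ 9 := by positivity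
    rw [h8]
    rw [h9] at h6
    linarith
  · right
    have h3 : (1 : ℤ) ≤ |g| := Int.one_le_abs hg
    have h4 : (1 : ℝ) ≤ |(g : ℝ)| := by exact_mod_cast h3
    have h5 : 1 / t ^ 3 * t ^ 3 = 1 := by field_simp
    rw [h5]
    exact h4

theorem Sd_exists (P : ℕ → Prop) (h0 : ¬ P 0) {J : ℕ} (hJ : P J) : ∃ k < J, ¬ P k ∧ P (k + 1) := by
  induction J with
  | zero => exact absurd hJ h0
  | succ J ih =>
    by_cases hP : P J
    · obtain ⟨k, hk, h1⟩ := ih hP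
      exact ⟨k, by omega, h1⟩
    · exact ⟨J, by omega, hP, hJ⟩

/-- Sum over all triples `(y2,x,y)`, `x ≠ y`. If `LBW (1/t^2)`: `sol_struct` gives `≤ 4 m t^2`.
Otherwise let `j ≥ 1` be the least with `LBW (ν_j)`, `ν_j = max (2^{-j}/t^2) (1/t^3)` (always true for
`1/t^3`: `|g| ≥ 1`, or `g = 0` and `|w| ≥ p ≥ 3 t^5`; so `j ≤ 1 + Nat.log 2 h`). Then `N ≤ 4 m 2^j t^2` and the
triple is in `TSet (2^{-(j-1)}/t^2)`, of size `≤ m^2 H (t^8 ν^2 + 2 t^6 ν) ≤ 3 m^2 H t^4 2^{-(j-1)}`. Each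
layer contributes `≤ 24 m^3 H t^6`; the first part `≤ h H^2 4 m t^2 ≤ 4 m H t^6`. -/
theorem struct_sum {p : ℕ} [Fact p.Prime] {S : ℤ} {h m : ℕ} (H : Hyp p S h m) (t : ℝ)
    (ht : 1 ≤ t) (ht3 : t ^ 3 = h) {A B : ℤ} (hAB : AB p S t A B) (S3 : ℤ) (Hn : ℕ)
    (hH1 : 1 ≤ Hn) (hHt : (Hn : ℝ) ≤ t)
    (hS3 : ∀ x : ℤ, 1 ≤ x → x ≤ Hn → ((S3 + x : ℤ) : ZMod p) ≠ 0) :
    ((∑ z ∈ (Icc (1 : ℤ) h ×ˢ Icc (1 : ℤ) Hn ×ˢ Icc (1 : ℤ) Hn).filter (fun z => z.2.1 ≠ z.2.2),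
      (Sol p S h (rho p S S3 z.1 z.2.1 z.2.2)).card : ℕ) : ℝ) ≤
      100 * (m : ℝ) ^ 3 * Hn * (h : ℝ) ^ 2 * (1 + Nat.log 2 h) := by
  classical
  have ht0 : (0 : ℝ) < t := by linarith
  have hHn1 : (1 : ℝ) ≤ Hn := by exact_mod_cast hH1
  have hHn0 : (0 : ℝ) < Hn := by linarith
  have hm1 : (1 : ℝ) ≤ m := by
    have h1 := H.hm 1 one_ne_zero (by
      have : (1 : ℤ) ≤ (h : ℤ) := by exact_mod_cast H.hh
      have h1 : (1 : ℤ) ≤ (h : ℤ) ^ 6 := one_le_pow₀ this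
      rw [abs_one]; linarith)
    have h2 : 1 ≤ m := by
      have : 2 ≤ m := by simpa using h1
      omega
    exact_mod_cast h2
  set D := (Icc (1 : ℤ) h ×ˢ Icc (1 : ℤ) Hn ×ˢ Icc (1 : ℤ) Hn).filter
    (fun z : ℤ × ℤ × ℤ => z.2.1 ≠ z.2.2) with hD
  set J : ℕ := 1 + Nat.log 2 h with hJ
  let ν : ℕ → ℝ := fun j => 1 / (2 ^ j * t ^ 2)
  have hνpos : ∀ j, 0 < ν j := fun j => by simp only [ν]; positivity
  have hν1 : ∀ j, ν j ≤ 1 := by
    intro j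
    simp only [ν]
    rw [div_le_one (by positivity)]
    have h1 : (1 : ℝ) ≤ 2 ^ j := one_le_pow₀ (by norm_num)
    have h2 : (1 : ℝ) ≤ t ^ 2 := one_le_pow₀ ht
    nlinarith
  have hJt : t ≤ 2 ^ J := by
    have h1 : h < 2 ^ (Nat.log 2 h + 1) := Nat.lt_pow_succ_log_self (by norm_num) h
    have h2 : (h : ℝ) ≤ 2 ^ J := by
      have : h ≤ 2 ^ J := by rw [hJ, add_comm]; exact h1.le
      exact_mod_cast this
    have h3 : t ≤ t ^ 3 := by
      have := pow_le_pow_right₀ ht (show 1 ≤ 3 by norm_num)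
      simpa using this
    rw [← ht3] at h2
    linarith
  have hνJ : ν J ≤ 1 / t ^ 3 := by
    simp only [ν]
    apply one_div_le_one_div_of_le (by positivity)
    have : t ^ 3 = t * t ^ 2 := by ring
    rw [this]
    exact mul_le_mul_of_nonneg_right hJt (by positivity)
  -- the pointwise bound
  have hpt : ∀ z ∈ D, ((Sol p S h (rho p S S3 z.1 z.2.1 z.2.2)).card : ℝ) ≤
      4 * m * t ^ 2 + ∑ j ∈ range J,
        (if z ∈ TSet p S S3 h Hn t A (ν j) then 4 * m * 2 ^ (j + 1) * t ^ 2 else 0) := by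
    intro z hz
    have hzD := hz
    rw [hD, mem_filter] at hz
    obtain ⟨hzb, hzne⟩ := hz
    have hzb' := hzb
    simp only [mem_product, mem_Icc] at hzb
    have hρ : rho p S S3 z.1 z.2.1 z.2.2 ≠ 0 := by
      unfold rho
      refine mul_ne_zero (mul_ne_zero (H.hS _ hzb.1.1 hzb.1.2)
        (hS3 _ hzb.2.2.1 hzb.2.2.2)) (inv_ne_zero (hS3 _ hzb.2.1.1 hzb.2.1.2))
    have ht2 : (1 : ℝ) ≤ t ^ 2 := one_le_pow₀ ht
    have hsumnn : 0 ≤ ∑ j ∈ range J,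
        (if z ∈ TSet p S S3 h Hn t A (ν j) then 4 * (m : ℝ) * 2 ^ (j + 1) * t ^ 2 else 0) := by
      refine sum_nonneg fun j _ => ?_
      split_ifs
      · positivity
      · exact le_rfl
    by_cases h0 : LBW p t ((A : ZMod p) * rho p S S3 z.1 z.2.1 z.2.2) (ν 0)
    · have h1 := sol_struct H t ht ht3 hAB _ hρ (ν 0) (hνpos 0) h0
      have h2 : 2 / ν 0 = 2 * t ^ 2 := by
        simp only [ν]
        rw [pow_zero, one_mul, div_div_eq_mul_div, div_one]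
      rw [h2] at h1
      have h3 : (m : ℝ) * (t ^ 2 + 1 + 2 * t ^ 2) ≤ 4 * m * t ^ 2 := by nlinarith
      linarith
    · obtain ⟨k, hkJ, hk1, hk2⟩ := Sd_exists
        (fun j => LBW p t ((A : ZMod p) * rho p S S3 z.1 z.2.1 z.2.2) (ν j)) h0
        (J := J) (Sd_mono ht hνJ (Sd_low H t ht ht3 _))
      have h1 := sol_struct H t ht ht3 hAB _ hρ (ν (k + 1)) (hνpos (k + 1)) hk2
      have h2 : 2 / ν (k + 1) = 2 * (2 ^ (k + 1) * t ^ 2) := by
        simp only [ν]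
        rw [div_div_eq_mul_div, div_one]
      rw [h2] at h1
      have hmem : z ∈ TSet p S S3 h Hn t A (ν k) := by
        rw [TSet, mem_filter]
        exact ⟨hzb', hzne, hk1⟩
      have h3 : (if z ∈ TSet p S S3 h Hn t A (ν k) then 4 * (m : ℝ) * 2 ^ (k + 1) * t ^ 2 else 0) ≤
          ∑ j ∈ range J,
          (if z ∈ TSet p S S3 h Hn t A (ν j) then 4 * (m : ℝ) * 2 ^ (j + 1) * t ^ 2 else 0) := by
        refine single_le_sum (f := fun j => if z ∈ TSet p S S3 h Hn t A (ν j) then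
          4 * (m : ℝ) * 2 ^ (j + 1) * t ^ 2 else 0) (fun j _ => ?_) (mem_range.2 hkJ)
        split_ifs
        · positivity
        · exact le_rfl
      rw [if_pos hmem] at h3
      have h4 : (1 : ℝ) ≤ 2 ^ (k + 1) := one_le_pow₀ (by norm_num)
      have h5 : (t : ℝ) ^ 2 ≤ 2 ^ (k + 1) * t ^ 2 := by nlinarith
      have h6 : (m : ℝ) * (t ^ 2 + 1 + 2 * (2 ^ (k + 1) * t ^ 2)) ≤
          m * (4 * (2 ^ (k + 1) * t ^ 2)) :=
        mul_le_mul_of_nonneg_left (by linarith) (by positivity)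
      have h7 : (0 : ℝ) ≤ 4 * m * t ^ 2 := by positivity
      have h8 : (m : ℝ) * (4 * (2 ^ (k + 1) * t ^ 2)) = 4 * m * 2 ^ (k + 1) * t ^ 2 := by ring
      linarith
  -- summation
  have hDc : (D.card : ℝ) ≤ h * (Hn * Hn) := by
    have h1 : D.card ≤ h * (Hn * Hn) := by
      refine (card_filter_le _ _).trans ?_
      rw [card_product, card_product, Int.card_Icc, Int.card_Icc]
      simp
    exact_mod_cast h1
  have hTc : ∀ j, ((TSet p S S3 h Hn t A (ν j)).card : ℝ) * (4 * m * 2 ^ (j + 1) * t ^ 2) ≤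
      24 * (m : ℝ) ^ 3 * Hn * t ^ 6 := by
    intro j
    have h1 := tset_card H t ht ht3 hAB S3 Hn hH1 hHt hS3 (ν j) (hνpos j) (hν1 j)
    set q : ℝ := 2 ^ j with hq
    have hq1 : (1 : ℝ) ≤ q := one_le_pow₀ (by norm_num)
    have hνj : ν j = 1 / (q * t ^ 2) := rfl
    have h2 : t ^ 7 * Hn * ν j ^ 2 + 2 * t ^ 6 * ν j ≤ 3 * t ^ 4 / q := by
      rw [hνj]
      have e1 : t ^ 7 * Hn * (1 / (q * t ^ 2)) ^ 2 = (t ^ 3 * Hn) / (q * q) := by
        field_simp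
      have e2 : 2 * t ^ 6 * (1 / (q * t ^ 2)) = 2 * t ^ 4 / q := by
        field_simp
      have e3 : t ^ 3 * Hn ≤ t ^ 4 := by
        have : t ^ 4 = t ^ 3 * t := by ring
        rw [this]
        exact mul_le_mul_of_nonneg_left hHt (by positivity)
      have e4 : (t ^ 3 * Hn) / (q * q) ≤ t ^ 4 / q := by
        rw [div_le_div_iff₀ (by positivity) (by positivity)]
        have e5 : t ^ 3 * Hn * q ≤ t ^ 4 * q := mul_le_mul_of_nonneg_right e3 (by positivity)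
        have e6 : t ^ 4 * q ≤ t ^ 4 * (q * q) :=
          mul_le_mul_of_nonneg_left (by nlinarith) (by positivity)
        linarith
      rw [e1, e2]
      have e7 : t ^ 4 / q + 2 * t ^ 4 / q = 3 * t ^ 4 / q := by ring
      linarith
    have h3 : ((TSet p S S3 h Hn t A (ν j)).card : ℝ) ≤ (m : ℝ) ^ 2 * Hn * (3 * t ^ 4 / q) :=
      h1.trans (mul_le_mul_of_nonneg_left h2 (by positivity))
    have h4 : (2 : ℝ) ^ (j + 1) = 2 * q := by rw [pow_succ, hq]; ring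
    rw [h4]
    calc ((TSet p S S3 h Hn t A (ν j)).card : ℝ) * (4 * m * (2 * q) * t ^ 2)
        ≤ ((m : ℝ) ^ 2 * Hn * (3 * t ^ 4 / q)) * (4 * m * (2 * q) * t ^ 2) :=
          mul_le_mul_of_nonneg_right h3 (by positivity)
      _ = 24 * (m : ℝ) ^ 3 * Hn * t ^ 6 := by
          field_simp
          ring
  have hsum : ((∑ z ∈ D, (Sol p S h (rho p S S3 z.1 z.2.1 z.2.2)).card : ℕ) : ℝ) ≤
      D.card * (4 * m * t ^ 2) + ∑ j ∈ range J, 24 * (m : ℝ) ^ 3 * Hn * t ^ 6 := by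
    rw [Nat.cast_sum]
    refine (sum_le_sum hpt).trans ?_
    rw [sum_add_distrib, sum_const, nsmul_eq_mul, sum_comm]
    refine add_le_add le_rfl (sum_le_sum fun j _ => ?_)
    rw [sum_ite_mem, sum_const, nsmul_eq_mul]
    refine le_trans (mul_le_mul_of_nonneg_right ?_ (by positivity)) (hTc j)
    exact_mod_cast card_le_card inter_subset_right
  refine hsum.trans ?_
  rw [sum_const, card_range, nsmul_eq_mul]
  have hh2 : (h : ℝ) ^ 2 = t ^ 6 := by rw [← ht3]; ring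
  rw [hh2]
  have hJr : (J : ℝ) = 1 + Nat.log 2 h := by rw [hJ]; push_cast; ring
  rw [← hJr]
  have hJ1 : (1 : ℝ) ≤ J := by rw [hJr]; have : (0 : ℝ) ≤ Nat.log 2 h := Nat.cast_nonneg _; linarith
  have hfirst : (D.card : ℝ) * (4 * m * t ^ 2) ≤ 4 * (m : ℝ) ^ 3 * Hn * t ^ 6 := by
    have e1 : (D.card : ℝ) * (4 * m * t ^ 2) ≤ (h * (Hn * Hn)) * (4 * m * t ^ 2) :=
      mul_le_mul_of_nonneg_right hDc (by positivity)
    have e2 : ((h : ℝ) * (Hn * Hn)) * (4 * m * t ^ 2) ≤ (h * (Hn * t)) * (4 * m * t ^ 2) := by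
      apply mul_le_mul_of_nonneg_right _ (by positivity)
      apply mul_le_mul_of_nonneg_left _ (by positivity)
      exact mul_le_mul_of_nonneg_left hHt hHn0.le
    have e3 : ((h : ℝ) * (Hn * t)) * (4 * m * t ^ 2) = 4 * m * Hn * t ^ 6 := by
      rw [← ht3]; ring
    have e4 : (m : ℝ) ≤ m ^ 3 := by
      have := pow_le_pow_right₀ hm1 (show 1 ≤ 3 by norm_num)
      simpa using this
    have e5 : 4 * (m : ℝ) * Hn * t ^ 6 ≤ 4 * (m : ℝ) ^ 3 * Hn * t ^ 6 := by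
      have : (0 : ℝ) ≤ Hn * t ^ 6 := by positivity
      nlinarith
    linarith
  have hX : (0 : ℝ) ≤ (m : ℝ) ^ 3 * Hn * t ^ 6 := by positivity
  have hlast : 4 * (m : ℝ) ^ 3 * Hn * t ^ 6 ≤ 4 * ((m : ℝ) ^ 3 * Hn * t ^ 6) * J := by nlinarith
  have e9 : (J : ℝ) * (24 * (m : ℝ) ^ 3 * Hn * t ^ 6) = 24 * ((m : ℝ) ^ 3 * Hn * t ^ 6) * J := by ring
  have e10 : 100 * (m : ℝ) ^ 3 * Hn * t ^ 6 * J = 100 * ((m : ℝ) ^ 3 * Hn * t ^ 6) * J := by ring
  have e11 : 0 ≤ ((m : ℝ) ^ 3 * Hn * t ^ 6) * J := mul_nonneg hX (by linarith)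
  rw [e9, e10]
  linarith

end Pool.Agent.H.MP_03bc95_nt
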