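import Pool.Agent.H.MP_03bc95_nt.Eb
import Pool.Agent.H.MP_03bc95_nt.Ec
import Pool.Agent.H.MP_03bc95_nt.Sd
import Pool.Agent.H.MP_03bc95_nt.Ca

open Finset
open scoped Pointwise

namespace Pool.Agent.H.MP_03bc95_nt

/-- The interval `S + {1..h}` in `ZMod p`. -/
noncomputable def Itv (p : ℕ) (S : ℤ) (h : ℕ) : Finset (ZMod p) := by
  classical
  exact (Icc (1 : ℤ) h).image fun x => ((S + x : ℤ) : ZMod p)

theorem Ma_inj {p : ℕ} (S : ℤ) {h : ℕ} (hh : h < p) {x y : ℤ} (hx : 1 ≤ x ∧ x ≤ h)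
    (hy : 1 ≤ y ∧ y ≤ h) (hxy : ((S + x : ℤ) : ZMod p) = ((S + y : ℤ) : ZMod p)) : x = y := by
  have h1 : (((S + x) - (S + y) : ℤ) : ZMod p) = 0 := by
    rw [Int.cast_sub, hxy, sub_self]
  rw [ZMod.intCast_zmod_eq_zero_iff_dvd] at h1
  have h3 : (S + x) - (S + y) = x - y := by ring
  rw [h3] at h1
  by_contra hne
  have h4 : x - y ≠ 0 := sub_ne_zero.2 hne
  have h5 := Int.le_of_dvd (abs_pos.2 h4) ((dvd_abs _ _).2 h1)
  have h6 : |x - y| < p := by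
    rw [abs_lt]
    constructor <;> omega
  omega

theorem Ma_mem {p : ℕ} {S : ℤ} {h : ℕ} {a : ZMod p} :
    a ∈ Itv p S h ↔ ∃ x : ℤ, (1 ≤ x ∧ x ≤ h) ∧ ((S + x : ℤ) : ZMod p) = a := by
  classical
  unfold Itv
  rw [mem_image]
  constructor
  · rintro ⟨x, hx, rfl⟩
    exact ⟨x, mem_Icc.1 hx, rfl⟩
  · rintro ⟨x, hx, rfl⟩
    exact ⟨x, mem_Icc.2 hx, rfl⟩

/-- `M(I,I,I3) = ∑_{x,y ∈ [1,H]} E(λ)`, `λ = (S3+y)/(S3+x)`; `E(λ)` is the sum over `y2` of `#Sol`. -/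
theorem m6_eq {p : ℕ} [Fact p.Prime] {S S3 : ℤ} {h Hn : ℕ} (hh : h < p) (hH : Hn < p)
    (hS : ∀ x : ℤ, 1 ≤ x → x ≤ h → ((S + x : ℤ) : ZMod p) ≠ 0)
    (hS3 : ∀ x : ℤ, 1 ≤ x → x ≤ Hn → ((S3 + x : ℤ) : ZMod p) ≠ 0) :
    M6 (Itv p S h) (Itv p S h) (Itv p S3 Hn) =
      ∑ x ∈ Icc (1 : ℤ) Hn, ∑ y ∈ Icc (1 : ℤ) Hn,
        E4 p S h (((S3 + y : ℤ) : ZMod p) * (((S3 + x : ℤ) : ZMod p))⁻¹) := by
  classical
  rw [← Finset.sum_product' (s := Icc (1 : ℤ) Hn) (t := Icc (1 : ℤ) Hn)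
    (f := fun x y => E4 p S h (((S3 + y : ℤ) : ZMod p) * (((S3 + x : ℤ) : ZMod p))⁻¹))]
  simp only [E4]
  rw [← Finset.card_sigma]
  unfold M6
  symm
  have key : ∀ a b u v c d : ZMod p, c ≠ 0 → (a * b = d * c⁻¹ * (u * v) ↔ a * b * c = u * v * d) := by
    intro a b u v c d hc
    constructor
    · intro h1
      rw [h1]
      field_simp
    · intro h1
      have h2 : a * b = a * b * c * c⁻¹ := by field_simp
      rw [h2, h1]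
      ring
  refine Finset.card_bij (fun a _ =>
    ((((S + a.2.1 : ℤ) : ZMod p), ((S + a.2.2.1 : ℤ) : ZMod p), ((S3 + a.1.1 : ℤ) : ZMod p)),
     (((S + a.2.2.2.1 : ℤ) : ZMod p), ((S + a.2.2.2.2 : ℤ) : ZMod p),
      ((S3 + a.1.2 : ℤ) : ZMod p)))) ?_ ?_ ?_
  · rintro ⟨⟨x, y⟩, x1, x2, y1, y2⟩ ha
    simp only [mem_sigma, mem_product, mem_filter, mem_Icc] at ha
    obtain ⟨⟨hx, hy⟩, ⟨hx1, hx2, hy1, hy2⟩, he⟩ := ha
    simp only [mem_filter, mem_product]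
    refine ⟨⟨⟨Ma_mem.2 ⟨x1, hx1, rfl⟩, Ma_mem.2 ⟨x2, hx2, rfl⟩, Ma_mem.2 ⟨x, hx, rfl⟩⟩,
      Ma_mem.2 ⟨y1, hy1, rfl⟩, Ma_mem.2 ⟨y2, hy2, rfl⟩, Ma_mem.2 ⟨y, hy, rfl⟩⟩, ?_⟩
    exact (key _ _ _ _ _ _ (hS3 x hx.1 hx.2)).1 he
  · rintro ⟨⟨x, y⟩, x1, x2, y1, y2⟩ ha ⟨⟨x', y'⟩, x1', x2', y1', y2'⟩ ha' he
    simp only [mem_sigma, mem_product, mem_filter, mem_Icc] at ha ha'
    obtain ⟨⟨hx, hy⟩, ⟨hx1, hx2, hy1, hy2⟩, -⟩ := ha
    obtain ⟨⟨hx', hy'⟩, ⟨hx1', hx2', hy1', hy2'⟩, -⟩ := ha'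
    simp only [Prod.mk.injEq] at he
    obtain ⟨⟨e1, e2, e3⟩, e4, e5, e6⟩ := he
    have f1 := Ma_inj S hh hx1 hx1' e1
    have f2 := Ma_inj S hh hx2 hx2' e2
    have f3 := Ma_inj S3 hH hx hx' e3
    have f4 := Ma_inj S hh hy1 hy1' e4
    have f5 := Ma_inj S hh hy2 hy2' e5
    have f6 := Ma_inj S3 hH hy hy' e6
    subst f1 f2 f3 f4 f5 f6
    rfl
  · rintro ⟨⟨a, b, c⟩, a', b', c'⟩ hz
    simp only [mem_filter, mem_product] at hz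
    obtain ⟨⟨⟨ha, hb, hc⟩, ha', hb', hc'⟩, he⟩ := hz
    obtain ⟨x1, hx1, rfl⟩ := Ma_mem.1 ha
    obtain ⟨x2, hx2, rfl⟩ := Ma_mem.1 hb
    obtain ⟨x, hx, rfl⟩ := Ma_mem.1 hc
    obtain ⟨y1, hy1, rfl⟩ := Ma_mem.1 ha'
    obtain ⟨y2, hy2, rfl⟩ := Ma_mem.1 hb'
    obtain ⟨y, hy, rfl⟩ := Ma_mem.1 hc'
    refine ⟨⟨⟨x, y⟩, x1, x2, y1, y2⟩, ?_, rfl⟩
    simp only [mem_sigma, mem_product, mem_filter, mem_Icc]
    exact ⟨⟨hx, hy⟩, ⟨hx1, hx2, hy1, hy2⟩, (key _ _ _ _ _ _ (hS3 x hx.1 hx.2)).2 he⟩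

/-- `M(I,I,I3) ≤ 10^5 m^3 h^2 H (1 + log)`. Case `LBS (1/t)`: diagonal `x = y` gives `λ = 1`, `H e4_one`;
off-diagonal `λ ≠ 1`: `H^2 e4_le`, `H t^5 ≤ t^6 = h^2`. Otherwise there is `(a,b) ≠ 0`, `a S + b = 0`,
`|a| < h/t = t^2`, `|b| < h^2/t = t^5`: `AB` with `A = a`, `B = -b` (`a ≠ 0` since `|b| < p`); the diagonal
as before, off-diagonal `struct_sum` (with `e4_eq`, `λ (S+y2) = rho`). -/
theorem m6_le {p : ℕ} [Fact p.Prime] {S : ℤ} {h m : ℕ} (H : Hyp p S h m) (t : ℝ)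
    (ht : 1 ≤ t) (ht3 : t ^ 3 = h) (S3 : ℤ) (Hn : ℕ) (hH1 : 1 ≤ Hn) (hHt : (Hn : ℝ) ≤ t)
    (hS3 : ∀ x : ℤ, 1 ≤ x → x ≤ Hn → ((S3 + x : ℤ) : ZMod p) ≠ 0) :
    (M6 (Itv p S h) (Itv p S h) (Itv p S3 Hn) : ℝ) ≤
      100000 * (m : ℝ) ^ 3 * Hn * (h : ℝ) ^ 2 * (1 + Nat.log 2 h) := by
  classical
  have ht0 : (0 : ℝ) < t := by linarith
  have hh1 : (1 : ℝ) ≤ h := by exact_mod_cast H.hh
  have hp : (100000 : ℝ) * (h : ℝ) ^ 3 ≤ p := by exact_mod_cast H.hp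
  have hh3 : (h : ℝ) ≤ (h : ℝ) ^ 3 := by
    have := pow_le_pow_right₀ hh1 (show 1 ≤ 3 by norm_num)
    simpa using this
  have hhpos : (0 : ℝ) < (h : ℝ) ^ 3 := by positivity
  have hhp : h < p := by
    have : (h : ℝ) < p := by linarith
    exact_mod_cast this
  have hth : t ≤ h := by
    rw [← ht3]
    have := pow_le_pow_right₀ ht (show 1 ≤ 3 by norm_num)
    simpa using this
  have hHp : Hn < p := by
    have : (Hn : ℝ) < p := by linarith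
    exact_mod_cast this
  have hm2 : (2 : ℝ) ≤ m := by exact_mod_cast two_le_of_hyp H
  have hHn0 : (0 : ℝ) < Hn := by exact_mod_cast hH1
  have hlog : (0 : ℝ) ≤ Nat.log 2 h := Nat.cast_nonneg _
  have hcI : ((Icc (1 : ℤ) Hn).card : ℝ) = Hn := by simp
  rw [m6_eq hhp hHp H.hS hS3]
  set I := Icc (1 : ℤ) Hn with hI
  let l : ℤ → ℤ → ZMod p := fun x y => ((S3 + y : ℤ) : ZMod p) * (((S3 + x : ℤ) : ZMod p))⁻¹
  -- the diagonal
  have hdiag : ∀ x ∈ I, (E4 p S h (l x x) : ℝ) ≤ 2 * m * (h : ℝ) ^ 2 := by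
    intro x hx
    have hx' := mem_Icc.1 hx
    have h1 : l x x = 1 := mul_inv_cancel₀ (hS3 x hx'.1 hx'.2)
    rw [h1]
    exact_mod_cast e4_one H
  have hl0 : ∀ x ∈ I, ∀ y ∈ I, l x y ≠ 0 := by
    intro x hx y hy
    have hx' := mem_Icc.1 hx
    have hy' := mem_Icc.1 hy
    exact mul_ne_zero (hS3 y hy'.1 hy'.2) (inv_ne_zero (hS3 x hx'.1 hx'.2))
  have hl1 : ∀ x ∈ I, ∀ y ∈ I, x ≠ y → l x y ≠ 1 := by
    intro x hx y hy hxy h1
    have hx' := mem_Icc.1 hx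
    have hy' := mem_Icc.1 hy
    apply hxy
    have h2 : ((S3 + y : ℤ) : ZMod p) = ((S3 + x : ℤ) : ZMod p) :=
      (mul_inv_eq_one₀ (hS3 x hx'.1 hx'.2)).1 h1
    exact Ma_inj S3 hHp hx' hy' h2.symm
  have hdsum : ∀ c : ℝ, ∑ x ∈ I, ∑ y ∈ I, (if x = y then c else 0) = Hn * c := by
    intro c
    have h1 : ∀ x ∈ I, ∑ y ∈ I, (if x = y then c else 0) = c := by
      intro x hx
      rw [sum_ite_eq, if_pos hx]
    rw [sum_congr rfl h1, sum_const, nsmul_eq_mul, hcI]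
  have hh2 : (h : ℝ) ^ 2 = t ^ 6 := by rw [← ht3]; ring
  have hX : (0 : ℝ) < Hn * (h : ℝ) ^ 2 := by positivity
  by_cases hL : LBS p S h (1 / t)
  · have h1 : ∀ x ∈ I, ∀ y ∈ I, (E4 p S h (l x y) : ℝ) ≤
        (if x = y then 2 * m * (h : ℝ) ^ 2 else 0) +
          20000 * (m : ℝ) ^ 2 * t ^ 5 * (1 + Nat.log 2 h) := by
      intro x hx y hy
      by_cases hxy : x = y
      · subst hxy
        rw [if_pos rfl]
        have h2 := hdiag x hx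
        have h3 : (0 : ℝ) ≤ 20000 * (m : ℝ) ^ 2 * t ^ 5 * (1 + Nat.log 2 h) := by positivity
        linarith
      · rw [if_neg hxy, zero_add]
        exact e4_le H _ (hl0 x hx y hy) (hl1 x hx y hy hxy) t ht ht3 hL
    have h2 : ((∑ x ∈ I, ∑ y ∈ I, E4 p S h (l x y) : ℕ) : ℝ) ≤
        Hn * (2 * m * (h : ℝ) ^ 2) +
          Hn * (Hn * (20000 * (m : ℝ) ^ 2 * t ^ 5 * (1 + Nat.log 2 h))) := by
      push_cast
      refine (sum_le_sum fun x hx => sum_le_sum fun y hy => h1 x hx y hy).trans (le_of_eq ?_)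
      simp only [sum_add_distrib]
      rw [hdsum, sum_const, sum_const, nsmul_eq_mul, nsmul_eq_mul, hcI]
    refine h2.trans ?_
    have h3 : (Hn : ℝ) * t ^ 5 ≤ (h : ℝ) ^ 2 := by
      rw [hh2]
      calc (Hn : ℝ) * t ^ 5 ≤ t * t ^ 5 := mul_le_mul_of_nonneg_right hHt (by positivity)
        _ = t ^ 6 := by ring
    have h4 : (Hn : ℝ) * (Hn * (20000 * (m : ℝ) ^ 2 * t ^ 5 * (1 + Nat.log 2 h))) ≤
        20000 * (m : ℝ) ^ 2 * (Hn * (h : ℝ) ^ 2) * (1 + Nat.log 2 h) := by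
      calc (Hn : ℝ) * (Hn * (20000 * (m : ℝ) ^ 2 * t ^ 5 * (1 + Nat.log 2 h))) =
          20000 * (m : ℝ) ^ 2 * (Hn * (Hn * t ^ 5)) * (1 + Nat.log 2 h) := by ring
        _ ≤ _ := by
          apply mul_le_mul_of_nonneg_right _ (by positivity)
          apply mul_le_mul_of_nonneg_left _ (by positivity)
          exact mul_le_mul_of_nonneg_left h3 hHn0.le
    have hm3 : (m : ℝ) ^ 2 ≤ (m : ℝ) ^ 3 := pow_le_pow_right₀ (by linarith) (by norm_num)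
    have hm1 : 2 * (m : ℝ) ≤ (m : ℝ) ^ 2 := by nlinarith
    have h5 : 2 * (m : ℝ) + 20000 * (m : ℝ) ^ 2 ≤ 100000 * (m : ℝ) ^ 3 := by nlinarith
    have h6 : (Hn : ℝ) * (2 * m * (h : ℝ) ^ 2) ≤
        2 * m * (Hn * (h : ℝ) ^ 2) * (1 + Nat.log 2 h) := by
      have h7 : (0 : ℝ) ≤ 2 * m * (Hn * (h : ℝ) ^ 2) := by positivity
      nlinarith
    calc (Hn : ℝ) * (2 * m * (h : ℝ) ^ 2) +
          Hn * (Hn * (20000 * (m : ℝ) ^ 2 * t ^ 5 * (1 + Nat.log 2 h)))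
        ≤ 2 * m * (Hn * (h : ℝ) ^ 2) * (1 + Nat.log 2 h) +
          20000 * (m : ℝ) ^ 2 * (Hn * (h : ℝ) ^ 2) * (1 + Nat.log 2 h) := add_le_add h6 h4
      _ = (2 * (m : ℝ) + 20000 * (m : ℝ) ^ 2) * ((Hn * (h : ℝ) ^ 2) * (1 + Nat.log 2 h)) := by
          ring
      _ ≤ 100000 * (m : ℝ) ^ 3 * ((Hn * (h : ℝ) ^ 2) * (1 + Nat.log 2 h)) :=
          mul_le_mul_of_nonneg_right h5 (by positivity)
      _ = _ := by ring
  · unfold LBS at hL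
    push Not at hL
    obtain ⟨a, b, hab, h0, ha, hb⟩ := hL
    have hta : 1 / t * h = t ^ 2 := by
      rw [← ht3]
      field_simp
    have htb : 1 / t * (h : ℝ) ^ 2 = t ^ 5 := by
      rw [← ht3]
      field_simp
    rw [hta] at ha
    rw [htb] at hb
    have ha0 : a ≠ 0 := by
      intro ha0
      apply hab ha0
      rw [ha0, zero_mul, zero_add, ZMod.intCast_zmod_eq_zero_iff_dvd] at h0
      by_contra hb0
      have h5 := Int.le_of_dvd (abs_pos.2 hb0) ((dvd_abs _ _).2 h0)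
      have h6 : (p : ℝ) ≤ |(b : ℝ)| := by exact_mod_cast h5
      have h7 : t ^ 5 ≤ t ^ 9 := pow_le_pow_right₀ ht (by norm_num)
      have h8 : (h : ℝ) ^ 3 = t ^ 9 := by rw [← ht3]; ring
      rw [h8] at hp hhpos
      linarith
    have hAB : AB p S t a (-b) := by
      refine ⟨ha0, ?_, ha.le, ?_⟩
      · have h1 : ((a * S : ℤ) : ZMod p) = ((a * S + b : ℤ) : ZMod p) - ((b : ℤ) : ZMod p) := by
          push_cast
          ring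
        rw [h1, h0]
        push_cast
        ring
      · rw [Int.cast_neg, abs_neg]
        exact hb.le
    have hst := struct_sum H t ht ht3 hAB S3 Hn hH1 hHt hS3
    have hoff : ∑ x ∈ I, ∑ y ∈ I, (if x = y then 0 else E4 p S h (l x y)) =
        ∑ z ∈ (Icc (1 : ℤ) h ×ˢ Icc (1 : ℤ) Hn ×ˢ Icc (1 : ℤ) Hn).filter
          (fun z => z.2.1 ≠ z.2.2), (Sol p S h (rho p S S3 z.1 z.2.1 z.2.2)).card := by
      rw [sum_filter, sum_product_right, sum_product]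
      refine sum_congr rfl fun x _ => sum_congr rfl fun y _ => ?_
      by_cases hxy : x = y
      · subst hxy
        simp
      · rw [if_neg hxy, e4_eq]
        refine sum_congr rfl fun y2 _ => ?_
        rw [if_pos hxy]
        congr 2
        simp only [rho, l]
        ring
    have h1 : ∀ x ∈ I, ∀ y ∈ I, (E4 p S h (l x y) : ℝ) ≤
        (if x = y then 2 * m * (h : ℝ) ^ 2 else 0) +
          ((if x = y then 0 else E4 p S h (l x y) : ℕ) : ℝ) := by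
      intro x hx y hy
      by_cases hxy : x = y
      · subst hxy
        rw [if_pos rfl, if_pos rfl, Nat.cast_zero, add_zero]
        exact hdiag x hx
      · rw [if_neg hxy, if_neg hxy, zero_add]
    have h2 : ((∑ x ∈ I, ∑ y ∈ I, E4 p S h (l x y) : ℕ) : ℝ) ≤
        Hn * (2 * m * (h : ℝ) ^ 2) +
          ((∑ x ∈ I, ∑ y ∈ I, (if x = y then 0 else E4 p S h (l x y)) : ℕ) : ℝ) := by
      rw [Nat.cast_sum, Nat.cast_sum]
      simp only [Nat.cast_sum]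
      refine (sum_le_sum fun x hx => sum_le_sum fun y hy => h1 x hx y hy).trans (le_of_eq ?_)
      simp only [sum_add_distrib]
      rw [hdsum]
    rw [hoff] at h2
    refine h2.trans ?_
    have h6 : (Hn : ℝ) * (2 * m * (h : ℝ) ^ 2) ≤
        2 * m * (Hn * (h : ℝ) ^ 2) * (1 + Nat.log 2 h) := by
      have h7 : (0 : ℝ) ≤ 2 * m * (Hn * (h : ℝ) ^ 2) := by positivity
      nlinarith
    have hm3 : (m : ℝ) ≤ (m : ℝ) ^ 3 := by
      have := pow_le_pow_right₀ (show (1 : ℝ) ≤ m by linarith) (show 1 ≤ 3 by norm_num)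
      simpa using this
    have h5 : 2 * (m : ℝ) + 100 * (m : ℝ) ^ 3 ≤ 100000 * (m : ℝ) ^ 3 := by nlinarith
    calc (Hn : ℝ) * (2 * m * (h : ℝ) ^ 2) + _
        ≤ 2 * m * (Hn * (h : ℝ) ^ 2) * (1 + Nat.log 2 h) +
          100 * (m : ℝ) ^ 3 * Hn * (h : ℝ) ^ 2 * (1 + Nat.log 2 h) := add_le_add h6 hst
      _ = (2 * (m : ℝ) + 100 * (m : ℝ) ^ 3) * ((Hn * (h : ℝ) ^ 2) * (1 + Nat.log 2 h)) := by
          ring
      _ ≤ 100000 * (m : ℝ) ^ 3 * ((Hn * (h : ℝ) ^ 2) * (1 + Nat.log 2 h)) :=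
          mul_le_mul_of_nonneg_right h5 (by positivity)
      _ = _ := by ring

end Pool.Agent.H.MP_03bc95_nt
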