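import Pool.Agent.H.MP_03bc95_nt.Base
import Pool.Agent.H.MP_3e6494_nt.helper50.T3Cnt

open Finset

namespace Pool.Agent.H.MP_03bc95_nt

/-- For every `δ > 0` there is `C` with: for all `h ≥ 1` some `m` satisfies `DivB m h` and
`m^3 (1 + Nat.log 2 h) ≤ C h^δ`. From the divisor bound `τ(n) ≤ C n^ε` (`T3Cnt.divisor_bound`). -/
theorem exists_m (δ : ℝ) (hδ : 0 < δ) : ∃ C : ℝ, 1 ≤ C ∧ ∀ h : ℕ, 1 ≤ h →
    ∃ m : ℕ, DivB m h ∧ (m : ℝ) ^ 3 * (1 + Nat.log 2 h) ≤ C * (h : ℝ) ^ δ := by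
  obtain ⟨C, hC, hdiv⟩ := MP_3e6494_nt.T3Cnt.divisor_bound (δ / 36) (by positivity)
  have hl2 : 0 < Real.log 2 := Real.log_pos (by norm_num)
  set A : ℝ := 3 * C * (1000 : ℝ) ^ (δ / 36) with hA
  set B : ℝ := 1 + 2 / (δ * Real.log 2) with hB
  have h1000 : 1 ≤ (1000 : ℝ) ^ (δ / 36) := Real.one_le_rpow (by norm_num) (by positivity)
  have hA1 : 1 ≤ A := by nlinarith
  have hB1 : 1 ≤ B := by
    rw [hB]
    have : 0 ≤ 2 / (δ * Real.log 2) := by positivity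
    linarith
  refine ⟨A ^ 3 * B, by nlinarith [one_le_pow₀ hA1 (n := 3)], fun h hh => ?_⟩
  have hh' : (1 : ℝ) ≤ h := by exact_mod_cast hh
  have hh0 : (0 : ℝ) < h := by linarith
  set X : ℝ := (h : ℝ) ^ (6 * (δ / 36)) with hX
  have hX1 : 1 ≤ X := Real.one_le_rpow hh' (by positivity)
  have hpow : (1000 * (h : ℝ) ^ 6) ^ (δ / 36) = (1000 : ℝ) ^ (δ / 36) * X := by
    rw [Real.mul_rpow (by norm_num) (by positivity), hX, Real.rpow_mul hh0.le]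
    norm_num
  have hm : (⌈2 * (C * (1000 * (h : ℝ) ^ 6) ^ (δ / 36))⌉₊ : ℝ) ≤ A * X := by
    have h1 := (Nat.ceil_lt_add_one
      (show 0 ≤ 2 * (C * (1000 * (h : ℝ) ^ 6) ^ (δ / 36)) by positivity)).le
    refine h1.trans ?_
    rw [hpow, hA]
    have h2 : 1 ≤ C * ((1000 : ℝ) ^ (δ / 36) * X) := by
      have h3 : 1 ≤ (1000 : ℝ) ^ (δ / 36) * X := by nlinarith
      nlinarith
    linarith
  refine ⟨⌈2 * (C * (1000 * (h : ℝ) ^ 6) ^ (δ / 36))⌉₊, ?_, ?_⟩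
  · intro n hn hle
    have h1 := hdiv n.natAbs (Int.natAbs_ne_zero.2 hn)
    have h2 : (n.natAbs : ℝ) ≤ 1000 * (h : ℝ) ^ 6 := by
      have h3 : ((n.natAbs : ℤ) : ℝ) ≤ ((1000 * (h : ℤ) ^ 6 : ℤ) : ℝ) := by
        rw [Int.natCast_natAbs]
        exact_mod_cast hle
      push_cast at h3
      simpa using h3
    have h4 : ((n.natAbs : ℝ)) ^ (δ / 36) ≤ (1000 * (h : ℝ) ^ 6) ^ (δ / 36) :=
      Real.rpow_le_rpow (by positivity) h2 (by positivity)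
    have h5 : ((2 * n.natAbs.divisors.card : ℕ) : ℝ) ≤
        (⌈2 * (C * (1000 * (h : ℝ) ^ 6) ^ (δ / 36))⌉₊ : ℝ) := by
      refine le_trans ?_ (Nat.le_ceil _)
      push_cast
      have h6 : C * (n.natAbs : ℝ) ^ (δ / 36) ≤ C * (1000 * (h : ℝ) ^ 6) ^ (δ / 36) :=
        mul_le_mul_of_nonneg_left h4 (by linarith)
      linarith
    exact_mod_cast h5
  · set m : ℝ := (⌈2 * (C * (1000 * (h : ℝ) ^ 6) ^ (δ / 36))⌉₊ : ℝ) with hmdef
    have hm0 : 0 ≤ m := Nat.cast_nonneg _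
    have hm3 : m ^ 3 ≤ A ^ 3 * (h : ℝ) ^ (δ / 2) := by
      refine (pow_le_pow_left₀ hm0 hm 3).trans (le_of_eq ?_)
      rw [mul_pow, hX, ← Real.rpow_natCast ((h : ℝ) ^ (6 * (δ / 36))) 3, ← Real.rpow_mul hh0.le]
      congr 2
      push_cast
      ring
    have hlog : (1 : ℝ) + Nat.log 2 h ≤ B * (h : ℝ) ^ (δ / 2) := by
      have h1 : (Nat.log 2 h : ℝ) * Real.log 2 ≤ Real.log h := by
        have h2 : (2 : ℝ) ^ (Nat.log 2 h) ≤ h := by
          exact_mod_cast Nat.pow_log_le_self 2 (by omega)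
        have h3 := Real.log_le_log (by positivity) h2
        rwa [Real.log_pow] at h3
      have h2 : Real.log h ≤ (h : ℝ) ^ (δ / 2) / (δ / 2) :=
        Real.log_le_rpow_div hh0.le (by positivity)
      have h3 : (1 : ℝ) ≤ (h : ℝ) ^ (δ / 2) := Real.one_le_rpow hh' (by positivity)
      have h4 : (Nat.log 2 h : ℝ) ≤ 2 / (δ * Real.log 2) * (h : ℝ) ^ (δ / 2) := by
        have h5 : (Nat.log 2 h : ℝ) ≤ (h : ℝ) ^ (δ / 2) / (δ / 2) / Real.log 2 := by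
          rw [le_div_iff₀ hl2]
          exact h1.trans h2
        refine h5.trans (le_of_eq ?_)
        field_simp
      rw [hB]
      linarith
    have hmul := mul_le_mul hm3 hlog (by positivity) (by positivity)
    refine hmul.trans (le_of_eq ?_)
    have h6 : (h : ℝ) ^ (δ / 2) * (h : ℝ) ^ (δ / 2) = (h : ℝ) ^ δ := by
      rw [← Real.rpow_add hh0]
      congr 1
      ring
    calc A ^ 3 * (h : ℝ) ^ (δ / 2) * (B * (h : ℝ) ^ (δ / 2)) =
        A ^ 3 * B * ((h : ℝ) ^ (δ / 2) * (h : ℝ) ^ (δ / 2)) := by ring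
      _ = _ := by rw [h6]

end Pool.Agent.H.MP_03bc95_nt
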