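import Pool.Agent.H.MP_03bc95_nt.Ma
import Pool.Agent.H.MP_03bc95_nt.Mb

open Finset
open scoped Pointwise

namespace Pool.Agent.H.MP_03bc95_nt

theorem itv_card {p : ℕ} [Fact p.Prime] (S : ℤ) {h : ℕ} (hh : h < p) : (Itv p S h).card = h := by
  classical
  unfold Itv
  rw [card_image_of_injOn, Int.card_Icc]
  · simp
  · intro x hx y hy hxy
    rw [Finset.mem_coe, mem_Icc] at hx hy
    have h1 : (((S + x) - (S + y) : ℤ) : ZMod p) = 0 := by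
      have h2 : ((S + x : ℤ) : ZMod p) = ((S + y : ℤ) : ZMod p) := hxy
      rw [Int.cast_sub, h2, sub_self]
    rw [ZMod.intCast_zmod_eq_zero_iff_dvd] at h1
    have h3 : (S + x) - (S + y) = x - y := by ring
    rw [h3] at h1
    by_contra hne
    have h4 : x - y ≠ 0 := sub_ne_zero.2 hne
    have h5 := Int.le_of_dvd (abs_pos.2 h4) ((dvd_abs _ _).2 h1)
    have h6 : |x - y| < p := by
      rw [abs_lt]
      constructor <;> omega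
    omega

theorem zero_notMem_itv {p : ℕ} {S : ℤ} {h : ℕ}
    (hS : ∀ x : ℤ, 1 ≤ x → x ≤ h → ((S + x : ℤ) : ZMod p) ≠ 0) : (0 : ZMod p) ∉ Itv p S h := by
  classical
  unfold Itv
  rw [mem_image]
  rintro ⟨x, hx, h0⟩
  rw [mem_Icc] at hx
  exact hS x hx.1 hx.2 h0

/-- The bound of `m6_le` with the bound of `exists_m`. -/
theorem m6_clean {δ C : ℝ} (hC : ∀ h : ℕ, 1 ≤ h →
    ∃ m : ℕ, DivB m h ∧ (m : ℝ) ^ 3 * (1 + Nat.log 2 h) ≤ C * (h : ℝ) ^ δ)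
    {p : ℕ} [Fact p.Prime] {S : ℤ} {h : ℕ} (hh : 1 ≤ h) (hp : 100000 * h ^ 3 ≤ p)
    (hS : ∀ x : ℤ, 1 ≤ x → x ≤ h → ((S + x : ℤ) : ZMod p) ≠ 0)
    (S3 : ℤ) {Hn : ℕ} (hH1 : 1 ≤ Hn) (hHh : Hn ^ 3 ≤ h)
    (hS3 : ∀ x : ℤ, 1 ≤ x → x ≤ Hn → ((S3 + x : ℤ) : ZMod p) ≠ 0) :
    (M6 (Itv p S h) (Itv p S h) (Itv p S3 Hn) : ℝ) ≤
      100000 * C * Hn * ((h : ℝ) ^ 2 * (h : ℝ) ^ δ) := by
  obtain ⟨m, hm, hmC⟩ := hC h hh
  have hh' : (1 : ℝ) ≤ h := by exact_mod_cast hh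
  have hh0 : (0 : ℝ) < h := by linarith
  have ht1 : (1 : ℝ) ≤ (h : ℝ) ^ (1 / 3 : ℝ) := Real.one_le_rpow hh' (by norm_num)
  have ht3 : ((h : ℝ) ^ (1 / 3 : ℝ)) ^ 3 = h := by
    rw [← Real.rpow_natCast, ← Real.rpow_mul hh0.le]
    norm_num
  have hHt : (Hn : ℝ) ≤ (h : ℝ) ^ (1 / 3 : ℝ) := by
    have h1 : (Hn : ℝ) ^ 3 ≤ ((h : ℝ) ^ (1 / 3 : ℝ)) ^ 3 := by
      rw [ht3]
      exact_mod_cast hHh
    exact (pow_le_pow_iff_left₀ (by positivity) (by positivity) (by norm_num)).1 h1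
  have h1 := m6_le ⟨hh, hp, hS, hm⟩ ((h : ℝ) ^ (1 / 3 : ℝ)) ht1 ht3 S3 Hn hH1 hHt hS3
  refine h1.trans ?_
  have h2 : (0 : ℝ) ≤ 100000 * Hn * (h : ℝ) ^ 2 := by positivity
  have h3 := mul_le_mul_of_nonneg_left hmC h2
  calc 100000 * (m : ℝ) ^ 3 * Hn * (h : ℝ) ^ 2 * (1 + Nat.log 2 h) =
      100000 * Hn * (h : ℝ) ^ 2 * ((m : ℝ) ^ 3 * (1 + Nat.log 2 h)) := by ring
    _ ≤ _ := h3
    _ = _ := by ring

/-- Three intervals, clean form. `h1, h2, H ≥ 1`, `10^5 h_i^3 ≤ p`, `H ≤ h_i^{1/3}`. From `prod_card`,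
`m6_sq_le`, `m6_le`, `exists_m`:
`(h1 h2 H)^2 ≤ |I1 I2 I3| · √(M11 M22) ≤ |I1 I2 I3| C h1^{1+δ/2} h2^{1+δ/2} H`. -/
theorem clean (ε : ℝ) (hε : 0 < ε) : ∃ c : ℝ, 0 < c ∧ ∀ (p : ℕ) [Fact p.Prime]
    (S1 S2 S3 : ℤ) (h1 h2 Hn : ℕ), 1 ≤ h1 → 1 ≤ h2 → 1 ≤ Hn →
    100000 * h1 ^ 3 ≤ p → 100000 * h2 ^ 3 ≤ p → Hn ^ 3 ≤ h1 → Hn ^ 3 ≤ h2 →
    (∀ x : ℤ, 1 ≤ x → x ≤ h1 → ((S1 + x : ℤ) : ZMod p) ≠ 0) →
    (∀ x : ℤ, 1 ≤ x → x ≤ h2 → ((S2 + x : ℤ) : ZMod p) ≠ 0) →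
    (∀ x : ℤ, 1 ≤ x → x ≤ Hn → ((S3 + x : ℤ) : ZMod p) ≠ 0) →
    c * ((h1 : ℝ) * h2 * Hn) ^ (1 - ε) ≤ ((Itv p S1 h1 * Itv p S2 h2 * Itv p S3 Hn).card : ℝ) := by
  obtain ⟨C, hC1, hC⟩ := exists_m (2 * ε) (by positivity)
  refine ⟨1 / (100000 * C), by positivity, ?_⟩
  intro p _ S1 S2 S3 h1 h2 Hn hh1 hh2 hHn hp1 hp2 hH1 hH2 hS1 hS2 hS3
  have hlt : ∀ h : ℕ, 1 ≤ h → 100000 * h ^ 3 ≤ p → h < p := by
    intro h hh hp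
    have h3 : h ≤ h ^ 3 := Nat.le_self_pow (by norm_num) h
    omega
  have hlt1 := hlt h1 hh1 hp1
  have hlt2 := hlt h2 hh2 hp2
  have hltH : Hn < p := by
    have h3 : Hn ≤ Hn ^ 3 := Nat.le_self_pow (by norm_num) Hn
    omega
  have a1 := m6_clean hC hh1 hp1 hS1 S3 hHn hH1 hS3
  have a2 := m6_clean hC hh2 hp2 hS2 S3 hHn hH2 hS3
  have a3 := m6_sq_le (Itv p S1 h1) (Itv p S2 h2) (Itv p S3 Hn) (zero_notMem_itv hS1)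
    (zero_notMem_itv hS2) (zero_notMem_itv hS3)
  have a4 := prod_card (Itv p S1 h1) (Itv p S2 h2) (Itv p S3 Hn)
  rw [itv_card S1 hlt1, itv_card S2 hlt2, itv_card S3 hltH] at a4
  set P : ℕ := (Itv p S1 h1 * Itv p S2 h2 * Itv p S3 Hn).card with hP
  set M : ℕ := M6 (Itv p S1 h1) (Itv p S2 h2) (Itv p S3 Hn) with hM
  have a3' : (M : ℝ) ^ 2 ≤ (M6 (Itv p S1 h1) (Itv p S1 h1) (Itv p S3 Hn) : ℝ) *
      (M6 (Itv p S2 h2) (Itv p S2 h2) (Itv p S3 Hn) : ℝ) := by exact_mod_cast a3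
  have a4' : ((h1 : ℝ) * h2 * Hn) ^ 2 ≤ P * M := by exact_mod_cast a4
  have x1 : (1 : ℝ) ≤ h1 := by exact_mod_cast hh1
  have x2 : (1 : ℝ) ≤ h2 := by exact_mod_cast hh2
  have xH : (1 : ℝ) ≤ Hn := by exact_mod_cast hHn
  have x10 : (0 : ℝ) < h1 := by linarith
  have x20 : (0 : ℝ) < h2 := by linarith
  have xH0 : (0 : ℝ) < Hn := by linarith
  have hC0 : (0 : ℝ) < C := by linarith
  set X : ℝ := (h1 : ℝ) * h2 with hX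
  have hX1 : 1 ≤ X := by nlinarith
  have hX0 : 0 < X := by linarith
  have a5 : (M : ℝ) ≤ 100000 * C * Hn * (X * X ^ ε) := by
    refine (pow_le_pow_iff_left₀ (by positivity) (by positivity) (two_ne_zero)).1
      (a3'.trans ((mul_le_mul a1 a2 (by positivity) (by positivity)).trans (le_of_eq ?_)))
    have e1 : (h1 : ℝ) ^ (2 * ε) * (h2 : ℝ) ^ (2 * ε) = X ^ ε * X ^ ε := by
      rw [← Real.mul_rpow x10.le x20.le, ← Real.rpow_add hX0]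
      congr 1
      ring
    calc 100000 * C * Hn * ((h1 : ℝ) ^ 2 * (h1 : ℝ) ^ (2 * ε)) *
          (100000 * C * Hn * ((h2 : ℝ) ^ 2 * (h2 : ℝ) ^ (2 * ε))) =
        (100000 * C * Hn) ^ 2 * ((h1 : ℝ) * h2) ^ 2 *
          ((h1 : ℝ) ^ (2 * ε) * (h2 : ℝ) ^ (2 * ε)) := by ring
      _ = _ := by rw [e1]; ring
  have hP0 : (0 : ℝ) ≤ P := Nat.cast_nonneg _
  have a6 : (X * Hn) ^ 2 ≤ P * (100000 * C * Hn * (X * X ^ ε)) :=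
    a4'.trans (mul_le_mul_of_nonneg_left a5 hP0)
  have hXe : 0 < X ^ ε := Real.rpow_pos_of_pos hX0 ε
  -- divide by `X * Hn`
  have a7 : X * Hn ≤ P * (100000 * C) * X ^ ε := by
    have h3 : 0 < X * Hn := by positivity
    refine le_of_mul_le_mul_right ?_ h3
    calc X * Hn * (X * Hn) = (X * Hn) ^ 2 := by ring
      _ ≤ _ := a6
      _ = _ := by ring
  have a8 : X ^ (1 - ε) * Hn ≤ P * (100000 * C) := by
    refine le_of_mul_le_mul_right ?_ hXe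
    have h3 : X ^ (1 - ε) * X ^ ε = X := by
      rw [← Real.rpow_add hX0]
      norm_num
    calc X ^ (1 - ε) * Hn * X ^ ε = X ^ (1 - ε) * X ^ ε * Hn := by ring
      _ = X * Hn := by rw [h3]
      _ ≤ _ := a7
  have a9 : (X * Hn) ^ (1 - ε) ≤ X ^ (1 - ε) * Hn := by
    rw [Real.mul_rpow hX0.le xH0.le]
    refine mul_le_mul_of_nonneg_left ?_ (by positivity)
    calc (Hn : ℝ) ^ (1 - ε) ≤ (Hn : ℝ) ^ (1 : ℝ) :=
        Real.rpow_le_rpow_of_exponent_le xH (by linarith)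
      _ = Hn := Real.rpow_one _
  have a10 := a9.trans a8
  rw [div_mul_eq_mul_div, one_mul, div_le_iff₀ (by positivity)]
  exact a10

end Pool.Agent.H.MP_03bc95_nt
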