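import Pool.Agent.H.MP_03bc95_nt.Base

open Finset

namespace Pool.Agent.H.MP_03bc95_nt

/-- Rank two packing. `F` is a finite set of integer points `(a,b)` with `|a| ≤ s1`, `|b| ≤ s2`
and `α a + β b = 0` in `ZMod p`, where `α ≠ 0` or `β ≠ 0`; two vectors `v`, `w` of the same kind
with nonzero determinant exist. Then `p |F| ≤ (6 s1 + 1)(6 s2 + 1)`.
Proof: let `φ (a,b) = α a + β b`, onto `ZMod p`. For every class `z` choose an integer point with
`φ = z` and reduce it modulo `v`, `w` (rational coordinates by Cramer's rule, subtract the integer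
parts): a representative `q z` with `|a| ≤ 2 s1`, `|b| ≤ 2 s2`. The map
`(z, f) ↦ q z + f` from `ZMod p × F` to the integer points of the box `3 s1 × 3 s2` is injective
(apply `φ` to recover `z`). -/
theorem pack2 {p : ℕ} [Fact p.Prime] (α β : ZMod p) (hαβ : α ≠ 0 ∨ β ≠ 0)
    (F : Finset (ℤ × ℤ)) (s1 s2 : ℝ)
    (hF : ∀ f ∈ F, |(f.1 : ℝ)| ≤ s1 ∧ |(f.2 : ℝ)| ≤ s2 ∧ α * (f.1 : ZMod p) + β * (f.2 : ZMod p) = 0)
    (v w : ℤ × ℤ)
    (hv : |(v.1 : ℝ)| ≤ s1 ∧ |(v.2 : ℝ)| ≤ s2 ∧ α * (v.1 : ZMod p) + β * (v.2 : ZMod p) = 0)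
    (hw : |(w.1 : ℝ)| ≤ s1 ∧ |(w.2 : ℝ)| ≤ s2 ∧ α * (w.1 : ZMod p) + β * (w.2 : ZMod p) = 0)
    (hdet : v.1 * w.2 ≠ v.2 * w.1) :
    (p : ℝ) * F.card ≤ (6 * s1 + 1) * (6 * s2 + 1) := by
  have hs1 : 0 ≤ s1 := (abs_nonneg _).trans hv.1
  have hs2 : 0 ≤ s2 := (abs_nonneg _).trans hv.2.1
  -- the class of a point
  let φ : ℤ × ℤ → ZMod p := fun u => α * (u.1 : ZMod p) + β * (u.2 : ZMod p)
  have hφadd : ∀ u u' : ℤ × ℤ, φ (u + u') = φ u + φ u' := by
    intro u u'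
    simp only [φ, Prod.fst_add, Prod.snd_add, Int.cast_add]
    ring
  have hsurj : ∀ z : ZMod p, ∃ u : ℤ × ℤ, φ u = z := by
    intro z
    rcases hαβ with h | h
    · obtain ⟨a, ha⟩ := ZMod.intCast_surjective (z / α)
      refine ⟨(a, 0), ?_⟩
      simp only [φ, ha]
      rw [Int.cast_zero, mul_zero, add_zero, mul_div_cancel₀ _ h]
    · obtain ⟨a, ha⟩ := ZMod.intCast_surjective (z / β)
      refine ⟨(0, a), ?_⟩
      simp only [φ, ha]
      rw [Int.cast_zero, mul_zero, zero_add, mul_div_cancel₀ _ h]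
  -- reduced representatives
  have hD : ((v.1 : ℝ) * w.2 - v.2 * w.1) ≠ 0 := by
    rw [sub_ne_zero]
    exact_mod_cast hdet
  have hrep : ∀ z : ZMod p, ∃ u : ℤ × ℤ, φ u = z ∧ |(u.1 : ℝ)| ≤ 2 * s1 ∧ |(u.2 : ℝ)| ≤ 2 * s2 := by
    intro z
    obtain ⟨u, hu⟩ := hsurj z
    set D : ℝ := (v.1 : ℝ) * w.2 - v.2 * w.1 with hDdef
    set l : ℝ := ((u.1 : ℝ) * w.2 - u.2 * w.1) / D with hl
    set m : ℝ := ((v.1 : ℝ) * u.2 - v.2 * u.1) / D with hm
    have e1 : (u.1 : ℝ) = l * v.1 + m * w.1 := by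
      rw [hl, hm]
      field_simp
      rw [hDdef]
      ring
    have e2 : (u.2 : ℝ) = l * v.2 + m * w.2 := by
      rw [hl, hm]
      field_simp
      rw [hDdef]
      ring
    refine ⟨(u.1 - ⌊l⌋ * v.1 - ⌊m⌋ * w.1, u.2 - ⌊l⌋ * v.2 - ⌊m⌋ * w.2), ?_, ?_, ?_⟩
    · simp only [φ] at hu ⊢
      push_cast
      have h1 := hv.2.2
      have h2 := hw.2.2
      linear_combination hu - (⌊l⌋ : ZMod p) * h1 - (⌊m⌋ : ZMod p) * h2
    · have e3 : (((u.1 - ⌊l⌋ * v.1 - ⌊m⌋ * w.1 : ℤ)) : ℝ) = Int.fract l * v.1 + Int.fract m * w.1 := by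
        push_cast
        rw [Int.fract, Int.fract]
        linear_combination e1
      simp only
      rw [e3]
      refine (abs_add_le _ _).trans ?_
      rw [abs_mul, abs_mul, abs_of_nonneg (Int.fract_nonneg l), abs_of_nonneg (Int.fract_nonneg m)]
      have h1 := mul_le_mul (Int.fract_lt_one l).le hv.1 (abs_nonneg _) zero_le_one
      have h2 := mul_le_mul (Int.fract_lt_one m).le hw.1 (abs_nonneg _) zero_le_one
      linarith
    · have e3 : (((u.2 - ⌊l⌋ * v.2 - ⌊m⌋ * w.2 : ℤ)) : ℝ) = Int.fract l * v.2 + Int.fract m * w.2 := by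
        push_cast
        rw [Int.fract, Int.fract]
        linear_combination e2
      simp only
      rw [e3]
      refine (abs_add_le _ _).trans ?_
      rw [abs_mul, abs_mul, abs_of_nonneg (Int.fract_nonneg l), abs_of_nonneg (Int.fract_nonneg m)]
      have h1 := mul_le_mul (Int.fract_lt_one l).le hv.2.1 (abs_nonneg _) zero_le_one
      have h2 := mul_le_mul (Int.fract_lt_one m).le hw.2.1 (abs_nonneg _) zero_le_one
      linarith
  choose q hq1 hq2 hq3 using hrep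
  -- the box
  set Bx : Finset (ℤ × ℤ) := Finset.Icc (-⌊3 * s1⌋) ⌊3 * s1⌋ ×ˢ Finset.Icc (-⌊3 * s2⌋) ⌊3 * s2⌋
    with hBx
  have hle : (Finset.univ ×ˢ F : Finset (ZMod p × (ℤ × ℤ))).card ≤ Bx.card := by
    refine Finset.card_le_card_of_injOn (fun zf => q zf.1 + zf.2) ?_ ?_
    · intro zf hzf
      rw [Finset.mem_coe, Finset.mem_product] at hzf
      obtain ⟨hf1, hf2, -⟩ := hF zf.2 hzf.2
      have h1 : |((q zf.1 + zf.2).1 : ℝ)| ≤ 3 * s1 := by
        rw [Prod.fst_add, Int.cast_add]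
        refine (abs_add_le _ _).trans ?_
        linarith [hq2 zf.1]
      have h2 : |((q zf.1 + zf.2).2 : ℝ)| ≤ 3 * s2 := by
        rw [Prod.snd_add, Int.cast_add]
        refine (abs_add_le _ _).trans ?_
        linarith [hq3 zf.1]
      rw [abs_le] at h1 h2
      rw [Finset.mem_coe, hBx, Finset.mem_product, Finset.mem_Icc, Finset.mem_Icc]
      refine ⟨⟨?_, Int.le_floor.mpr h1.2⟩, ⟨?_, Int.le_floor.mpr h2.2⟩⟩
      · rw [neg_le]
        apply Int.le_floor.mpr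
        push_cast
        linarith [h1.1]
      · rw [neg_le]
        apply Int.le_floor.mpr
        push_cast
        linarith [h2.1]
    · intro zf hzf zf' hzf' he
      rw [Finset.mem_coe, Finset.mem_product] at hzf hzf'
      have h0 : ∀ f ∈ F, φ f = 0 := fun f hf => (hF f hf).2.2
      have h1 : zf.1 = zf'.1 := by
        have h2 := congrArg φ he
        simp only [hφadd, hq1, h0 _ hzf.2, h0 _ hzf'.2, add_zero] at h2
        exact h2
      have h2 : zf.2 = zf'.2 := by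
        simp only [h1] at he
        exact add_left_cancel he
      exact Prod.ext h1 h2
  rw [Finset.card_product, Finset.card_univ, ZMod.card] at hle
  have hle' : (p : ℝ) * F.card ≤ Bx.card := by exact_mod_cast hle
  refine hle'.trans ?_
  rw [hBx, Finset.card_product, Int.card_Icc, Int.card_Icc]
  push_cast
  have hb : ∀ s : ℝ, 0 ≤ s → (((⌊3 * s⌋ + 1 - -⌊3 * s⌋).toNat : ℕ) : ℝ) ≤ 6 * s + 1 := by
    intro s hs
    have h1 : (0 : ℤ) ≤ ⌊3 * s⌋ := Int.floor_nonneg.mpr (by linarith)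
    have h2 : ((⌊3 * s⌋ + 1 - -⌊3 * s⌋).toNat : ℤ) = 2 * ⌊3 * s⌋ + 1 := by
      rw [Int.toNat_of_nonneg (by linarith)]
      ring
    have h3 : (((⌊3 * s⌋ + 1 - -⌊3 * s⌋).toNat : ℕ) : ℝ) = 2 * (⌊3 * s⌋ : ℝ) + 1 := by
      exact_mod_cast h2
    rw [h3]
    linarith [Int.floor_le (3 * s)]
  exact mul_le_mul (hb s1 hs1) (hb s2 hs2) (Nat.cast_nonneg _) (by linarith)

end Pool.Agent.H.MP_03bc95_nt
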