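import Pool.Agent.H.MP_03bc95_nt.TDef
import Pool.Agent.H.MP_03bc95_nt.P2
import Pool.Agent.H.MP_03bc95_nt.La

open Finset

namespace Pool.Agent.H.MP_03bc95_nt

/-- `¬ LBS (1/t)` gives `(a,b) ≠ 0` with `a S + b = 0` modulo `p`, `|a| < h/t`, `|b| < h^2/t`. Divide by
the gcd `d` of `a, b` (`0 < d ≤ max(|a|,|b|) ≤ h^2 < p`, so `d` is invertible modulo `p`):
`a = d a'`, `b = d b'`, coprime, `a' S + b' = 0` modulo `p`. Put `A = a'`, `B = - b'`. `A ≠ 0`: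
otherwise `b' = 0` modulo `p`, `|b'| < p`, so `b' = 0`, a contradiction.
`k = max (|A| / h) (|B| / h^2) ≤ 1/t`, positive. -/
theorem exists_abk {p : ℕ} [Fact p.Prime] {S : ℤ} {h m : ℕ} (H : Hyp p S h m) (t : ℝ)
    (ht : 1 ≤ t) (hL : ¬ LBS p S h (1 / t)) :
    ∃ (k : ℝ) (A B : ℤ), 0 < k ∧ k ≤ 1 / t ∧ ABk p S h k A B := by
  classical
  have hhZ : (1 : ℤ) ≤ h := by exact_mod_cast H.hh
  have hh : (1 : ℝ) ≤ h := by exact_mod_cast H.hh
  have hh0 : (0 : ℝ) < h := by linarith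
  have hh2 : (0 : ℝ) < (h : ℝ) ^ 2 := by positivity
  have ht0 : 0 < t := by linarith
  have hp : 100000 * (h : ℝ) ^ 3 ≤ p := by exact_mod_cast H.hp
  have h23 : (h : ℝ) ^ 2 ≤ (h : ℝ) ^ 3 := pow_le_pow_right₀ hh (by norm_num)
  have h12 : (h : ℝ) ≤ (h : ℝ) ^ 2 := by
    calc (h : ℝ) = (h : ℝ) ^ 1 := by ring
      _ ≤ _ := pow_le_pow_right₀ hh (by norm_num)
  unfold LBS at hL
  push Not at hL
  obtain ⟨a, b, hab, hS, ha, hb⟩ := hL
  have ht1 : 1 / t ≤ 1 := by rw [div_le_one ht0]; exact ht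
  have ha1 : |(a : ℝ)| ≤ h := by
    have := mul_le_mul_of_nonneg_right ht1 hh0.le
    linarith
  have hb1 : |(b : ℝ)| ≤ (h : ℝ) ^ 2 := by
    have := mul_le_mul_of_nonneg_right ht1 hh2.le
    linarith
  have hap : |(a : ℝ)| < p := by linarith
  have hbp : |(b : ℝ)| < p := by linarith
  have hapZ : |a| < (p : ℤ) := by exact_mod_cast hap
  have hbpZ : |b| < (p : ℤ) := by exact_mod_cast hbp
  -- `a ≠ 0`
  have ha0 : a ≠ 0 := by
    intro h0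
    have hb0 : b = 0 := by
      apply La.eq_zero_of_cast (p := p) b _ hbpZ
      rw [h0] at hS
      push_cast at hS
      linear_combination hS
    exact hab h0 hb0
  obtain ⟨a', b', hcop, ha', hb'⟩ : ∃ a' b' : ℤ, IsCoprime a' b' ∧
      a = (Int.gcd a b : ℤ) * a' ∧ b = (Int.gcd a b : ℤ) * b' := by
    have hg : 0 < Int.gcd a b := Int.gcd_pos_of_ne_zero_left b ha0
    obtain ⟨a', b', h1, h2, h3⟩ := Int.exists_gcd_one hg
    exact ⟨a', b', Int.isCoprime_iff_gcd_eq_one.2 h1, by linarith [h2], by linarith [h3]⟩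
  have hgpos : (0 : ℤ) < (Int.gcd a b : ℤ) := by
    exact_mod_cast Int.gcd_pos_of_ne_zero_left b ha0
  set d : ℤ := (Int.gcd a b : ℤ) with hd
  have ha'0 : a' ≠ 0 := by
    intro h0
    rw [h0, mul_zero] at ha'
    exact ha0 ha'
  have hda : d ≤ |a| := by
    rw [ha', abs_mul, abs_of_pos hgpos]
    have : 1 ≤ |a'| := Int.one_le_abs ha'0
    calc d = d * 1 := by ring
      _ ≤ d * |a'| := mul_le_mul_of_nonneg_left this hgpos.le
  have hdp : (d : ZMod p) ≠ 0 := by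
    intro h0
    have := La.eq_zero_of_cast (p := p) d h0 (by rw [abs_of_pos hgpos]; linarith)
    linarith
  have hS' : ((a' * S : ℤ) : ZMod p) = ((-b' : ℤ) : ZMod p) := by
    apply mul_left_cancel₀ hdp
    rw [ha', hb'] at hS
    push_cast at hS ⊢
    linear_combination hS
  have hd1 : (1 : ℝ) ≤ d := by exact_mod_cast hgpos
  have hra : |(a : ℝ)| = d * |(a' : ℝ)| := by
    have : (a : ℝ) = d * a' := by exact_mod_cast ha'
    rw [this, abs_mul, abs_of_nonneg (by linarith : (0 : ℝ) ≤ d)]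
  have hrb : |(b : ℝ)| = d * |(b' : ℝ)| := by
    have : (b : ℝ) = d * b' := by exact_mod_cast hb'
    rw [this, abs_mul, abs_of_nonneg (by linarith : (0 : ℝ) ≤ d)]
  have haa : |(a' : ℝ)| ≤ |(a : ℝ)| := by
    rw [hra]
    calc |(a' : ℝ)| = 1 * |(a' : ℝ)| := by ring
      _ ≤ _ := mul_le_mul_of_nonneg_right hd1 (abs_nonneg _)
  have hbb : |(b' : ℝ)| ≤ |(b : ℝ)| := by
    rw [hrb]
    calc |(b' : ℝ)| = 1 * |(b' : ℝ)| := by ring
      _ ≤ _ := mul_le_mul_of_nonneg_right hd1 (abs_nonneg _)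
  set k : ℝ := max (|(a' : ℝ)| / h) (|((-b' : ℤ) : ℝ)| / (h : ℝ) ^ 2) with hk
  have hnb : |((-b' : ℤ) : ℝ)| = |(b' : ℝ)| := by push_cast; exact abs_neg _
  refine ⟨k, a', -b', ?_, ?_, ?_⟩
  · apply lt_of_lt_of_le _ (le_max_left _ _)
    apply div_pos _ hh0
    rw [abs_pos]
    exact_mod_cast ha'0
  · refine max_le ?_ ?_
    · rw [div_le_iff₀ hh0]
      linarith
    · rw [div_le_iff₀ hh2, hnb]
      linarith
  · refine ⟨ha'0, hcop.neg_right, hS', ?_, ?_, ?_⟩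
    · exact (div_le_iff₀ hh0).1 (le_max_left _ _)
    · exact (div_le_iff₀ hh2).1 (le_max_right _ _)
    · rcases le_total (|(a' : ℝ)| / h) (|((-b' : ℤ) : ℝ)| / (h : ℝ) ^ 2) with h1 | h1
      · right
        rw [hk, max_eq_right h1]
        exact le_of_eq (div_mul_cancel₀ _ hh2.ne')
      · left
        rw [hk, max_eq_left h1]
        exact le_of_eq (div_mul_cancel₀ _ hh0.ne')

/-- `1 ≤ |A| ≤ k h`. -/
theorem abk_one_le {p : ℕ} {S : ℤ} {h : ℕ} {k : ℝ} {A B : ℤ} (hAB : ABk p S h k A B) :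
    1 ≤ k * h := by
  have h1 : 1 ≤ |A| := Int.one_le_abs hAB.hA0
  have h2 : (1 : ℝ) ≤ |(A : ℝ)| := by exact_mod_cast h1
  exact h2.trans hAB.hA

/-- `A ≠ 0` modulo `p` (`|A| ≤ k h ≤ h < p`). -/
theorem abk_A_ne {p : ℕ} [Fact p.Prime] {S : ℤ} {h m : ℕ} (H : Hyp p S h m) {k : ℝ}
    (hk1 : k ≤ 1) {A B : ℤ} (hAB : ABk p S h k A B) : (A : ZMod p) ≠ 0 := by
  intro h0
  have hh : (1 : ℝ) ≤ h := by exact_mod_cast H.hh
  have hp : 100000 * (h : ℝ) ^ 3 ≤ p := by exact_mod_cast H.hp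
  have h13 : (h : ℝ) ≤ (h : ℝ) ^ 3 := by
    calc (h : ℝ) = (h : ℝ) ^ 1 := by ring
      _ ≤ _ := pow_le_pow_right₀ hh (by norm_num)
  have h1 : |(A : ℝ)| < p := by
    have e1 := hAB.hA
    have e2 := mul_le_mul_of_nonneg_right hk1 (by linarith : (0 : ℝ) ≤ h)
    linarith
  exact hAB.hA0 (La.eq_zero_of_cast (p := p) A h0 (by exact_mod_cast h1))

/-- `B + A x = A (S + x)` modulo `p`. -/
theorem abk_X {p : ℕ} [Fact p.Prime] {S : ℤ} {h : ℕ} {k : ℝ} {A B : ℤ}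
    (hAB : ABk p S h k A B) (x : ℤ) :
    ((B + A * x : ℤ) : ZMod p) = (A : ZMod p) * ((S + x : ℤ) : ZMod p) := by
  have := hAB.hAB
  push_cast at this ⊢
  rw [← this]
  ring

/-- `B + A x ≠ 0` for `x ∈ [1,h]` (it is nonzero modulo `p`), and `|B + A x| ≤ 2 k h^2`. -/
theorem abk_X_ne {p : ℕ} [Fact p.Prime] {S : ℤ} {h m : ℕ} (H : Hyp p S h m) {k : ℝ}
    (hk1 : k ≤ 1) {A B : ℤ} (hAB : ABk p S h k A B) (x : ℤ) (h1 : 1 ≤ x) (h2 : x ≤ h) :
    B + A * x ≠ 0 ∧ |((B + A * x : ℤ) : ℝ)| ≤ 2 * k * (h : ℝ) ^ 2 := by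
  have hh : (1 : ℝ) ≤ h := by exact_mod_cast H.hh
  constructor
  · intro h0
    have h3 := abk_X hAB x
    rw [h0] at h3
    have h6 : (A : ZMod p) * ((S + x : ℤ) : ZMod p) ≠ 0 :=
      mul_ne_zero (abk_A_ne H hk1 hAB) (H.hS x h1 h2)
    apply h6
    rw [← h3]
    simp
  · have r1 : (1 : ℝ) ≤ x := by exact_mod_cast h1
    have r2 : (x : ℝ) ≤ h := by exact_mod_cast h2
    have hx : |(x : ℝ)| ≤ h := by rw [abs_le]; constructor <;> linarith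
    have hk0 : 0 ≤ k * h := (abs_nonneg _).trans hAB.hA
    push_cast
    calc |(B : ℝ) + A * x| ≤ |(B : ℝ)| + |(A : ℝ) * x| := abs_add_le _ _
      _ = |(B : ℝ)| + |(A : ℝ)| * |(x : ℝ)| := by rw [abs_mul]
      _ ≤ k * (h : ℝ) ^ 2 + (k * h) * h :=
          add_le_add hAB.hB (mul_le_mul hAB.hA hx (abs_nonneg _) hk0)
      _ = 2 * k * (h : ℝ) ^ 2 := by ring

/-- `LBWk` at `1 / h` holds: for `(w,g) ≠ 0` with `w = ρ' g`, if `g ≠ 0` then `|g| ≥ 1`; if `g = 0`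
then `w = 0` modulo `p`, `w ≠ 0`, `|w| ≥ p ≥ 100000 h^3 ≥ 3 k h^2`. -/
theorem lbwk_one_div {p : ℕ} [Fact p.Prime] {S : ℤ} {h m : ℕ} (H : Hyp p S h m) {k : ℝ}
    (hk0 : 0 < k) (hk1 : k ≤ 1) (ρ' : ZMod p) : LBWk p h k ρ' (1 / (h : ℝ)) := by
  have hh : (1 : ℝ) ≤ h := by exact_mod_cast H.hh
  have hh0 : (0 : ℝ) < h := by linarith
  have hp : 100000 * (h : ℝ) ^ 3 ≤ p := by exact_mod_cast H.hp
  intro w g hne hwg
  by_cases hg : g = 0
  · left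
    have hw : w ≠ 0 := fun h => hne ⟨h, hg⟩
    have hw0 : (w : ZMod p) = 0 := by rw [hwg, hg]; simp
    have hle : (p : ℤ) ≤ |w| := by
      by_contra hcon
      push Not at hcon
      exact hw (La.eq_zero_of_cast w hw0 hcon)
    have hle2 : (p : ℝ) ≤ |(w : ℝ)| := by exact_mod_cast hle
    have h23 : (h : ℝ) ^ 2 ≤ (h : ℝ) ^ 3 := pow_le_pow_right₀ hh (by norm_num)
    have e1 : 1 / (h : ℝ) * (3 * k * (h : ℝ) ^ 3) = 3 * (k * (h : ℝ) ^ 2) := by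
      field_simp
    have e2 : k * (h : ℝ) ^ 2 ≤ 1 * (h : ℝ) ^ 2 :=
      mul_le_mul_of_nonneg_right hk1 (by positivity)
    have e3 : (0 : ℝ) < (h : ℝ) ^ 3 := by positivity
    rw [e1]
    linarith
  · right
    rw [one_div, inv_mul_cancel₀ (ne_of_gt hh0)]
    have : 1 ≤ |g| := Int.one_le_abs hg
    exact_mod_cast this

end Pool.Agent.H.MP_03bc95_nt
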