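import Pool.Agent.H.MP_03bc95_nt.Sb

open Finset

namespace Pool.Agent.H.MP_03bc95_nt

theorem zmod_ne_zero_Sc {p : ℕ} [Fact p.Prime] (n : ℤ) (hn : n ≠ 0) (hlt : |(n : ℝ)| < p) :
    (n : ZMod p) ≠ 0 := by
  intro h
  have h1 : (p : ℤ) ∣ n := (ZMod.intCast_zmod_eq_zero_iff_dvd n p).1 h
  have h2 : |n| < (p : ℤ) := by
    have : ((|n| : ℤ) : ℝ) < ((p : ℤ) : ℝ) := by
      rw [Int.cast_abs]; simpa using hlt
    exact_mod_cast this
  exact hn (Int.eq_zero_of_abs_lt_dvd h1 h2)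

/-- Two-step fibre bound. -/
theorem fib2_Sc {m h : ℕ} (hm : DivB m h) (F : Finset (ℤ × ℤ × ℤ)) (g : ℤ × ℤ × ℤ → ℤ)
    (A B n x : ℤ) (hA : A ≠ 0) (hn : n ≠ 0) (hn1 : |n| ≤ 1000 * (h : ℤ) ^ 6)
    (hF : ∀ z ∈ F, g z * (B + A * z.1) ≠ 0 ∧ |g z * (B + A * z.1)| ≤ 1000 * (h : ℤ) ^ 6 ∧
      g z * (B + A * z.1) * (z.2.2 - z.2.1) = n ∧ z.2.1 = x) : F.card ≤ m * m := by
  have h1 : F.card ≤ m * (F.image fun z => g z * (B + A * z.1)).card := by
    apply Finset.card_le_mul_card_image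
    intro c hc
    obtain ⟨z0, hz0, rfl⟩ := Finset.mem_image.1 hc
    refine le_trans (card_factor _ (fun z => B + A * z.1) g (g z0 * (B + A * z0.1))
      (hF z0 hz0).1 ?_ ?_) (hm _ (hF z0 hz0).1 (hF z0 hz0).2.1)
    · intro i hi
      have := (Finset.mem_filter.1 hi).2
      rw [mul_comm]; exact this
    · intro i hi j hj hij
      obtain ⟨hiF, hi'⟩ := Finset.mem_filter.1 hi
      obtain ⟨hjF, hj'⟩ := Finset.mem_filter.1 hj
      have e1 : i.1 = j.1 := by
        have hij' : B + A * i.1 = B + A * j.1 := hij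
        have : A * i.1 = A * j.1 := by linarith
        exact mul_left_cancel₀ hA this
      have e2 : i.2.1 = j.2.1 := by rw [(hF i hiF).2.2.2, (hF j hjF).2.2.2]
      have e3 : i.2.2 = j.2.2 := by
        have a1 := (hF i hiF).2.2.1
        have a2 := (hF j hjF).2.2.1
        rw [hi'] at a1
        rw [hj'] at a2
        have : i.2.2 - i.2.1 = j.2.2 - j.2.1 :=
          mul_left_cancel₀ (hF z0 hz0).1 (a1.trans a2.symm)
        rw [e2] at this
        linarith
      exact Prod.ext e1 (Prod.ext e2 e3)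
  have h2 : (F.image fun z => g z * (B + A * z.1)).card ≤ m := by
    refine le_trans (card_factor _ (fun c => c) (fun c => n / c) n hn ?_ ?_) (hm n hn hn1)
    · intro c hc
      obtain ⟨z, hz, rfl⟩ := Finset.mem_image.1 hc
      have : g z * (B + A * z.1) ∣ n := ⟨_, ((hF z hz).2.2.1).symm⟩
      exact Int.mul_ediv_cancel' this
    · intro i _ j _ hij
      exact hij
  exact h1.trans (Nat.mul_le_mul_left m h2)

/-- `|TSet ν| ≤ m^2 H (t^7 H ν^2 + 2 t^6 ν)`. Use `tset_data` with choice. Let `P` be the set of the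
pairs `(a,b)` which occur (`a = w1 - m'`, `b = m'(y-x) - a x`), all in the lattice `a S3 = b` with
`|a| ≤ W = 5 t^8 ν`, `|b| ≤ 2 W H`.
(i) two pairs in `P` with determinant `≠ 0`: `pack2` (`W ≥ 1`, otherwise all `a = 0`) gives
`p |P| ≤ (6W+1)(12WH+1) ≤ 91 W^2 H = 2275 t^16 ν^2 H`, `|P| ≤ t^7 ν^2 H`. For each `(a,b) ∈ P` and
`x ∈ [1,H]`: `m' (y-x) = b + a x ≠ 0` has at most `m` solutions `(m', y - x)`, and each `m'` has at most `m`
factorizations `g1 Y`, which give `y2` (`A ≠ 0`). So `|TSet| ≤ m^2 H |P|`.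
(ii) otherwise all pairs are multiples of one nonzero `(a3,b3) ∈ P` in the sense `b a3 = a b3` (if all
pairs are `(0,0)`: then `m'(y-x) = 0`, impossible, so `TSet = ∅`). `a3 ≠ 0` (otherwise
`b3 = 0` modulo `p`, `|b3| < p`). `b a3 = a b3` reads `w1 (b3 + a3 x) = m' (b3 + a3 y)`, and
`b3 + a3 x ≠ 0` (`≡ a3 (S3 + x)`). For each `(g1, y2, y)` (at most `2 t^3 ν · h · H` of them) the right side
is a nonzero integer `≤ 2 t^8 ν · 3 W H ≤ 1000 h^6`, so at most `m` possibilities for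
`b3 + a3 x`, i.e. `x`. So `|TSet| ≤ 2 t^6 ν H m`. -/
theorem tset_card {p : ℕ} [Fact p.Prime] {S : ℤ} {h m : ℕ} (H : Hyp p S h m) (t : ℝ)
    (ht : 1 ≤ t) (ht3 : t ^ 3 = h) {A B : ℤ} (hAB : AB p S t A B) (S3 : ℤ) (Hn : ℕ)
    (hH1 : 1 ≤ Hn) (hHt : (Hn : ℝ) ≤ t)
    (hS3 : ∀ x : ℤ, 1 ≤ x → x ≤ Hn → ((S3 + x : ℤ) : ZMod p) ≠ 0)
    (ν : ℝ) (hν : 0 < ν) (hν1 : ν ≤ 1) :
    ((TSet p S S3 h Hn t A ν).card : ℝ) ≤
      (m : ℝ) ^ 2 * Hn * (t ^ 7 * Hn * ν ^ 2 + 2 * t ^ 6 * ν) := by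
  classical
  have ht0 : (0 : ℝ) < t := by linarith
  have hHn1 : (1 : ℝ) ≤ Hn := by exact_mod_cast hH1
  have hHn0 : (0 : ℝ) < Hn := by linarith
  have hA0 : A ≠ 0 := hAB.hA0
  have hp9 : 100000 * t ^ 9 ≤ (p : ℝ) := by
    have h1 : ((100000 * h ^ 3 : ℕ) : ℝ) ≤ (p : ℝ) := by exact_mod_cast H.hp
    have h2 : ((100000 * h ^ 3 : ℕ) : ℝ) = 100000 * t ^ 9 := by
      push_cast
      rw [← ht3]; ring
    rw [h2] at h1; exact h1
  have h6 : (1000 * (h : ℝ) ^ 6) = 1000 * t ^ 18 := by rw [← ht3]; ring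
  have hm2 : 2 ≤ m := by
    have := H.hm 1 one_ne_zero (by
      have : (1 : ℤ) ≤ (h : ℤ) := by exact_mod_cast H.hh
      have h1 : (1 : ℤ) ≤ (h : ℤ) ^ 6 := one_le_pow₀ this
      rw [abs_one]; linarith)
    simpa using this
  have hm1 : (1 : ℝ) ≤ m := by
    have : 1 ≤ m := by omega
    exact_mod_cast this
  have hpow : ∀ {i j : ℕ}, i ≤ j → t ^ i ≤ t ^ j := fun hij => pow_le_pow_right₀ ht hij
  choose! w g hwg using fun z hz => tset_data H t ht ht3 hAB S3 Hn hH1 hHt hS3 ν hν hν1 z hz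
  set T := TSet p S S3 h Hn t A ν with hT
  have hmem : ∀ z ∈ T, (1 ≤ z.1 ∧ z.1 ≤ h) ∧ (1 ≤ z.2.1 ∧ z.2.1 ≤ Hn) ∧
      (1 ≤ z.2.2 ∧ z.2.2 ≤ Hn) ∧ z.2.1 ≠ z.2.2 := by
    intro z hz
    rw [hT, TSet] at hz
    simp only [Finset.mem_filter, Finset.mem_product, Finset.mem_Icc] at hz
    exact ⟨hz.1.1, hz.1.2.1, hz.1.2.2, hz.2.1⟩
  set M : ℤ × ℤ × ℤ → ℤ := fun z => g z * (B + A * z.1) with hM
  set a : ℤ × ℤ × ℤ → ℤ := fun z => w z - M z with ha
  set b : ℤ × ℤ × ℤ → ℤ := fun z => M z * (z.2.2 - z.2.1) - a z * z.2.1 with hb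
  have hM0 : ∀ z ∈ T, M z ≠ 0 := fun z hz => mul_ne_zero (hwg z hz).2.1 (hwg z hz).2.2.2.2.1
  have hMb : ∀ z ∈ T, |(M z : ℝ)| ≤ 2 * t ^ 8 * ν := by
    intro z hz
    have h1 := (hwg z hz).2.2.2.1
    have h2 := (hwg z hz).2.2.2.2.2.1
    have : (M z : ℝ) = (g z : ℝ) * ((B + A * z.1 : ℤ) : ℝ) := by rw [hM]; push_cast; ring
    rw [this, abs_mul]
    calc |(g z : ℝ)| * |((B + A * z.1 : ℤ) : ℝ)| ≤ (t ^ 3 * ν) * (2 * t ^ 5) :=
          mul_le_mul h1 h2 (abs_nonneg _) (by positivity)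
      _ = 2 * t ^ 8 * ν := by ring
  have hab : ∀ z ∈ T, |(a z : ℝ)| ≤ 5 * t ^ 8 * ν := fun z hz => (hwg z hz).2.2.2.2.2.2.1
  have hbb : ∀ z ∈ T, |(b z : ℝ)| ≤ 10 * t ^ 8 * ν * Hn :=
    fun z hz => (hwg z hz).2.2.2.2.2.2.2.1
  have hmod : ∀ z ∈ T, ((a z * S3 : ℤ) : ZMod p) = ((b z : ℤ) : ZMod p) :=
    fun z hz => (hwg z hz).2.2.2.2.2.2.2.2
  have hsum : ∀ z, M z * (z.2.2 - z.2.1) = b z + a z * z.2.1 := by
    intro z
    simp only [hb]; ring
  have ht8 : t ^ 8 * ν ≤ t ^ 8 := by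
    have : (0 : ℝ) < t ^ 8 := by positivity
    nlinarith
  have hxy : ∀ z ∈ T, |((z.2.2 - z.2.1 : ℤ) : ℝ)| ≤ Hn := by
    intro z hz
    obtain ⟨_, h1, h2, _⟩ := hmem z hz
    have : |z.2.2 - z.2.1| ≤ (Hn : ℤ) := by rw [abs_le]; constructor <;> linarith [h1.1, h1.2, h2.1, h2.2]
    have h3 : ((|z.2.2 - z.2.1| : ℤ) : ℝ) ≤ ((Hn : ℤ) : ℝ) := by exact_mod_cast this
    rw [Int.cast_abs] at h3
    simpa using h3
  have hn0 : ∀ z ∈ T, M z * (z.2.2 - z.2.1) ≠ 0 := by
    intro z hz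
    exact mul_ne_zero (hM0 z hz) (sub_ne_zero.2 (hmem z hz).2.2.2.symm)
  have hcast6 : ∀ n : ℤ, |(n : ℝ)| ≤ 1000 * t ^ 18 → |n| ≤ 1000 * (h : ℤ) ^ 6 := by
    intro n hn
    rw [← h6] at hn
    have : ((|n| : ℤ) : ℝ) ≤ ((1000 * (h : ℤ) ^ 6 : ℤ) : ℝ) := by
      rw [Int.cast_abs]; push_cast; exact hn
    exact_mod_cast this
  by_cases hdet : ∃ z1 ∈ T, ∃ z2 ∈ T, a z1 * b z2 ≠ b z1 * a z2
  · obtain ⟨z1, hz1, z2, hz2, hd⟩ := hdet
    set P : Finset (ℤ × ℤ) := T.image fun z => (a z, b z) with hP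
    have hW : (1 : ℝ) ≤ 5 * t ^ 8 * ν := by
      by_cases h1 : a z1 = 0
      · have h2 : a z2 ≠ 0 := by
          intro h2
          apply hd
          rw [h1, h2]; ring
        have h3 : (1 : ℝ) ≤ |(a z2 : ℝ)| := by
          have : (1 : ℤ) ≤ |a z2| := Int.one_le_abs h2
          have h4 : ((1 : ℤ) : ℝ) ≤ ((|a z2| : ℤ) : ℝ) := by exact_mod_cast this
          rw [Int.cast_abs] at h4
          simpa using h4
        exact h3.trans (hab z2 hz2)
      · have h3 : (1 : ℝ) ≤ |(a z1 : ℝ)| := by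
          have : (1 : ℤ) ≤ |a z1| := Int.one_le_abs h1
          have h4 : ((1 : ℤ) : ℝ) ≤ ((|a z1| : ℤ) : ℝ) := by exact_mod_cast this
          rw [Int.cast_abs] at h4
          simpa using h4
        exact h3.trans (hab z1 hz1)
    have hker : ∀ z ∈ T, (S3 : ZMod p) * ((a z : ℤ) : ZMod p) + (-1 : ZMod p) * ((b z : ℤ) : ZMod p) = 0 := by
      intro z hz
      have := hmod z hz
      push_cast at this
      rw [← this]; ring
    have hpk := pack2 (p := p) (S3 : ZMod p) (-1 : ZMod p) (Or.inr (neg_ne_zero.2 one_ne_zero)) P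
      (5 * t ^ 8 * ν) (10 * t ^ 8 * ν * Hn) (by
        intro f hf
        obtain ⟨z, hz, rfl⟩ := Finset.mem_image.1 hf
        exact ⟨hab z hz, hbb z hz, hker z hz⟩) (a z1, b z1) (a z2, b z2)
      ⟨hab z1 hz1, hbb z1 hz1, hker z1 hz1⟩ ⟨hab z2 hz2, hbb z2 hz2, hker z2 hz2⟩ hd
    have hPle : (P.card : ℝ) ≤ t ^ 7 * Hn * ν ^ 2 := by
      set W := 5 * t ^ 8 * ν with hWdef
      have e1 : 10 * t ^ 8 * ν * Hn = 2 * W * Hn := by rw [hWdef]; ring
      rw [e1] at hpk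
      have hWH : W ≤ W * Hn := by nlinarith
      have e2 : (6 * W + 1) * (6 * (2 * W * Hn) + 1) ≤ (7 * W) * (13 * (W * Hn)) := by
        apply mul_le_mul
        · linarith
        · nlinarith
        · positivity
        · positivity
      have e3 : (7 * W) * (13 * (W * Hn)) = 2275 * t ^ 16 * ν ^ 2 * Hn := by rw [hWdef]; ring
      have hc0 : (0 : ℝ) ≤ P.card := Nat.cast_nonneg _
      have e4 : 100000 * t ^ 9 * (P.card : ℝ) ≤ 2275 * t ^ 16 * ν ^ 2 * Hn := by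
        calc 100000 * t ^ 9 * (P.card : ℝ) ≤ (p : ℝ) * P.card :=
              mul_le_mul_of_nonneg_right hp9 hc0
          _ ≤ _ := hpk
          _ ≤ _ := e2
          _ = _ := e3
      have ht9 : (0 : ℝ) < t ^ 9 := by positivity
      have e5 : t ^ 9 * (100000 * (P.card : ℝ)) ≤ t ^ 9 * (2275 * (t ^ 7 * Hn * ν ^ 2)) := by
        calc t ^ 9 * (100000 * (P.card : ℝ)) = 100000 * t ^ 9 * (P.card : ℝ) := by ring
          _ ≤ _ := e4
          _ = _ := by ring
      have e6 := le_of_mul_le_mul_left e5 ht9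
      have e7 : (0 : ℝ) ≤ t ^ 7 * Hn * ν ^ 2 := by positivity
      nlinarith
    -- fibres
    have hcard : T.card ≤ (m * m) * (T.image fun z => ((a z, b z), z.2.1)).card := by
      apply Finset.card_le_mul_card_image
      intro c hc
      obtain ⟨z0, hz0, rfl⟩ := Finset.mem_image.1 hc
      refine fib2_Sc H.hm _ g A B (M z0 * (z0.2.2 - z0.2.1)) z0.2.1 hA0 (hn0 z0 hz0) ?_ ?_
      · apply hcast6
        rw [Int.cast_mul, abs_mul]
        calc |(M z0 : ℝ)| * |((z0.2.2 - z0.2.1 : ℤ) : ℝ)| ≤ (2 * t ^ 8 * ν) * Hn :=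
              mul_le_mul (hMb z0 hz0) (hxy z0 hz0) (abs_nonneg _) (by positivity)
          _ ≤ (2 * t ^ 8) * t := by
              apply mul_le_mul _ hHt hHn0.le (by positivity)
              nlinarith
          _ = 2 * t ^ 9 := by ring
          _ ≤ 1000 * t ^ 18 := by
              have := hpow (show 9 ≤ 18 by norm_num)
              have h18 : (0 : ℝ) < t ^ 18 := by positivity
              linarith
      · intro z hz
        obtain ⟨hzT, hz'⟩ := Finset.mem_filter.1 hz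
        simp only [Prod.mk.injEq] at hz'
        obtain ⟨⟨ea, eb⟩, ex⟩ := hz'
        refine ⟨hM0 z hzT, ?_, ?_, ex⟩
        · apply hcast6
          calc |((g z * (B + A * z.1) : ℤ) : ℝ)| ≤ 2 * t ^ 8 * ν := hMb z hzT
            _ ≤ 2 * t ^ 8 := by linarith
            _ ≤ 1000 * t ^ 18 := by
              have := hpow (show 8 ≤ 18 by norm_num)
              have h18 : (0 : ℝ) < t ^ 18 := by positivity
              linarith
        · have h1 := hsum z
          have h2 := hsum z0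
          rw [ea, eb, ex] at h1
          rw [h2, ← h1, ex]
    have himg : (T.image fun z => ((a z, b z), z.2.1)).card ≤ P.card * Hn := by
      have hsub : (T.image fun z => ((a z, b z), z.2.1)) ⊆ P ×ˢ Icc (1 : ℤ) Hn := by
        intro c hc
        obtain ⟨z, hz, rfl⟩ := Finset.mem_image.1 hc
        rw [Finset.mem_product, Finset.mem_Icc]
        exact ⟨Finset.mem_image_of_mem _ hz, (hmem z hz).2.1⟩
      refine (Finset.card_le_card hsub).trans ?_
      rw [Finset.card_product, Int.card_Icc]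
      simp
    have h1 : (T.card : ℝ) ≤ (m : ℝ) * m * (P.card * Hn) := by
      have := hcard.trans (Nat.mul_le_mul_left _ himg)
      exact_mod_cast this
    calc (T.card : ℝ) ≤ (m : ℝ) * m * (P.card * Hn) := h1
      _ ≤ (m : ℝ) * m * ((t ^ 7 * Hn * ν ^ 2) * Hn) := by
          apply mul_le_mul_of_nonneg_left _ (by positivity)
          exact mul_le_mul_of_nonneg_right hPle hHn0.le
      _ = (m : ℝ) ^ 2 * Hn * (t ^ 7 * Hn * ν ^ 2) := by ring
      _ ≤ (m : ℝ) ^ 2 * Hn * (t ^ 7 * Hn * ν ^ 2 + 2 * t ^ 6 * ν) := by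
          apply mul_le_mul_of_nonneg_left _ (by positivity)
          have : (0 : ℝ) ≤ 2 * t ^ 6 * ν := by positivity
          linarith
  · push Not at hdet
    rcases T.eq_empty_or_nonempty with hTe | ⟨z3, hz3⟩
    · rw [hTe, Finset.card_empty]
      push_cast
      positivity
    have hb10 : ∀ z ∈ T, |(b z : ℝ)| ≤ 10 * t ^ 9 := by
      intro z hz
      calc |(b z : ℝ)| ≤ 10 * t ^ 8 * ν * Hn := hbb z hz
        _ ≤ (10 * t ^ 8) * t := by
            apply mul_le_mul _ hHt hHn0.le (by positivity)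
            linarith
        _ = 10 * t ^ 9 := by ring
    have ha5 : ∀ z ∈ T, |(a z : ℝ)| ≤ 5 * t ^ 8 := by
      intro z hz
      calc |(a z : ℝ)| ≤ 5 * t ^ 8 * ν := hab z hz
        _ ≤ 5 * t ^ 8 := by linarith
    have ht9 : (0 : ℝ) < t ^ 9 := by positivity
    have h89 : t ^ 8 ≤ t ^ 9 := hpow (by norm_num)
    have ha3 : a z3 ≠ 0 := by
      intro h0
      have h1 := hmod z3 hz3
      rw [h0] at h1
      have h2 : ((b z3 : ℤ) : ZMod p) = 0 := by rw [← h1]; simp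
      have h3 : b z3 ≠ 0 := by
        intro h3
        apply hn0 z3 hz3
        rw [hsum z3, h0, h3]; ring
      refine zmod_ne_zero_Sc (b z3) h3 ?_ h2
      have := hb10 z3 hz3
      linarith
    have ha3p : ((a z3 : ℤ) : ZMod p) ≠ 0 := by
      apply zmod_ne_zero_Sc _ ha3
      have := ha5 z3 hz3
      linarith
    have hlin : ∀ x : ℤ, 1 ≤ x → x ≤ Hn → b z3 + a z3 * x ≠ 0 := by
      intro x hx1 hx2 h0
      have h1 : ((b z3 + a z3 * x : ℤ) : ZMod p) = 0 := by rw [h0]; simp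
      have h2 := hmod z3 hz3
      have h3 : ((a z3 : ℤ) : ZMod p) * ((S3 + x : ℤ) : ZMod p) = 0 := by
        rw [← h1]
        push_cast
        push_cast at h2
        rw [← h2]; ring
      rcases mul_eq_zero.1 h3 with h4 | h4
      · exact ha3p h4
      · exact hS3 x hx1 hx2 h4
    have hkey : ∀ z ∈ T, (b z3 + a z3 * z.2.1) * w z = M z * (b z3 + a z3 * z.2.2) := by
      intro z hz
      have h1 := hdet z3 hz3 z hz
      have h2 := hsum z
      have h3 : w z = a z + M z := by simp only [ha]; ring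
      rw [h3]
      linear_combination (-1 : ℤ) * h1 - (a z3) * h2
    have hcard : T.card ≤ m * (T.image fun z => (g z, z.1, z.2.2)).card := by
      apply Finset.card_le_mul_card_image
      intro c hc
      obtain ⟨z0, hz0, rfl⟩ := Finset.mem_image.1 hc
      have hN0 : M z0 * (b z3 + a z3 * z0.2.2) ≠ 0 :=
        mul_ne_zero (hM0 z0 hz0) (hlin _ (hmem z0 hz0).2.2.1.1 (hmem z0 hz0).2.2.1.2)
      refine le_trans (card_factor _ (fun z => b z3 + a z3 * z.2.1) w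
        (M z0 * (b z3 + a z3 * z0.2.2)) hN0 ?_ ?_) (H.hm _ hN0 ?_)
      · intro z hz
        obtain ⟨hzT, hz'⟩ := Finset.mem_filter.1 hz
        simp only [Prod.mk.injEq] at hz'
        obtain ⟨eg, e1, e2⟩ := hz'
        have hMM : M z = M z0 := by simp only [hM]; rw [eg, e1]
        have := hkey z hzT
        rw [hMM, e2] at this
        exact this
      · intro z hz z' hz' hzz
        obtain ⟨hzT, hz1⟩ := Finset.mem_filter.1 hz
        obtain ⟨hzT', hz1'⟩ := Finset.mem_filter.1 hz'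
        simp only [Prod.mk.injEq] at hz1 hz1'
        have e : z.2.1 = z'.2.1 := by
          have h1 : b z3 + a z3 * z.2.1 = b z3 + a z3 * z'.2.1 := hzz
          have : a z3 * z.2.1 = a z3 * z'.2.1 := by linarith
          exact mul_left_cancel₀ ha3 this
        exact Prod.ext (hz1.2.1.trans hz1'.2.1.symm)
          (Prod.ext e (hz1.2.2.trans hz1'.2.2.symm))
      · apply hcast6
        rw [Int.cast_mul, abs_mul]
        have hy : |(z0.2.2 : ℝ)| ≤ t := by
          obtain ⟨_, _, h2, _⟩ := hmem z0 hz0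
          have h3 : (0 : ℝ) ≤ (z0.2.2 : ℝ) := by
            have : (0 : ℤ) ≤ z0.2.2 := by linarith [h2.1]
            exact_mod_cast this
          have h4 : (z0.2.2 : ℝ) ≤ Hn := by
            have : ((z0.2.2 : ℤ) : ℝ) ≤ ((Hn : ℤ) : ℝ) := by exact_mod_cast h2.2
            simpa using this
          rw [abs_of_nonneg h3]; linarith
        have h1 : |((b z3 + a z3 * z0.2.2 : ℤ) : ℝ)| ≤ 15 * t ^ 9 := by
          push_cast
          calc |(b z3 : ℝ) + (a z3 : ℝ) * (z0.2.2 : ℝ)|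
              ≤ |(b z3 : ℝ)| + |(a z3 : ℝ)| * |(z0.2.2 : ℝ)| := by
                rw [← abs_mul]; exact abs_add_le _ _
            _ ≤ 10 * t ^ 9 + (5 * t ^ 8) * t := by
                apply add_le_add (hb10 z3 hz3)
                exact mul_le_mul (ha5 z3 hz3) hy (abs_nonneg _) (by positivity)
            _ = 15 * t ^ 9 := by ring
        calc |(M z0 : ℝ)| * |((b z3 + a z3 * z0.2.2 : ℤ) : ℝ)| ≤ (2 * t ^ 8) * (15 * t ^ 9) := by
              apply mul_le_mul _ h1 (abs_nonneg _) (by positivity)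
              have := hMb z0 hz0
              linarith
          _ = 30 * t ^ 17 := by ring
          _ ≤ 1000 * t ^ 18 := by
              have := hpow (show 17 ≤ 18 by norm_num)
              have h18 : (0 : ℝ) < t ^ 18 := by positivity
              linarith
    have himg : ((T.image fun z => (g z, z.1, z.2.2)).card : ℝ) ≤ 2 * (t ^ 3 * ν) * (t ^ 3 * Hn) := by
      set K := ⌊t ^ 3 * ν⌋ with hK
      have hKnn : (0 : ℤ) ≤ K := Int.floor_nonneg.2 (by positivity)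
      have hKle : (K : ℝ) ≤ t ^ 3 * ν := Int.floor_le _
      have hsub : (T.image fun z => (g z, z.1, z.2.2)) ⊆
          (Icc (-K) K).erase 0 ×ˢ Icc (1 : ℤ) h ×ˢ Icc (1 : ℤ) Hn := by
        intro c hc
        obtain ⟨z, hz, rfl⟩ := Finset.mem_image.1 hc
        simp only [Finset.mem_product, Finset.mem_erase, Finset.mem_Icc]
        refine ⟨⟨(hwg z hz).2.1, ?_⟩, (hmem z hz).1, (hmem z hz).2.2.1⟩
        have h1 : |(g z : ℝ)| ≤ t ^ 3 * ν := (hwg z hz).2.2.2.1
        have h2 : |g z| ≤ K := by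
          rw [hK, Int.le_floor, Int.cast_abs]; exact h1
        exact abs_le.1 h2
      have hc := Finset.card_le_card hsub
      rw [Finset.card_product, Finset.card_product, Finset.card_erase_of_mem
        (Finset.mem_Icc.2 ⟨by linarith, hKnn⟩), Int.card_Icc, Int.card_Icc, Int.card_Icc] at hc
      have e1 : (K + 1 - -K).toNat - 1 = (2 * K).toNat := by omega
      have e2 : ((h : ℤ) + 1 - 1).toNat = h := by omega
      have e3 : ((Hn : ℤ) + 1 - 1).toNat = Hn := by omega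
      rw [e1, e2, e3] at hc
      have hc' : ((T.image fun z => (g z, z.1, z.2.2)).card : ℝ) ≤
          ((2 * K).toNat : ℝ) * ((h : ℝ) * Hn) := by exact_mod_cast hc
      have e4 : ((2 * K).toNat : ℝ) = 2 * (K : ℝ) := by
        have h2K : (((2 * K).toNat : ℕ) : ℤ) = 2 * K := Int.toNat_of_nonneg (by linarith)
        exact_mod_cast h2K
      rw [e4, ← ht3] at hc'
      refine hc'.trans ?_
      apply mul_le_mul_of_nonneg_right _ (by positivity)
      linarith
    have h1 : (T.card : ℝ) ≤ (m : ℝ) * (T.image fun z => (g z, z.1, z.2.2)).card := by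
      exact_mod_cast hcard
    have hmm : (m : ℝ) ≤ (m : ℝ) ^ 2 := by nlinarith
    calc (T.card : ℝ) ≤ (m : ℝ) * (T.image fun z => (g z, z.1, z.2.2)).card := h1
      _ ≤ (m : ℝ) ^ 2 * (2 * (t ^ 3 * ν) * (t ^ 3 * Hn)) := by
          apply mul_le_mul hmm himg (Nat.cast_nonneg _) (by positivity)
      _ = (m : ℝ) ^ 2 * Hn * (2 * t ^ 6 * ν) := by ring
      _ ≤ (m : ℝ) ^ 2 * Hn * (t ^ 7 * Hn * ν ^ 2 + 2 * t ^ 6 * ν) := by
          apply mul_le_mul_of_nonneg_left _ (by positivity)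
          have : (0 : ℝ) ≤ t ^ 7 * Hn * ν ^ 2 := by positivity
          linarith

end Pool.Agent.H.MP_03bc95_nt
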