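import Pool.Agent.H.MP_03bc95_nt.TM
import Pool.Agent.H.MP_03bc95_nt.Mb

open Finset

namespace Pool.Agent.H.MP_03bc95_nt

/-- From `exists_m (δ/2)`: `m^3 (1+log)^2 ≤ (m^3 (1+log))^2 ≤ (C h^(δ/2))^2 = C^2 h^δ`
(if `m = 0` the left side is `0`; otherwise `m^3 ≥ 1`). -/
theorem exists_m2 (δ : ℝ) (hδ : 0 < δ) : ∃ C : ℝ, 1 ≤ C ∧ ∀ h : ℕ, 1 ≤ h →
    ∃ m : ℕ, DivB m h ∧ (m : ℝ) ^ 3 * (1 + Nat.log 2 h) ^ 2 ≤ C * (h : ℝ) ^ δ := by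
  obtain ⟨C, hC1, hC⟩ := exists_m (δ / 2) (by positivity)
  refine ⟨C ^ 2, one_le_pow₀ hC1, fun h hh => ?_⟩
  obtain ⟨m, hm, hb⟩ := hC h hh
  refine ⟨m, hm, ?_⟩
  have hh0 : (0 : ℝ) ≤ h := Nat.cast_nonneg h
  have h1 : (m : ℝ) ^ 3 ≤ ((m : ℝ) ^ 3) ^ 2 := by
    have : m ^ 3 ≤ (m ^ 3) ^ 2 := Nat.le_self_pow two_ne_zero _
    exact_mod_cast this
  calc (m : ℝ) ^ 3 * (1 + Nat.log 2 h) ^ 2 ≤ ((m : ℝ) ^ 3) ^ 2 * (1 + Nat.log 2 h) ^ 2 :=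
        mul_le_mul_of_nonneg_right h1 (by positivity)
    _ = ((m : ℝ) ^ 3 * (1 + Nat.log 2 h)) ^ 2 := by ring
    _ ≤ (C * (h : ℝ) ^ (δ / 2)) ^ 2 := pow_le_pow_left₀ (by positivity) hb 2
    _ = C ^ 2 * (h : ℝ) ^ δ := by
        rw [mul_pow, ← Real.rpow_natCast ((h : ℝ) ^ (δ / 2)) 2, ← Real.rpow_mul hh0]
        congr 2
        push_cast
        ring

/-- The bound of `m6_self_le` in clean form, with `t = (max 1 (h^4/p))^(1/3)`, so that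
`t^3 p = max p h^4 ≥ h^4` and `t^2 = (max 1 (h^4/p))^(2/3)`. -/
theorem m6_final (δ : ℝ) (hδ : 0 < δ) : ∃ C : ℝ, 1 ≤ C ∧ ∀ (p : ℕ) [Fact p.Prime]
    (S : ℤ) (h : ℕ), 1 ≤ h → 100000 * h ^ 3 ≤ p →
    (∀ x : ℤ, 1 ≤ x → x ≤ h → ((S + x : ℤ) : ZMod p) ≠ 0) →
    (M6 (Itv p S h) (Itv p S h) (Itv p S h) : ℝ) ≤
      C * (h : ℝ) ^ (3 + δ) * (max 1 ((h : ℝ) ^ 4 / p)) ^ ((2 : ℝ) / 3) := by
  obtain ⟨C, hC1, hC⟩ := exists_m2 δ hδ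
  refine ⟨20000000000 * C, by linarith, fun p _ S h hh hp hS => ?_⟩
  obtain ⟨m, hm, hb⟩ := hC h hh
  have hp0 : (0 : ℝ) < p := by exact_mod_cast (Fact.out : p.Prime).pos
  have hh0 : (0 : ℝ) < h := by exact_mod_cast hh
  obtain ⟨Λ, hΛ⟩ : ∃ Λ : ℝ, Λ = max 1 ((h : ℝ) ^ 4 / p) := ⟨_, rfl⟩
  have hΛ1 : 1 ≤ Λ := hΛ ▸ le_max_left _ _
  have hΛ2 : (h : ℝ) ^ 4 / p ≤ Λ := hΛ ▸ le_max_right _ _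
  have hΛ0 : 0 ≤ Λ := by linarith
  have ht3 : (Λ ^ ((1 : ℝ) / 3)) ^ 3 = Λ := by
    rw [← Real.rpow_natCast, ← Real.rpow_mul hΛ0]
    norm_num
  have ht2 : (Λ ^ ((1 : ℝ) / 3)) ^ 2 = Λ ^ ((2 : ℝ) / 3) := by
    rw [← Real.rpow_natCast, ← Real.rpow_mul hΛ0]
    norm_num
  have h1 := m6_self_le (m := m) ⟨hh, hp, hS, hm⟩ (Λ ^ ((1 : ℝ) / 3))
    (Real.one_le_rpow hΛ1 (by norm_num)) (by
      rw [ht3]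
      rwa [div_le_iff₀ hp0] at hΛ2)
  rw [ht2] at h1
  rw [← hΛ]
  refine h1.trans ?_
  rw [Real.rpow_add hh0]
  have h3 : (h : ℝ) ^ (3 : ℝ) = (h : ℝ) ^ 3 := by
    rw [← Real.rpow_natCast]
    norm_num
  rw [h3]
  have h4 : 0 ≤ 20000000000 * (h : ℝ) ^ 3 * Λ ^ ((2 : ℝ) / 3) := by positivity
  calc 20000000000 * (m : ℝ) ^ 3 * (h : ℝ) ^ 3 * Λ ^ ((2 : ℝ) / 3) * (1 + Nat.log 2 h) ^ 2
      = 20000000000 * (h : ℝ) ^ 3 * Λ ^ ((2 : ℝ) / 3) *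
          ((m : ℝ) ^ 3 * (1 + Nat.log 2 h) ^ 2) := by ring
    _ ≤ 20000000000 * (h : ℝ) ^ 3 * Λ ^ ((2 : ℝ) / 3) * (C * (h : ℝ) ^ δ) :=
        mul_le_mul_of_nonneg_left hb h4
    _ = 20000000000 * C * ((h : ℝ) ^ 3 * (h : ℝ) ^ δ) * Λ ^ ((2 : ℝ) / 3) := by ring

end Pool.Agent.H.MP_03bc95_nt
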