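import Pool.Agent.H.MP_03bc95_nt.TG1

open Finset

namespace Pool.Agent.H.MP_03bc95_nt

/-- the difference of two solutions lies in the lattice `w = A ρ g` -/
theorem TG2_lat {p : ℕ} [Fact p.Prime] {S : ℤ} {h m : ℕ} (H : Hyp p S h m) {k : ℝ}
    (hk1 : k ≤ 1) {A B : ℤ} (hAB : ABk p S h k A B) (ρ : ZMod p)
    (b c g b' c' g' : ℤ)
    (h1 : ((S + b : ℤ) : ZMod p) * ((S + c : ℤ) : ZMod p) = ρ * ((S + g : ℤ) : ZMod p))
    (h2 : ((S + b' : ℤ) : ZMod p) * ((S + c' : ℤ) : ZMod p) = ρ * ((S + g' : ℤ) : ZMod p)) :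
    (((B * (b + c) + A * (b * c)) - (B * (b' + c') + A * (b' * c')) : ℤ) : ZMod p)
      = ((A : ZMod p) * ρ) * ((g - g' : ℤ) : ZMod p) := by
  have h5 := abk_A_ne H hk1 hAB
  have h6 := hAB.hAB
  apply mul_left_cancel₀ h5
  push_cast at h1 h2 h6 ⊢
  rw [← h6]
  linear_combination (A : ZMod p) ^ 2 * h1 - (A : ZMod p) ^ 2 * h2

theorem TG2_absw {k : ℝ} {h : ℕ} {p : ℕ} {S A B : ℤ}
    (hAB : ABk p S h k A B)
    {b c b' c' : ℤ} (hb : 1 ≤ b ∧ b ≤ h) (hc : 1 ≤ c ∧ c ≤ h) (hb' : 1 ≤ b' ∧ b' ≤ h)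
    (hc' : 1 ≤ c' ∧ c' ≤ h) :
    |(((B * (b + c) + A * (b * c)) - (B * (b' + c') + A * (b' * c')) : ℤ) : ℝ)| ≤
      3 * k * (h : ℝ) ^ 3 := by
  have hkh : 0 ≤ k * h := (abs_nonneg _).trans hAB.hA
  have hkh2 : 0 ≤ k * (h : ℝ) ^ 2 := (abs_nonneg _).trans hAB.hB
  have h0 : (0 : ℝ) ≤ h := Nat.cast_nonneg h
  have e1 : (1 : ℝ) ≤ b ∧ (b : ℝ) ≤ h := by exact_mod_cast hb
  have e2 : (1 : ℝ) ≤ c ∧ (c : ℝ) ≤ h := by exact_mod_cast hc
  have e3 : (1 : ℝ) ≤ b' ∧ (b' : ℝ) ≤ h := by exact_mod_cast hb'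
  have e4 : (1 : ℝ) ≤ c' ∧ (c' : ℝ) ≤ h := by exact_mod_cast hc'
  have h1 : |((b + c) - (b' + c') : ℝ)| ≤ 2 * h := by
    rw [abs_le]
    constructor <;> linarith [e1.1, e1.2, e2.1, e2.2, e3.1, e3.2, e4.1, e4.2]
  have h2 : |((b * c) - (b' * c') : ℝ)| ≤ (h : ℝ) ^ 2 := by
    have e5 : (b : ℝ) * c ≤ (h : ℝ) ^ 2 := by
      rw [sq]; exact mul_le_mul e1.2 e2.2 (by linarith [e2.1]) (by linarith [e1.1, e1.2])
    have e6 : (b' : ℝ) * c' ≤ (h : ℝ) ^ 2 := by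
      rw [sq]; exact mul_le_mul e3.2 e4.2 (by linarith [e4.1]) (by linarith [e3.1, e3.2])
    have e7 : 0 ≤ (b : ℝ) * c := mul_nonneg (by linarith [e1.1]) (by linarith [e2.1])
    have e8 : 0 ≤ (b' : ℝ) * c' := mul_nonneg (by linarith [e3.1]) (by linarith [e4.1])
    rw [abs_le]
    constructor <;> linarith
  have h3 : (((B * (b + c) + A * (b * c)) - (B * (b' + c') + A * (b' * c')) : ℤ) : ℝ)
      = (B : ℝ) * ((b + c) - (b' + c')) + A * ((b * c) - (b' * c')) := by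
    push_cast; ring
  rw [h3]
  calc |(B : ℝ) * ((b + c) - (b' + c')) + A * ((b * c) - (b' * c'))|
      ≤ |(B : ℝ) * ((b + c) - (b' + c'))| + |(A : ℝ) * ((b * c) - (b' * c'))| := abs_add_le _ _
    _ = |(B : ℝ)| * |((b + c) - (b' + c') : ℝ)| + |(A : ℝ)| * |((b * c) - (b' * c') : ℝ)| := by
        rw [abs_mul, abs_mul]
    _ ≤ k * (h : ℝ) ^ 2 * (2 * h) + k * h * (h : ℝ) ^ 2 := by
        apply add_le_add
        · exact mul_le_mul hAB.hB h1 (abs_nonneg _) hkh2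
        · exact mul_le_mul hAB.hA h2 (abs_nonneg _) hkh
    _ = 3 * k * (h : ℝ) ^ 3 := by ring

/-- For given `(w,g)` at most `m` solutions `(b,c,g) ∈ Sol` have `B (b+c) + A b c = w` and third
coordinate `g`. Two such solutions have the same value of `(B + A b)(B + A c) = B^2 + A w =: n`
(an integer), `n ≠ 0` and `|n| ≤ (2 k h^2)^2 ≤ 4 h^4 ≤ 1000 h^6` (`abk_X_ne`), so `card_factor` with
`a i = B + A b`, `b i = B + A c` (injective: `A ≠ 0`) and `DivB`. See `Sa_fibre` in `Sa.lean` for the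
same proof with other scales. -/
theorem abk_fibre {p : ℕ} [Fact p.Prime] {S : ℤ} {h m : ℕ} (H : Hyp p S h m) {k : ℝ}
    (hk0 : 0 < k) (hk1 : k ≤ 1) {A B : ℤ} (hAB : ABk p S h k A B) (ρ : ZMod p) (q : ℤ × ℤ) :
    ((Sol p S h ρ).filter
      (fun z => (B * (z.1 + z.2.1) + A * (z.1 * z.2.1), z.2.2) = q)).card ≤ m := by
  classical
  rcases ((Sol p S h ρ).filter
      (fun z => (B * (z.1 + z.2.1) + A * (z.1 * z.2.1), z.2.2) = q)).eq_empty_or_nonempty with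
      he | ⟨z0, hz0⟩
  · rw [he]
    exact Nat.zero_le _
  obtain ⟨hz0, hz0q⟩ := Finset.mem_filter.1 hz0
  have hz0' : (1 ≤ z0.1 ∧ z0.1 ≤ h) ∧ (1 ≤ z0.2.1 ∧ z0.2.1 ≤ h) ∧ (1 ≤ z0.2.2 ∧ z0.2.2 ≤ h) := by
    simp only [Sol, Finset.mem_filter, Finset.mem_product, Finset.mem_Icc] at hz0
    exact hz0.1
  have e0 : (B + A * z0.1) * (B + A * z0.2.1) = B ^ 2 + A * q.1 := by
    rw [← hz0q]; ring
  have hn : B ^ 2 + A * q.1 ≠ 0 := by
    rw [← e0]
    exact mul_ne_zero (abk_X_ne H hk1 hAB _ hz0'.1.1 hz0'.1.2).1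
      (abk_X_ne H hk1 hAB _ hz0'.2.1.1 hz0'.2.1.2).1
  have key := card_factor ((Sol p S h ρ).filter
      (fun z => (B * (z.1 + z.2.1) + A * (z.1 * z.2.1), z.2.2) = q))
      (fun z => B + A * z.1) (fun z => B + A * z.2.1) (B ^ 2 + A * q.1) hn
      (by
        intro z hz
        have := (Finset.mem_filter.1 hz).2
        rw [← this]
        ring)
      (by
        intro z hz z' hz' hzz
        have w1 := (Finset.mem_filter.1 hz)
        have w2 := (Finset.mem_filter.1 hz')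
        have hA0 := hAB.hA0
        have e1 : z.1 = z'.1 := by
          have : A * z.1 = A * z'.1 := by linarith
          exact mul_left_cancel₀ hA0 this
        have hzb : (1 ≤ z.1 ∧ z.1 ≤ h) := by
          have := w1.1
          simp only [Sol, Finset.mem_filter, Finset.mem_product, Finset.mem_Icc] at this
          exact this.1.1
        have hX := (abk_X_ne H hk1 hAB _ hzb.1 hzb.2).1
        have e2 : (B + A * z.1) * (B + A * z.2.1) = (B + A * z.1) * (B + A * z'.2.1) := by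
          have f1 : (B + A * z.1) * (B + A * z.2.1) = B ^ 2 + A * q.1 := by
            rw [← w1.2]; ring
          have f2 : (B + A * z'.1) * (B + A * z'.2.1) = B ^ 2 + A * q.1 := by
            rw [← w2.2]; ring
          rw [f1, ← f2, e1]
        have e3 := mul_left_cancel₀ hX e2
        have e4 : z.2.1 = z'.2.1 := by
          have : A * z.2.1 = A * z'.2.1 := by linarith
          exact mul_left_cancel₀ hA0 this
        have e5 : z.2.2 = z'.2.2 := by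
          have g1 := congrArg Prod.snd w1.2
          have g2 := congrArg Prod.snd w2.2
          simp only at g1 g2
          rw [g1, g2]
        exact Prod.ext e1 (Prod.ext e4 e5))
  have hbound : |B ^ 2 + A * q.1| ≤ 1000 * (h : ℤ) ^ 6 := by
    have hh : (1 : ℝ) ≤ h := by exact_mod_cast H.hh
    have f1 := (abk_X_ne H hk1 hAB _ hz0'.1.1 hz0'.1.2).2
    have f2 := (abk_X_ne H hk1 hAB _ hz0'.2.1.1 hz0'.2.1.2).2
    have hkk : 2 * k * (h : ℝ) ^ 2 ≤ 2 * (h : ℝ) ^ 2 := by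
      have := mul_le_mul_of_nonneg_right hk1 (by positivity : (0 : ℝ) ≤ 2 * (h : ℝ) ^ 2)
      linarith
    have f3 : |((B ^ 2 + A * q.1 : ℤ) : ℝ)| ≤ 1000 * (h : ℝ) ^ 6 := by
      rw [← e0]
      have f4 : |(((B + A * z0.1) * (B + A * z0.2.1) : ℤ) : ℝ)|
          = |((B + A * z0.1 : ℤ) : ℝ)| * |((B + A * z0.2.1 : ℤ) : ℝ)| := by
        rw [← abs_mul, ← Int.cast_mul]
      rw [f4]
      calc |((B + A * z0.1 : ℤ) : ℝ)| * |((B + A * z0.2.1 : ℤ) : ℝ)|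
          ≤ (2 * (h : ℝ) ^ 2) * (2 * (h : ℝ) ^ 2) :=
            mul_le_mul (f1.trans hkk) (f2.trans hkk) (abs_nonneg _) (by positivity)
        _ = 4 * (h : ℝ) ^ 4 := by ring
        _ ≤ 1000 * (h : ℝ) ^ 6 := by
            have : (h : ℝ) ^ 4 ≤ (h : ℝ) ^ 6 := pow_le_pow_right₀ hh (by norm_num)
            have h18 : 0 ≤ (h : ℝ) ^ 6 := by positivity
            linarith
    exact_mod_cast f3
  exact key.trans (H.hm _ hn hbound)

/-- The set of values `(w,g)`, `w = B (b+c) + A b c`, of the solutions `(b,c,g)`. Differences of two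
of them satisfy `w - w' = A ρ (g - g')` modulo `p` (see `Sa_lat` in `Sa.lean`: multiply by `A` and use
`A S = B`), `|w - w'| ≤ k h^2 * 2 h + k h * h^2 = 3 k h^3`, `|g - g'| ≤ h`. If all differences are
proportional: `par2` with scales `3 k h^3` and `h`, `r = ν`, `D = 1`: at most `1/ν + 1` values.
Otherwise, with a fixed value subtracted, `pack2` (`α = 1`, `β = - A ρ`, scales `3 k h^3`, `h`, and
two non-proportional differences): `p N ≤ (18 k h^3 + 1)(6 h + 1) ≤ 19 k h^3 * 7 h = 133 k h^4`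
(`k h ≥ 1`), and `h^4 ≤ t^3 p` gives `N ≤ 133 k t^3`. -/
theorem abk_values {p : ℕ} [Fact p.Prime] {S : ℤ} {h m : ℕ} (H : Hyp p S h m) (t : ℝ)
    (ht : 1 ≤ t) (hΛ : (h : ℝ) ^ 4 ≤ t ^ 3 * p) {k : ℝ} (hk0 : 0 < k) (hk1 : k ≤ 1)
    {A B : ℤ} (hAB : ABk p S h k A B) (ρ : ZMod p) (ν : ℝ) (hν : 0 < ν)
    (hW : LBWk p h k ((A : ZMod p) * ρ) ν) :
    (((Sol p S h ρ).image
      (fun z => (B * (z.1 + z.2.1) + A * (z.1 * z.2.1), z.2.2))).card : ℝ) ≤
      300 * k * t ^ 3 + 1 + 2 / ν := by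
  classical
  have hh : (1 : ℝ) ≤ h := by exact_mod_cast H.hh
  have hh0 : (0 : ℝ) < h := by linarith
  have ht0 : 0 < t := by linarith
  have hkh := abk_one_le hAB
  have hpR : (100000 : ℝ) * (h : ℝ) ^ 3 ≤ p := by exact_mod_cast H.hp
  have hh3 : (1 : ℝ) ≤ (h : ℝ) ^ 3 := one_le_pow₀ hh
  have hp0 : (0 : ℝ) < p := by linarith
  set P : Finset (ℤ × ℤ) :=
    (Sol p S h ρ).image (fun z => (B * (z.1 + z.2.1) + A * (z.1 * z.2.1), z.2.2)) with hP
  have hdiff : ∀ q ∈ P, ∀ q' ∈ P, ((q.1 - q'.1 : ℤ) : ZMod p)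
      = ((A : ZMod p) * ρ) * ((q.2 - q'.2 : ℤ) : ZMod p) ∧
      |((q.1 - q'.1 : ℤ) : ℝ)| ≤ 3 * k * (h : ℝ) ^ 3 ∧ |((q.2 - q'.2 : ℤ) : ℝ)| ≤ h := by
    intro q hq q' hq'
    obtain ⟨z, hz, rfl⟩ := Finset.mem_image.1 hq
    obtain ⟨z', hz', rfl⟩ := Finset.mem_image.1 hq'
    simp only [Sol, Finset.mem_filter, Finset.mem_product, Finset.mem_Icc] at hz hz'
    refine ⟨TG2_lat H hk1 hAB ρ _ _ _ _ _ _ hz.2 hz'.2, ?_, ?_⟩
    · exact TG2_absw hAB hz.1.1 hz.1.2.1 hz'.1.1 hz'.1.2.1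
    · have e1 : (1 : ℝ) ≤ z.2.2 ∧ (z.2.2 : ℝ) ≤ h := by exact_mod_cast hz.1.2.2
      have e2 : (1 : ℝ) ≤ z'.2.2 ∧ (z'.2.2 : ℝ) ≤ h := by exact_mod_cast hz'.1.2.2
      push_cast
      rw [abs_le]
      constructor <;> linarith [e1.1, e1.2, e2.1, e2.2]
  rcases P.eq_empty_or_nonempty with hPe | ⟨q0, hq0⟩
  · rw [hPe]
    simp only [Finset.card_empty, Nat.cast_zero]
    positivity
  by_cases hall : ∀ i ∈ P, ∀ j ∈ P, ∀ u ∈ P, ∀ l ∈ P,
      (i.1 - j.1) * (u.2 - l.2) = (i.2 - j.2) * (u.1 - l.1)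
  · have hpar := par2 P (fun q => q.1) (fun q => q.2) (3 * k * (h : ℝ) ^ 3) h 1 ν
      (by positivity) hh0 hν (by norm_num) hall
      (by
        intro i hi j hj hij
        obtain ⟨d1, d2, d3⟩ := hdiff i hi j hj
        refine hW _ _ ?_ d1
        rintro ⟨h5, h6⟩
        apply hij
        exact Prod.ext (by linarith) (by linarith))
      (by
        intro i hi j hj
        obtain ⟨d1, d2, d3⟩ := hdiff i hi j hj
        exact ⟨by rw [one_mul]; exact d2, by rw [one_mul]; exact d3⟩)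
    have e6 : 1 / ν ≤ 2 / ν := by
      apply div_le_div_of_nonneg_right _ hν.le
      norm_num
    have e7 : 0 < 300 * k * t ^ 3 := by positivity
    linarith
  · push Not at hall
    obtain ⟨i, hi, j, hj, u, hu, l, hl, hne⟩ := hall
    have lat : ∀ q ∈ P, ∀ q' ∈ P, (1 : ZMod p) * ((q.1 - q'.1 : ℤ) : ZMod p) +
        (-((A : ZMod p) * ρ)) * ((q.2 - q'.2 : ℤ) : ZMod p) = 0 := by
      intro q hq q' hq'
      rw [(hdiff q hq q' hq').1]
      ring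
    have e1 := pack2 (p := p) (1 : ZMod p) (-((A : ZMod p) * ρ)) (Or.inl one_ne_zero)
      (P.image (fun q => (q.1 - q0.1, q.2 - q0.2))) (3 * k * (h : ℝ) ^ 3) h
      (by
        intro f hf
        obtain ⟨q, hq, rfl⟩ := Finset.mem_image.1 hf
        obtain ⟨d1, d2, d3⟩ := hdiff q hq q0 hq0
        exact ⟨d2, d3, lat q hq q0 hq0⟩)
      (i.1 - j.1, i.2 - j.2) (u.1 - l.1, u.2 - l.2)
      ⟨(hdiff i hi j hj).2.1, (hdiff i hi j hj).2.2, lat i hi j hj⟩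
      ⟨(hdiff u hu l hl).2.1, (hdiff u hu l hl).2.2, lat u hu l hl⟩ hne
    rw [Finset.card_image_of_injective] at e1
    · have g1 : (1 : ℝ) ≤ k * (h : ℝ) ^ 3 := by
        calc (1 : ℝ) = 1 * 1 := by norm_num
          _ ≤ (k * h) * (h : ℝ) ^ 2 :=
            mul_le_mul hkh (one_le_pow₀ hh) zero_le_one (by positivity)
          _ = k * (h : ℝ) ^ 3 := by ring
      have e2 : (6 * (3 * k * (h : ℝ) ^ 3) + 1) * (6 * h + 1) ≤ 133 * k * (h : ℝ) ^ 4 := by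
        have g3 : (6 * (3 * k * (h : ℝ) ^ 3) + 1) ≤ 19 * (k * (h : ℝ) ^ 3) := by linarith
        have g4 : (6 * (h : ℝ) + 1) ≤ 7 * h := by linarith
        calc (6 * (3 * k * (h : ℝ) ^ 3) + 1) * (6 * h + 1) ≤ (19 * (k * (h : ℝ) ^ 3)) * (7 * h) :=
              mul_le_mul g3 g4 (by positivity) (by positivity)
          _ = 133 * k * (h : ℝ) ^ 4 := by ring
      have e3 : (P.card : ℝ) * p ≤ (133 * k * t ^ 3) * p := by
        calc (P.card : ℝ) * p = (p : ℝ) * P.card := by ring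
          _ ≤ _ := e1
          _ ≤ _ := e2
          _ ≤ 133 * k * (t ^ 3 * p) := mul_le_mul_of_nonneg_left hΛ (by positivity)
          _ = _ := by ring
      have e4 := le_of_mul_le_mul_right e3 hp0
      have e5 : 0 < 2 / ν := by positivity
      have e6 : 0 < k * t ^ 3 := by positivity
      linarith
    · intro q q' hqq
      simp only [Prod.mk.injEq, sub_left_inj] at hqq
      exact Prod.ext hqq.1 hqq.2

/-- `Finset.card_le_mul_card_image` with `abk_fibre`, `abk_values`. -/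
theorem sol_structk {p : ℕ} [Fact p.Prime] {S : ℤ} {h m : ℕ} (H : Hyp p S h m) (t : ℝ)
    (ht : 1 ≤ t) (hΛ : (h : ℝ) ^ 4 ≤ t ^ 3 * p) {k : ℝ} (hk0 : 0 < k) (hk1 : k ≤ 1)
    {A B : ℤ} (hAB : ABk p S h k A B) (ρ : ZMod p) (ν : ℝ) (hν : 0 < ν)
    (hW : LBWk p h k ((A : ZMod p) * ρ) ν) :
    ((Sol p S h ρ).card : ℝ) ≤ m * (300 * k * t ^ 3 + 1 + 2 / ν) := by
  classical
  have h1 := Finset.card_le_mul_card_image
    (f := fun z : ℤ × ℤ × ℤ => (B * (z.1 + z.2.1) + A * (z.1 * z.2.1), z.2.2))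
    (Sol p S h ρ) m (fun q _ => abk_fibre H hk0 hk1 hAB ρ q)
  have h2 := abk_values H t ht hΛ hk0 hk1 hAB ρ ν hν hW
  set N := ((Sol p S h ρ).image
    (fun z => (B * (z.1 + z.2.1) + A * (z.1 * z.2.1), z.2.2))).card with hN
  calc ((Sol p S h ρ).card : ℝ) ≤ ((m * N : ℕ) : ℝ) := by exact_mod_cast h1
    _ = m * (N : ℝ) := by push_cast; ring
    _ ≤ m * (300 * k * t ^ 3 + 1 + 2 / ν) := mul_le_mul_of_nonneg_left h2 (Nat.cast_nonneg _)

end Pool.Agent.H.MP_03bc95_nt
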