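import Pool.Agent.H.MP_03bc95_nt.Ca

open Finset
open scoped Pointwise

namespace Pool.Agent.H.MP_03bc95_nt

/-- `M6` is symmetric: exchange the first two sets. `M6 A B C` is the cardinality of a filter of a
product; use the bijection which exchanges the first two coordinates of both triples
(`Finset.card_bij` or `Finset.card_nbij'`), and `mul_comm`. -/
theorem m6_swap12 {p : ℕ} (A B C : Finset (ZMod p)) : M6 A B C = M6 B A C := by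
  classical
  unfold M6
  refine Finset.card_nbij' (fun z => ((z.1.2.1, z.1.1, z.1.2.2), (z.2.2.1, z.2.1, z.2.2.2)))
    (fun z => ((z.1.2.1, z.1.1, z.1.2.2), (z.2.2.1, z.2.1, z.2.2.2))) ?_ ?_ ?_ ?_
  · rintro ⟨⟨a, b, c⟩, ⟨a', b', c'⟩⟩ hz
    simp only [Finset.coe_filter, Finset.mem_product, Set.mem_setOf_eq] at hz ⊢
    refine ⟨⟨⟨hz.1.1.2.1, hz.1.1.1, hz.1.1.2.2⟩, ⟨hz.1.2.2.1, hz.1.2.1, hz.1.2.2.2⟩⟩, ?_⟩
    rw [mul_comm b a, mul_comm b' a']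
    exact hz.2
  · rintro ⟨⟨a, b, c⟩, ⟨a', b', c'⟩⟩ hz
    simp only [Finset.coe_filter, Finset.mem_product, Set.mem_setOf_eq] at hz ⊢
    refine ⟨⟨⟨hz.1.1.2.1, hz.1.1.1, hz.1.1.2.2⟩, ⟨hz.1.2.2.1, hz.1.2.1, hz.1.2.2.2⟩⟩, ?_⟩
    rw [mul_comm b a, mul_comm b' a']
    exact hz.2
  · intro z _
    rfl
  · intro z _
    rfl

/-- `M6` is symmetric: exchange the last two sets. -/
theorem m6_swap23 {p : ℕ} (A B C : Finset (ZMod p)) : M6 A B C = M6 A C B := by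
  classical
  unfold M6
  refine Finset.card_nbij' (fun z => ((z.1.1, z.1.2.2, z.1.2.1), (z.2.1, z.2.2.2, z.2.2.1)))
    (fun z => ((z.1.1, z.1.2.2, z.1.2.1), (z.2.1, z.2.2.2, z.2.2.1))) ?_ ?_ ?_ ?_
  · rintro ⟨⟨a, b, c⟩, ⟨a', b', c'⟩⟩ hz
    simp only [Finset.coe_filter, Finset.mem_product, Set.mem_setOf_eq] at hz ⊢
    refine ⟨⟨⟨hz.1.1.1, hz.1.1.2.2, hz.1.1.2.1⟩, ⟨hz.1.2.1, hz.1.2.2.2, hz.1.2.2.1⟩⟩, ?_⟩
    rw [mul_right_comm a c b, mul_right_comm a' c' b']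
    exact hz.2
  · rintro ⟨⟨a, b, c⟩, ⟨a', b', c'⟩⟩ hz
    simp only [Finset.coe_filter, Finset.mem_product, Set.mem_setOf_eq] at hz ⊢
    refine ⟨⟨⟨hz.1.1.1, hz.1.1.2.2, hz.1.1.2.1⟩, ⟨hz.1.2.1, hz.1.2.2.2, hz.1.2.2.1⟩⟩, ?_⟩
    rw [mul_right_comm a c b, mul_right_comm a' c' b']
    exact hz.2
  · intro z _
    rfl
  · intro z _
    rfl

/-- `M(A,A,C)^3 ≤ M(A,A,A)^2 M(C,C,C)`. Let `P = M(A,A,C)`, `Q = M(C,C,A)`. `m6_sq_le C A A`: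
`M(C,A,A)^2 ≤ M(C,C,A) M(A,A,A)`, i.e. `P^2 ≤ Q M(A,A,A)` (symmetry); likewise
`Q^2 ≤ P M(C,C,C)`. So `P^4 ≤ Q^2 M(AAA)^2 ≤ P M(CCC) M(AAA)^2`; divide by `P` (if `P = 0` the claim
is trivial). -/
theorem m6_two {p : ℕ} [Fact p.Prime] (A C : Finset (ZMod p)) (hA : (0 : ZMod p) ∉ A)
    (hC : (0 : ZMod p) ∉ C) :
    (M6 A A C) ^ 3 ≤ (M6 A A A) ^ 2 * M6 C C C := by
  have h1 := m6_sq_le C A A hC hA hA
  have h2 := m6_sq_le A C C hA hC hC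
  have e1 : M6 C A A = M6 A A C := by rw [m6_swap12, m6_swap23]
  have e2 : M6 A C C = M6 C C A := by rw [m6_swap12, m6_swap23]
  rw [e1] at h1
  rw [e2] at h2
  generalize M6 A A C = P at h1 h2 ⊢
  generalize M6 C C A = Q at h1 h2
  generalize M6 A A A = a at h1 ⊢
  generalize M6 C C C = c at h2 ⊢
  rcases Nat.eq_zero_or_pos P with h0 | h0
  · rw [h0]
    simp
  · have h3 : P ^ 4 ≤ P * (a ^ 2 * c) := by
      calc P ^ 4 = (P ^ 2) ^ 2 := by ring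
        _ ≤ (Q * a) ^ 2 := Nat.pow_le_pow_left h1 2
        _ = Q ^ 2 * a ^ 2 := by ring
        _ ≤ (P * c) * a ^ 2 := Nat.mul_le_mul_right _ h2
        _ = P * (a ^ 2 * c) := by ring
    have h4 : P * P ^ 3 ≤ P * (a ^ 2 * c) := by
      calc P * P ^ 3 = P ^ 4 := by ring
        _ ≤ _ := h3
    exact Nat.le_of_mul_le_mul_left h4 h0

/-- `M(A,B,C)^3 ≤ M(A,A,A) M(B,B,B) M(C,C,C)`: by `m6_sq_le`
`M(A,B,C)^6 ≤ M(A,A,C)^3 M(B,B,C)^3 ≤ M(AAA)^2 M(CCC) M(BBB)^2 M(CCC) = (M(AAA) M(BBB) M(CCC))^2`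
and `pow_le_pow_left` backwards (`lt_of_pow_lt_pow_left` / `Nat.pow_le_pow_iff_left`). -/
theorem m6_cube {p : ℕ} [Fact p.Prime] (A B C : Finset (ZMod p)) (hA : (0 : ZMod p) ∉ A)
    (hB : (0 : ZMod p) ∉ B) (hC : (0 : ZMod p) ∉ C) :
    (M6 A B C) ^ 3 ≤ M6 A A A * M6 B B B * M6 C C C := by
  have h1 := m6_sq_le A B C hA hB hC
  have h2 := m6_two A C hA hC
  have h3 := m6_two B C hB hC
  have h4 : ((M6 A B C) ^ 3) ^ 2 ≤ (M6 A A A * M6 B B B * M6 C C C) ^ 2 := by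
    calc ((M6 A B C) ^ 3) ^ 2 = ((M6 A B C) ^ 2) ^ 3 := by ring
      _ ≤ (M6 A A C * M6 B B C) ^ 3 := Nat.pow_le_pow_left h1 3
      _ = (M6 A A C) ^ 3 * (M6 B B C) ^ 3 := by ring
      _ ≤ ((M6 A A A) ^ 2 * M6 C C C) * ((M6 B B B) ^ 2 * M6 C C C) := Nat.mul_le_mul h2 h3
      _ = (M6 A A A * M6 B B B * M6 C C C) ^ 2 := by ring
  exact (Nat.pow_le_pow_iff_left (by norm_num)).1 h4

end Pool.Agent.H.MP_03bc95_nt
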