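import Pool.Agent.H.MP_03bc95_nt.Base

open Finset

namespace Pool.Agent.H.MP_03bc95_nt

/-- One-dimensional packing: points of an interval of length `D` with pairwise distances at
least `r`. Proof: the map `i ↦ ⌊(x i - A)/r⌋` is injective into `{0, ..., ⌊D/r⌋}`. -/
theorem pack1 {ι : Type*} (F : Finset ι) (x : ι → ℝ) (A D r : ℝ) (hr : 0 < r) (hD : 0 ≤ D)
    (h1 : ∀ i ∈ F, A ≤ x i ∧ x i ≤ A + D) (h2 : ∀ i ∈ F, ∀ j ∈ F, i ≠ j → r ≤ |x i - x j|) :
    (F.card : ℝ) ≤ D / r + 1 := by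
  have hDr : 0 ≤ D / r := div_nonneg hD hr.le
  have hcard : F.card ≤ (Finset.range (⌊D / r⌋₊ + 1)).card := by
    apply Finset.card_le_card_of_injOn (fun i => ⌊(x i - A) / r⌋₊)
    · intro i hi
      have hi' := h1 i hi
      simp only [Finset.coe_range, Set.mem_Iio]
      apply Nat.lt_succ_of_le
      apply Nat.floor_le_floor
      apply div_le_div_of_nonneg_right _ hr.le
      linarith [hi'.2]
    · intro i hi j hj hij
      by_contra hne
      have hi' := h1 i hi
      have hj' := h1 j hj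
      have h3 := h2 i hi j hj hne
      simp only at hij
      have e1 : (0 : ℝ) ≤ (x i - A) / r := div_nonneg (by linarith [hi'.1]) hr.le
      have e2 : (0 : ℝ) ≤ (x j - A) / r := div_nonneg (by linarith [hj'.1]) hr.le
      have f1 := Nat.floor_le e1
      have f2 := Nat.lt_floor_add_one ((x i - A) / r)
      have f3 := Nat.floor_le e2
      have f4 := Nat.lt_floor_add_one ((x j - A) / r)
      rw [hij] at f1 f2
      have g1 : (x i - A) / r - (x j - A) / r < 1 := by linarith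
      have g2 : (x j - A) / r - (x i - A) / r < 1 := by linarith
      rw [← sub_div, div_lt_one hr] at g1 g2
      have : |x i - x j| < r := by
        rw [abs_lt]; constructor <;> linarith
      linarith
  rw [Finset.card_range] at hcard
  have : (F.card : ℝ) ≤ (⌊D / r⌋₊ : ℝ) + 1 := by exact_mod_cast hcard
  have h5 := Nat.floor_le hDr
  linarith

theorem par2_aux {ι : Type*} (F : Finset ι) (x y : ι → ℤ) (s1 s2 D r : ℝ) (hs1 : 0 < s1)
    (hs2 : 0 < s2) (hr : 0 < r) (hD : 0 ≤ D)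
    (hpar : ∀ i ∈ F, ∀ j ∈ F, ∀ k ∈ F, ∀ l ∈ F,
      (x i - x j) * (y k - y l) = (y i - y j) * (x k - x l))
    (hr1 : ∀ i ∈ F, ∀ j ∈ F, i ≠ j → r * s1 ≤ |((x i - x j : ℤ) : ℝ)| ∨
      r * s2 ≤ |((y i - y j : ℤ) : ℝ)|)
    (hD1 : ∀ i ∈ F, ∀ j ∈ F, |((x i - x j : ℤ) : ℝ)| ≤ D * s1)
    (i0 i1 : ι) (hi0 : i0 ∈ F) (hi1 : i1 ∈ F) (h01 : i0 ≠ i1)
    (hlarge : |((y i0 - y i1 : ℤ) : ℝ)| * s1 ≤ |((x i0 - x i1 : ℤ) : ℝ)| * s2) :
    (F.card : ℝ) ≤ D / r + 1 := by
  have hdx : 0 < |((x i0 - x i1 : ℤ) : ℝ)| := by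
    by_contra hcon
    have h0 : |((x i0 - x i1 : ℤ) : ℝ)| = 0 := le_antisymm (not_lt.mp hcon) (abs_nonneg _)
    rw [h0] at hlarge
    have hy0 : |((y i0 - y i1 : ℤ) : ℝ)| = 0 := by
      have : |((y i0 - y i1 : ℤ) : ℝ)| * s1 ≤ 0 := by simpa using hlarge
      have h' := abs_nonneg ((y i0 - y i1 : ℤ) : ℝ)
      nlinarith
    rcases hr1 i0 hi0 i1 hi1 h01 with h | h
    · rw [h0] at h
      nlinarith
    · rw [hy0] at h
      nlinarith
  have key : ∀ i ∈ F, ∀ j ∈ F, i ≠ j → r * s1 ≤ |((x i - x j : ℤ) : ℝ)| := by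
    intro i hi j hj hij
    rcases hr1 i hi j hj hij with h | h
    · exact h
    · have hp := hpar i hi j hj i0 hi0 i1 hi1
      have hp' : |((x i - x j : ℤ) : ℝ)| * |((y i0 - y i1 : ℤ) : ℝ)|
          = |((y i - y j : ℤ) : ℝ)| * |((x i0 - x i1 : ℤ) : ℝ)| := by
        rw [← abs_mul, ← abs_mul]
        have : (((x i - x j) * (y i0 - y i1) : ℤ) : ℝ) = (((y i - y j) * (x i0 - x i1) : ℤ) : ℝ) := by
          rw [hp]
        push_cast at this ⊢
        rw [this]
      set X := |((x i - x j : ℤ) : ℝ)| with hX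
      set Y := |((y i - y j : ℤ) : ℝ)| with hY
      set P := |((x i0 - x i1 : ℤ) : ℝ)| with hP
      set Q := |((y i0 - y i1 : ℤ) : ℝ)| with hQ
      have hXn : 0 ≤ X := abs_nonneg _
      -- Y * s1 ≤ X * s2
      have h1 : Y * s1 ≤ X * s2 := by
        have : Y * s1 * P ≤ X * s2 * P := by
          calc Y * s1 * P = (Y * P) * s1 := by ring
            _ = (X * Q) * s1 := by rw [hp']
            _ = X * (Q * s1) := by ring
            _ ≤ X * (P * s2) := mul_le_mul_of_nonneg_left hlarge hXn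
            _ = X * s2 * P := by ring
        exact le_of_mul_le_mul_right this hdx
      have h2 : (r * s1) * s2 ≤ X * s2 := by
        calc (r * s1) * s2 = (r * s2) * s1 := by ring
          _ ≤ Y * s1 := mul_le_mul_of_nonneg_right h hs1.le
          _ ≤ X * s2 := h1
      exact le_of_mul_le_mul_right h2 hs2
  obtain ⟨im, him, hmin⟩ := Finset.exists_min_image F x ⟨i0, hi0⟩
  apply pack1 F (fun i => (x i : ℝ) / s1) ((x im : ℝ) / s1) D r hr hD
  · intro i hi
    constructor
    · apply div_le_div_of_nonneg_right _ hs1.le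
      exact_mod_cast hmin i hi
    · have h := hD1 i hi im him
      have h' : (x i : ℝ) - x im ≤ D * s1 := by
        have := le_trans (le_abs_self _) h
        push_cast at this
        exact this
      rw [div_add' _ _ _ hs1.ne']
      apply div_le_div_of_nonneg_right _ hs1.le
      linarith
  · intro i hi j hj hij
    have h := key i hi j hj hij
    have e : (x i : ℝ) / s1 - (x j : ℝ) / s1 = ((x i - x j : ℤ) : ℝ) / s1 := by
      push_cast; ring
    show r ≤ |(x i : ℝ) / s1 - (x j : ℝ) / s1|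
    rw [e, abs_div, abs_of_pos hs1, le_div_iff₀ hs1]
    exact h

/-- Parallel vectors in the plane: all differences of points of `F` are pairwise parallel, of
scaled norm (`max(|a|/s1, |b|/s2)`) at least `r` and at most `D`: then `|F| ≤ D/r + 1`.
Proof: if `F` has at most one element clear. Otherwise take `i0 ≠ i1` in `F`, `d` = difference,
nonzero; let the coordinate `k` be the one where `|d_k|/s_k` is the larger. For every difference
`v` (parallel to `d`) `|v_k|/s_k ≥ |v_l|/s_l` also: from `v1 d2 = v2 d1`. So all differences have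
`|v_k|/s_k ≥ r`, and `pack1` with `x = coordinate k / s_k` (interval from the minimum, length `D`). -/
theorem par2 {ι : Type*} (F : Finset ι) (x y : ι → ℤ) (s1 s2 D r : ℝ) (hs1 : 0 < s1)
    (hs2 : 0 < s2) (hr : 0 < r) (hD : 0 ≤ D)
    (hpar : ∀ i ∈ F, ∀ j ∈ F, ∀ k ∈ F, ∀ l ∈ F,
      (x i - x j) * (y k - y l) = (y i - y j) * (x k - x l))
    (hr1 : ∀ i ∈ F, ∀ j ∈ F, i ≠ j → r * s1 ≤ |((x i - x j : ℤ) : ℝ)| ∨
      r * s2 ≤ |((y i - y j : ℤ) : ℝ)|)
    (hD1 : ∀ i ∈ F, ∀ j ∈ F, |((x i - x j : ℤ) : ℝ)| ≤ D * s1 ∧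
      |((y i - y j : ℤ) : ℝ)| ≤ D * s2) :
    (F.card : ℝ) ≤ D / r + 1 := by
  by_cases hc : F.card ≤ 1
  · have : (F.card : ℝ) ≤ 1 := by exact_mod_cast hc
    have h2 : 0 ≤ D / r := div_nonneg hD hr.le
    linarith
  · push Not at hc
    obtain ⟨i0, hi0, i1, hi1, h01⟩ := Finset.one_lt_card.mp hc
    rcases le_total (|((y i0 - y i1 : ℤ) : ℝ)| * s1) (|((x i0 - x i1 : ℤ) : ℝ)| * s2) with h | h
    · exact par2_aux F x y s1 s2 D r hs1 hs2 hr hD hpar hr1 (fun i hi j hj => (hD1 i hi j hj).1)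
        i0 i1 hi0 hi1 h01 h
    · exact par2_aux F y x s2 s1 D r hs2 hs1 hr hD
        (fun i hi j hj k hk l hl => (hpar i hi j hj k hk l hl).symm)
        (fun i hi j hj hij => (hr1 i hi j hj hij).symm) (fun i hi j hj => (hD1 i hi j hj).2)
        i0 i1 hi0 hi1 h01 h

/-- Counting factorizations: if `a i * b i = n ≠ 0` on `F` and `i ↦ a i` is injective on `F`, then
`|F| ≤ 2 τ(|n|)`. -/
theorem card_factor {ι : Type*} (F : Finset ι) (a b : ι → ℤ) (n : ℤ) (hn : n ≠ 0)
    (h : ∀ i ∈ F, a i * b i = n) (hinj : ∀ i ∈ F, ∀ j ∈ F, a i = a j → i = j) :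
    F.card ≤ 2 * n.natAbs.divisors.card := by
  classical
  have h1 : F.card ≤ ((n.natAbs.divisors.image (fun d : ℕ => (d : ℤ))) ∪
      (n.natAbs.divisors.image (fun d : ℕ => -(d : ℤ)))).card := by
    apply Finset.card_le_card_of_injOn a
    · intro i hi
      have hd : a i ∣ n := ⟨b i, (h i hi).symm⟩
      have hd' : (a i).natAbs ∈ n.natAbs.divisors := by
        rw [Nat.mem_divisors]
        exact ⟨Int.natAbs_dvd_natAbs.mpr hd, by simpa using hn⟩
      simp only [Finset.coe_union, Finset.coe_image, Set.mem_union, Set.mem_image, Finset.mem_coe]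
      rcases le_total 0 (a i) with h0 | h0
      · left
        exact ⟨(a i).natAbs, hd', by omega⟩
      · right
        exact ⟨(a i).natAbs, hd', by omega⟩
    · intro i hi j hj hij
      exact hinj i hi j hj hij
  calc F.card ≤ _ := h1
    _ ≤ (n.natAbs.divisors.image (fun d : ℕ => (d : ℤ))).card
        + (n.natAbs.divisors.image (fun d : ℕ => -(d : ℤ))).card := Finset.card_union_le _ _
    _ ≤ n.natAbs.divisors.card + n.natAbs.divisors.card :=
        add_le_add Finset.card_image_le Finset.card_image_le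
    _ = 2 * n.natAbs.divisors.card := by ring

end Pool.Agent.H.MP_03bc95_nt
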