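import Pool.Agent.H.MP_03bc95_nt.TDef

open Finset

namespace Pool.Agent.H.MP_03bc95_nt

/-- Integers `y` with `(y - x) ∣ n`, `n ≠ 0`, `|n| ≤ 1000 h^6`, are at most `m`: `card_factor` with
`ι = ℤ`, `a y = y - x`, `b y = n / (y - x)`, then `DivB`. -/
theorem div_card {h m : ℕ} (hm : DivB m h) (F : Finset ℤ) (x n : ℤ) (hn : n ≠ 0)
    (hn1 : |n| ≤ 1000 * (h : ℤ) ^ 6) (hF : ∀ y ∈ F, (y - x) ∣ n) : F.card ≤ m := by
  refine (card_factor F (fun y => y - x) (fun y => n / (y - x)) n hn ?_ ?_).trans (hm n hn hn1)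
  · intro y hy
    exact Int.mul_ediv_cancel' (hF y hy)
  · intro y _ z _ hyz
    linarith

/-- Pairs with both differences dividing `n`: the finset is contained in the product of its two
projections, each of cardinality `≤ m` by `div_card`. -/
theorem div_pair_card {h m : ℕ} (hm : DivB m h) (F : Finset (ℤ × ℤ)) (x n : ℤ) (hn : n ≠ 0)
    (hn1 : |n| ≤ 1000 * (h : ℤ) ^ 6) (hF : ∀ q ∈ F, (q.1 - x) ∣ n ∧ (q.2 - x) ∣ n) :
    F.card ≤ m ^ 2 := by
  classical
  have h1 : F ⊆ (F.image fun q => q.1) ×ˢ (F.image fun q => q.2) := by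
    intro q hq
    rw [Finset.mem_product]
    exact ⟨Finset.mem_image_of_mem _ hq, Finset.mem_image_of_mem _ hq⟩
  have h2 := Finset.card_le_card h1
  rw [Finset.card_product] at h2
  have h3 : (F.image fun q => q.1).card ≤ m := by
    apply div_card hm _ x n hn hn1
    intro y hy
    obtain ⟨q, hq, rfl⟩ := Finset.mem_image.1 hy
    exact (hF q hq).1
  have h4 : (F.image fun q => q.2).card ≤ m := by
    apply div_card hm _ x n hn hn1
    intro y hy
    obtain ⟨q, hq, rfl⟩ := Finset.mem_image.1 hy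
    exact (hF q hq).2
  calc F.card ≤ _ := h2
    _ ≤ m * m := Nat.mul_le_mul h3 h4
    _ = m ^ 2 := by ring

end Pool.Agent.H.MP_03bc95_nt
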