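import Mathlib

open Finset

namespace Pool.Agent.H.MP_03bc95_nt

/-- Dyadic summation. `Q z ν` is a property that holds at `ν = 1/h`; if it holds at `ν` then
`f z ≤ a + b/ν + c z`; and it fails at `ν ∈ [1/h, 1]` for at most `K ν` elements of `T`.

Proof. For `j : ℕ` put `v j = max (1/2^j) (1/h)`; `v 0 = 1` (`h ≥ 1`), `1/h ≤ v j ≤ 1`,
`v (j+1) ≥ v j / 2`, and `v J = 1/h` for `J = Nat.log 2 h + 1` (`Nat.lt_pow_succ_log_self`). For
`z ∈ T` let `j` be the least index with `Q z (v j)` (`Nat.find`, `j ≤ J`). If `j = 0` then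
`f z ≤ a + b + c z`. If `j = i + 1` then `¬ Q z (v i)`, `i < J`, and
`f z ≤ a + b / v (i+1) + c z ≤ a + 2 b / v i + c z`. In both cases
`f z ≤ a + b + c z + ∑ i ∈ range J, if ¬ Q z (v i) then 2 b / v i else 0`.
Sum over `z ∈ T` and exchange the sums: the inner sum is
`#{z ∈ T : ¬ Q z (v i)} * (2 b / v i) ≤ K v i * (2 b / v i) = 2 b K`. -/
theorem dyadic_sum {ι : Type*} (T : Finset ι) (Q : ι → ℝ → Prop) (f c : ι → ℝ) (a b K : ℝ)
    (h : ℕ) (hh : 1 ≤ h) (ha : 0 ≤ a) (hb : 0 ≤ b) (hK0 : 0 ≤ K)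
    (hQ0 : ∀ z ∈ T, Q z (1 / (h : ℝ)))
    (hf : ∀ z ∈ T, ∀ ν : ℝ, 0 < ν → ν ≤ 1 → Q z ν → f z ≤ a + b / ν + c z)
    (hK : ∀ (ν : ℝ) (G : Finset ι), G ⊆ T → (∀ z ∈ G, ¬ Q z ν) → 1 / (h : ℝ) ≤ ν → ν ≤ 1 →
      (G.card : ℝ) ≤ K * ν) :
    ∑ z ∈ T, f z ≤ T.card * (a + b) + 2 * b * K * (1 + Nat.log 2 h) + ∑ z ∈ T, c z := by
  classical
  have hh1 : (1 : ℝ) ≤ h := by exact_mod_cast hh
  have hh0 : (0 : ℝ) < h := by linarith
  set v : ℕ → ℝ := fun j => max (1 / 2 ^ j) (1 / (h : ℝ)) with hv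
  have hinv : 1 / (h : ℝ) ≤ 1 := by
    rw [div_le_one hh0]
    exact hh1
  have v0 : v 0 = 1 := by
    simp only [hv, pow_zero, div_one]
    exact max_eq_left hinv
  have vge : ∀ j, 1 / (h : ℝ) ≤ v j := fun j => le_max_right _ _
  have vpos : ∀ j, 0 < v j := fun j => lt_of_lt_of_le (by positivity) (vge j)
  have vle : ∀ j, v j ≤ 1 := by
    intro j
    refine max_le ?_ hinv
    rw [div_le_one (by positivity)]
    exact one_le_pow₀ (by norm_num)
  have vhalf : ∀ j, v j ≤ 2 * v (j + 1) := by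
    intro j
    refine max_le ?_ ?_
    · have e1 : (1 : ℝ) / 2 ^ j = 2 * (1 / 2 ^ (j + 1)) := by
        rw [pow_succ]
        field_simp
      rw [e1]
      exact mul_le_mul_of_nonneg_left (le_max_left _ _) (by norm_num)
    · have := vge (j + 1)
      have := vpos (j + 1)
      linarith [vge (j + 1)]
  have vJ : v (Nat.log 2 h + 1) = 1 / (h : ℝ) := by
    apply max_eq_right
    apply one_div_le_one_div_of_le hh0
    have : h < 2 ^ (Nat.log 2 h + 1) := Nat.lt_pow_succ_log_self (by norm_num) h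
    exact_mod_cast this.le
  have main : ∀ z ∈ T, f z ≤ (a + b) + c z +
      ∑ i ∈ Finset.range (Nat.log 2 h + 1), (if ¬ Q z (v i) then 2 * b / v i else 0) := by
    intro z hz
    have hex : ∃ j, Q z (v j) := ⟨Nat.log 2 h + 1, by rw [vJ]; exact hQ0 z hz⟩
    have hfind := Nat.find_spec hex
    have hterm : ∀ i ∈ Finset.range (Nat.log 2 h + 1),
        0 ≤ (if ¬ Q z (v i) then 2 * b / v i else 0) := by
      intro i _
      have := vpos i
      by_cases hQ : ¬ Q z (v i)
      · rw [if_pos hQ]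
        positivity
      · rw [if_neg hQ]
    rcases Nat.eq_zero_or_pos (Nat.find hex) with h0 | h0
    · rw [h0] at hfind
      have h1 := hf z hz (v 0) (vpos 0) (vle 0) hfind
      rw [v0, div_one] at h1
      have h2 := Finset.sum_nonneg hterm
      linarith
    · obtain ⟨i, hi⟩ : ∃ i, Nat.find hex = i + 1 := ⟨Nat.find hex - 1, by omega⟩
      rw [hi] at hfind
      have hni : ¬ Q z (v i) := Nat.find_min hex (by omega)
      have hiJ : i < Nat.log 2 h + 1 := by
        have : Nat.find hex ≤ Nat.log 2 h + 1 :=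
          Nat.find_min' hex (by rw [vJ]; exact hQ0 z hz)
        omega
      have h1 := hf z hz (v (i + 1)) (vpos _) (vle _) hfind
      have h2 : (if ¬ Q z (v i) then 2 * b / v i else 0) ≤
          ∑ i ∈ Finset.range (Nat.log 2 h + 1), (if ¬ Q z (v i) then 2 * b / v i else 0) :=
        Finset.single_le_sum hterm (Finset.mem_range.2 hiJ)
      rw [if_pos hni] at h2
      have h3 : b / v (i + 1) ≤ 2 * b / v i := by
        rw [div_le_div_iff₀ (vpos _) (vpos _)]
        have := mul_le_mul_of_nonneg_left (vhalf i) hb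
        linarith
      linarith
  have hsum : ∀ i ∈ Finset.range (Nat.log 2 h + 1),
      ∑ z ∈ T, (if ¬ Q z (v i) then 2 * b / v i else 0) ≤ 2 * b * K := by
    intro i _
    rw [← Finset.sum_filter, Finset.sum_const, nsmul_eq_mul]
    have h1 := hK (v i) (T.filter fun z => ¬ Q z (v i)) (Finset.filter_subset _ _)
      (fun z hz => (Finset.mem_filter.1 hz).2) (vge i) (vle i)
    have h2 : 0 ≤ 2 * b / v i := by
      have := vpos i
      positivity
    calc ((T.filter fun z => ¬ Q z (v i)).card : ℝ) * (2 * b / v i) ≤ (K * v i) * (2 * b / v i) :=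
          mul_le_mul_of_nonneg_right h1 h2
      _ = 2 * b * K := by
        have := (vpos i).ne'
        field_simp
  calc ∑ z ∈ T, f z ≤ ∑ z ∈ T, ((a + b) + c z +
      ∑ i ∈ Finset.range (Nat.log 2 h + 1), (if ¬ Q z (v i) then 2 * b / v i else 0)) :=
        Finset.sum_le_sum main
    _ = T.card * (a + b) + ∑ z ∈ T, c z + ∑ i ∈ Finset.range (Nat.log 2 h + 1),
        ∑ z ∈ T, (if ¬ Q z (v i) then 2 * b / v i else 0) := by
        rw [Finset.sum_add_distrib, Finset.sum_add_distrib, Finset.sum_const, nsmul_eq_mul,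
          Finset.sum_comm]
    _ ≤ T.card * (a + b) + ∑ z ∈ T, c z + ∑ i ∈ Finset.range (Nat.log 2 h + 1), 2 * b * K := by
        have := Finset.sum_le_sum hsum
        linarith
    _ = _ := by
        rw [Finset.sum_const, Finset.card_range, nsmul_eq_mul]
        push_cast
        ring

end Pool.Agent.H.MP_03bc95_nt
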