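import Pool.Agent.H.MP_03bc95_nt.TE0
import Pool.Agent.H.MP_03bc95_nt.P1

open Finset

namespace Pool.Agent.H.MP_03bc95_nt

/-- Pairs `(y2, y)` for a fixed `x` and a fixed `c` (`c = j p`). For `q ∈ P` choose `n q`
(function `φ`). The values `n` are pairwise congruent modulo `X`: `X ∣ A^2 (n - n')` and `A`, `X`
are coprime, so `X ∣ n - n'` and different values have distance at least `|X|`; they lie in an
interval of length `2 N`: `pack1` gives at most `2 N / |X| + 1` values. Over each value there are at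
most `m^2` pairs (`div_pair_card`, `|n| ≤ N ≤ h^3 ≤ 1000 h^6`). -/
theorem tw_fibre {h m : ℕ} (hh : 1 ≤ h) (hm : DivB m h) (P : Finset (ℤ × ℤ)) (x X A c : ℤ)
    (hX : X ≠ 0) (hcop : IsCoprime A X) (N : ℝ) (hN0 : 0 ≤ N) (hN : N ≤ (h : ℝ) ^ 3)
    (hP : ∀ q ∈ P, ∃ n : ℤ, n ≠ 0 ∧ |(n : ℝ)| ≤ N ∧ (q.1 - x) ∣ n ∧ (q.2 - x) ∣ n ∧
      X ∣ (A ^ 2 * n + c)) :
    (P.card : ℝ) ≤ (m : ℝ) ^ 2 * (1 + 2 * N / |(X : ℝ)|) := by
  classical
  choose! φ hφ using hP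
  have hXr : (0 : ℝ) < |(X : ℝ)| := abs_pos.2 (by exact_mod_cast hX)
  have h1 : P.card ≤ m ^ 2 * (P.image φ).card := by
    refine Finset.card_le_mul_card_image P (m ^ 2) fun v hv => ?_
    obtain ⟨q0, hq0, rfl⟩ := Finset.mem_image.1 hv
    obtain ⟨k1, k2, -, -, -⟩ := hφ q0 hq0
    refine div_pair_card hm _ x (φ q0) k1 ?_ ?_
    · have hh1 : (1 : ℝ) ≤ h := by exact_mod_cast hh
      have k3 : |(φ q0 : ℝ)| ≤ 1000 * (h : ℝ) ^ 6 := by
        have k4 : (h : ℝ) ^ 3 ≤ (h : ℝ) ^ 6 := pow_le_pow_right₀ hh1 (by norm_num)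
        have k5 : (0 : ℝ) ≤ (h : ℝ) ^ 6 := by positivity
        linarith
      exact_mod_cast k3
    · intro q hq
      rw [Finset.mem_filter] at hq
      obtain ⟨-, -, k3, k4, -⟩ := hφ q hq.1
      rw [hq.2] at k3 k4
      exact ⟨k3, k4⟩
  have h2 : ((P.image φ).card : ℝ) ≤ 2 * N / |(X : ℝ)| + 1 := by
    refine pack1 _ (fun n : ℤ => (n : ℝ)) (-N) (2 * N) _ hXr (by linarith) ?_ ?_
    · intro v hv
      obtain ⟨q0, hq0, rfl⟩ := Finset.mem_image.1 hv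
      obtain ⟨-, k2, -, -, -⟩ := hφ q0 hq0
      have k3 := abs_le.1 k2
      exact ⟨k3.1, by linarith [k3.2]⟩
    · intro v hv w hw hvw
      obtain ⟨q0, hq0, rfl⟩ := Finset.mem_image.1 hv
      obtain ⟨q1, hq1, rfl⟩ := Finset.mem_image.1 hw
      obtain ⟨-, -, -, -, k2⟩ := hφ q0 hq0
      obtain ⟨-, -, -, -, k3⟩ := hφ q1 hq1
      have k4 : X ∣ A ^ 2 * (φ q0 - φ q1) := by
        have := dvd_sub k2 k3
        have e : A ^ 2 * φ q0 + c - (A ^ 2 * φ q1 + c) = A ^ 2 * (φ q0 - φ q1) := by ring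
        rwa [e] at this
      obtain ⟨k, hk⟩ := (IsCoprime.pow_left (m := 2) hcop).symm.dvd_of_dvd_mul_left k4
      have k5 : k ≠ 0 := by
        rintro rfl
        rw [mul_zero] at hk
        exact hvw (by linarith)
      have k6 : (1 : ℝ) ≤ |(k : ℝ)| := by exact_mod_cast Int.one_le_abs k5
      have k7 : (φ q0 : ℝ) - φ q1 = X * k := by exact_mod_cast hk
      change |(X : ℝ)| ≤ |(φ q0 : ℝ) - φ q1|
      rw [k7, abs_mul]
      nlinarith
  calc (P.card : ℝ) ≤ ((m ^ 2 * (P.image φ).card : ℕ) : ℝ) := by exact_mod_cast h1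
    _ = (m : ℝ) ^ 2 * ((P.image φ).card : ℝ) := by push_cast; ring
    _ ≤ (m : ℝ) ^ 2 * (1 + 2 * N / |(X : ℝ)|) := by
        refine mul_le_mul_of_nonneg_left ?_ (by positivity)
        linarith

end Pool.Agent.H.MP_03bc95_nt
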