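import Mathlib

open Finset

namespace Pool.Agent.H.MP_03bc95_nt

private theorem TJ1_range (G : Finset ℕ) : (∀ i ∈ G, 1 ≤ i) →
    ∑ i ∈ G, (1 : ℝ) / i ≤ ∑ i ∈ range G.card, (1 : ℝ) / ((i : ℝ) + 1) := by
  classical
  induction G using Finset.induction_on_max with
  | empty => simp
  | insert a s hmax ih =>
    intro h0
    have ha : a ∉ s := fun h => lt_irrefl a (hmax a h)
    rw [Finset.sum_insert ha, Finset.card_insert_of_notMem ha, Finset.sum_range_succ, add_comm]
    refine add_le_add (ih fun i hi => h0 i (Finset.mem_insert_of_mem hi)) ?_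
    have h1 : s ⊆ Finset.Ico 1 a := fun i hi =>
      Finset.mem_Ico.2 ⟨h0 i (Finset.mem_insert_of_mem hi), hmax i hi⟩
    have h2 := Finset.card_le_card h1
    rw [Nat.card_Ico] at h2
    have h3 := h0 a (Finset.mem_insert_self _ _)
    have h4 : s.card + 1 ≤ a := by omega
    have h5 : (s.card : ℝ) + 1 ≤ (a : ℝ) := by exact_mod_cast h4
    exact one_div_le_one_div_of_le (by positivity) h5

/-- The sum of `1/i` over a finset of positive naturals of cardinality `≤ n` is at most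
`1 + Nat.log 2 n` times 2. Proof: by induction on the cardinality (remove the maximum, which is at
least the cardinality) `∑ i ∈ G, 1/i ≤ ∑ i ∈ range #G, 1/(i+1)`; and
`∑ i ∈ range n, 1/(i+1) ≤ 2 (1 + Nat.log 2 n)`, e.g. from `harmonic_le_one_add_log` and
`Real.log n ≤ (Nat.log 2 n + 1) * Real.log 2 ≤ Nat.log 2 n + 1` (`n < 2^(Nat.log 2 n + 1)`). -/
theorem sum_inv_nat (G : Finset ℕ) (h0 : ∀ i ∈ G, 1 ≤ i) (n : ℕ) (hn : G.card ≤ n) :
    ∑ i ∈ G, (1 : ℝ) / i ≤ 2 * (1 + Nat.log 2 n) := by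
  have h1 : ∑ i ∈ G, (1 : ℝ) / i ≤ ∑ i ∈ range G.card, (1 : ℝ) / ((i : ℝ) + 1) :=
    TJ1_range G h0
  have h2 : ∑ i ∈ range G.card, (1 : ℝ) / ((i : ℝ) + 1) ≤
      ∑ i ∈ range n, (1 : ℝ) / ((i : ℝ) + 1) := by
    refine Finset.sum_le_sum_of_subset_of_nonneg ?_ fun i _ _ => by positivity
    exact Finset.range_subset_range.2 hn
  have h3 : ∑ i ∈ range n, (1 : ℝ) / ((i : ℝ) + 1) = ((harmonic n : ℚ) : ℝ) := by
    unfold harmonic
    push_cast
    exact Finset.sum_congr rfl fun i _ => by rw [one_div]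
  have h4 := harmonic_le_one_add_log n
  have h5 : Real.log n ≤ Nat.log 2 n + 1 := by
    rcases Nat.eq_zero_or_pos n with h | h
    · subst h
      simp
    · have h6 : (n : ℝ) ≤ 2 ^ (Nat.log 2 n + 1) := by
        exact_mod_cast (Nat.lt_pow_succ_log_self (by norm_num) n).le
      have h7 : Real.log n ≤ Real.log (2 ^ (Nat.log 2 n + 1)) :=
        Real.log_le_log (by exact_mod_cast h) h6
      rw [Real.log_pow] at h7
      have h8 : Real.log 2 ≤ 1 := by
        have := Real.log_two_lt_d9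
        linarith
      have h9 : ((Nat.log 2 n + 1 : ℕ) : ℝ) * Real.log 2 ≤ ((Nat.log 2 n + 1 : ℕ) : ℝ) * 1 :=
        mul_le_mul_of_nonneg_left h8 (Nat.cast_nonneg _)
      push_cast at h7 h9
      linarith
  have h6 : (0 : ℝ) ≤ (Nat.log 2 n : ℝ) := Nat.cast_nonneg _
  linarith

/-- The case of positive terms. -/
private theorem TJ1_pos (G : Finset ℤ) (A B : ℤ) (hA : A ≠ 0) (h : ℕ) (hG : G.card ≤ h)
    (h1 : ∀ x ∈ G, |A| ≤ B + A * x) :
    ∑ x ∈ G, 1 / |((B + A * x : ℤ) : ℝ)| ≤ 2 * (1 + Nat.log 2 h) / |(A : ℝ)| := by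
  classical
  have hA0 : 0 < |A| := abs_pos.2 hA
  have hAR : (0 : ℝ) < |(A : ℝ)| := by
    rw [← Int.cast_abs]
    exact_mod_cast hA0
  have hq : ∀ x ∈ G, 1 ≤ (B + A * x) / |A| := fun x hx => by
    rw [Int.le_ediv_iff_mul_le hA0]
    linarith [h1 x hx]
  let φ : ℤ → ℕ := fun x => ((B + A * x) / |A|).toNat
  have hφ : ∀ x ∈ G, ((φ x : ℕ) : ℤ) = (B + A * x) / |A| := fun x hx =>
    Int.toNat_of_nonneg (by linarith [hq x hx])
  have hinj : Set.InjOn φ G := by
    intro x hx y hy hxy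
    have e : (B + A * x) / |A| = (B + A * y) / |A| := by
      rw [← hφ x hx, ← hφ y hy, hxy]
    have a1 := Int.emod_add_mul_ediv (B + A * x) |A|
    have a2 := Int.emod_add_mul_ediv (B + A * y) |A|
    have b1 := Int.emod_nonneg (B + A * x) hA0.ne'
    have b2 := Int.emod_nonneg (B + A * y) hA0.ne'
    have c1 := Int.emod_lt_of_pos (B + A * x) hA0
    have c2 := Int.emod_lt_of_pos (B + A * y) hA0
    rw [e] at a1
    have d1 : |A * (x - y)| < |A| := by
      rw [abs_lt]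
      constructor
      · linarith
      · linarith
    rw [abs_mul] at d1
    have d2 : |x - y| < 1 := by
      by_contra hcon
      push Not at hcon
      nlinarith
    have d3 := Int.abs_lt_one_iff.1 d2
    linarith
  have h2 : ∀ x ∈ G, 1 / |((B + A * x : ℤ) : ℝ)| ≤ 1 / |(A : ℝ)| * (1 / (φ x : ℝ)) := by
    intro x hx
    have e1 : (1 : ℝ) ≤ (φ x : ℝ) := by
      have : (1 : ℤ) ≤ (φ x : ℤ) := by rw [hφ x hx]; exact hq x hx
      exact_mod_cast this
    have e2 : |(A : ℝ)| * (φ x : ℝ) ≤ |((B + A * x : ℤ) : ℝ)| := by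
      have e3 : |A| * (φ x : ℤ) ≤ B + A * x := by
        rw [hφ x hx]
        exact Int.mul_ediv_self_le hA0.ne'
      have e4 : |A| * (φ x : ℤ) ≤ |B + A * x| := e3.trans (le_abs_self _)
      exact_mod_cast e4
    rw [one_div_mul_one_div]
    exact one_div_le_one_div_of_le (by positivity) e2
  calc ∑ x ∈ G, 1 / |((B + A * x : ℤ) : ℝ)|
      ≤ ∑ x ∈ G, 1 / |(A : ℝ)| * (1 / (φ x : ℝ)) := Finset.sum_le_sum h2
    _ = 1 / |(A : ℝ)| * ∑ x ∈ G, (1 / (φ x : ℝ)) := by rw [Finset.mul_sum]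
    _ = 1 / |(A : ℝ)| * ∑ i ∈ G.image φ, (1 : ℝ) / i := by
        rw [Finset.sum_image fun x hx y hy hxy => hinj hx hy hxy]
    _ ≤ 1 / |(A : ℝ)| * (2 * (1 + Nat.log 2 h)) := by
        refine mul_le_mul_of_nonneg_left ?_ (by positivity)
        refine sum_inv_nat _ ?_ h (Finset.card_image_le.trans hG)
        intro i hi
        obtain ⟨x, hx, rfl⟩ := Finset.mem_image.1 hi
        have : (1 : ℤ) ≤ (φ x : ℤ) := by rw [hφ x hx]; exact hq x hx
        exact_mod_cast this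
    _ = 2 * (1 + Nat.log 2 h) / |(A : ℝ)| := by ring

/-- An arithmetic progression: the values `X = B + A x`, `x ∈ G`, with `|X| ≥ |A| > 0`.
For the `x` with `X > 0` the natural numbers `⌊X / |A|⌋₊` (`(B + A * x) / |A|` as an integer division,
then `toNat`) are `≥ 1` and different for different `x` (different `X` of the same sign differ by at
least `|A|`), and `1 / |X| ≤ 1 / (|A| ⌊|X| / |A|⌋)`; so the sum is at most
`(1/|A|) * 2 (1 + log)` by `sum_inv_nat`; the same for the `x` with `X < 0` (replace `A, B` by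
`-A, -B`). Total `4 (1 + Nat.log 2 h) / |A|`. -/
theorem ap_sum (G : Finset ℤ) (A B : ℤ) (hA : A ≠ 0) (h : ℕ) (hG : G.card ≤ h)
    (h1 : ∀ x ∈ G, |A| ≤ |B + A * x|) :
    ∑ x ∈ G, 1 / |((B + A * x : ℤ) : ℝ)| ≤ 4 * (1 + Nat.log 2 h) / |(A : ℝ)| := by
  classical
  have hA0 : 0 < |A| := abs_pos.2 hA
  rw [← Finset.sum_filter_add_sum_filter_not G (fun x => 0 < B + A * x)]
  have e1 : ∑ x ∈ G with 0 < B + A * x, 1 / |((B + A * x : ℤ) : ℝ)| ≤
      2 * (1 + Nat.log 2 h) / |(A : ℝ)| := by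
    refine TJ1_pos _ A B hA h ((Finset.card_filter_le _ _).trans hG) ?_
    intro x hx
    rw [Finset.mem_filter] at hx
    have := h1 x hx.1
    rwa [abs_of_pos hx.2] at this
  have e2 : ∑ x ∈ G with ¬ 0 < B + A * x, 1 / |((B + A * x : ℤ) : ℝ)| ≤
      2 * (1 + Nat.log 2 h) / |(A : ℝ)| := by
    have h2 := TJ1_pos (G.filter fun x => ¬ 0 < B + A * x) (-A) (-B) (neg_ne_zero.2 hA) h
      ((Finset.card_filter_le _ _).trans hG) (by
        intro x hx
        rw [Finset.mem_filter] at hx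
        have h3 := h1 x hx.1
        rw [abs_of_nonpos (not_lt.1 hx.2)] at h3
        rw [abs_neg]
        linarith)
    have h3 : |((-A : ℤ) : ℝ)| = |(A : ℝ)| := by rw [Int.cast_neg, abs_neg]
    rw [h3] at h2
    refine le_trans (le_of_eq ?_) h2
    refine Finset.sum_congr rfl fun x _ => ?_
    have h4 : ((-B + -A * x : ℤ) : ℝ) = -((B + A * x : ℤ) : ℝ) := by
      push_cast
      ring
    rw [h4, abs_neg]
  have e3 : 4 * (1 + (Nat.log 2 h : ℝ)) / |(A : ℝ)| =
      2 * (1 + Nat.log 2 h) / |(A : ℝ)| + 2 * (1 + Nat.log 2 h) / |(A : ℝ)| := by ring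
  rw [e3]
  exact add_le_add e1 e2

/-- At most two integers `x` satisfy `|B + A x| < |A|`: two of them with the same sign of `B + A x`
(or with value `0`) differ by less than `1`. (Three such `x < y < z` would have
`|A| |z - x| ≥ 2 |A|`, but `|A (z - x)| < 2 |A|`.) -/
theorem ap_small (G : Finset ℤ) (A B : ℤ) (hA : A ≠ 0) (h1 : ∀ x ∈ G, |B + A * x| < |A|) :
    G.card ≤ 2 := by
  by_contra hcon
  push Not at hcon
  obtain ⟨x, hx, y, hy, z, hz, hxy, hxz, hyz⟩ := Finset.two_lt_card.1 hcon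
  have hA0 : 0 < |A| := abs_pos.2 hA
  have key : ∀ u ∈ G, ∀ v ∈ G, |u - v| < 2 := by
    intro u hu v hv
    have h2 : |A * (u - v)| < 2 * |A| := by
      have e : A * (u - v) = (B + A * u) - (B + A * v) := by ring
      rw [e]
      have := abs_sub (B + A * u) (B + A * v)
      linarith [h1 u hu, h1 v hv]
    rw [abs_mul] at h2
    by_contra h3
    push Not at h3
    nlinarith
  have k1 := abs_lt.1 (key x hx y hy)
  have k2 := abs_lt.1 (key x hx z hz)
  have k3 := abs_lt.1 (key y hy z hz)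
  omega

end Pool.Agent.H.MP_03bc95_nt
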