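import Pool.Agent.H.MP_03bc95_nt.TG1
import Pool.Agent.H.MP_03bc95_nt.TJ1

open Finset

namespace Pool.Agent.H.MP_03bc95_nt

theorem TJ_card {h : ℕ} {G : Finset ℤ} (hG : G ⊆ Icc (1 : ℤ) h) : G.card ≤ h := by
  have h1 := Finset.card_le_card hG
  rw [Int.card_Icc] at h1
  have h2 : ((h : ℤ) + 1 - 1).toNat = h := by
    rw [add_sub_cancel_right]
    exact Int.toNat_natCast h
  rw [h2] at h1
  exact h1

/-- The case `|A| > c`, `c > 0`, `k h ≤ 2 c`. -/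
theorem TJ_ap {h : ℕ} (hh : 1 ≤ h) {k : ℝ} (hk0 : 0 < k)
    {A B : ℤ} (hA0 : A ≠ 0) (G : Finset ℤ) (hG : G ⊆ Icc (1 : ℤ) h)
    (h1 : ∀ x ∈ G, |A| ≤ |B + A * x|) (hc : k * h ≤ 2 * |(A : ℝ)|) :
    ∑ x ∈ G, 1 / |((B + A * x : ℤ) : ℝ)| ≤ 8 * (1 + Nat.log 2 h) / (k * h) := by
  have h2 := ap_sum G A B hA0 h (TJ_card hG) h1
  refine h2.trans ?_
  have hh' : (1 : ℝ) ≤ h := by exact_mod_cast hh
  have hkh : 0 < k * h := by positivity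
  have hA : 0 < |(A : ℝ)| := by linarith
  have hL : (0 : ℝ) ≤ 1 + Nat.log 2 h := by positivity
  rw [div_le_div_iff₀ hA hkh]
  have h3 := mul_le_mul_of_nonneg_left hc hL
  nlinarith

/-- The sum of `1/|B + A x|` over the `x ∈ [1,h]` with `|B + A x| ≥ |A|`. `hAB.hk`: if
`k h ≤ |A|`, `ap_sum` gives `4 (1+log)/|A| ≤ 4 (1+log)/(k h)`. If `|A| < k h` and `k h^2 ≤ |B|`: when
`|A| ≤ k h / 2` all `|B + A x| ≥ k h^2 - (k h/2) h = k h^2 / 2` and the sum is at most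
`h * 2 / (k h^2) = 2 / (k h)`; when `|A| > k h / 2`, `ap_sum` gives `4 (1+log)/|A| ≤ 8 (1+log)/(k h)`. -/
theorem sumX {p : ℕ} {S : ℤ} {h : ℕ} (hh : 1 ≤ h) {k : ℝ} (hk0 : 0 < k)
    {A B : ℤ} (hAB : ABk p S h k A B) (G : Finset ℤ) (hG : G ⊆ Icc (1 : ℤ) h)
    (h1 : ∀ x ∈ G, |A| ≤ |B + A * x|) :
    ∑ x ∈ G, 1 / |((B + A * x : ℤ) : ℝ)| ≤ 8 * (1 + Nat.log 2 h) / (k * h) := by
  rcases le_or_gt (k * h) (2 * |(A : ℝ)|) with hc | hc
  · exact TJ_ap hh hk0 hAB.hA0 G hG h1 hc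
  have hh' : (1 : ℝ) ≤ h := by exact_mod_cast hh
  have hkh : 0 < k * h := by positivity
  have hA0 : 0 ≤ |(A : ℝ)| := abs_nonneg _
  have hB : k * (h : ℝ) ^ 2 ≤ |(B : ℝ)| := by
    rcases hAB.hk with h2 | h2
    · linarith
    · exact h2
  have hkh2 : 0 < k * (h : ℝ) ^ 2 := by positivity
  have hterm : ∀ x ∈ G, 1 / |((B + A * x : ℤ) : ℝ)| ≤ 2 / (k * (h : ℝ) ^ 2) := by
    intro x hx
    obtain ⟨hx1, hx2⟩ := Finset.mem_Icc.1 (hG hx)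
    have hx1' : (1 : ℝ) ≤ x := by exact_mod_cast hx1
    have hx2' : (x : ℝ) ≤ h := by exact_mod_cast hx2
    have h3 : |(B : ℝ)| - |(A : ℝ) * x| ≤ |(B : ℝ) + A * x| := by
      have := abs_sub_abs_le_abs_sub (B : ℝ) (-((A : ℝ) * x))
      rw [abs_neg, sub_neg_eq_add] at this
      exact this
    have h4 : |(A : ℝ) * x| ≤ |(A : ℝ)| * h := by
      rw [abs_mul, abs_of_nonneg (by linarith : (0 : ℝ) ≤ x)]
      exact mul_le_mul_of_nonneg_left hx2' hA0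
    have h5 : |(A : ℝ)| * h ≤ k * (h : ℝ) ^ 2 / 2 := by
      have := mul_le_mul_of_nonneg_right hc.le (by linarith : (0 : ℝ) ≤ h)
      nlinarith
    have h6 : k * (h : ℝ) ^ 2 / 2 ≤ |((B + A * x : ℤ) : ℝ)| := by
      push_cast
      linarith
    have h7 : (0 : ℝ) < |((B + A * x : ℤ) : ℝ)| := by linarith
    rw [div_le_div_iff₀ h7 hkh2]
    linarith
  have hsum := Finset.sum_le_sum hterm
  rw [Finset.sum_const, nsmul_eq_mul] at hsum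
  have hcard : (G.card : ℝ) ≤ h := by exact_mod_cast TJ_card hG
  have h8 : (G.card : ℝ) * (2 / (k * (h : ℝ) ^ 2)) ≤ h * (2 / (k * (h : ℝ) ^ 2)) :=
    mul_le_mul_of_nonneg_right hcard (by positivity)
  have h9 : (h : ℝ) * (2 / (k * (h : ℝ) ^ 2)) = 2 / (k * h) := by
    field_simp
  have h10 : (2 : ℝ) / (k * h) ≤ 8 * (1 + Nat.log 2 h) / (k * h) := by
    have hL : (0 : ℝ) ≤ Nat.log 2 h := by positivity
    exact div_le_div_of_nonneg_right (by linarith) hkh.le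
  linarith

end Pool.Agent.H.MP_03bc95_nt
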