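import Pool.Agent.H.MP_03bc95_nt.TH
import Pool.Agent.H.MP_03bc95_nt.TI
import Pool.Agent.H.MP_03bc95_nt.TJ

open Finset

namespace Pool.Agent.H.MP_03bc95_nt

/-- The triples of `TWk` with a given `x`, `|B + A x| ≥ 1`. Choose `j z` (`tw_data`) for every such
triple; `j` takes at most `2 J + 1` values, `J = 10 k^2 h t^3 ν` (`Icc (-⌊J⌋) ⌊J⌋`), and for each value
`tw_fibre` (with `c = j p`, `X = B + A x`, `N = h^3 ν`; `IsCoprime A X` from `hAB.hcop`,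
`X = B + A x`) bounds the pairs `(y2, y)` by `m^2 (1 + 2 h^3 ν / |X|)`. -/
theorem tw_x {p : ℕ} [Fact p.Prime] {S : ℤ} {h m : ℕ} (H : Hyp p S h m) (t : ℝ)
    (ht : 1 ≤ t) (hΛ : (h : ℝ) ^ 4 ≤ t ^ 3 * p) {k : ℝ} (hk0 : 0 < k) (hk1 : k ≤ 1)
    {A B : ℤ} (hAB : ABk p S h k A B) (ν : ℝ) (hν : 0 < ν) (hν1 : ν ≤ 1)
    (x : ℤ) (hx1 : 1 ≤ x) (hx2 : x ≤ h) :
    (((TWk p S h k A ν).filter fun z => z.2.1 = x).card : ℝ) ≤
      (20 * k ^ 2 * h * t ^ 3 * ν + 1) *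
        ((m : ℝ) ^ 2 * (1 + 2 * ((h : ℝ) ^ 3 * ν) / |((B + A * x : ℤ) : ℝ)|)) := by
  classical
  have hd := fun z hz => tw_data H t ht hΛ hk0 hk1 hAB ν hν hν1 z hz
  choose! n j hn0 hnN hj hn1 hn2 hX using hd
  obtain ⟨F, hF⟩ : ∃ F, F = (TWk p S h k A ν).filter fun z => z.2.1 = x := ⟨_, rfl⟩
  obtain ⟨J, hJ⟩ : ∃ J : ℝ, J = 10 * k ^ 2 * h * t ^ 3 * ν := ⟨_, rfl⟩
  have hJ0 : 0 ≤ J := by rw [hJ]; positivity
  have hFl0 : 0 ≤ ⌊J⌋ := Int.floor_nonneg.2 hJ0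
  rw [← hF]
  have hmem : ∀ z ∈ F, z ∈ TWk p S h k A ν ∧ z.2.1 = x := by
    intro z hz
    rw [hF] at hz
    exact Finset.mem_filter.1 hz
  have hmaps : ∀ z ∈ F, j z ∈ Icc (-⌊J⌋) ⌊J⌋ := by
    intro z hz
    have h1 := hj z (hmem z hz).1
    rw [← hJ, abs_le] at h1
    rw [Finset.mem_Icc]
    constructor
    · rw [neg_le]
      apply Int.le_floor.2
      push_cast
      linarith [h1.1]
    · exact Int.le_floor.2 h1.2
  rw [Finset.card_eq_sum_card_fiberwise hmaps, Nat.cast_sum]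
  have hfib : ∀ c ∈ Icc (-⌊J⌋) ⌊J⌋, ((F.filter fun z => j z = c).card : ℝ) ≤
      (m : ℝ) ^ 2 * (1 + 2 * ((h : ℝ) ^ 3 * ν) / |((B + A * x : ℤ) : ℝ)|) := by
    intro c _
    have hinj : Set.InjOn (fun z : ℤ × ℤ × ℤ => (z.1, z.2.2))
        ((F.filter fun z => j z = c : Finset (ℤ × ℤ × ℤ)) : Set (ℤ × ℤ × ℤ)) := by
      intro z hz z' hz' e
      have hz1 := (hmem z (Finset.mem_filter.1 (Finset.mem_coe.1 hz)).1).2
      have hz2 := (hmem z' (Finset.mem_filter.1 (Finset.mem_coe.1 hz')).1).2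
      have e' : (z.1, z.2.2) = (z'.1, z'.2.2) := e
      obtain ⟨e1, e2⟩ := Prod.mk.inj e'
      exact Prod.ext e1 (Prod.ext (hz1.trans hz2.symm) e2)
    rw [← Finset.card_image_of_injOn hinj]
    refine tw_fibre H.hh H.hm _ x (B + A * x) A (c * p) (abk_X_ne H hk1 hAB x hx1 hx2).1
      (IsCoprime.add_mul_left_right hAB.hcop x) _ (by positivity) ?_ ?_
    · have : (0 : ℝ) ≤ (h : ℝ) ^ 3 := by positivity
      calc (h : ℝ) ^ 3 * ν ≤ (h : ℝ) ^ 3 * 1 := mul_le_mul_of_nonneg_left hν1 this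
        _ = (h : ℝ) ^ 3 := mul_one _
    · intro q hq
      obtain ⟨z, hz, rfl⟩ := Finset.mem_image.1 hq
      obtain ⟨hzF, hzc⟩ := Finset.mem_filter.1 hz
      obtain ⟨hzT, hzx⟩ := hmem z hzF
      refine ⟨n z, hn0 z hzT, hnN z hzT, ?_, ?_, ?_⟩
      · have := hn1 z hzT
        rwa [hzx] at this
      · have := hn2 z hzT
        rwa [hzx] at this
      · have := hX z hzT
        rwa [hzx, hzc] at this
  have hcard : ((Icc (-⌊J⌋) ⌊J⌋).card : ℝ) ≤ 20 * k ^ 2 * h * t ^ 3 * ν + 1 := by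
    rw [Int.card_Icc]
    have e : ((⌊J⌋ + 1 - -⌊J⌋).toNat : ℝ) = 2 * (⌊J⌋ : ℝ) + 1 := by
      have h1 : ((⌊J⌋ + 1 - -⌊J⌋).toNat : ℤ) = 2 * ⌊J⌋ + 1 := by
        rw [Int.toNat_of_nonneg (by linarith)]
        ring
      have h2 : (((⌊J⌋ + 1 - -⌊J⌋).toNat : ℤ) : ℝ) = ((2 * ⌊J⌋ + 1 : ℤ) : ℝ) := by rw [h1]
      rw [Int.cast_natCast] at h2
      rw [h2]
      push_cast
      ring
    rw [e]
    have h1 := Int.floor_le J
    have h2 : 20 * k ^ 2 * h * t ^ 3 * ν = 2 * J := by rw [hJ]; ring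
    rw [h2]
    linarith
  have hb0 : 0 ≤ (m : ℝ) ^ 2 * (1 + 2 * ((h : ℝ) ^ 3 * ν) / |((B + A * x : ℤ) : ℝ)|) := by
    positivity
  calc ∑ c ∈ Icc (-⌊J⌋) ⌊J⌋, ((F.filter fun z => j z = c).card : ℝ)
      ≤ ∑ _c ∈ Icc (-⌊J⌋) ⌊J⌋, (m : ℝ) ^ 2 * (1 + 2 * ((h : ℝ) ^ 3 * ν) /
        |((B + A * x : ℤ) : ℝ)|) := Finset.sum_le_sum hfib
    _ = ((Icc (-⌊J⌋) ⌊J⌋).card : ℝ) * ((m : ℝ) ^ 2 * (1 + 2 * ((h : ℝ) ^ 3 * ν) /
        |((B + A * x : ℤ) : ℝ)|)) := by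
      rw [Finset.sum_const, nsmul_eq_mul]
    _ ≤ _ := mul_le_mul_of_nonneg_right hcard hb0

/-- The arithmetic of the sum over `x` (`L = 1 + Nat.log 2 h`, `1 ≤ k h`, `k t ≤ 1`, `1 ≤ h ν`):
`(20 k^2 h t^3 ν + 1) (h + 2 h^3 ν * (8 L / (k h))) + 2 h^2 ≤ 400 h^3 t^2 L ν`.
Expand: `20 k^2 h^2 t^3 ν ≤ 20 h^2 t ν`; `h ≤ h^2 ν`; `320 k h^3 t^3 ν^2 L ≤ 320 h^3 t^2 ν L`;
`16 ν h^2 L / k ≤ 16 ν h^3 L`; `2 h^2 ≤ 2 h^3 ν`. Sum `≤ (20 + 1 + 320 + 16 + 2) h^3 t^2 L ν`. -/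
theorem tk_arith (h k t ν L : ℝ) (hh : 1 ≤ h) (hk0 : 0 < k) (hkh : 1 ≤ k * h) (ht : 1 ≤ t)
    (hkt : k * t ≤ 1) (hν0 : 0 < ν) (hν : 1 ≤ h * ν) (hν1 : ν ≤ 1) (hL : 1 ≤ L) :
    (20 * k ^ 2 * h * t ^ 3 * ν + 1) * (h + 2 * (h ^ 3 * ν) * (8 * L / (k * h))) + 2 * h ^ 2 ≤
      400 * h ^ 3 * t ^ 2 * L * ν := by
  have hh0 : 0 < h := by linarith
  have ht0 : 0 < t := by linarith
  have hL0 : 0 < L := by linarith
  obtain ⟨M, hM⟩ : ∃ M, M = h ^ 3 * t ^ 2 * L * ν := ⟨_, rfl⟩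
  have hM0 : 0 < M := by rw [hM]; positivity
  have ht2 : 1 ≤ t ^ 2 := one_le_pow₀ ht
  -- basic comparison
  have e0 : h ^ 3 * ν ≤ M := by
    rw [hM]
    have h1 : 1 ≤ t ^ 2 * L := one_le_mul_of_one_le_of_one_le ht2 hL
    calc h ^ 3 * ν = h ^ 3 * ν * 1 := by ring
      _ ≤ h ^ 3 * ν * (t ^ 2 * L) := mul_le_mul_of_nonneg_left h1 (by positivity)
      _ = _ := by ring
  -- first term
  have e1 : 20 * k ^ 2 * h * t ^ 3 * ν * h ≤ 20 * M := by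
    have h1 : k ^ 2 * t ^ 2 ≤ 1 := by
      rw [← mul_pow]
      exact pow_le_one₀ (by positivity) hkt
    have h2 : t ≤ t ^ 2 * L * h := by
      calc t = t * 1 := by ring
        _ ≤ t * (t * (L * h)) := by
          apply mul_le_mul_of_nonneg_left _ ht0.le
          exact one_le_mul_of_one_le_of_one_le ht (one_le_mul_of_one_le_of_one_le hL hh)
        _ = _ := by ring
    calc 20 * k ^ 2 * h * t ^ 3 * ν * h = 20 * (h ^ 2 * ν) * (t * (k ^ 2 * t ^ 2)) := by ring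
      _ ≤ 20 * (h ^ 2 * ν) * ((t ^ 2 * L * h) * 1) := by
        apply mul_le_mul_of_nonneg_left _ (by positivity)
        exact mul_le_mul h2 h1 (by positivity) (by positivity)
      _ = 20 * M := by rw [hM]; ring
  have e2 : h ≤ M := by
    calc h = h * 1 := by ring
      _ ≤ h * (h * ν) := mul_le_mul_of_nonneg_left hν hh0.le
      _ = (h ^ 2 * ν) * 1 := by ring
      _ ≤ (h ^ 2 * ν) * h := mul_le_mul_of_nonneg_left hh (by positivity)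
      _ = h ^ 3 * ν := by ring
      _ ≤ M := e0
  have e3 : 20 * k ^ 2 * h * t ^ 3 * ν * (2 * (h ^ 3 * ν) * (8 * L / (k * h))) ≤ 320 * M := by
    have h1 : 20 * k ^ 2 * h * t ^ 3 * ν * (2 * (h ^ 3 * ν) * (8 * L / (k * h))) =
        320 * (h ^ 3 * t ^ 2 * L * ν) * ((k * t) * ν) := by
      field_simp
      ring
    rw [h1, ← hM]
    have h2 : k * t * ν ≤ 1 := mul_le_one₀ hkt hν0.le hν1
    calc 320 * M * (k * t * ν) ≤ 320 * M * 1 := mul_le_mul_of_nonneg_left h2 (by positivity)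
      _ = 320 * M := mul_one _
  have e4 : 2 * (h ^ 3 * ν) * (8 * L / (k * h)) ≤ 16 * M := by
    have h1 : 8 * L / (k * h) ≤ 8 * L := div_le_self (by positivity) hkh
    calc 2 * (h ^ 3 * ν) * (8 * L / (k * h)) ≤ 2 * (h ^ 3 * ν) * (8 * L) :=
          mul_le_mul_of_nonneg_left h1 (by positivity)
      _ = 16 * (h ^ 3 * ν * L) * 1 := by ring
      _ ≤ 16 * (h ^ 3 * ν * L) * t ^ 2 := mul_le_mul_of_nonneg_left ht2 (by positivity)
      _ = 16 * M := by rw [hM]; ring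
  have e5 : 2 * h ^ 2 ≤ 2 * M := by
    have h1 : h ^ 2 ≤ h ^ 3 * ν := by
      calc h ^ 2 = h ^ 2 * 1 := by ring
        _ ≤ h ^ 2 * (h * ν) := mul_le_mul_of_nonneg_left hν (by positivity)
        _ = _ := by ring
    linarith
  have e6 : (20 * k ^ 2 * h * t ^ 3 * ν + 1) * (h + 2 * (h ^ 3 * ν) * (8 * L / (k * h))) =
      20 * k ^ 2 * h * t ^ 3 * ν * h + h +
      20 * k ^ 2 * h * t ^ 3 * ν * (2 * (h ^ 3 * ν) * (8 * L / (k * h))) +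
      2 * (h ^ 3 * ν) * (8 * L / (k * h)) := by ring
  have e7 : 400 * h ^ 3 * t ^ 2 * L * ν = 400 * M := by rw [hM]; ring
  rw [e6, e7]
  linarith

/-- Sum over `x ∈ [1,h]` of the fibres of `TWk` over the middle coordinate. For the (at most two,
`ap_small`) `x` with `|B + A x| < |A|` the fibre has at most `h^2` elements (contained in the product
of two intervals); for the others use `tw_x` and `sumX`:
`∑ (1 + 2 h^3 ν/|X|) ≤ h + 2 h^3 ν * 8 L/(k h)`. Then `tk_arith`, `k ≤ 1/t`, `m ≥ 1`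
(`two_le_of_hyp`), `L = 1 + Nat.log 2 h`. -/
theorem tw_card {p : ℕ} [Fact p.Prime] {S : ℤ} {h m : ℕ} (H : Hyp p S h m) (t : ℝ)
    (ht : 1 ≤ t) (hΛ : (h : ℝ) ^ 4 ≤ t ^ 3 * p) {k : ℝ} (hk0 : 0 < k) (hkt : k ≤ 1 / t)
    {A B : ℤ} (hAB : ABk p S h k A B) (ν : ℝ) (hν : 1 / (h : ℝ) ≤ ν) (hν1 : ν ≤ 1) :
    ((TWk p S h k A ν).card : ℝ) ≤
      400 * (m : ℝ) ^ 2 * (h : ℝ) ^ 3 * t ^ 2 * (1 + Nat.log 2 h) * ν := by
  classical
  have hh : (1 : ℝ) ≤ h := by exact_mod_cast H.hh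
  have hh0 : (0 : ℝ) < h := by linarith
  have ht0 : 0 < t := by linarith
  have hν0 : 0 < ν := lt_of_lt_of_le (by positivity) hν
  have hk1 : k ≤ 1 := hkt.trans (by rw [div_le_one ht0]; exact ht)
  have hkt' : k * t ≤ 1 := (le_div_iff₀ ht0).1 hkt
  have hhν : 1 ≤ (h : ℝ) * ν := by
    have := (div_le_iff₀ hh0).1 hν
    linarith
  have hm2 : (2 : ℝ) ≤ m := by exact_mod_cast two_le_of_hyp H
  have hmm : 1 ≤ (m : ℝ) ^ 2 := one_le_pow₀ (by linarith)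
  have hkh := abk_one_le hAB
  have hL : (1 : ℝ) ≤ 1 + (Nat.log 2 h : ℝ) := by
    have : (0 : ℝ) ≤ (Nat.log 2 h : ℝ) := Nat.cast_nonneg _
    linarith
  have hmemTri : ∀ z ∈ TWk p S h k A ν,
      (1 ≤ z.1 ∧ z.1 ≤ h) ∧ (1 ≤ z.2.1 ∧ z.2.1 ≤ h) ∧ (1 ≤ z.2.2 ∧ z.2.2 ≤ h) := fun z hz =>
    (mem_Tri.1 (mem_TWk.1 hz).1).1
  have hmaps : ∀ z ∈ TWk p S h k A ν, z.2.1 ∈ Icc (1 : ℤ) h := fun z hz =>
    Finset.mem_Icc.2 (hmemTri z hz).2.1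
  rw [Finset.card_eq_sum_card_fiberwise hmaps, Nat.cast_sum]
  rw [← Finset.sum_filter_add_sum_filter_not (Icc (1 : ℤ) h) (fun x => |B + A * x| < |A|)]
  -- the small values
  have hsmall : ∑ x ∈ (Icc (1 : ℤ) h).filter (fun x => |B + A * x| < |A|),
      (((TWk p S h k A ν).filter fun z => z.2.1 = x).card : ℝ) ≤ 2 * (h : ℝ) ^ 2 := by
    have h1 : ∀ x ∈ (Icc (1 : ℤ) h).filter (fun x => |B + A * x| < |A|),
        (((TWk p S h k A ν).filter fun z => z.2.1 = x).card : ℝ) ≤ (h : ℝ) ^ 2 := by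
      intro x _
      have hinj : Set.InjOn (fun z : ℤ × ℤ × ℤ => (z.1, z.2.2))
          (((TWk p S h k A ν).filter fun z => z.2.1 = x : Finset (ℤ × ℤ × ℤ)) :
            Set (ℤ × ℤ × ℤ)) := by
        intro z hz z' hz' e
        have hz1 := (Finset.mem_filter.1 (Finset.mem_coe.1 hz)).2
        have hz2 := (Finset.mem_filter.1 (Finset.mem_coe.1 hz')).2
        have e' : (z.1, z.2.2) = (z'.1, z'.2.2) := e
        obtain ⟨e1, e2⟩ := Prod.mk.inj e'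
        exact Prod.ext e1 (Prod.ext (hz1.trans hz2.symm) e2)
      rw [← Finset.card_image_of_injOn hinj]
      have hsub : ((TWk p S h k A ν).filter fun z => z.2.1 = x).image
          (fun z : ℤ × ℤ × ℤ => (z.1, z.2.2)) ⊆ Icc (1 : ℤ) h ×ˢ Icc (1 : ℤ) h := by
        intro q hq
        obtain ⟨z, hz, rfl⟩ := Finset.mem_image.1 hq
        have h2 := hmemTri z (Finset.mem_filter.1 hz).1
        exact Finset.mem_product.2 ⟨Finset.mem_Icc.2 h2.1, Finset.mem_Icc.2 h2.2.2⟩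
      have h3 := Finset.card_le_card hsub
      rw [Finset.card_product, Int.card_Icc] at h3
      have h4 : ((h : ℤ) + 1 - 1).toNat = h := by
        rw [add_sub_cancel_right]
        exact Int.toNat_natCast h
      rw [h4] at h3
      calc _ ≤ ((h * h : ℕ) : ℝ) := Nat.cast_le.2 h3
        _ = (h : ℝ) ^ 2 := by push_cast; ring
    have h2 : ((Icc (1 : ℤ) h).filter (fun x => |B + A * x| < |A|)).card ≤ 2 :=
      ap_small _ A B hAB.hA0 fun x hx => (Finset.mem_filter.1 hx).2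
    have h3 : (((Icc (1 : ℤ) h).filter (fun x => |B + A * x| < |A|)).card : ℝ) ≤ 2 := by
      exact_mod_cast h2
    calc _ ≤ ∑ _x ∈ (Icc (1 : ℤ) h).filter (fun x => |B + A * x| < |A|), (h : ℝ) ^ 2 :=
          Finset.sum_le_sum h1
      _ = (((Icc (1 : ℤ) h).filter (fun x => |B + A * x| < |A|)).card : ℝ) * (h : ℝ) ^ 2 := by
        rw [Finset.sum_const, nsmul_eq_mul]
      _ ≤ 2 * (h : ℝ) ^ 2 := mul_le_mul_of_nonneg_right h3 (by positivity)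
  -- the large values
  obtain ⟨G, hG⟩ : ∃ G, G = (Icc (1 : ℤ) h).filter (fun x => ¬ |B + A * x| < |A|) := ⟨_, rfl⟩
  have hGsub : G ⊆ Icc (1 : ℤ) h := by
    rw [hG]
    exact Finset.filter_subset _ _
  have hGcard : (G.card : ℝ) ≤ h := by
    have h1 := Finset.card_le_card hGsub
    rw [Int.card_Icc, add_sub_cancel_right, Int.toNat_natCast] at h1
    exact_mod_cast h1
  obtain ⟨c, hc⟩ : ∃ c : ℝ, c = 20 * k ^ 2 * h * t ^ 3 * ν + 1 := ⟨_, rfl⟩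
  have hc0 : 0 < c := by rw [hc]; positivity
  have hlarge : ∑ x ∈ G, (((TWk p S h k A ν).filter fun z => z.2.1 = x).card : ℝ) ≤
      (m : ℝ) ^ 2 * (c * (h + 2 * ((h : ℝ) ^ 3 * ν) * (8 * (1 + Nat.log 2 h) / (k * h)))) := by
    have h1 : ∀ x ∈ G, (((TWk p S h k A ν).filter fun z => z.2.1 = x).card : ℝ) ≤
        c * ((m : ℝ) ^ 2 * (1 + 2 * ((h : ℝ) ^ 3 * ν) * (1 / |((B + A * x : ℤ) : ℝ)|))) := by
      intro x hx
      have hx' := Finset.mem_Icc.1 (hGsub hx)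
      have h2 := tw_x H t ht hΛ hk0 hk1 hAB ν hν0 hν1 x hx'.1 hx'.2
      rw [← hc] at h2
      rwa [mul_one_div]
    have h2 := sumX H.hh hk0 hAB G hGsub fun x hx => by
      rw [hG] at hx
      exact not_lt.1 (Finset.mem_filter.1 hx).2
    calc _ ≤ ∑ x ∈ G, c * ((m : ℝ) ^ 2 *
          (1 + 2 * ((h : ℝ) ^ 3 * ν) * (1 / |((B + A * x : ℤ) : ℝ)|))) := Finset.sum_le_sum h1
      _ = (m : ℝ) ^ 2 * (c * (G.card + 2 * ((h : ℝ) ^ 3 * ν) *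
          ∑ x ∈ G, 1 / |((B + A * x : ℤ) : ℝ)|)) := by
        rw [← Finset.mul_sum, ← Finset.mul_sum, Finset.sum_add_distrib, Finset.sum_const,
          nsmul_eq_mul, ← Finset.mul_sum]
        ring
      _ ≤ _ := by
        apply mul_le_mul_of_nonneg_left _ (by positivity)
        apply mul_le_mul_of_nonneg_left _ hc0.le
        exact add_le_add hGcard (mul_le_mul_of_nonneg_left h2 (by positivity))
  rw [← hG]
  have har := tk_arith h k t ν (1 + Nat.log 2 h) hh hk0 hkh ht hkt' hν0 hhν hν1 hL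
  rw [← hc] at har
  calc _ ≤ 2 * (h : ℝ) ^ 2 +
        (m : ℝ) ^ 2 * (c * (h + 2 * ((h : ℝ) ^ 3 * ν) * (8 * (1 + Nat.log 2 h) / (k * h)))) :=
        add_le_add hsmall hlarge
    _ ≤ (m : ℝ) ^ 2 * (2 * (h : ℝ) ^ 2) +
        (m : ℝ) ^ 2 * (c * (h + 2 * ((h : ℝ) ^ 3 * ν) * (8 * (1 + Nat.log 2 h) / (k * h)))) := by
      have : 2 * (h : ℝ) ^ 2 ≤ (m : ℝ) ^ 2 * (2 * (h : ℝ) ^ 2) :=
        le_mul_of_one_le_left (by positivity) hmm
      linarith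
    _ = (m : ℝ) ^ 2 * (c * (h + 2 * ((h : ℝ) ^ 3 * ν) * (8 * (1 + Nat.log 2 h) / (k * h))) +
        2 * (h : ℝ) ^ 2) := by ring
    _ ≤ (m : ℝ) ^ 2 * (400 * (h : ℝ) ^ 3 * t ^ 2 * (1 + Nat.log 2 h) * ν) :=
      mul_le_mul_of_nonneg_left har (by positivity)
    _ = _ := by ring

end Pool.Agent.H.MP_03bc95_nt
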