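import Pool.Agent.H.MP_03bc95_nt.TG2
import Pool.Agent.H.MP_03bc95_nt.TK
import Pool.Agent.H.MP_03bc95_nt.TF0

open Finset

namespace Pool.Agent.H.MP_03bc95_nt

/-- `Tri h` has at most `h^3` elements. -/
theorem TL_tri (h : ℕ) : ((Tri h).card : ℝ) ≤ (h : ℝ) ^ 3 := by
  classical
  have s2 := Finset.card_filter_le (Icc (1 : ℤ) h ×ˢ Icc (1 : ℤ) h ×ˢ Icc (1 : ℤ) h)
    (fun z : ℤ × ℤ × ℤ => z.2.1 ≠ z.1 ∧ z.2.1 ≠ z.2.2)
  rw [Finset.card_product, Finset.card_product, Int.card_Icc] at s2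
  have s3 : (Tri h).card ≤ h ^ 3 := by
    unfold Tri
    calc _ ≤ _ := s2
      _ = h ^ 3 := by
        simp
        ring
  exact_mod_cast s3

/-- Case B: the lattice `a S + b = 0` has a short vector (`ABk` with `k ≤ 1/t`). `dyadic_sum` with
`T = Tri h`, `Q z ν = LBWk p h k (A * rho ...) ν`, `f z = #Sol`, `c z = 0`,
`a = m (300 k t^3 + 1) ≤ 301 m t^2` (use `a = 301 m t^2`), `b = 2 m`,
`K = 400 m^2 h^3 t^2 (1 + log)`: `hQ0` is `lbwk_one_div`, `hf` is `sol_structk`, `hK`: a finset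
`G ⊆ Tri h` with `¬ Q z ν` on it is contained in `TWk`, `tw_card`. `#Tri ≤ h^3`. Total
`≤ 303 m h^3 t^2 + 1600 m^3 h^3 t^2 (1 + log)^2`. -/
theorem caseB_sum {p : ℕ} [Fact p.Prime] {S : ℤ} {h m : ℕ} (H : Hyp p S h m) (t : ℝ)
    (ht : 1 ≤ t) (hΛ : (h : ℝ) ^ 4 ≤ t ^ 3 * p) {k : ℝ} (hk0 : 0 < k) (hkt : k ≤ 1 / t)
    {A B : ℤ} (hAB : ABk p S h k A B) :
    ((∑ z ∈ Tri h, (Sol p S h (rho p S S z.1 z.2.1 z.2.2)).card : ℕ) : ℝ) ≤
      2000 * (m : ℝ) ^ 3 * (h : ℝ) ^ 3 * t ^ 2 * (1 + Nat.log 2 h) ^ 2 := by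
  classical
  have hh : (1 : ℝ) ≤ h := by exact_mod_cast H.hh
  have hh0 : (0 : ℝ) < h := by linarith
  have ht0 : 0 < t := by linarith
  have hm2 : (2 : ℝ) ≤ m := by exact_mod_cast two_le_of_hyp H
  have hm0 : (0 : ℝ) < m := by linarith
  have hkt1 : k * t ≤ 1 := by
    calc k * t ≤ 1 / t * t := mul_le_mul_of_nonneg_right hkt ht0.le
      _ = 1 := by field_simp
  have hk1 : k ≤ 1 := by
    refine hkt.trans ?_
    rw [div_le_one ht0]
    exact ht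
  have ht2 : (1 : ℝ) ≤ t ^ 2 := one_le_pow₀ ht
  have hlog : (0 : ℝ) ≤ Nat.log 2 h := Nat.cast_nonneg _
  set L : ℝ := 1 + Nat.log 2 h with hL'
  have hL1 : 1 ≤ L := by linarith
  have hL0 : 0 < L := by linarith
  have key := dyadic_sum (Tri h)
    (fun z ν => LBWk p h k ((A : ZMod p) * rho p S S z.1 z.2.1 z.2.2) ν)
    (fun z => ((Sol p S h (rho p S S z.1 z.2.1 z.2.2)).card : ℝ))
    (fun _ => (0 : ℝ))
    (301 * m * t ^ 2) (2 * m) (400 * (m : ℝ) ^ 2 * (h : ℝ) ^ 3 * t ^ 2 * L) h H.hh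
    (by positivity) (by positivity) (by positivity)
    (fun z _ => lbwk_one_div H hk0 hk1 _)
    (by
      intro z hz ν hν hν1 hQ
      have h1 := sol_structk H t ht hΛ hk0 hk1 hAB (rho p S S z.1 z.2.1 z.2.2) ν hν hQ
      have h2 : 300 * k * t ^ 3 + 1 + 2 / ν ≤ 301 * t ^ 2 + 2 / ν := by
        have e1 : k * t ^ 3 ≤ t ^ 2 := by
          calc k * t ^ 3 = (k * t) * t ^ 2 := by ring
            _ ≤ 1 * t ^ 2 := mul_le_mul_of_nonneg_right hkt1 (by positivity)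
            _ = t ^ 2 := one_mul _
        linarith
      calc ((Sol p S h (rho p S S z.1 z.2.1 z.2.2)).card : ℝ)
          ≤ m * (300 * k * t ^ 3 + 1 + 2 / ν) := h1
        _ ≤ m * (301 * t ^ 2 + 2 / ν) := mul_le_mul_of_nonneg_left h2 hm0.le
        _ = 301 * m * t ^ 2 + 2 * m / ν + 0 := by ring)
    (by
      intro ν G hG hGQ hν hν1
      have h1 : G ⊆ TWk p S h k A ν := by
        intro z hz
        rw [mem_TWk]
        exact ⟨hG hz, hGQ z hz⟩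
      have h2 : (G.card : ℝ) ≤ (TWk p S h k A ν).card := by exact_mod_cast Finset.card_le_card h1
      exact h2.trans (tw_card H t ht hΛ hk0 hkt hAB ν hν hν1))
  have hN := TL_tri h
  rw [Nat.cast_sum]
  rw [Finset.sum_const_zero, add_zero] at key
  refine key.trans ?_
  set X : ℝ := (m : ℝ) ^ 3 * (h : ℝ) ^ 3 * t ^ 2 * L ^ 2 with hX
  have hX0 : 0 ≤ X := by positivity
  have hm1 : (1 : ℝ) ≤ (m : ℝ) ^ 2 := one_le_pow₀ (by linarith)
  have hLL : (1 : ℝ) ≤ L ^ 2 := one_le_pow₀ hL1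
  have b1 : m * (h : ℝ) ^ 3 * t ^ 2 ≤ X := by
    calc m * (h : ℝ) ^ 3 * t ^ 2 = (m * (h : ℝ) ^ 3 * t ^ 2) * (1 * 1) := by ring
      _ ≤ (m * (h : ℝ) ^ 3 * t ^ 2) * ((m : ℝ) ^ 2 * L ^ 2) := by
          apply mul_le_mul_of_nonneg_left _ (by positivity)
          exact mul_le_mul hm1 hLL zero_le_one (by positivity)
      _ = X := by rw [hX]; ring
  have b3 : ((Tri h).card : ℝ) * (301 * m * t ^ 2 + 2 * m) ≤ 303 * X := by
    calc ((Tri h).card : ℝ) * (301 * m * t ^ 2 + 2 * m) ≤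
          (h : ℝ) ^ 3 * (303 * m * t ^ 2) := by
          apply mul_le_mul hN _ (by positivity) (by positivity)
          have := mul_le_mul_of_nonneg_left ht2 (by positivity : (0 : ℝ) ≤ 2 * m)
          linarith
      _ = 303 * (m * (h : ℝ) ^ 3 * t ^ 2) := by ring
      _ ≤ 303 * X := by linarith
  have b4 : 2 * (2 * (m : ℝ)) * (400 * (m : ℝ) ^ 2 * (h : ℝ) ^ 3 * t ^ 2 * L) * L =
      1600 * X := by rw [hX]; ring
  have b5 : 2000 * (m : ℝ) ^ 3 * (h : ℝ) ^ 3 * t ^ 2 * L ^ 2 = 2000 * X := by rw [hX]; ring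
  rw [b5, b4]
  linarith

end Pool.Agent.H.MP_03bc95_nt
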