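import Pool.Agent.H.MP_03bc95_nt.TF
import Pool.Agent.H.MP_03bc95_nt.TL
import Pool.Agent.H.MP_03bc95_nt.Ma

open Finset

namespace Pool.Agent.H.MP_03bc95_nt

/-- The number of solutions of `x1 x2 x3 = y1 y2 y3` in one interval. `m6_eq` with `S3 = S`,
`Hn = h` (`h < p` from `H.hp`) and `e4_eq`:
`M6 = ∑ x, ∑ y, ∑ y2, #Sol (((S+y) (S+x)⁻¹) * (S+y2))` and this is `rho p S S y2 x y` up to
commutativity; `sol_total` bounds it by `∑ z ∈ Tri h, #Sol + 4 m h^3`; `caseA_sum` if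
`LBS p S h (1/t)`, otherwise `exists_abk` and `caseB_sum`. -/
theorem m6_self_le {p : ℕ} [Fact p.Prime] {S : ℤ} {h m : ℕ} (H : Hyp p S h m) (t : ℝ)
    (ht : 1 ≤ t) (hΛ : (h : ℝ) ^ 4 ≤ t ^ 3 * p) :
    (M6 (Itv p S h) (Itv p S h) (Itv p S h) : ℝ) ≤
      20000000000 * (m : ℝ) ^ 3 * (h : ℝ) ^ 3 * t ^ 2 * (1 + Nat.log 2 h) ^ 2 := by
  classical
  have hh1 : (1 : ℝ) ≤ h := by exact_mod_cast H.hh
  have hp : (100000 : ℝ) * (h : ℝ) ^ 3 ≤ p := by exact_mod_cast H.hp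
  have hh3 : (h : ℝ) ≤ (h : ℝ) ^ 3 := by
    have := pow_le_pow_right₀ hh1 (show 1 ≤ 3 by norm_num)
    simpa using this
  have hhpos : (0 : ℝ) < (h : ℝ) ^ 3 := by positivity
  have hhp : h < p := by
    have : (h : ℝ) < p := by linarith
    exact_mod_cast this
  have hm2 : (2 : ℝ) ≤ m := by exact_mod_cast two_le_of_hyp H
  have hm0 : (0 : ℝ) < m := by linarith
  have ht0 : 0 < t := by linarith
  have hM : M6 (Itv p S h) (Itv p S h) (Itv p S h) =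
      ∑ x ∈ Icc (1 : ℤ) h, ∑ y ∈ Icc (1 : ℤ) h, ∑ y2 ∈ Icc (1 : ℤ) h,
        (Sol p S h (rho p S S y2 x y)).card := by
    rw [m6_eq hhp hhp H.hS H.hS]
    refine sum_congr rfl fun x _ => sum_congr rfl fun y _ => ?_
    rw [e4_eq]
    refine sum_congr rfl fun y2 _ => ?_
    congr 2
    unfold rho
    ring
  have hT := sol_total H
  rw [← hM] at hT
  have hT' : (M6 (Itv p S h) (Itv p S h) (Itv p S h) : ℝ) ≤
      ((∑ z ∈ Tri h, (Sol p S h (rho p S S z.1 z.2.1 z.2.2)).card : ℕ) : ℝ) +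
        4 * m * (h : ℝ) ^ 3 := by exact_mod_cast hT
  set L : ℝ := 1 + Nat.log 2 h with hL'
  have hL1 : 1 ≤ L := by
    have : (0 : ℝ) ≤ Nat.log 2 h := Nat.cast_nonneg _
    linarith
  have hL0 : 0 < L := by linarith
  set X : ℝ := (m : ℝ) ^ 3 * (h : ℝ) ^ 3 * t ^ 2 * L ^ 2 with hX
  have hX0 : 0 ≤ X := by positivity
  have e0 : 20000000000 * (m : ℝ) ^ 3 * (h : ℝ) ^ 3 * t ^ 2 * L ^ 2 = 20000000000 * X := by
    rw [hX]; ring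
  rw [e0]
  have hm1 : (1 : ℝ) ≤ (m : ℝ) ^ 2 := one_le_pow₀ (by linarith)
  have ht2 : (1 : ℝ) ≤ t ^ 2 := one_le_pow₀ ht
  have hL2 : (1 : ℝ) ≤ L ^ 2 := one_le_pow₀ hL1
  have hLL : L ≤ L ^ 2 := by
    calc L = L * 1 := by ring
      _ ≤ L * L := mul_le_mul_of_nonneg_left hL1 hL0.le
      _ = L ^ 2 := by ring
  have b1 : (m : ℝ) * (h : ℝ) ^ 3 ≤ X := by
    have c1 : (1 : ℝ) ≤ (m : ℝ) ^ 2 * t ^ 2 * L ^ 2 := by
      have c2 : (1 : ℝ) ≤ (m : ℝ) ^ 2 * t ^ 2 := one_le_mul_of_one_le_of_one_le hm1 ht2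
      exact one_le_mul_of_one_le_of_one_le c2 hL2
    calc (m : ℝ) * (h : ℝ) ^ 3 = (m : ℝ) * (h : ℝ) ^ 3 * 1 := by ring
      _ ≤ (m : ℝ) * (h : ℝ) ^ 3 * ((m : ℝ) ^ 2 * t ^ 2 * L ^ 2) :=
          mul_le_mul_of_nonneg_left c1 (by positivity)
      _ = X := by rw [hX]; ring
  have b2 : ((∑ z ∈ Tri h, (Sol p S h (rho p S S z.1 z.2.1 z.2.2)).card : ℕ) : ℝ) ≤
      10 ^ 10 * X := by
    by_cases hL : LBS p S h (1 / t)
    · refine (caseA_sum H t ht hΛ hL).trans ?_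
      rw [← hL']
      calc 10 ^ 10 * (m : ℝ) ^ 3 * (h : ℝ) ^ 3 * t ^ 2 * L ≤
          10 ^ 10 * (m : ℝ) ^ 3 * (h : ℝ) ^ 3 * t ^ 2 * L ^ 2 :=
            mul_le_mul_of_nonneg_left hLL (by positivity)
        _ = 10 ^ 10 * X := by rw [hX]; ring
    · obtain ⟨k, A, B, hk0, hkt, hAB⟩ := exists_abk H t ht hL
      refine (caseB_sum H t ht hΛ hk0 hkt hAB).trans ?_
      rw [← hL']
      calc 2000 * (m : ℝ) ^ 3 * (h : ℝ) ^ 3 * t ^ 2 * L ^ 2 = 2000 * X := by rw [hX]; ring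
        _ ≤ 10 ^ 10 * X := mul_le_mul_of_nonneg_right (by norm_num) hX0
  linarith

end Pool.Agent.H.MP_03bc95_nt
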