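import Pool.Agent.H.MP_03bc95_nt.P1
import Pool.Agent.H.MP_03bc95_nt.P2

open Finset

namespace Pool.Agent.H.MP_03bc95_nt

/-- Data of the structured case. -/
structure AB (p : ℕ) (S : ℤ) (t : ℝ) (A B : ℤ) : Prop where
  hA0 : A ≠ 0
  hAB : ((A * S : ℤ) : ZMod p) = (B : ZMod p)
  hA : |(A : ℝ)| ≤ t ^ 2
  hB : |(B : ℝ)| ≤ t ^ 5

/-- The lattice `w = ρ' g` (with `ρ' = A ρ`) has all nonzero vectors of scaled norm at least `ν`:
`|w| ≥ ν 3 t^8` or `|g| ≥ ν t^3`. -/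
def LBW (p : ℕ) (t : ℝ) (ρ' : ZMod p) (ν : ℝ) : Prop :=
  ∀ w g : ℤ, ¬ (w = 0 ∧ g = 0) → (w : ZMod p) = ρ' * (g : ZMod p) →
    ν * (3 * t ^ 8) ≤ |(w : ℝ)| ∨ ν * t ^ 3 ≤ |(g : ℝ)|

theorem Sa_A_ne {p : ℕ} [Fact p.Prime] {S : ℤ} {h m : ℕ} (H : Hyp p S h m) (t : ℝ)
    (ht : 1 ≤ t) (ht3 : t ^ 3 = h) {A B : ℤ} (hAB : AB p S t A B) : (A : ZMod p) ≠ 0 := by
  intro h0
  rw [ZMod.intCast_zmod_eq_zero_iff_dvd] at h0
  have h1 : (p : ℤ) ≤ |A| := by
    have := Int.le_of_dvd (abs_pos.2 hAB.hA0) ((dvd_abs _ _).2 h0)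
    exact this
  have h2 : (p : ℝ) ≤ |(A : ℝ)| := by exact_mod_cast h1
  have h3 : (100000 : ℝ) * (h : ℝ) ^ 3 ≤ p := by exact_mod_cast H.hp
  have h4 : (1 : ℝ) ≤ (h : ℝ) := by exact_mod_cast H.hh
  have h5 : t ^ 2 ≤ t ^ 3 := pow_le_pow_right₀ ht (by norm_num)
  have h6 := hAB.hA
  have h7 : (h : ℝ) ≤ (h : ℝ) ^ 3 := by nlinarith [pow_le_pow_right₀ h4 (show 1 ≤ 3 by norm_num)]
  have h8 : (0 : ℝ) < (h : ℝ) ^ 3 := by positivity
  linarith

theorem Sa_X {p : ℕ} [Fact p.Prime] {S : ℤ} {t : ℝ} {A B : ℤ} (hAB : AB p S t A B) (b : ℤ) :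
    ((B + A * b : ℤ) : ZMod p) = (A : ZMod p) * ((S + b : ℤ) : ZMod p) := by
  have := hAB.hAB
  push_cast at this ⊢
  rw [← this]
  ring

theorem Sa_X_ne {p : ℕ} [Fact p.Prime] {S : ℤ} {h m : ℕ} (H : Hyp p S h m) (t : ℝ)
    (ht : 1 ≤ t) (ht3 : t ^ 3 = h) {A B : ℤ} (hAB : AB p S t A B) (b : ℤ) (h1 : 1 ≤ b)
    (h2 : b ≤ h) : B + A * b ≠ 0 := by
  intro h0
  have h3 := Sa_X hAB b
  rw [h0] at h3
  have h4 := H.hS b h1 h2
  have h5 := Sa_A_ne H t ht ht3 hAB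
  have h6 : (A : ZMod p) * ((S + b : ℤ) : ZMod p) ≠ 0 := mul_ne_zero h5 h4
  apply h6
  rw [← h3]
  simp

/-- the difference of two solutions lies in the lattice `w = A ρ g` -/
theorem Sa_lat {p : ℕ} [Fact p.Prime] {S : ℤ} {h m : ℕ} (H : Hyp p S h m) (t : ℝ)
    (ht : 1 ≤ t) (ht3 : t ^ 3 = h) {A B : ℤ} (hAB : AB p S t A B) (ρ : ZMod p)
    (b c g b' c' g' : ℤ)
    (h1 : ((S + b : ℤ) : ZMod p) * ((S + c : ℤ) : ZMod p) = ρ * ((S + g : ℤ) : ZMod p))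
    (h2 : ((S + b' : ℤ) : ZMod p) * ((S + c' : ℤ) : ZMod p) = ρ * ((S + g' : ℤ) : ZMod p)) :
    (((B * (b + c) + A * (b * c)) - (B * (b' + c') + A * (b' * c')) : ℤ) : ZMod p)
      = ((A : ZMod p) * ρ) * ((g - g' : ℤ) : ZMod p) := by
  have h5 := Sa_A_ne H t ht ht3 hAB
  have h6 := hAB.hAB
  apply mul_left_cancel₀ h5
  push_cast at h1 h2 h6 ⊢
  rw [← h6]
  linear_combination (A : ZMod p) ^ 2 * h1 - (A : ZMod p) ^ 2 * h2

theorem Sa_absw {t : ℝ} (ht : 1 ≤ t) {h : ℕ} (ht3 : t ^ 3 = h) {p : ℕ} {S A B : ℤ}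
    (hAB : AB p S t A B)
    {b c b' c' : ℤ} (hb : 1 ≤ b ∧ b ≤ h) (hc : 1 ≤ c ∧ c ≤ h) (hb' : 1 ≤ b' ∧ b' ≤ h)
    (hc' : 1 ≤ c' ∧ c' ≤ h) :
    |(((B * (b + c) + A * (b * c)) - (B * (b' + c') + A * (b' * c')) : ℤ) : ℝ)| ≤ 3 * t ^ 8 := by
  have h1 : |((b + c) - (b' + c') : ℝ)| ≤ 2 * h := by
    have e1 : (1 : ℝ) ≤ b ∧ (b : ℝ) ≤ h := by exact_mod_cast hb
    have e2 : (1 : ℝ) ≤ c ∧ (c : ℝ) ≤ h := by exact_mod_cast hc
    have e3 : (1 : ℝ) ≤ b' ∧ (b' : ℝ) ≤ h := by exact_mod_cast hb'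
    have e4 : (1 : ℝ) ≤ c' ∧ (c' : ℝ) ≤ h := by exact_mod_cast hc'
    rw [abs_le]
    constructor <;> linarith [e1.1, e1.2, e2.1, e2.2, e3.1, e3.2, e4.1, e4.2]
  have h2 : |((b * c) - (b' * c') : ℝ)| ≤ (h : ℝ) ^ 2 := by
    have e1 : (1 : ℝ) ≤ b ∧ (b : ℝ) ≤ h := by exact_mod_cast hb
    have e2 : (1 : ℝ) ≤ c ∧ (c : ℝ) ≤ h := by exact_mod_cast hc
    have e3 : (1 : ℝ) ≤ b' ∧ (b' : ℝ) ≤ h := by exact_mod_cast hb'
    have e4 : (1 : ℝ) ≤ c' ∧ (c' : ℝ) ≤ h := by exact_mod_cast hc'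
    have e5 : (b : ℝ) * c ≤ (h : ℝ) ^ 2 := by
      rw [sq]; exact mul_le_mul e1.2 e2.2 (by linarith [e2.1]) (by linarith [e1.1, e1.2])
    have e6 : (b' : ℝ) * c' ≤ (h : ℝ) ^ 2 := by
      rw [sq]; exact mul_le_mul e3.2 e4.2 (by linarith [e4.1]) (by linarith [e3.1, e3.2])
    have e7 : 0 ≤ (b : ℝ) * c := mul_nonneg (by linarith [e1.1]) (by linarith [e2.1])
    have e8 : 0 ≤ (b' : ℝ) * c' := mul_nonneg (by linarith [e3.1]) (by linarith [e4.1])
    rw [abs_le]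
    constructor <;> linarith
  have h3 : (((B * (b + c) + A * (b * c)) - (B * (b' + c') + A * (b' * c')) : ℤ) : ℝ)
      = (B : ℝ) * ((b + c) - (b' + c')) + A * ((b * c) - (b' * c')) := by
    push_cast; ring
  rw [h3]
  have hB := hAB.hB
  have hA := hAB.hA
  have ht0 : 0 ≤ t := by linarith
  calc |(B : ℝ) * ((b + c) - (b' + c')) + A * ((b * c) - (b' * c'))|
      ≤ |(B : ℝ) * ((b + c) - (b' + c'))| + |(A : ℝ) * ((b * c) - (b' * c'))| := abs_add_le _ _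
    _ = |(B : ℝ)| * |((b + c) - (b' + c') : ℝ)| + |(A : ℝ)| * |((b * c) - (b' * c') : ℝ)| := by
        rw [abs_mul, abs_mul]
    _ ≤ t ^ 5 * (2 * h) + t ^ 2 * (h : ℝ) ^ 2 := by
        apply add_le_add
        · exact mul_le_mul hB h1 (abs_nonneg _) (by positivity)
        · exact mul_le_mul hA h2 (abs_nonneg _) (by positivity)
    _ = 3 * t ^ 8 := by rw [← ht3]; ring

/-- at most `m` solutions for given `(w,g)` -/
theorem Sa_fibre {p : ℕ} [Fact p.Prime] {S : ℤ} {h m : ℕ} (H : Hyp p S h m) (t : ℝ)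
    (ht : 1 ≤ t) (ht3 : t ^ 3 = h) {A B : ℤ} (hAB : AB p S t A B) (ρ : ZMod p) (q : ℤ × ℤ)
    (hq : q ∈ (Sol p S h ρ).image (fun z => (B * (z.1 + z.2.1) + A * (z.1 * z.2.1), z.2.2))) :
    ((Sol p S h ρ).filter
      (fun z => (B * (z.1 + z.2.1) + A * (z.1 * z.2.1), z.2.2) = q)).card ≤ m := by
  classical
  obtain ⟨z0, hz0, hz0q⟩ := Finset.mem_image.1 hq
  have hz0' : (1 ≤ z0.1 ∧ z0.1 ≤ h) ∧ (1 ≤ z0.2.1 ∧ z0.2.1 ≤ h) ∧ (1 ≤ z0.2.2 ∧ z0.2.2 ≤ h) := by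
    simp only [Sol, Finset.mem_filter, Finset.mem_product, Finset.mem_Icc] at hz0
    exact hz0.1
  have e0 : (B + A * z0.1) * (B + A * z0.2.1) = B ^ 2 + A * q.1 := by
    rw [← hz0q]; ring
  have hn : B ^ 2 + A * q.1 ≠ 0 := by
    rw [← e0]
    exact mul_ne_zero (Sa_X_ne H t ht ht3 hAB _ hz0'.1.1 hz0'.1.2)
      (Sa_X_ne H t ht ht3 hAB _ hz0'.2.1.1 hz0'.2.1.2)
  have key := card_factor ((Sol p S h ρ).filter
      (fun z => (B * (z.1 + z.2.1) + A * (z.1 * z.2.1), z.2.2) = q))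
      (fun z => B + A * z.1) (fun z => B + A * z.2.1) (B ^ 2 + A * q.1) hn
      (by
        intro z hz
        have := (Finset.mem_filter.1 hz).2
        rw [← this]
        ring)
      (by
        intro z hz z' hz' hzz
        have w1 := (Finset.mem_filter.1 hz)
        have w2 := (Finset.mem_filter.1 hz')
        have hA0 := hAB.hA0
        have e1 : z.1 = z'.1 := by
          have : A * z.1 = A * z'.1 := by linarith
          exact mul_left_cancel₀ hA0 this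
        have hzb : (1 ≤ z.1 ∧ z.1 ≤ h) := by
          have := w1.1
          simp only [Sol, Finset.mem_filter, Finset.mem_product, Finset.mem_Icc] at this
          exact this.1.1
        have hX := Sa_X_ne H t ht ht3 hAB _ hzb.1 hzb.2
        have e2 : (B + A * z.1) * (B + A * z.2.1) = (B + A * z.1) * (B + A * z'.2.1) := by
          have f1 : (B + A * z.1) * (B + A * z.2.1) = B ^ 2 + A * q.1 := by
            rw [← w1.2]; ring
          have f2 : (B + A * z'.1) * (B + A * z'.2.1) = B ^ 2 + A * q.1 := by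
            rw [← w2.2]; ring
          rw [f1, ← f2, e1]
        have e3 := mul_left_cancel₀ hX e2
        have e4 : z.2.1 = z'.2.1 := by
          have : A * z.2.1 = A * z'.2.1 := by linarith
          exact mul_left_cancel₀ hA0 this
        have e5 : z.2.2 = z'.2.2 := by
          have g1 := congrArg Prod.snd w1.2
          have g2 := congrArg Prod.snd w2.2
          simp only at g1 g2
          rw [g1, g2]
        exact Prod.ext e1 (Prod.ext e4 e5))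
  have hbound : |B ^ 2 + A * q.1| ≤ 1000 * (h : ℤ) ^ 6 := by
    have ht0 : 0 ≤ t := by linarith
    have hX : ∀ b : ℤ, 1 ≤ b → b ≤ h → |((B + A * b : ℤ) : ℝ)| ≤ 2 * t ^ 5 := by
      intro b hb1 hb2
      have e1 : (1 : ℝ) ≤ b ∧ (b : ℝ) ≤ h := by exact_mod_cast And.intro hb1 hb2
      push_cast
      calc |(B : ℝ) + A * b| ≤ |(B : ℝ)| + |(A : ℝ) * b| := abs_add_le _ _
        _ = |(B : ℝ)| + |(A : ℝ)| * |(b : ℝ)| := by rw [abs_mul]
        _ ≤ t ^ 5 + t ^ 2 * t ^ 3 := by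
            apply add_le_add hAB.hB
            apply mul_le_mul hAB.hA _ (abs_nonneg _) (by positivity)
            rw [abs_of_nonneg (by linarith [e1.1]), ht3]
            exact e1.2
        _ = 2 * t ^ 5 := by ring
    have f1 := hX z0.1 hz0'.1.1 hz0'.1.2
    have f2 := hX z0.2.1 hz0'.2.1.1 hz0'.2.1.2
    have f3 : |((B ^ 2 + A * q.1 : ℤ) : ℝ)| ≤ 1000 * (h : ℝ) ^ 6 := by
      rw [← e0]
      have f4 : |(((B + A * z0.1) * (B + A * z0.2.1) : ℤ) : ℝ)|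
          = |((B + A * z0.1 : ℤ) : ℝ)| * |((B + A * z0.2.1 : ℤ) : ℝ)| := by
        rw [← abs_mul]; push_cast; ring_nf
      rw [f4]
      calc |((B + A * z0.1 : ℤ) : ℝ)| * |((B + A * z0.2.1 : ℤ) : ℝ)|
          ≤ (2 * t ^ 5) * (2 * t ^ 5) := mul_le_mul f1 f2 (abs_nonneg _) (by positivity)
        _ = 4 * t ^ 10 := by ring
        _ ≤ 1000 * t ^ 18 := by
            have : t ^ 10 ≤ t ^ 18 := pow_le_pow_right₀ ht (by norm_num)
            have h18 : 0 ≤ t ^ 18 := by positivity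
            linarith
        _ = 1000 * (h : ℝ) ^ 6 := by rw [← ht3]; ring
    exact_mod_cast f3
  exact key.trans (H.hm _ hn hbound)

/-- `N(ρ) ≤ m (t^2 + 1 + 2/ν)` if `LBW (A ρ) ν`. For a solution `(b,c,g)` put `w = B (b+c) + A b c`; then
`(B + A b)(B + A c) = B^2 + A w` is a nonzero integer of size `≤ 4 t^10`, so for fixed `(w,g)` at most
`m` solutions (`card_factor`). Fix one solution `(w*,g*)`; the differences `(w - w*, g - g*)` lie in
`Λ' = {w = A ρ g}`, `|w| ≤ 3 t^8` (`|B| 2h + |A| h^2`), `|g| ≤ t^3`. Let `F` be the set of all points of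
`Λ'` in this box (or of the differences). If two points of `F` have determinant `≠ 0`, `pack2`:
`p |F| ≤ (18 t^8 + 1)(6 t^3 + 1) ≤ 133 t^11`, `|F| ≤ t^2`. Otherwise `par2` with `D = 2`, `r = ν`:
`|F| ≤ 1 + 2/ν`. (Here `h = t^3`; `p ≥ 10^5 t^9`.) -/
theorem sol_struct {p : ℕ} [Fact p.Prime] {S : ℤ} {h m : ℕ} (H : Hyp p S h m) (t : ℝ)
    (ht : 1 ≤ t) (ht3 : t ^ 3 = h) {A B : ℤ} (hAB : AB p S t A B) (ρ : ZMod p) (hρ : ρ ≠ 0)
    (ν : ℝ) (hν : 0 < ν) (hW : LBW p t ((A : ZMod p) * ρ) ν) :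
    ((Sol p S h ρ).card : ℝ) ≤ m * (t ^ 2 + 1 + 2 / ν) := by
  classical
  have ht0 : 0 < t := by linarith
  have hpR : (100000 : ℝ) * t ^ 9 ≤ p := by
    have : (100000 : ℝ) * (h : ℝ) ^ 3 ≤ p := by exact_mod_cast H.hp
    rw [← ht3] at this
    nlinarith [this]
  set P : Finset (ℤ × ℤ) :=
    (Sol p S h ρ).image (fun z => (B * (z.1 + z.2.1) + A * (z.1 * z.2.1), z.2.2)) with hP
  have h1 : (Sol p S h ρ).card ≤ m * P.card := by
    have := Finset.card_le_mul_card_image (Sol p S h ρ) m (fun q hq =>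
      Sa_fibre H t ht ht3 hAB ρ q hq)
    exact this
  have hdiff : ∀ q ∈ P, ∀ q' ∈ P, ((q.1 - q'.1 : ℤ) : ZMod p)
      = ((A : ZMod p) * ρ) * ((q.2 - q'.2 : ℤ) : ZMod p) ∧
      |((q.1 - q'.1 : ℤ) : ℝ)| ≤ 3 * t ^ 8 ∧ |((q.2 - q'.2 : ℤ) : ℝ)| ≤ t ^ 3 := by
    intro q hq q' hq'
    obtain ⟨z, hz, rfl⟩ := Finset.mem_image.1 hq
    obtain ⟨z', hz', rfl⟩ := Finset.mem_image.1 hq'
    simp only [Sol, Finset.mem_filter, Finset.mem_product, Finset.mem_Icc] at hz hz'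
    refine ⟨Sa_lat H t ht ht3 hAB ρ _ _ _ _ _ _ hz.2 hz'.2, ?_, ?_⟩
    · exact Sa_absw ht ht3 hAB hz.1.1 hz.1.2.1 hz'.1.1 hz'.1.2.1
    · have e1 : (1 : ℝ) ≤ z.2.2 ∧ (z.2.2 : ℝ) ≤ h := by exact_mod_cast hz.1.2.2
      have e2 : (1 : ℝ) ≤ z'.2.2 ∧ (z'.2.2 : ℝ) ≤ h := by exact_mod_cast hz'.1.2.2
      rw [ht3]
      push_cast
      rw [abs_le]
      constructor <;> linarith [e1.1, e1.2, e2.1, e2.2]
  have h2 : (P.card : ℝ) ≤ t ^ 2 + 1 + 2 / ν := by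
    rcases P.eq_empty_or_nonempty with hPe | ⟨q0, hq0⟩
    · rw [hPe]
      simp only [Finset.card_empty, Nat.cast_zero]
      positivity
    by_cases hdet : ∃ v w : ℤ × ℤ,
        (|(v.1 : ℝ)| ≤ 3 * t ^ 8 ∧ |(v.2 : ℝ)| ≤ t ^ 3 ∧
          (1 : ZMod p) * (v.1 : ZMod p) + (-((A : ZMod p) * ρ)) * (v.2 : ZMod p) = 0) ∧
        (|(w.1 : ℝ)| ≤ 3 * t ^ 8 ∧ |(w.2 : ℝ)| ≤ t ^ 3 ∧
          (1 : ZMod p) * (w.1 : ZMod p) + (-((A : ZMod p) * ρ)) * (w.2 : ZMod p) = 0) ∧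
        v.1 * w.2 ≠ v.2 * w.1
    · obtain ⟨v, w, hv, hw, hvw⟩ := hdet
      have e1 := pack2 (p := p) (1 : ZMod p) (-((A : ZMod p) * ρ)) (Or.inl one_ne_zero)
        (P.image (fun q => (q.1 - q0.1, q.2 - q0.2))) (3 * t ^ 8) (t ^ 3)
        (by
          intro f hf
          obtain ⟨q, hq, rfl⟩ := Finset.mem_image.1 hf
          obtain ⟨d1, d2, d3⟩ := hdiff q hq q0 hq0
          refine ⟨d2, d3, ?_⟩
          simp only
          rw [d1]
          ring)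
        v w hv hw hvw
      rw [Finset.card_image_of_injective] at e1
      · have e2 : (6 * (3 * t ^ 8) + 1) * (6 * t ^ 3 + 1) ≤ 133 * t ^ 11 := by
          have g1 : (1 : ℝ) ≤ t ^ 8 := one_le_pow₀ ht
          have g2 : (1 : ℝ) ≤ t ^ 3 := one_le_pow₀ ht
          have g3 : (6 * (3 * t ^ 8) + 1) ≤ 19 * t ^ 8 := by linarith
          have g4 : (6 * t ^ 3 + 1) ≤ 7 * t ^ 3 := by linarith
          calc (6 * (3 * t ^ 8) + 1) * (6 * t ^ 3 + 1) ≤ (19 * t ^ 8) * (7 * t ^ 3) :=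
                mul_le_mul g3 g4 (by positivity) (by positivity)
            _ = 133 * t ^ 11 := by ring
        have e3 : (100000 * t ^ 9) * (P.card : ℝ) ≤ 133 * t ^ 11 :=
          le_trans (mul_le_mul_of_nonneg_right hpR (Nat.cast_nonneg _)) (e1.trans e2)
        have e4 : (P.card : ℝ) ≤ t ^ 2 := by
          by_contra hcon
          push Not at hcon
          have g5 : 0 < t ^ 9 := by positivity
          have g6 : (100000 * t ^ 9) * t ^ 2 < (100000 * t ^ 9) * (P.card : ℝ) :=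
            mul_lt_mul_of_pos_left hcon (by positivity)
          have g7 : (100000 * t ^ 9) * t ^ 2 = 100000 * t ^ 11 := by ring
          have g8 : 0 < t ^ 11 := by positivity
          linarith
        have e5 : 0 < 2 / ν := by positivity
        linarith
      · intro q q' hqq
        simp only [Prod.mk.injEq, sub_left_inj] at hqq
        exact Prod.ext hqq.1 hqq.2
    · push Not at hdet
      have hpar := par2 P (fun q => q.1) (fun q => q.2) (3 * t ^ 8) (t ^ 3) 1 ν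
        (by positivity) (by positivity) hν (by norm_num)
        (by
          intro i hi j hj k hk l hl
          obtain ⟨d1, d2, d3⟩ := hdiff i hi j hj
          obtain ⟨d4, d5, d6⟩ := hdiff k hk l hl
          have := hdet (i.1 - j.1, i.2 - j.2) (k.1 - l.1, k.2 - l.2)
            ⟨d2, d3, by simp only; rw [d1]; ring⟩ ⟨d5, d6, by simp only; rw [d4]; ring⟩
          simpa using this)
        (by
          intro i hi j hj hij
          obtain ⟨d1, d2, d3⟩ := hdiff i hi j hj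
          refine hW _ _ ?_ d1
          rintro ⟨h5, h6⟩
          apply hij
          exact Prod.ext (by linarith) (by linarith))
        (by
          intro i hi j hj
          obtain ⟨d1, d2, d3⟩ := hdiff i hi j hj
          exact ⟨by rw [one_mul]; exact d2, by rw [one_mul]; exact d3⟩)
      have e6 : 1 / ν ≤ 2 / ν := by
        apply div_le_div_of_nonneg_right _ hν.le
        norm_num
      have e7 : 0 < t ^ 2 := by positivity
      linarith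
  calc ((Sol p S h ρ).card : ℝ) ≤ ((m * P.card : ℕ) : ℝ) := by exact_mod_cast h1
    _ = m * (P.card : ℝ) := by push_cast; ring
    _ ≤ m * (t ^ 2 + 1 + 2 / ν) := mul_le_mul_of_nonneg_left h2 (Nat.cast_nonneg _)

end Pool.Agent.H.MP_03bc95_nt
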