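import Pool.Agent.H.MP_03bc95_nt.Sa

open Finset

namespace Pool.Agent.H.MP_03bc95_nt

/-- The ratio `ρ = (S + y2) (S3 + y) / (S3 + x)`. -/
noncomputable def rho (p : ℕ) [Fact p.Prime] (S S3 y2 x y : ℤ) : ZMod p :=
  ((S + y2 : ℤ) : ZMod p) * ((S3 + y : ℤ) : ZMod p) * (((S3 + x : ℤ) : ZMod p))⁻¹

/-- The exceptional triples `(y2,x,y)`. -/
noncomputable def TSet (p : ℕ) [Fact p.Prime] (S S3 : ℤ) (h Hn : ℕ) (t : ℝ) (A : ℤ) (ν : ℝ) :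
    Finset (ℤ × ℤ × ℤ) := by
  classical
  exact (Icc (1 : ℤ) h ×ˢ Icc (1 : ℤ) Hn ×ˢ Icc (1 : ℤ) Hn).filter fun z =>
    z.2.1 ≠ z.2.2 ∧ ¬ LBW p t ((A : ZMod p) * rho p S S3 z.1 z.2.1 z.2.2) ν

/-- For a triple of `TSet` there are integers `w1, g1`, not both `0`, `|w1| < 3 t^8 ν`,
`|g1| < t^3 ν`, `w1 = A ρ g1`, i.e. `w1 (S3 + x) = g1 Y (S3 + y)` modulo `p` with the integer
`Y = B + A y2` (`≡ A (S + y2)`, nonzero, `|Y| ≤ 2 t^5`). Both are nonzero (sizes `< p`). Put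
`m' = g1 Y ≠ 0`, `|m'| ≤ 2 t^8 ν`; `a = w1 - m'`, `b = m' (y - x) - a x`. Then `a S3 = b` modulo `p`,
`|a| ≤ 5 t^8 ν`, `|b| ≤ 10 t^8 ν H` and `b + a x = m' (y - x) ≠ 0`.
This theorem: the data, as a choice function. -/
theorem tset_data {p : ℕ} [Fact p.Prime] {S : ℤ} {h m : ℕ} (H : Hyp p S h m) (t : ℝ)
    (ht : 1 ≤ t) (ht3 : t ^ 3 = h) {A B : ℤ} (hAB : AB p S t A B) (S3 : ℤ) (Hn : ℕ)
    (hH1 : 1 ≤ Hn) (hHt : (Hn : ℝ) ≤ t)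
    (hS3 : ∀ x : ℤ, 1 ≤ x → x ≤ Hn → ((S3 + x : ℤ) : ZMod p) ≠ 0)
    (ν : ℝ) (hν : 0 < ν) (hν1 : ν ≤ 1) (z : ℤ × ℤ × ℤ) (hz : z ∈ TSet p S S3 h Hn t A ν) :
    ∃ w1 g1 : ℤ, w1 ≠ 0 ∧ g1 ≠ 0 ∧ |(w1 : ℝ)| ≤ 3 * t ^ 8 * ν ∧ |(g1 : ℝ)| ≤ t ^ 3 * ν ∧
      B + A * z.1 ≠ 0 ∧ |((B + A * z.1 : ℤ) : ℝ)| ≤ 2 * t ^ 5 ∧
      |((w1 - g1 * (B + A * z.1) : ℤ) : ℝ)| ≤ 5 * t ^ 8 * ν ∧
      |((g1 * (B + A * z.1) * (z.2.2 - z.2.1) - (w1 - g1 * (B + A * z.1)) * z.2.1 : ℤ) : ℝ)|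
        ≤ 10 * t ^ 8 * ν * Hn ∧
      (((w1 - g1 * (B + A * z.1)) * S3 : ℤ) : ZMod p) =
        ((g1 * (B + A * z.1) * (z.2.2 - z.2.1) - (w1 - g1 * (B + A * z.1)) * z.2.1 : ℤ) : ZMod p) := by
  classical
  obtain ⟨y2, x, y⟩ := z
  simp only [TSet, Finset.mem_filter, Finset.mem_product, Finset.mem_Icc] at hz
  obtain ⟨⟨⟨hy1, hy2⟩, ⟨hx1, hx2⟩, hy3, hy4⟩, hxy, hL⟩ := hz
  simp only at hxy hL ⊢
  unfold LBW at hL
  push Not at hL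
  obtain ⟨w, g, hne, hwg, hw, hg⟩ := hL
  have hA := Sa_A_ne H t ht ht3 hAB
  have hYz := Sa_X_ne H t ht ht3 hAB y2 hy1 hy2
  have hYc := Sa_X hAB y2
  have hSy := H.hS y2 hy1 hy2
  have hSx3 := hS3 x hx1 hx2
  have hSy3 := hS3 y hy3 hy4
  have ht0 : (0 : ℝ) < t := by linarith
  have hh1 : (1 : ℝ) ≤ (h : ℝ) := by exact_mod_cast H.hh
  have hp1 : (100000 : ℝ) * (h : ℝ) ^ 3 ≤ p := by exact_mod_cast H.hp
  have hh3 : (h : ℝ) ≤ (h : ℝ) ^ 3 := by nlinarith [pow_le_pow_right₀ hh1 (show 1 ≤ 3 by norm_num)]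
  have hh0 : (0 : ℝ) < (h : ℝ) ^ 3 := by positivity
  have hsmall : ∀ n : ℤ, |(n : ℝ)| < p → ((n : ZMod p)) = 0 → n = 0 := by
    intro n hn h0
    rw [ZMod.intCast_zmod_eq_zero_iff_dvd] at h0
    by_contra hc
    have h1 : (p : ℤ) ≤ |n| := Int.le_of_dvd (abs_pos.2 hc) ((dvd_abs _ _).2 h0)
    have h2 : (p : ℝ) ≤ |(n : ℝ)| := by exact_mod_cast h1
    linarith
  have hgs : |(g : ℝ)| ≤ t ^ 3 * ν := by linarith
  have hws : |(w : ℝ)| ≤ 3 * t ^ 8 * ν := by linarith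
  have hgp : |(g : ℝ)| < p := by
    have : t ^ 3 * ν ≤ t ^ 3 := by
      have := mul_le_mul_of_nonneg_left hν1 (by positivity : (0 : ℝ) ≤ t ^ 3)
      linarith
    rw [ht3] at this hgs
    linarith
  have hwp : |(w : ℝ)| < p := by
    have h1 : 3 * t ^ 8 * ν ≤ 3 * t ^ 8 := by
      have := mul_le_mul_of_nonneg_left hν1 (by positivity : (0 : ℝ) ≤ 3 * t ^ 8)
      linarith
    have h2 : t ^ 8 ≤ t ^ 9 := pow_le_pow_right₀ ht (by norm_num)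
    have h3 : t ^ 9 = (h : ℝ) ^ 3 := by rw [← ht3]; ring
    linarith
  have hρ : rho p S S3 y2 x y ≠ 0 := by
    unfold rho
    exact mul_ne_zero (mul_ne_zero hSy hSy3) (inv_ne_zero hSx3)
  have hw0 : w ≠ 0 := by
    intro h0
    rw [h0] at hwg
    have h1 : (A : ZMod p) * rho p S S3 y2 x y * (g : ZMod p) = 0 := by rw [← hwg]; simp
    rcases mul_eq_zero.1 h1 with h2 | h2
    · exact mul_ne_zero hA hρ h2
    · exact hne h0 (hsmall g hgp h2)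
  have hg0 : g ≠ 0 := by
    intro h0
    rw [h0] at hwg
    have h1 : (w : ZMod p) = 0 := by rw [hwg]; simp
    exact hw0 (hsmall w hwp h1)
  have hYa : |((B + A * y2 : ℤ) : ℝ)| ≤ 2 * t ^ 5 := by
    push_cast
    have e1 : |(A : ℝ) * y2| ≤ t ^ 2 * h := by
      rw [abs_mul]
      apply mul_le_mul hAB.hA _ (abs_nonneg _) (by positivity)
      rw [abs_le]
      have e2 : (1 : ℝ) ≤ y2 := by exact_mod_cast hy1
      have e3 : (y2 : ℝ) ≤ h := by exact_mod_cast hy2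
      constructor <;> linarith
    calc |(B : ℝ) + A * y2| ≤ |(B : ℝ)| + |(A : ℝ) * y2| := abs_add_le _ _
      _ ≤ t ^ 5 + t ^ 2 * h := add_le_add hAB.hB e1
      _ = 2 * t ^ 5 := by rw [← ht3]; ring
  set Y : ℤ := B + A * y2 with hY
  have hgY : |((g * Y : ℤ) : ℝ)| ≤ 2 * t ^ 8 * ν := by
    push_cast
    rw [abs_mul]
    calc |(g : ℝ)| * |(Y : ℝ)| ≤ (t ^ 3 * ν) * (2 * t ^ 5) :=
          mul_le_mul hgs hYa (abs_nonneg _) (by positivity)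
      _ = 2 * t ^ 8 * ν := by ring
  have ha : |((w - g * Y : ℤ) : ℝ)| ≤ 5 * t ^ 8 * ν := by
    have e1 : ((w - g * Y : ℤ) : ℝ) = (w : ℝ) - ((g * Y : ℤ) : ℝ) := by push_cast; ring
    rw [e1]
    calc |(w : ℝ) - ((g * Y : ℤ) : ℝ)| ≤ |(w : ℝ)| + |((g * Y : ℤ) : ℝ)| := abs_sub _ _
      _ ≤ 3 * t ^ 8 * ν + 2 * t ^ 8 * ν := add_le_add hws hgY
      _ = 5 * t ^ 8 * ν := by ring
  have ex1 : (1 : ℝ) ≤ x := by exact_mod_cast hx1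
  have ex2 : (x : ℝ) ≤ Hn := by exact_mod_cast hx2
  have ey1 : (1 : ℝ) ≤ y := by exact_mod_cast hy3
  have ey2 : (y : ℝ) ≤ Hn := by exact_mod_cast hy4
  have hHn : (0 : ℝ) ≤ Hn := by positivity
  have hb : |((g * Y * (y - x) - (w - g * Y) * x : ℤ) : ℝ)| ≤ 10 * t ^ 8 * ν * Hn := by
    have e1 : ((g * Y * (y - x) - (w - g * Y) * x : ℤ) : ℝ)
        = ((g * Y : ℤ) : ℝ) * ((y : ℝ) - x) - ((w - g * Y : ℤ) : ℝ) * x := by push_cast; ring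
    rw [e1]
    have e2 : |(y : ℝ) - x| ≤ Hn := by rw [abs_le]; constructor <;> linarith
    have e3 : |(x : ℝ)| ≤ Hn := by rw [abs_le]; constructor <;> linarith
    calc |((g * Y : ℤ) : ℝ) * ((y : ℝ) - x) - ((w - g * Y : ℤ) : ℝ) * x|
        ≤ |((g * Y : ℤ) : ℝ) * ((y : ℝ) - x)| + |((w - g * Y : ℤ) : ℝ) * x| := abs_sub _ _
      _ = |((g * Y : ℤ) : ℝ)| * |(y : ℝ) - x| + |((w - g * Y : ℤ) : ℝ)| * |(x : ℝ)| := by
          rw [abs_mul, abs_mul]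
      _ ≤ (2 * t ^ 8 * ν) * Hn + (5 * t ^ 8 * ν) * Hn := by
          apply add_le_add
          · exact mul_le_mul hgY e2 (abs_nonneg _) (by positivity)
          · exact mul_le_mul ha e3 (abs_nonneg _) (by positivity)
      _ ≤ 10 * t ^ 8 * ν * Hn := by
          have : 0 ≤ t ^ 8 * ν * Hn := by positivity
          nlinarith
  refine ⟨w, g, hw0, hg0, hws, hgs, hYz, hYa, ha, hb, ?_⟩
  have hkey : (w : ZMod p) * ((S3 + x : ℤ) : ZMod p)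
      = (g : ZMod p) * (Y : ZMod p) * ((S3 + y : ℤ) : ZMod p) := by
    rw [hwg, hYc]
    unfold rho
    have e1 : (A : ZMod p) * (((S + y2 : ℤ) : ZMod p) * ((S3 + y : ℤ) : ZMod p)
        * (((S3 + x : ℤ) : ZMod p))⁻¹) * (g : ZMod p) * ((S3 + x : ℤ) : ZMod p)
        = (g : ZMod p) * ((A : ZMod p) * ((S + y2 : ℤ) : ZMod p)) * ((S3 + y : ℤ) : ZMod p)
          * ((((S3 + x : ℤ) : ZMod p))⁻¹ * ((S3 + x : ℤ) : ZMod p)) := by ring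
    rw [e1, inv_mul_cancel₀ hSx3, mul_one]
  clear_value Y
  push_cast at hkey ⊢
  linear_combination hkey
end Pool.Agent.H.MP_03bc95_nt
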