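import Pool.Agent.H.MP_03bc95_nt.TDef

open Finset

namespace Pool.Agent.H.MP_03bc95_nt

/-- Upper bound of a cross product with `f`. -/
theorem TA1_upper (f1 f2 a b : ℝ) (s1 s2 κ D : ℝ) (hs1 : 0 < s1) (hs2 : 0 < s2) (hD : 0 ≤ D)
    (hf1 : |f1| = κ * s1) (hf2 : |f2| ≤ κ * s2) (ha : |a| ≤ D * s1) (hb : |b| ≤ D * s2) :
    |f1 * b - a * f2| ≤ (2 * D) * (|f1| * s2) := by
  calc |f1 * b - a * f2| ≤ |f1 * b| + |a * f2| := abs_sub _ _
    _ = |f1| * |b| + |a| * |f2| := by rw [abs_mul, abs_mul]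
    _ ≤ |f1| * (D * s2) + (D * s1) * (κ * s2) := by
        apply add_le_add
        · exact mul_le_mul_of_nonneg_left hb (abs_nonneg _)
        · exact mul_le_mul ha hf2 (abs_nonneg _) (by positivity)
    _ = (2 * D) * (|f1| * s2) := by rw [hf1]; ring

/-- Lower bound of a cross product with `f`. -/
theorem TA1_lower (f1 f2 w1 w2 : ℝ) (s1 s2 κ lam : ℝ) (hs1 : 0 < s1) (hs2 : 0 < s2)
    (hκl : κ ≤ lam) (hf1 : |f1| = κ * s1) (hf2 : |f2| ≤ κ * s2)
    (hw1 : |w1| ≤ |f1| / 2) (hw2 : lam * s2 ≤ |w2|) :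
    lam / 2 * (|f1| * s2) ≤ |f1 * w2 - w1 * f2| := by
  have h1 : |f1 * w2| - |w1 * f2| ≤ |f1 * w2 - w1 * f2| := abs_sub_abs_le_abs_sub _ _
  rw [abs_mul, abs_mul] at h1
  have h2 : |f1| * (lam * s2) ≤ |f1| * |w2| := mul_le_mul_of_nonneg_left hw2 (abs_nonneg _)
  have h3 : |w1| * |f2| ≤ (|f1| / 2) * (lam * s2) := by
    apply mul_le_mul hw1 (hf2.trans _) (abs_nonneg _) (by positivity)
    exact mul_le_mul_of_nonneg_right hκl hs2.le
  calc lam / 2 * (|f1| * s2) = |f1| * (lam * s2) - (|f1| / 2) * (lam * s2) := by ring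
    _ ≤ |f1| * |w2| - |w1| * |f2| := by linarith
    _ ≤ _ := h1

/-- Step 1 (classes): the number of different values of `(f1 y - x f2, f1 z - x f3)` is at most
`4 D / lam + 1`.

Proof. Put `X i = f1 * y i - x i * f2`, `Y i = f1 * z i - x i * f3` (integers). Choose a finset
`G ⊆ F` of representatives of the values `(X,Y)` (or apply `par2` to the image finset
`(F.image (fun i => (X i, Y i)))` with `x = Prod.fst`, `y = Prod.snd`); use `par2` with scales
`s1' = |f1| s2`, `s2' = |f1| s3`, `D' = 2 D`, `r = lam / 2`: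
* parallel: `(X i - X j) (Y k - Y l) - (Y i - Y j) (X k - X l) = f1 * det3 (a - b) (c - d) f`
  up to sign (`linear_combination f1 * hdet ...`);
* lower bound for different values of `(X,Y)`: let `n = round ((x i - x j : ℝ) / f1)` and
  `w = (x i - x j - n f1, y i - y j - n f2, z i - z j - n f3)`; then `|w.1| ≤ |f1| / 2`
  (`abs_sub_round`), `w` is not proportional to `f` because
  `f1 * w.2.1 - w.1 * f2 = X i - X j` and `f1 * w.2.2 - w.1 * f3 = Y i - Y j` are not both `0`;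
  so by `hnp` one of `lam s1 ≤ |w.1|` (impossible: `|w.1| ≤ κ s1 / 2 < lam s1`), `lam s2 ≤ |w.2.1|`,
  `lam s3 ≤ |w.2.2|`. In the second case
  `|X i - X j| ≥ |f1| |w.2.1| - |w.1| |f2| ≥ |f1| lam s2 - (|f1|/2) κ s2 ≥ (lam / 2) |f1| s2`;
  the third case is the same with `Y`, `s3`, `f3`;
* upper bound: `|X i - X j| ≤ |f1| D s2 + D s1 |f2| ≤ |f1| D s2 + D s1 κ s2 = 2 D |f1| s2`
  because `|f1| = κ s1`; same for `Y`. -/
theorem planar_classes {ι : Type*} (F : Finset ι) (x y z : ι → ℤ) (s1 s2 s3 : ℝ) (hs1 : 0 < s1)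
    (hs2 : 0 < s2) (hs3 : 0 < s3) (f1 f2 f3 : ℤ) (κ lam D : ℝ) (hκ : 0 < κ) (hlam : κ ≤ lam)
    (hD : 0 ≤ D) (hf1 : |(f1 : ℝ)| = κ * s1) (hf2 : |(f2 : ℝ)| ≤ κ * s2)
    (hf3 : |(f3 : ℝ)| ≤ κ * s3)
    (hdet : ∀ i ∈ F, ∀ j ∈ F, ∀ k ∈ F, ∀ l ∈ F,
      det3 (x i - x j, y i - y j, z i - z j) (x k - x l, y k - y l, z k - z l) (f1, f2, f3) = 0)
    (hD1 : ∀ i ∈ F, ∀ j ∈ F, SzLe s1 s2 s3 D (x i - x j, y i - y j, z i - z j))
    (hnp : ∀ i ∈ F, ∀ j ∈ F, ∀ n : ℤ,
      Parl (x i - x j - n * f1, y i - y j - n * f2, z i - z j - n * f3) (f1, f2, f3) ∨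
      SzGe s1 s2 s3 lam (x i - x j - n * f1, y i - y j - n * f2, z i - z j - n * f3)) :
    ((F.image fun i => (f1 * y i - x i * f2, f1 * z i - x i * f3)).card : ℝ) ≤ 4 * D / lam + 1 := by
  classical
  have hf10 : (0 : ℝ) < |(f1 : ℝ)| := by rw [hf1]; positivity
  have hf1r : (f1 : ℝ) ≠ 0 := abs_pos.1 hf10
  have hlam0 : 0 < lam := lt_of_lt_of_le hκ hlam
  have key := par2 (F.image fun i => (f1 * y i - x i * f2, f1 * z i - x i * f3))
    (fun q => q.1) (fun q => q.2) (|(f1 : ℝ)| * s2) (|(f1 : ℝ)| * s3) (2 * D) (lam / 2)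
    (by positivity) (by positivity) (by positivity) (by positivity) ?_ ?_ ?_
  · calc _ ≤ _ := key
      _ = 4 * D / lam + 1 := by
        field_simp
        ring
  · intro q1 h1 q2 h2 q3 h3 q4 h4
    obtain ⟨i, hi, rfl⟩ := Finset.mem_image.1 h1
    obtain ⟨j, hj, rfl⟩ := Finset.mem_image.1 h2
    obtain ⟨k, hk, rfl⟩ := Finset.mem_image.1 h3
    obtain ⟨l, hl, rfl⟩ := Finset.mem_image.1 h4
    have := hdet i hi j hj k hk l hl
    simp only [det3] at this
    linear_combination f1 * this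
  · intro q1 h1 q2 h2 h12
    obtain ⟨i, hi, rfl⟩ := Finset.mem_image.1 h1
    obtain ⟨j, hj, rfl⟩ := Finset.mem_image.1 h2
    set n : ℤ := round (((x i - x j : ℤ) : ℝ) / f1) with hn
    have hw : |((x i - x j - n * f1 : ℤ) : ℝ)| ≤ |(f1 : ℝ)| / 2 := by
      have e1 : |((x i - x j : ℤ) : ℝ) / f1 - n| ≤ 1 / 2 := abs_sub_round _
      have e2 : ((x i - x j - n * f1 : ℤ) : ℝ) = (((x i - x j : ℤ) : ℝ) / f1 - n) * f1 := by
        push_cast
        field_simp
      rw [e2, abs_mul]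
      calc _ ≤ 1 / 2 * |(f1 : ℝ)| := mul_le_mul_of_nonneg_right e1 (abs_nonneg _)
        _ = _ := by ring
    have x1 : ((f1 * y i - x i * f2 - (f1 * y j - x j * f2) : ℤ) : ℝ)
        = (f1 : ℝ) * ((y i - y j - n * f2 : ℤ) : ℝ) - ((x i - x j - n * f1 : ℤ) : ℝ) * f2 := by
      push_cast
      ring
    have x2 : ((f1 * z i - x i * f3 - (f1 * z j - x j * f3) : ℤ) : ℝ)
        = (f1 : ℝ) * ((z i - z j - n * f3 : ℤ) : ℝ) - ((x i - x j - n * f1 : ℤ) : ℝ) * f3 := by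
      push_cast
      ring
    rcases hnp i hi j hj n with hP | hS
    · exfalso
      apply h12
      obtain ⟨e1, e2, -⟩ := hP
      simp only at e1 e2
      have g1 : f1 * y i - x i * f2 = f1 * y j - x j * f2 := by linear_combination -e1
      have g2 : f1 * z i - x i * f3 = f1 * z j - x j * f3 := by linear_combination -e2
      rw [g1, g2]
    · rcases hS with hS | hS | hS
      · exfalso
        simp only at hS
        have e1 : κ * s1 ≤ lam * s1 := mul_le_mul_of_nonneg_right hlam hs1.le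
        have e2 : 0 < κ * s1 := by positivity
        have e3 := hS.trans hw
        rw [hf1] at e3
        linarith
      · left
        simp only at hS ⊢
        rw [x1]
        exact TA1_lower _ _ _ _ s1 s2 κ lam hs1 hs2 hlam hf1 hf2 hw hS
      · right
        simp only at hS ⊢
        rw [x2]
        exact TA1_lower _ _ _ _ s1 s3 κ lam hs1 hs3 hlam hf1 hf3 hw hS
  · intro q1 h1 q2 h2
    obtain ⟨i, hi, rfl⟩ := Finset.mem_image.1 h1
    obtain ⟨j, hj, rfl⟩ := Finset.mem_image.1 h2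
    obtain ⟨d1, d2, d3⟩ := hD1 i hi j hj
    simp only at d1 d2 d3 ⊢
    constructor
    · have x1 : ((f1 * y i - x i * f2 - (f1 * y j - x j * f2) : ℤ) : ℝ)
          = (f1 : ℝ) * ((y i - y j : ℤ) : ℝ) - ((x i - x j : ℤ) : ℝ) * f2 := by
        push_cast
        ring
      rw [x1]
      exact TA1_upper _ _ _ _ s1 s2 κ D hs1 hs2 hD hf1 hf2 d1 d2
    · have x2 : ((f1 * z i - x i * f3 - (f1 * z j - x j * f3) : ℤ) : ℝ)
          = (f1 : ℝ) * ((z i - z j : ℤ) : ℝ) - ((x i - x j : ℤ) : ℝ) * f3 := by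
        push_cast
        ring
      rw [x2]
      exact TA1_upper _ _ _ _ s1 s3 κ D hs1 hs3 hD hf1 hf3 d1 d3

/-- Step 2 (one class): the elements with the same value of `(f1 y - x f2, f1 z - x f3)` are at
most `D / κ + 1` (no injectivity is needed because different elements of the class have a difference
of size at least `κ` by `hpar`).

Proof. For two elements `i ≠ j` of `G` the difference is proportional to `f`
(`f1 (y i - y j) = (x i - x j) f2`, `f1 (z i - z j) = (x i - x j) f3`; the third relation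
`(y i - y j) f3 = (z i - z j) f2` after multiplication by `f1 ≠ 0`). So `hpar` gives `SzGe κ`, and in
each of the three cases `κ s1 ≤ |x i - x j|`: if `κ s2 ≤ |y i - y j|` then
`|f1| κ s2 ≤ |f1| |y i - y j| = |x i - x j| |f2| ≤ |x i - x j| κ s2`, so `|x i - x j| ≥ |f1| = κ s1`.
If `G` is empty the claim is trivial; otherwise let `i0` minimise `x` on `G` and use `pack1` with the
real numbers `x i`, `A = x i0`, length `D s1`, spacing `κ s1`. -/
theorem planar_class {ι : Type*} (G : Finset ι) (x y z : ι → ℤ) (s1 s2 s3 : ℝ) (hs1 : 0 < s1)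
    (hs2 : 0 < s2) (hs3 : 0 < s3) (f1 f2 f3 : ℤ) (κ D : ℝ) (hκ : 0 < κ)
    (hD : 0 ≤ D) (hf1 : |(f1 : ℝ)| = κ * s1) (hf2 : |(f2 : ℝ)| ≤ κ * s2)
    (hf3 : |(f3 : ℝ)| ≤ κ * s3)
    (hD1 : ∀ i ∈ G, ∀ j ∈ G, SzLe s1 s2 s3 D (x i - x j, y i - y j, z i - z j))
    (hpar : ∀ i ∈ G, ∀ j ∈ G, i ≠ j →
      Parl (x i - x j, y i - y j, z i - z j) (f1, f2, f3) →
      SzGe s1 s2 s3 κ (x i - x j, y i - y j, z i - z j))
    (hG : ∀ i ∈ G, ∀ j ∈ G, f1 * y i - x i * f2 = f1 * y j - x j * f2 ∧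
      f1 * z i - x i * f3 = f1 * z j - x j * f3) :
    (G.card : ℝ) ≤ D / κ + 1 := by
  classical
  have hf10 : (0 : ℝ) < |(f1 : ℝ)| := by rw [hf1]; positivity
  have hf1z : f1 ≠ 0 := by
    rintro rfl
    simp at hf10
  rcases G.eq_empty_or_nonempty with rfl | hne
  · simp only [Finset.card_empty, Nat.cast_zero]
    positivity
  obtain ⟨i0, hi0, hmin⟩ := Finset.exists_min_image G x hne
  have hsp : ∀ i ∈ G, ∀ j ∈ G, i ≠ j → κ * s1 ≤ |(x i : ℝ) - x j| := by
    intro i hi j hj hij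
    obtain ⟨e1, e2⟩ := hG i hi j hj
    have p1 : (x i - x j) * f2 = (y i - y j) * f1 := by linear_combination -e1
    have p2 : (x i - x j) * f3 = (z i - z j) * f1 := by linear_combination -e2
    have p3 : (y i - y j) * f3 = (z i - z j) * f2 := by
      apply mul_left_cancel₀ hf1z
      linear_combination f2 * p2 - f3 * p1
    have hS := hpar i hi j hj hij ⟨p1, p2, p3⟩
    have q1 : ((x i : ℝ) - x j) * f2 = ((y i : ℝ) - y j) * f1 := by exact_mod_cast p1
    have q2 : ((x i : ℝ) - x j) * f3 = ((z i : ℝ) - z j) * f1 := by exact_mod_cast p2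
    have aux : ∀ (b f s : ℝ), 0 < s → |f| ≤ κ * s → ((x i : ℝ) - x j) * f = b * f1 →
        κ * s ≤ |b| → κ * s1 ≤ |(x i : ℝ) - x j| := by
      intro b f s hs hf hb hκb
      have h1 : |(x i : ℝ) - x j| * |f| = |b| * |(f1 : ℝ)| := by
        rw [← abs_mul, ← abs_mul, hb]
      have h2 : (κ * s) * |(f1 : ℝ)| ≤ |(x i : ℝ) - x j| * (κ * s) := by
        calc (κ * s) * |(f1 : ℝ)| ≤ |b| * |(f1 : ℝ)| :=
              mul_le_mul_of_nonneg_right hκb (abs_nonneg _)
          _ = |(x i : ℝ) - x j| * |f| := h1.symm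
          _ ≤ |(x i : ℝ) - x j| * (κ * s) := mul_le_mul_of_nonneg_left hf (abs_nonneg _)
      have h3 : 0 < κ * s := by positivity
      rw [← hf1]
      refine le_of_mul_le_mul_right ?_ h3
      linarith
    rcases hS with hS | hS | hS
    · simp only at hS
      push_cast at hS
      exact hS
    · simp only at hS
      push_cast at hS
      exact aux _ _ _ hs2 hf2 q1 hS
    · simp only at hS
      push_cast at hS
      exact aux _ _ _ hs3 hf3 q2 hS
  have key := pack1 G (fun i => (x i : ℝ)) (x i0) (D * s1) (κ * s1) (by positivity)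
    (by positivity) (by
      intro i hi
      have h1 : x i0 ≤ x i := hmin i hi
      have h1' : (x i0 : ℝ) ≤ x i := by exact_mod_cast h1
      obtain ⟨d1, -, -⟩ := hD1 i hi i0 hi0
      simp only at d1
      push_cast at d1
      have h2 := (abs_le.1 d1).2
      exact ⟨h1', by linarith⟩) hsp
  calc (G.card : ℝ) ≤ _ := key
    _ = D / κ + 1 := by
      rw [mul_div_mul_right _ _ (ne_of_gt hs1)]

/-- `F.card ≤ (number of classes) * (size of a class)`: `Finset.card_le_mul_card_image` with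
`n = ⌊D / κ + 1⌋₊`, from `planar_classes` and `planar_class` (for the filter of one class). -/
theorem planar_aux {ι : Type*} (F : Finset ι) (x y z : ι → ℤ) (s1 s2 s3 : ℝ) (hs1 : 0 < s1)
    (hs2 : 0 < s2) (hs3 : 0 < s3) (f1 f2 f3 : ℤ) (κ lam D : ℝ) (hκ : 0 < κ) (hlam : κ ≤ lam)
    (hD : 0 ≤ D) (hf1 : |(f1 : ℝ)| = κ * s1) (hf2 : |(f2 : ℝ)| ≤ κ * s2)
    (hf3 : |(f3 : ℝ)| ≤ κ * s3)
    (hdet : ∀ i ∈ F, ∀ j ∈ F, ∀ k ∈ F, ∀ l ∈ F,
      det3 (x i - x j, y i - y j, z i - z j) (x k - x l, y k - y l, z k - z l) (f1, f2, f3) = 0)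
    (hD1 : ∀ i ∈ F, ∀ j ∈ F, SzLe s1 s2 s3 D (x i - x j, y i - y j, z i - z j))
    (hpar : ∀ i ∈ F, ∀ j ∈ F, i ≠ j →
      Parl (x i - x j, y i - y j, z i - z j) (f1, f2, f3) →
      SzGe s1 s2 s3 κ (x i - x j, y i - y j, z i - z j))
    (hnp : ∀ i ∈ F, ∀ j ∈ F, ∀ n : ℤ,
      Parl (x i - x j - n * f1, y i - y j - n * f2, z i - z j - n * f3) (f1, f2, f3) ∨
      SzGe s1 s2 s3 lam (x i - x j - n * f1, y i - y j - n * f2, z i - z j - n * f3)) :
    (F.card : ℝ) ≤ (4 * D / lam + 1) * (D / κ + 1) := by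
  classical
  set φ : ι → ℤ × ℤ := fun i => (f1 * y i - x i * f2, f1 * z i - x i * f3) with hφ
  have h1 := planar_classes F x y z s1 s2 s3 hs1 hs2 hs3 f1 f2 f3 κ lam D hκ hlam hD hf1 hf2 hf3
    hdet hD1 hnp
  have hB : 0 ≤ D / κ + 1 := by positivity
  have h2 : F.card ≤ ⌊D / κ + 1⌋₊ * (F.image φ).card := by
    apply Finset.card_le_mul_card_image
    intro q hq
    apply Nat.le_floor
    apply planar_class (F.filter fun i => φ i = q) x y z s1 s2 s3 hs1 hs2 hs3 f1 f2 f3 κ D hκ hD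
      hf1 hf2 hf3
    · intro i hi j hj
      exact hD1 i (Finset.mem_filter.1 hi).1 j (Finset.mem_filter.1 hj).1
    · intro i hi j hj hij hp
      exact hpar i (Finset.mem_filter.1 hi).1 j (Finset.mem_filter.1 hj).1 hij hp
    · intro i hi j hj
      have e1 := (Finset.mem_filter.1 hi).2
      have e2 := (Finset.mem_filter.1 hj).2
      have e3 : φ i = φ j := by rw [e1, e2]
      simp only [hφ, Prod.mk.injEq] at e3
      exact e3
  have h3 : (F.card : ℝ) ≤ (⌊D / κ + 1⌋₊ : ℝ) * ((F.image φ).card : ℝ) := by exact_mod_cast h2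
  have h4 : (⌊D / κ + 1⌋₊ : ℝ) ≤ D / κ + 1 := Nat.floor_le hB
  calc (F.card : ℝ) ≤ (⌊D / κ + 1⌋₊ : ℝ) * ((F.image φ).card : ℝ) := h3
    _ ≤ (D / κ + 1) * (4 * D / lam + 1) := mul_le_mul h4 h1 (Nat.cast_nonneg _) hB
    _ = _ := by ring

end Pool.Agent.H.MP_03bc95_nt
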