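import Pool.Agent.H.MP_03bc95_nt.TA1

open Finset

namespace Pool.Agent.H.MP_03bc95_nt

theorem TA2_sub (a b : ℤ × ℤ × ℤ) :
    a - b = (a.1 - b.1, a.2.1 - b.2.1, a.2.2 - b.2.2) := rfl

theorem TA2_comb (a b f : ℤ × ℤ × ℤ) (n : ℤ) :
    a - b - n • f = (a.1 - b.1 - n * f.1, a.2.1 - b.2.1 - n * f.2.1, a.2.2 - b.2.2 - n * f.2.2) :=
  rfl

/-- Packing in a planar family of lattice points. `f` has scaled norm exactly `κ` (`hfle`, `hfge`);
so some coordinate of `f` is exactly `κ` times its scale. If it is the first one this is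
`planar_aux` with `ι = ℤ × ℤ × ℤ`, `x = (·.1)`, `y = (·.2.1)`, `z = (·.2.2)`. If it is the second
one, use `planar_aux` with the coordinates in the order `(2,1,3)` (functions `(·.2.1)`, `(·.1)`,
`(·.2.2)`, scales `s2, s1, s3`): `det3` changes its sign, `Parl`, `SzLe`, `SzGe` are symmetric up to
the order of the conjuncts. If it is the third one, use the order `(3,2,1)`. -/
theorem planar_pack (F : Finset (ℤ × ℤ × ℤ)) (s1 s2 s3 : ℝ) (hs1 : 0 < s1)
    (hs2 : 0 < s2) (hs3 : 0 < s3) (f : ℤ × ℤ × ℤ) (κ lam D : ℝ) (hκ : 0 < κ) (hlam : κ ≤ lam)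
    (hD : 0 ≤ D) (hfle : SzLe s1 s2 s3 κ f) (hfge : SzGe s1 s2 s3 κ f)
    (hdet : ∀ a ∈ F, ∀ b ∈ F, ∀ c ∈ F, ∀ d ∈ F, det3 (a - b) (c - d) f = 0)
    (hD1 : ∀ a ∈ F, ∀ b ∈ F, SzLe s1 s2 s3 D (a - b))
    (hpar : ∀ a ∈ F, ∀ b ∈ F, a ≠ b → Parl (a - b) f → SzGe s1 s2 s3 κ (a - b))
    (hnp : ∀ a ∈ F, ∀ b ∈ F, ∀ n : ℤ,
      Parl (a - b - n • f) f ∨ SzGe s1 s2 s3 lam (a - b - n • f)) :
    (F.card : ℝ) ≤ (4 * D / lam + 1) * (D / κ + 1) := by
  obtain ⟨g1, g2, g3⟩ := hfle
  rcases hfge with hf | hf | hf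
  · -- first coordinate
    refine planar_aux F (fun a => a.1) (fun a => a.2.1) (fun a => a.2.2) s1 s2 s3 hs1 hs2 hs3
      f.1 f.2.1 f.2.2 κ lam D hκ hlam hD (le_antisymm g1 hf) g2 g3 ?_ ?_ ?_ ?_
    · intro i hi j hj k hk l hl
      have := hdet i hi j hj k hk l hl
      rw [TA2_sub, TA2_sub] at this
      exact this
    · intro i hi j hj
      have := hD1 i hi j hj
      rw [TA2_sub] at this
      exact this
    · intro i hi j hj hij hP
      have := hpar i hi j hj hij
      rw [TA2_sub] at this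
      exact this hP
    · intro i hi j hj n
      have := hnp i hi j hj n
      rw [TA2_comb] at this
      exact this
  · -- second coordinate
    refine planar_aux F (fun a => a.2.1) (fun a => a.1) (fun a => a.2.2) s2 s1 s3 hs2 hs1 hs3
      f.2.1 f.1 f.2.2 κ lam D hκ hlam hD (le_antisymm g2 hf) g1 g3 ?_ ?_ ?_ ?_
    · intro i hi j hj k hk l hl
      have := hdet i hi j hj k hk l hl
      rw [TA2_sub, TA2_sub] at this
      simp only [det3] at this ⊢
      linear_combination -this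
    · intro i hi j hj
      have := hD1 i hi j hj
      rw [TA2_sub] at this
      obtain ⟨e1, e2, e3⟩ := this
      exact ⟨e2, e1, e3⟩
    · intro i hi j hj hij hP
      have := hpar i hi j hj hij
      rw [TA2_sub] at this
      obtain ⟨e1, e2, e3⟩ := hP
      rcases this ⟨e1.symm, e3, e2⟩ with h | h | h
      · exact Or.inr (Or.inl h)
      · exact Or.inl h
      · exact Or.inr (Or.inr h)
    · intro i hi j hj n
      have := hnp i hi j hj n
      rw [TA2_comb] at this
      rcases this with ⟨e1, e2, e3⟩ | h | h | h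
      · exact Or.inl ⟨e1.symm, e3, e2⟩
      · exact Or.inr (Or.inr (Or.inl h))
      · exact Or.inr (Or.inl h)
      · exact Or.inr (Or.inr (Or.inr h))
  · -- third coordinate
    refine planar_aux F (fun a => a.2.2) (fun a => a.2.1) (fun a => a.1) s3 s2 s1 hs3 hs2 hs1
      f.2.2 f.2.1 f.1 κ lam D hκ hlam hD (le_antisymm g3 hf) g2 g1 ?_ ?_ ?_ ?_
    · intro i hi j hj k hk l hl
      have := hdet i hi j hj k hk l hl
      rw [TA2_sub, TA2_sub] at this
      simp only [det3] at this ⊢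
      linear_combination -this
    · intro i hi j hj
      have := hD1 i hi j hj
      rw [TA2_sub] at this
      obtain ⟨e1, e2, e3⟩ := this
      exact ⟨e3, e2, e1⟩
    · intro i hi j hj hij hP
      have := hpar i hi j hj hij
      rw [TA2_sub] at this
      obtain ⟨e1, e2, e3⟩ := hP
      rcases this ⟨e3.symm, e2.symm, e1.symm⟩ with h | h | h
      · exact Or.inr (Or.inr h)
      · exact Or.inr (Or.inl h)
      · exact Or.inl h
    · intro i hi j hj n
      have := hnp i hi j hj n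
      rw [TA2_comb] at this
      rcases this with ⟨e1, e2, e3⟩ | h | h | h
      · exact Or.inl ⟨e3.symm, e2.symm, e1.symm⟩
      · exact Or.inr (Or.inr (Or.inr h))
      · exact Or.inr (Or.inr (Or.inl h))
      · exact Or.inr (Or.inl h)

end Pool.Agent.H.MP_03bc95_nt
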