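import Pool.Agent.H.MP_03bc95_nt.TDef
import Pool.Agent.H.MP_03bc95_nt.La
import Pool.Agent.H.MP_03bc95_nt.Lb

open Finset

namespace Pool.Agent.H.MP_03bc95_nt

/-- The scaled norm. -/
noncomputable def TB1_N (h : ℝ) (f : ℤ × ℤ × ℤ) : ℝ :=
  max (|(f.1 : ℝ)| / h) (max (|(f.2.1 : ℝ)| / h ^ 2) (|(f.2.2 : ℝ)| / h))

theorem TB1_le {h : ℝ} (hh : 0 < h) {k : ℝ} {f : ℤ × ℤ × ℤ} (hN : TB1_N h f ≤ k) :
    SzLe h (h ^ 2) h k f := by
  unfold TB1_N at hN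
  have hh2 : 0 < h ^ 2 := by positivity
  obtain ⟨h1, h23⟩ := max_le_iff.1 hN
  obtain ⟨h2, h3⟩ := max_le_iff.1 h23
  exact ⟨(div_le_iff₀ hh).1 h1, (div_le_iff₀ hh2).1 h2, (div_le_iff₀ hh).1 h3⟩

theorem TB1_ge {h : ℝ} (hh : 0 < h) {k : ℝ} {f : ℤ × ℤ × ℤ} (hN : k ≤ TB1_N h f) :
    SzGe h (h ^ 2) h k f := by
  unfold TB1_N at hN
  have hh2 : 0 < h ^ 2 := by positivity
  rcases le_max_iff.1 hN with h1 | h23
  · exact Or.inl ((le_div_iff₀ hh).1 h1)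
  · rcases le_max_iff.1 h23 with h2 | h3
    · exact Or.inr (Or.inl ((le_div_iff₀ hh2).1 h2))
    · exact Or.inr (Or.inr ((le_div_iff₀ hh).1 h3))

theorem TB1_notmem {p : ℕ} {S : ℤ} {h : ℕ} {ρ : ZMod p} {f : ℤ × ℤ × ℤ} (hf : InLam p S ρ f)
    (h3 : f ∉ Lam3 p S h ρ) {κ : ℝ} (hκ : κ ≤ 3) : SzGe h ((h : ℝ) ^ 2) h κ f := by
  by_contra hcon
  apply h3
  unfold SzGe at hcon
  push Not at hcon
  obtain ⟨e1, e2, e3⟩ := hcon
  have hh : (0 : ℝ) ≤ h := Nat.cast_nonneg h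
  have hh2 : (0 : ℝ) ≤ (h : ℝ) ^ 2 := by positivity
  have k1 : κ * h ≤ 3 * h := mul_le_mul_of_nonneg_right hκ hh
  have k2 : κ * (h : ℝ) ^ 2 ≤ 3 * (h : ℝ) ^ 2 := mul_le_mul_of_nonneg_right hκ hh2
  rw [La.mem_Lam3]
  refine ⟨?_, ?_, ?_, hf⟩
  · have : |(f.1 : ℝ)| ≤ 3 * (h : ℝ) := by linarith
    exact_mod_cast this
  · have : |(f.2.1 : ℝ)| ≤ 3 * (h : ℝ) ^ 2 := by linarith
    exact_mod_cast this
  · have : |(f.2.2 : ℝ)| ≤ 3 * (h : ℝ) := by linarith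
    exact_mod_cast this

theorem TB1_h {p : ℕ} {S : ℤ} {h m : ℕ} (H : Hyp p S h m) :
    (1 : ℤ) ≤ h ∧ (h : ℤ) ^ 2 ≤ (h : ℤ) ^ 3 ∧ 1 ≤ (h : ℤ) ^ 3 ∧ 100000 * (h : ℤ) ^ 3 ≤ p := by
  have h1 : (1 : ℤ) ≤ h := by exact_mod_cast H.hh
  refine ⟨h1, pow_le_pow_right₀ h1 (by norm_num), one_le_pow₀ h1, by exact_mod_cast H.hp⟩

/-- Integer form of `SzLe` at `k = 1`. -/
theorem TB1_int {h : ℕ} {w : ℤ × ℤ × ℤ} (hw : SzLe h ((h : ℝ) ^ 2) h 1 w) :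
    |w.1| ≤ h ∧ |w.2.1| ≤ (h : ℤ) ^ 2 ∧ |w.2.2| ≤ h := by
  obtain ⟨e1, e2, e3⟩ := hw
  rw [one_mul] at e1 e2 e3
  exact ⟨by exact_mod_cast e1, by exact_mod_cast e2, by exact_mod_cast e3⟩

/-- Minimal scaled norm of the lattice vectors with a property `P` (`P = (·.1 ≠ 0)` or
`P = (·.2.2 ≠ 0)` later), capped at `3`.

Proof. Let `U` be the finset of the elements of `Lam3 p S h ρ` with `P`. (Membership:
`La.mem_Lam3`, a lattice vector is in `Lam3` iff its scaled norm is `≤ 3`.) If `U` is empty take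
`κ = 3`: a lattice vector with `P` is not in `Lam3`, so `SzGe 3`; the last claim: `κ ≤ 1` is false.
If `U` is not empty let `f0` minimise
`N f = max (|f.1| / h) (max (|f.2.1| / h^2) (|f.2.2| / h))` on `U` (`Finset.exists_min_image`) and
`κ = N f0 ≤ 3`. `κ > 0` because `f0 ≠ 0` by `hP`. For a lattice vector `f` with `P`: in `U` it has
`N f ≥ κ`, so `SzGe κ`; outside `Lam3` some coordinate is `> 3` times the scale, so `SzGe κ`. -/
theorem exists_kap {p : ℕ} [Fact p.Prime] {S : ℤ} {h m : ℕ} (H : Hyp p S h m) (ρ : ZMod p)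
    (P : ℤ × ℤ × ℤ → Prop) (hP : ∀ f : ℤ × ℤ × ℤ, P f → f ≠ 0) :
    ∃ κ : ℝ, 0 < κ ∧ κ ≤ 3 ∧
      (∀ f : ℤ × ℤ × ℤ, InLam p S ρ f → P f → SzGe h ((h : ℝ) ^ 2) h κ f) ∧
      (κ ≤ 1 → ∃ f : ℤ × ℤ × ℤ, InLam p S ρ f ∧ P f ∧ SzLe h ((h : ℝ) ^ 2) h κ f) := by
  classical
  have hh : (0 : ℝ) < h := by
    have : 0 < h := H.hh
    exact_mod_cast this
  have hh2 : (0 : ℝ) < (h : ℝ) ^ 2 := by positivity
  rcases ((Lam3 p S h ρ).filter P).eq_empty_or_nonempty with hU | hU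
  · refine ⟨3, by norm_num, le_rfl, ?_, fun h1 => absurd h1 (by norm_num)⟩
    intro f hf hPf
    apply TB1_notmem hf _ le_rfl
    intro hmem
    have : f ∈ (Lam3 p S h ρ).filter P := Finset.mem_filter.2 ⟨hmem, hPf⟩
    rw [hU] at this
    exact absurd this (Finset.notMem_empty _)
  · obtain ⟨f0, hf0, hmin⟩ := Finset.exists_min_image _ (TB1_N (h : ℝ)) hU
    obtain ⟨hf0m, hf0P⟩ := Finset.mem_filter.1 hf0
    have hpos : 0 < TB1_N (h : ℝ) f0 := by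
      by_contra hcon
      push Not at hcon
      obtain ⟨e1, e2, e3⟩ := TB1_le hh hcon
      rw [zero_mul] at e1 e2 e3
      apply hP f0 hf0P
      have g1 : f0.1 = 0 := by exact_mod_cast abs_nonpos_iff.1 e1
      have g2 : f0.2.1 = 0 := by exact_mod_cast abs_nonpos_iff.1 e2
      have g3 : f0.2.2 = 0 := by exact_mod_cast abs_nonpos_iff.1 e3
      exact Prod.ext g1 (Prod.ext g2 g3)
    have h3 : TB1_N (h : ℝ) f0 ≤ 3 := by
      obtain ⟨b1, b2, b3⟩ := Lb.bounds hf0m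
      unfold TB1_N
      refine max_le ((div_le_iff₀ hh).2 b1) (max_le ((div_le_iff₀ hh2).2 b2)
        ((div_le_iff₀ hh).2 b3))
    refine ⟨TB1_N (h : ℝ) f0, hpos, h3, ?_, ?_⟩
    · intro f hf hPf
      by_cases hm : f ∈ Lam3 p S h ρ
      · exact TB1_ge hh (hmin f (Finset.mem_filter.2 ⟨hm, hPf⟩))
      · exact TB1_notmem hf hm h3
    · intro _
      exact ⟨f0, (La.mem_Lam3.1 hf0m).2.2.2, hf0P, TB1_le hh le_rfl⟩

/-- The lattice is a group. -/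
theorem inLam_comb {p : ℕ} {S : ℤ} {ρ : ZMod p} {a b f : ℤ × ℤ × ℤ} (ha : InLam p S ρ a)
    (hb : InLam p S ρ b) (hf : InLam p S ρ f) (n : ℤ) : InLam p S ρ (a - b - n • f) := by
  have e : a - b - n • f = (a.1 - b.1 - n * f.1, a.2.1 - b.2.1 - n * f.2.1,
      a.2.2 - b.2.2 - n * f.2.2) := rfl
  rw [e]
  unfold InLam at ha hb hf ⊢
  push_cast at ha hb hf ⊢
  linear_combination ha - hb - (n : ZMod p) * hf

/-- `LBG` gives `LBR`. For `(a,b) ≠ 0` with `a = ρ b`: if `b ≠ 0` use `LBG` for `(0,a,b)` (its first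
alternative `ν h ≤ |0|` is false because `ν > 0`, `h ≥ 1`). If `b = 0` then `a = 0` modulo `p`,
`a ≠ 0`, so `|a| ≥ p ≥ 100000 h^3 ≥ ν h^2`. -/
theorem lbr_of_lbg {p : ℕ} [Fact p.Prime] {S : ℤ} {h m : ℕ} (H : Hyp p S h m) (ρ : ZMod p)
    (ν : ℝ) (hν : 0 < ν) (hν1 : ν ≤ 1) (hG : LBG p S h ρ ν) : LBR p h ρ ν := by
  obtain ⟨h1, h2, h3, h4⟩ := TB1_h H
  have hh : (0 : ℝ) < h := by
    have : 0 < h := H.hh
    exact_mod_cast this
  intro a b hab hρ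
  by_cases hb : b = 0
  · left
    have ha : a ≠ 0 := fun h => hab ⟨h, hb⟩
    have ha0 : (a : ZMod p) = 0 := by rw [hρ, hb]; simp
    have hle : (p : ℤ) ≤ |a| := by
      by_contra hcon
      push Not at hcon
      exact ha (La.eq_zero_of_cast a ha0 hcon)
    have hle2 : (h : ℤ) ^ 2 ≤ |a| := by linarith
    have hle3 : (h : ℝ) ^ 2 ≤ |(a : ℝ)| := by exact_mod_cast hle2
    have hle4 : ν * (h : ℝ) ^ 2 ≤ 1 * (h : ℝ) ^ 2 :=
      mul_le_mul_of_nonneg_right hν1 (by positivity)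
    linarith
  · have hl : InLam p S ρ (0, a, b) := by
      unfold InLam
      push_cast
      rw [zero_mul, zero_add]
      exact hρ
    rcases hG _ hl hb with h' | h' | h'
    · exfalso
      simp only [Int.cast_zero, abs_zero] at h'
      have : 0 < ν * h := by positivity
      linarith
    · exact Or.inl h'
    · exact Or.inr h'

/-- `LBG` at `1 / h` always holds: `|g| ≥ 1`. -/
theorem lbg_one_div {p : ℕ} [Fact p.Prime] {S : ℤ} {h m : ℕ} (H : Hyp p S h m) (ρ : ZMod p) :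
    LBG p S h ρ (1 / (h : ℝ)) := by
  have hh : (0 : ℝ) < h := by
    have : 0 < h := H.hh
    exact_mod_cast this
  intro f _ hg
  right
  right
  rw [one_div, inv_mul_cancel₀ (ne_of_gt hh)]
  have : 1 ≤ |f.2.2| := Int.one_le_abs hg
  exact_mod_cast this

/-- Two lattice vectors of scaled norm `≤ 1` with `g = 0` are proportional: `u S + v = 0` for both,
so `u1 v2 - u2 v1 = 0` modulo `p` (it is `u1 (v2 + u2 S) - u2 (v1 + u1 S)`), and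
`|u1 v2 - u2 v1| ≤ 2 h^3 < p`, so it is `0` (`La.eq_zero_of_cast`). The other relations of `Parl` are
`0 = 0`. -/
theorem parl_of_g {p : ℕ} [Fact p.Prime] {S : ℤ} {h m : ℕ} (H : Hyp p S h m) (ρ : ZMod p)
    (w f : ℤ × ℤ × ℤ) (hw : InLam p S ρ w) (hf : InLam p S ρ f) (hwg : w.2.2 = 0)
    (hfg : f.2.2 = 0) (hw1 : SzLe h ((h : ℝ) ^ 2) h 1 w) (hf1 : SzLe h ((h : ℝ) ^ 2) h 1 f) :
    Parl w f := by
  obtain ⟨h1, h2, h3, h4⟩ := TB1_h H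
  obtain ⟨a1, a2, a3⟩ := TB1_int hw1
  obtain ⟨b1, b2, b3⟩ := TB1_int hf1
  have hz := La.eq_zero_of_cast (p := p) (w.1 * f.2.1 - w.2.1 * f.1) (by
    unfold InLam at hw hf
    rw [hwg] at hw
    rw [hfg] at hf
    push_cast at hw hf ⊢
    linear_combination (w.1 : ZMod p) * hf - (f.1 : ZMod p) * hw) (by
    have := La.abs_det_le w.1 w.2.1 f.1 f.2.1 _ _ a1 a2 b1 b2
    have e : 2 * ((h : ℤ) * (h : ℤ) ^ 2) = 2 * (h : ℤ) ^ 3 := by ring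
    rw [e] at this
    linarith)
  refine ⟨by linarith, ?_, ?_⟩
  · rw [hwg, hfg, mul_zero, zero_mul]
  · rw [hwg, hfg, mul_zero, zero_mul]

/-- Two lattice vectors of scaled norm `≤ 1` with `u = 0` are proportional: `v = ρ g` for both, so
`v1 g2 - v2 g1 = 0` modulo `p`, of absolute value `≤ 2 h^3 < p`. -/
theorem parl_of_u {p : ℕ} [Fact p.Prime] {S : ℤ} {h m : ℕ} (H : Hyp p S h m) (ρ : ZMod p)
    (w f : ℤ × ℤ × ℤ) (hw : InLam p S ρ w) (hf : InLam p S ρ f) (hwu : w.1 = 0)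
    (hfu : f.1 = 0) (hw1 : SzLe h ((h : ℝ) ^ 2) h 1 w) (hf1 : SzLe h ((h : ℝ) ^ 2) h 1 f) :
    Parl w f := by
  obtain ⟨h1, h2, h3, h4⟩ := TB1_h H
  obtain ⟨a1, a2, a3⟩ := TB1_int hw1
  obtain ⟨b1, b2, b3⟩ := TB1_int hf1
  have hz := La.eq_zero_of_cast (p := p) (w.2.2 * f.2.1 - w.2.1 * f.2.2) (by
    unfold InLam at hw hf
    rw [hwu] at hw
    rw [hfu] at hf
    push_cast at hw hf ⊢
    linear_combination (w.2.2 : ZMod p) * hf - (f.2.2 : ZMod p) * hw) (by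
    have := La.abs_det_le w.2.2 w.2.1 f.2.2 f.2.1 _ _ a3 a2 b3 b2
    have e : 2 * ((h : ℤ) * (h : ℤ) ^ 2) = 2 * (h : ℤ) ^ 3 := by ring
    rw [e] at this
    linarith)
  refine ⟨?_, ?_, by linarith⟩
  · rw [hwu, hfu, mul_zero, zero_mul]
  · rw [hwu, hfu, mul_zero, zero_mul]

/-- A lattice vector of scaled norm `≤ 1` with `u = g = 0` is `0` (`|v| ≤ h^2 < p`). -/
theorem eq_zero_of_ug {p : ℕ} [Fact p.Prime] {S : ℤ} {h m : ℕ} (H : Hyp p S h m) (ρ : ZMod p)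
    (w : ℤ × ℤ × ℤ) (hw : InLam p S ρ w) (hwu : w.1 = 0) (hwg : w.2.2 = 0)
    (hw1 : SzLe h ((h : ℝ) ^ 2) h 1 w) : w = 0 := by
  obtain ⟨h1, h2, h3, h4⟩ := TB1_h H
  obtain ⟨a1, a2, a3⟩ := TB1_int hw1
  have hz := La.eq_zero_of_cast (p := p) w.2.1 (by
    unfold InLam at hw
    rw [hwu, hwg] at hw
    push_cast at hw
    linear_combination hw) (by linarith)
  exact Prod.ext hwu (Prod.ext hz hwg)

end Pool.Agent.H.MP_03bc95_nt
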