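import Pool.Agent.H.MP_03bc95_nt.TA2
import Pool.Agent.H.MP_03bc95_nt.TB1
import Pool.Agent.H.MP_03bc95_nt.L2

open Finset

namespace Pool.Agent.H.MP_03bc95_nt

/-- Not of size at least `lam`: of size at most `c` for all `c ≥ lam`. -/
theorem TB2_small {h : ℝ} (hh : 0 < h) {lam c : ℝ} (hlc : lam ≤ c) {w : ℤ × ℤ × ℤ}
    (hw : ¬ SzGe h (h ^ 2) h lam w) : SzLe h (h ^ 2) h c w := by
  unfold SzGe at hw
  push Not at hw
  obtain ⟨h1, h2, h3⟩ := hw
  have e1 : lam * h ≤ c * h := mul_le_mul_of_nonneg_right hlc hh.le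
  have e2 : lam * h ^ 2 ≤ c * h ^ 2 := mul_le_mul_of_nonneg_right hlc (by positivity)
  exact ⟨by linarith, by linarith, by linarith⟩

/-- Comparison of the sizes. -/
theorem TB2_le {h : ℝ} (hh : 0 < h) {a b : ℝ} {w : ℤ × ℤ × ℤ}
    (h1 : SzGe h (h ^ 2) h a w) (h2 : SzLe h (h ^ 2) h b w) : a ≤ b := by
  obtain ⟨e1, e2, e3⟩ := h2
  have hh2 : 0 < h ^ 2 := by positivity
  rcases h1 with h1 | h1 | h1
  · exact le_of_mul_le_mul_right (h1.trans e1) hh
  · exact le_of_mul_le_mul_right (h1.trans e2) hh2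
  · exact le_of_mul_le_mul_right (h1.trans e3) hh

theorem TB2_lt {h : ℝ} (hh : 0 < h) {a b : ℝ} {w : ℤ × ℤ × ℤ}
    (h1 : SzGe h (h ^ 2) h a w) (h2 : ¬ SzGe h (h ^ 2) h b w) : a < b := by
  by_contra hcon
  push Not at hcon
  apply h2
  have e1 : b * h ≤ a * h := mul_le_mul_of_nonneg_right hcon hh.le
  have e2 : b * h ^ 2 ≤ a * h ^ 2 := mul_le_mul_of_nonneg_right hcon (by positivity)
  rcases h1 with h1 | h1 | h1
  · exact Or.inl (e1.trans h1)
  · exact Or.inr (Or.inl (e2.trans h1))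
  · exact Or.inr (Or.inr (e1.trans h1))

theorem TB2_mono {h : ℝ} (hh : 0 < h) {a b : ℝ} (hab : a ≤ b) {w : ℤ × ℤ × ℤ}
    (h1 : SzLe h (h ^ 2) h a w) : SzLe h (h ^ 2) h b w := by
  obtain ⟨h1, h2, h3⟩ := h1
  have e1 : a * h ≤ b * h := mul_le_mul_of_nonneg_right hab hh.le
  have e2 : a * h ^ 2 ≤ b * h ^ 2 := mul_le_mul_of_nonneg_right hab (by positivity)
  exact ⟨by linarith, by linarith, by linarith⟩

/-- A lattice vector of scaled norm at most one is in `Lam3`. -/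
theorem TB2_mem {p : ℕ} {S : ℤ} {h : ℕ} {ρ : ZMod p} {f : ℤ × ℤ × ℤ} (hf : InLam p S ρ f)
    (h1 : SzLe h ((h : ℝ) ^ 2) h 1 f) : f ∈ Lam3 p S h ρ := by
  obtain ⟨e1, e2, e3⟩ := h1
  rw [La.mem_Lam3]
  have hh : (0 : ℝ) ≤ h := Nat.cast_nonneg h
  have hh2 : (0 : ℝ) ≤ (h : ℝ) ^ 2 := by positivity
  refine ⟨?_, ?_, ?_, hf⟩
  · have : |(f.1 : ℝ)| ≤ 3 * (h : ℝ) := by linarith
    exact_mod_cast this
  · have : |(f.2.1 : ℝ)| ≤ 3 * (h : ℝ) ^ 2 := by linarith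
    exact_mod_cast this
  · have : |(f.2.2 : ℝ)| ≤ 3 * (h : ℝ) := by linarith
    exact_mod_cast this

theorem TB2_inLam {p : ℕ} {S : ℤ} {h : ℕ} {ρ : ZMod p} {f : ℤ × ℤ × ℤ}
    (hf : f ∈ Lam3 p S h ρ) : InLam p S ρ f := (La.mem_Lam3.1 hf).2.2.2

theorem TB2_hpos {p : ℕ} {S : ℤ} {h m : ℕ} (H : Hyp p S h m) : (0 : ℝ) < h := by
  have : 0 < h := H.hh
  exact_mod_cast this

/-- Multilinearity of the determinant. -/
theorem TB2_det (a b c d f : ℤ × ℤ × ℤ) :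
    det3 (a - b) (c - d) f = det3 a c f - det3 a d f - det3 b c f + det3 b d f := by
  simp only [det3, Prod.fst_sub, Prod.snd_sub]
  ring

/-- The packing bound for `Lam3` in the planar case, with a vector `f` of exact scaled norm
`κ ≤ lam ≤ 1`. This is `planar_pack` for `F = Lam3`, scales `(h, h^2, h)`, `D = 6`:
`hdet` by multilinearity of `det3` (`det3 (a-b) (c-d) f = det3 a c f - det3 a d f - det3 b c f +
det3 b d f`, `f ∈ Lam3` because its scaled norm is `≤ 1`); `hD1`: differences of elements of `Lam3`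
(`Lb.bounds`) have scaled norm `≤ 6`. The result `(24 / lam + 1) (6 / κ + 1) ≤ (25 / lam) (7 / κ)`
since `κ ≤ 1`, `lam ≤ 1`. -/
theorem lam_planar {p : ℕ} [Fact p.Prime] {S : ℤ} {h m : ℕ} (H : Hyp p S h m) (ρ : ZMod p)
    (hpl : ∀ a ∈ Lam3 p S h ρ, ∀ b ∈ Lam3 p S h ρ, ∀ c ∈ Lam3 p S h ρ, det3 a b c = 0)
    (f : ℤ × ℤ × ℤ) (hf : InLam p S ρ f) (κ lam : ℝ) (hκ : 0 < κ) (hκl : κ ≤ lam) (hlam : lam ≤ 1)
    (hfle : SzLe h ((h : ℝ) ^ 2) h κ f) (hfge : SzGe h ((h : ℝ) ^ 2) h κ f)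
    (hpar : ∀ a ∈ Lam3 p S h ρ, ∀ b ∈ Lam3 p S h ρ, a ≠ b → Parl (a - b) f →
      SzGe h ((h : ℝ) ^ 2) h κ (a - b))
    (hnp : ∀ a ∈ Lam3 p S h ρ, ∀ b ∈ Lam3 p S h ρ, ∀ n : ℤ,
      Parl (a - b - n • f) f ∨ SzGe h ((h : ℝ) ^ 2) h lam (a - b - n • f)) :
    ((Lam3 p S h ρ).card : ℝ) ≤ 175 / (κ * lam) := by
  have hh := TB2_hpos H
  have hh2 : (0 : ℝ) < (h : ℝ) ^ 2 := by positivity
  have hf3 : f ∈ Lam3 p S h ρ := TB2_mem hf (TB2_mono hh (hκl.trans hlam) hfle)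
  have key := planar_pack (Lam3 p S h ρ) h ((h : ℝ) ^ 2) h hh hh2 hh f κ lam 6 hκ hκl
    (by norm_num) hfle hfge
    (by
      intro a ha b hb c hc d hd
      rw [TB2_det, hpl a ha c hc f hf3, hpl a ha d hd f hf3, hpl b hb c hc f hf3,
        hpl b hb d hd f hf3]
      norm_num)
    (by
      intro a ha b hb
      obtain ⟨a1, a2, a3⟩ := Lb.bounds ha
      obtain ⟨b1, b2, b3⟩ := Lb.bounds hb
      refine ⟨?_, ?_, ?_⟩
      · rw [Prod.fst_sub]
        push_cast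
        calc |(a.1 : ℝ) - b.1| ≤ |(a.1 : ℝ)| + |(b.1 : ℝ)| := abs_sub _ _
          _ ≤ 6 * h := by linarith
      · rw [Prod.snd_sub, Prod.fst_sub]
        push_cast
        calc |(a.2.1 : ℝ) - b.2.1| ≤ |(a.2.1 : ℝ)| + |(b.2.1 : ℝ)| := abs_sub _ _
          _ ≤ 6 * (h : ℝ) ^ 2 := by linarith
      · rw [Prod.snd_sub, Prod.snd_sub]
        push_cast
        calc |(a.2.2 : ℝ) - b.2.2| ≤ |(a.2.2 : ℝ)| + |(b.2.2 : ℝ)| := abs_sub _ _
          _ ≤ 6 * h := by linarith)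
    hpar hnp
  have hlam0 : 0 < lam := lt_of_lt_of_le hκ hκl
  have e1 : 4 * 6 / lam + 1 ≤ 25 / lam := by
    rw [div_add_one (ne_of_gt hlam0)]
    apply div_le_div_of_nonneg_right _ hlam0.le
    linarith
  have e2 : 6 / κ + 1 ≤ 7 / κ := by
    rw [div_add_one (ne_of_gt hκ)]
    apply div_le_div_of_nonneg_right _ hκ.le
    linarith
  have e3 : 0 ≤ 6 / κ + 1 := by positivity
  calc ((Lam3 p S h ρ).card : ℝ) ≤ (4 * 6 / lam + 1) * (6 / κ + 1) := key
    _ ≤ (25 / lam) * (7 / κ) := mul_le_mul e1 e2 e3 (by positivity)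
    _ = 175 / (κ * lam) := by
        field_simp
        norm_num

/-- Case 1: no lattice vector of scaled norm `≤ 1` with `u ≠ 0` or `g ≠ 0`.
Then `LBR p h ρ 1`: for `(a,b) ≠ 0` with `a = ρ b`, if `|a| < h^2` and `|b| < h` then `(0,a,b)` is a
lattice vector of norm `≤ 1`, so `b = 0`, and then `a = 0` modulo `p`, `|a| < h^2 < p`, so `a = 0`.
`cells3` with `k = κ = 1`: `L ≤ 7^3 * 2 = 686`; `sol_le_two_lam`: `#Sol ≤ 1372 ≤ 1000 m`
(`two_le_of_hyp H : 2 ≤ m`). -/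
theorem planar_case1 {p : ℕ} [Fact p.Prime] {S : ℤ} {h m : ℕ} (H : Hyp p S h m) (ρ : ZMod p)
    (hu : ∀ f : ℤ × ℤ × ℤ, InLam p S ρ f → SzLe h ((h : ℝ) ^ 2) h 1 f → f.1 = 0)
    (hg : ∀ f : ℤ × ℤ × ℤ, InLam p S ρ f → SzLe h ((h : ℝ) ^ 2) h 1 f → f.2.2 = 0) :
    ((Sol p S h ρ).card : ℝ) ≤ 1000 * m := by
  have hh := TB2_hpos H
  have hh2 : (0 : ℝ) < (h : ℝ) ^ 2 := by positivity
  have hR : LBR p h ρ 1 := by
    intro a b hab hρ
    by_contra hcon
    push Not at hcon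
    obtain ⟨c1, c2⟩ := hcon
    have hl : InLam p S ρ (0, a, b) := by
      unfold InLam
      push_cast
      rw [zero_mul, zero_add]
      exact hρ
    have hsz : SzLe h ((h : ℝ) ^ 2) h 1 (0, a, b) := by
      refine ⟨?_, c1.le, c2.le⟩
      simp only [Int.cast_zero, abs_zero]
      positivity
    have hb0 : b = 0 := hg _ hl hsz
    have h0 := eq_zero_of_ug H ρ (0, a, b) hl rfl hb0 hsz
    have ha0 : a = 0 := congrArg (fun w : ℤ × ℤ × ℤ => w.2.1) h0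
    exact hab ⟨ha0, hb0⟩
  have key := cells3 H ρ 1 1 one_pos one_pos le_rfl hR
    (fun f hf h1 h2 h3 => hu f hf ⟨h1, h2, h3⟩)
  have h2 := sol_le_two_lam H ρ
  have h3 : ((Sol p S h ρ).card : ℝ) ≤ 2 * ((Lam3 p S h ρ).card : ℝ) := by exact_mod_cast h2
  have h4 : (2 : ℝ) ≤ m := by exact_mod_cast two_le_of_hyp H
  have k2 : ((Lam3 p S h ρ).card : ℝ) ≤ 686 := by
    refine key.trans ?_
    norm_num
  linarith

/-- Case 2: `f` has `u ≠ 0` and the minimal scaled norm `κ ≤ 1` among the vectors with `u ≠ 0`, and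
`κ ≤ κg`, where all lattice vectors with `g ≠ 0` have scaled norm at least `κg`; `ν ≤ κg`.
`lam_planar` with `lam = min κg 1`:
* `hpar`: `a ≠ b`, `a - b` proportional to `f`, `f.1 ≠ 0`, so `(a - b).1 ≠ 0` (otherwise the
  relations of `Parl` give `a - b = 0`); `hκmin` gives `SzGe κ`.
* `hnp`: let `w = a - b - n • f` (in the lattice, `inLam_comb`) and suppose `¬ SzGe lam w`. Then all
  coordinates are `<` `lam` times the scale, in particular `SzLe 1 w`, and `¬ SzGe κg w`, so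
  `w.2.2 = 0` by `hκg`. If `w.1 = 0` then `w = 0` (`eq_zero_of_ug`) and `Parl` is trivial. If
  `w.1 ≠ 0` then `SzGe κ w` by `hκmin`, so `κ < lam ≤ κg` (all coordinates are `< lam` times the
  scale), hence `f.2.2 = 0`: otherwise `SzGe κg f` and `SzLe κ f` give `κg ≤ κ`. Then `parl_of_g`.
So `L ≤ 175 / (κ lam)`, `1 / lam ≤ 1 / ν` (`ν ≤ κg`, `ν ≤ 1`), and `lemma1` with `f`, `κ`:
`#Sol ≤ 2 m κ L + #Triv ≤ 350 m / lam + #Triv`. -/
theorem planar_case2 {p : ℕ} [Fact p.Prime] {S : ℤ} {h m : ℕ} (H : Hyp p S h m) (ρ : ZMod p)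
    (hρ : ρ ≠ 0)
    (hpl : ∀ a ∈ Lam3 p S h ρ, ∀ b ∈ Lam3 p S h ρ, ∀ c ∈ Lam3 p S h ρ, det3 a b c = 0)
    (ν κ κg : ℝ) (hν : 0 < ν) (hν1 : ν ≤ 1) (hκ : 0 < κ) (hκ1 : κ ≤ 1) (hκκ : κ ≤ κg)
    (hνκ : ν ≤ κg)
    (hκmin : ∀ f : ℤ × ℤ × ℤ, InLam p S ρ f → f.1 ≠ 0 → SzGe h ((h : ℝ) ^ 2) h κ f)
    (hκg : ∀ f : ℤ × ℤ × ℤ, InLam p S ρ f → f.2.2 ≠ 0 → SzGe h ((h : ℝ) ^ 2) h κg f)
    (f : ℤ × ℤ × ℤ) (hf : InLam p S ρ f) (hfu : f.1 ≠ 0)
    (hfle : SzLe h ((h : ℝ) ^ 2) h κ f) :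
    ((Sol p S h ρ).card : ℝ) ≤ 1000 * m / ν + (Triv p S h ρ).card := by
  have hh := TB2_hpos H
  have hl0 : 0 < min κg 1 := lt_min (by linarith) one_pos
  have hfg : SzGe h ((h : ℝ) ^ 2) h κ f := hκmin f hf hfu
  have hL := lam_planar H ρ hpl f hf κ (min κg 1) hκ (le_min hκκ hκ1) (min_le_right _ _) hfle hfg
    (by
      intro a ha b hb hab hpar
      refine hκmin _ ?_ ?_
      · have := inLam_comb (TB2_inLam ha) (TB2_inLam hb) hf 0
        rwa [zero_smul, sub_zero] at this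
      · intro h0
        obtain ⟨e1, e2, e3⟩ := hpar
        rw [h0, zero_mul] at e1 e2
        have f1 : (a - b).2.1 = 0 := by
          rcases mul_eq_zero.1 e1.symm with h | h
          · exact h
          · exact absurd h hfu
        have f2 : (a - b).2.2 = 0 := by
          rcases mul_eq_zero.1 e2.symm with h | h
          · exact h
          · exact absurd h hfu
        apply hab
        have : a - b = 0 := Prod.ext h0 (Prod.ext f1 f2)
        exact sub_eq_zero.1 this)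
    (by
      intro a ha b hb n
      by_cases hw : SzGe h ((h : ℝ) ^ 2) h (min κg 1) (a - b - n • f)
      · exact Or.inr hw
      left
      have hwl : InLam p S ρ (a - b - n • f) := inLam_comb (TB2_inLam ha) (TB2_inLam hb) hf n
      set w := a - b - n • f with hwdef
      have hw1 : SzLe h ((h : ℝ) ^ 2) h 1 w := TB2_small hh (min_le_right _ _) hw
      have hwg : w.2.2 = 0 := by
        by_contra hne
        have := TB2_lt hh (hκg w hwl hne) hw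
        exact absurd this (not_lt.2 (min_le_left _ _))
      by_cases hwu : w.1 = 0
      · have := eq_zero_of_ug H ρ w hwl hwu hwg hw1
        rw [this]
        exact ⟨by simp, by simp, by simp⟩
      · have h1 : κ < min κg 1 := TB2_lt hh (hκmin w hwl hwu) hw
        have hfg0 : f.2.2 = 0 := by
          by_contra hne
          have h2 := TB2_le hh (hκg f hf hne) hfle
          have h3 := lt_of_lt_of_le h1 (min_le_left _ _)
          linarith
        exact parl_of_g H ρ w f hwl hf hwg hfg0 hw1 (TB2_mono hh hκ1 hfle))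
  obtain ⟨f1, f2, f3⟩ := hfle
  have hS := lemma1 H ρ hρ f κ hκ hκ1 hf hfu f1 f2 f3
  have hm : (0 : ℝ) ≤ m := Nat.cast_nonneg m
  have e1 : 2 * (m : ℝ) * κ * (Lam3 p S h ρ).card ≤ 2 * m * κ * (175 / (κ * min κg 1)) :=
    mul_le_mul_of_nonneg_left hL (by positivity)
  have e2 : 2 * (m : ℝ) * κ * (175 / (κ * min κg 1)) = 350 * m / min κg 1 := by
    field_simp
    ring
  have e3 : 350 * (m : ℝ) / min κg 1 ≤ 350 * m / ν :=
    div_le_div_of_nonneg_left (by positivity) hν (le_min hνκ hν1)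
  have e4 : 350 * (m : ℝ) / ν ≤ 1000 * m / ν :=
    div_le_div_of_nonneg_right (by linarith) hν.le
  linarith

/-- Case 3: `f` has `g ≠ 0` and the minimal scaled norm `κ ≤ 1` among the vectors with `g ≠ 0`;
all lattice vectors with `u ≠ 0` have scaled norm at least `κu`, `κ < κu`; if `κu ≤ 1` it is attained
(`hatt`); `ν ≤ κ`.
`f.1 = 0`: otherwise `SzGe κu f` and `SzLe κ f`. `lam_planar` with `lam = min κu 1`:
* `hpar`: `a ≠ b`, `a - b` proportional to `f = (0,v,g)`, `g ≠ 0`: then `(a-b).1 = 0` and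
  `(a - b).2.2 ≠ 0` (otherwise `a - b = 0`), `hκmin` gives `SzGe κ`.
* `hnp`: `w = a - b - n • f`, if `¬ SzGe lam w` then `SzLe 1 w` and `¬ SzGe κu w`, so `w.1 = 0` by
  `hκu`, and `parl_of_u`.
So `L ≤ 175 / (κ lam)`. If `κu ≤ 1`: `lam = κu`, `lemma1` with the vector `f_u` of `hatt` and `κu`:
`#Sol ≤ 2 m κu L + #Triv ≤ 350 m / κ + #Triv`. If `κu > 1`: `lam = 1`, `#Sol ≤ 2 L ≤ 350 / κ`
(`sol_le_two_lam`), `m ≥ 1`. Finally `1 / κ ≤ 1 / ν`. -/
theorem planar_case3 {p : ℕ} [Fact p.Prime] {S : ℤ} {h m : ℕ} (H : Hyp p S h m) (ρ : ZMod p)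
    (hρ : ρ ≠ 0)
    (hpl : ∀ a ∈ Lam3 p S h ρ, ∀ b ∈ Lam3 p S h ρ, ∀ c ∈ Lam3 p S h ρ, det3 a b c = 0)
    (ν κ κu : ℝ) (hν : 0 < ν) (hν1 : ν ≤ 1) (hκ : 0 < κ) (hκ1 : κ ≤ 1) (hκκ : κ < κu)
    (hνκ : ν ≤ κ)
    (hκmin : ∀ f : ℤ × ℤ × ℤ, InLam p S ρ f → f.2.2 ≠ 0 → SzGe h ((h : ℝ) ^ 2) h κ f)
    (hκu : ∀ f : ℤ × ℤ × ℤ, InLam p S ρ f → f.1 ≠ 0 → SzGe h ((h : ℝ) ^ 2) h κu f)
    (hatt : κu ≤ 1 → ∃ f : ℤ × ℤ × ℤ, InLam p S ρ f ∧ f.1 ≠ 0 ∧ SzLe h ((h : ℝ) ^ 2) h κu f)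
    (f : ℤ × ℤ × ℤ) (hf : InLam p S ρ f) (hfg : f.2.2 ≠ 0)
    (hfle : SzLe h ((h : ℝ) ^ 2) h κ f) :
    ((Sol p S h ρ).card : ℝ) ≤ 1000 * m / ν + (Triv p S h ρ).card := by
  have hh := TB2_hpos H
  have hl0 : 0 < min κu 1 := lt_min (by linarith) one_pos
  have hfge : SzGe h ((h : ℝ) ^ 2) h κ f := hκmin f hf hfg
  have hfu : f.1 = 0 := by
    by_contra hne
    have := TB2_le hh (hκu f hf hne) hfle
    linarith
  have hL := lam_planar H ρ hpl f hf κ (min κu 1) hκ (le_min hκκ.le hκ1) (min_le_right _ _)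
    hfle hfge
    (by
      intro a ha b hb hab hpar
      refine hκmin _ ?_ ?_
      · have := inLam_comb (TB2_inLam ha) (TB2_inLam hb) hf 0
        rwa [zero_smul, sub_zero] at this
      · intro h0
        obtain ⟨e1, e2, e3⟩ := hpar
        rw [h0, zero_mul] at e2 e3
        have f1 : (a - b).1 = 0 := by
          rcases mul_eq_zero.1 e2 with h | h
          · exact h
          · exact absurd h hfg
        have f2 : (a - b).2.1 = 0 := by
          rcases mul_eq_zero.1 e3 with h | h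
          · exact h
          · exact absurd h hfg
        apply hab
        have : a - b = 0 := Prod.ext f1 (Prod.ext f2 h0)
        exact sub_eq_zero.1 this)
    (by
      intro a ha b hb n
      by_cases hw : SzGe h ((h : ℝ) ^ 2) h (min κu 1) (a - b - n • f)
      · exact Or.inr hw
      left
      have hwl : InLam p S ρ (a - b - n • f) := inLam_comb (TB2_inLam ha) (TB2_inLam hb) hf n
      set w := a - b - n • f with hwdef
      have hw1 : SzLe h ((h : ℝ) ^ 2) h 1 w := TB2_small hh (min_le_right _ _) hw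
      have hwu : w.1 = 0 := by
        by_contra hne
        have := TB2_lt hh (hκu w hwl hne) hw
        exact absurd this (not_lt.2 (min_le_left _ _))
      exact parl_of_u H ρ w f hwl hf hwu hfu hw1 (TB2_mono hh hκ1 hfle))
  have hm : (0 : ℝ) ≤ m := Nat.cast_nonneg m
  have hm2 : (2 : ℝ) ≤ m := by exact_mod_cast two_le_of_hyp H
  have hT : (0 : ℝ) ≤ (Triv p S h ρ).card := Nat.cast_nonneg _
  have e3 : 350 * (m : ℝ) / κ ≤ 350 * m / ν :=
    div_le_div_of_nonneg_left (by positivity) hν hνκ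
  have e4 : 350 * (m : ℝ) / ν ≤ 1000 * m / ν :=
    div_le_div_of_nonneg_right (by linarith) hν.le
  by_cases hκu1 : κu ≤ 1
  · obtain ⟨fu, g1, g2, g3, g4, g5⟩ := hatt hκu1
    have hS := lemma1 H ρ hρ fu κu (by linarith) hκu1 g1 g2 g3 g4 g5
    rw [min_eq_left hκu1] at hL
    have hκu0 : 0 < κu := by linarith
    have e1 : 2 * (m : ℝ) * κu * (Lam3 p S h ρ).card ≤ 2 * m * κu * (175 / (κ * κu)) :=
      mul_le_mul_of_nonneg_left hL (by positivity)
    have e2 : 2 * (m : ℝ) * κu * (175 / (κ * κu)) = 350 * m / κ := by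
      field_simp
      ring
    linarith
  · push Not at hκu1
    rw [min_eq_right hκu1.le, mul_one] at hL
    have h2 := sol_le_two_lam H ρ
    have h3 : ((Sol p S h ρ).card : ℝ) ≤ 2 * ((Lam3 p S h ρ).card : ℝ) := by exact_mod_cast h2
    have e5 : 350 / κ ≤ 350 * (m : ℝ) / κ :=
      div_le_div_of_nonneg_right (by linarith) hκ.le
    have e6 : 2 * (175 / κ) = 350 / κ := by ring
    linarith

/-- The planar case. `exists_kap` for `P = (·.1 ≠ 0)` gives `κu` and for `P = (·.2.2 ≠ 0)` gives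
`κg`. By `hG` we may replace: if `κg ≤ 1` there is a vector attaining it and `SzGe ν` for it gives
`ν ≤ κg`; if `κg > 1` then `ν ≤ 1 < κg`. So `ν ≤ κg`. If `κu > 1` and `κg > 1`: `planar_case1`.
If `κu ≤ 1` and `κu ≤ κg`: `planar_case2`. Otherwise `κg ≤ 1`, `κg < κu`: `planar_case3`. -/
theorem planar_sol {p : ℕ} [Fact p.Prime] {S : ℤ} {h m : ℕ} (H : Hyp p S h m) (ρ : ZMod p)
    (hρ : ρ ≠ 0)
    (hpl : ∀ a ∈ Lam3 p S h ρ, ∀ b ∈ Lam3 p S h ρ, ∀ c ∈ Lam3 p S h ρ, det3 a b c = 0)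
    (ν : ℝ) (hν : 0 < ν) (hν1 : ν ≤ 1) (hG : LBG p S h ρ ν) :
    ((Sol p S h ρ).card : ℝ) ≤ 1000 * m / ν + (Triv p S h ρ).card := by
  have hh := TB2_hpos H
  obtain ⟨κu, u0, u3, u1, u2⟩ := exists_kap H ρ (fun f => f.1 ≠ 0)
    (fun f hf h0 => hf (by rw [h0]; rfl))
  obtain ⟨κg, g0, g3, g1, g2⟩ := exists_kap H ρ (fun f => f.2.2 ≠ 0)
    (fun f hf h0 => hf (by rw [h0]; rfl))
  have hνκ : ν ≤ κg := by
    by_cases h1 : κg ≤ 1
    · obtain ⟨f, hf, hf1, hf2⟩ := g2 h1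
      exact TB2_le hh (hG f hf hf1) hf2
    · push Not at h1
      linarith
  have hm : (0 : ℝ) ≤ m := Nat.cast_nonneg m
  have hT : (0 : ℝ) ≤ (Triv p S h ρ).card := Nat.cast_nonneg _
  by_cases c1 : 1 < κu ∧ 1 < κg
  · have key := planar_case1 H ρ
      (fun f hf h1 => by
        by_contra hne
        have := TB2_le hh (u1 f hf hne) h1
        linarith [c1.1])
      (fun f hf h1 => by
        by_contra hne
        have := TB2_le hh (g1 f hf hne) h1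
        linarith [c1.2])
    have e1 : 1000 * (m : ℝ) ≤ 1000 * m / ν := by
      rw [le_div_iff₀ hν]
      have := mul_le_mul_of_nonneg_left hν1 (by positivity : 0 ≤ 1000 * (m : ℝ))
      linarith
    linarith
  by_cases c2 : κu ≤ 1 ∧ κu ≤ κg
  · obtain ⟨f, hf, hf1, hf2⟩ := u2 c2.1
    exact planar_case2 H ρ hρ hpl ν κu κg hν hν1 u0 c2.1 c2.2 hνκ u1 g1 f hf hf1 hf2
  · have h1 : κg ≤ 1 := by
      by_contra hcon
      push Not at hcon
      by_cases hu : κu ≤ 1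
      · exact c2 ⟨hu, by linarith⟩
      · push Not at hu
        exact c1 ⟨hu, hcon⟩
    have h2 : κg < κu := by
      by_contra hcon
      push Not at hcon
      exact c2 ⟨hcon.trans h1, hcon⟩
    obtain ⟨f, hf, hf1, hf2⟩ := g2 h1
    exact planar_case3 H ρ hρ hpl ν κg κu hν hν1 g0 h1 h2 hνκ g1 u1 u2 f hf hf1 hf2

end Pool.Agent.H.MP_03bc95_nt
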