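import Pool.Agent.H.MP_03bc95_nt.TB2

open Finset

namespace Pool.Agent.H.MP_03bc95_nt

/-- Rank three: `pack3` with `α = S`, `β = 1`, `γ = -ρ` and scales `3h, 3h^2, 3h` (see the proof of
`lam3_rank3` in `La.lean`) gives `p L ≤ (24h+1)(24h^2+1)(24h+1) ≤ 15625 h^4 ≤ 15625 t^3 p`. -/
theorem lam3_rank3t {p : ℕ} [Fact p.Prime] {S : ℤ} {h m : ℕ} (H : Hyp p S h m) (t : ℝ)
    (ht : 1 ≤ t) (hΛ : (h : ℝ) ^ 4 ≤ t ^ 3 * p) (ρ : ZMod p)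
    (h3 : ∃ a ∈ Lam3 p S h ρ, ∃ b ∈ Lam3 p S h ρ, ∃ c ∈ Lam3 p S h ρ, det3 a b c ≠ 0) :
    ((Lam3 p S h ρ).card : ℝ) ≤ 15625 * t ^ 3 := by
  obtain ⟨a, ha, b, hb, c, hc, hd⟩ := h3
  have key := pack3 (p := p) ((S : ℤ) : ZMod p) 1 (-ρ) (Or.inr (Or.inl one_ne_zero))
    (Lam3 p S h ρ) (3 * h) (3 * (h : ℝ) ^ 2) (3 * h) (fun f hf => by
      rw [La.mem_Lam3] at hf
      obtain ⟨h1, h2, h3, h4⟩ := hf
      refine ⟨by exact_mod_cast h1, by exact_mod_cast h2, by exact_mod_cast h3, ?_⟩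
      push_cast at h4
      linear_combination h4) a b c ha hb hc hd
  have hh : (1 : ℝ) ≤ h := by exact_mod_cast H.hh
  have hp : 100000 * (h : ℝ) ^ 3 ≤ p := by exact_mod_cast H.hp
  have h2 : (1 : ℝ) ≤ (h : ℝ) ^ 2 := one_le_pow₀ hh
  have e1 : (8 * (3 * (h : ℝ)) + 1) ≤ 25 * h := by linarith
  have e2 : (8 * (3 * (h : ℝ) ^ 2) + 1) ≤ 25 * (h : ℝ) ^ 2 := by linarith
  have e3 : (8 * (3 * (h : ℝ)) + 1) * (8 * (3 * (h : ℝ) ^ 2) + 1) * (8 * (3 * (h : ℝ)) + 1)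
      ≤ (25 * h) * (25 * (h : ℝ) ^ 2) * (25 * h) := by
    gcongr
  have h3 : (1 : ℝ) ≤ (h : ℝ) ^ 3 := one_le_pow₀ hh
  have hp0 : (0 : ℝ) < p := by linarith
  have e4 : ((Lam3 p S h ρ).card : ℝ) * p ≤ (15625 * t ^ 3) * p := by
    calc ((Lam3 p S h ρ).card : ℝ) * p = (p : ℝ) * (Lam3 p S h ρ).card := by ring
      _ ≤ _ := key
      _ ≤ _ := e3
      _ = 15625 * (h : ℝ) ^ 4 := by ring
      _ ≤ 15625 * (t ^ 3 * p) := by linarith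
      _ = (15625 * t ^ 3) * p := by ring
  exact le_of_mul_le_mul_right e4 hp0

/-- The inequality that gives the contradiction in rank three: with `Φ = t^2 + t/ν` and
`κ = 10000 Φ / L`, `L ≤ 15625 t^3`, the bound `L ≤ (7/κ)^3 (1 + κ/ν)` is false.
Proof: `(7/κ)^3 (1+κ/ν) = 343 L^3/(10^4 Φ)^3 + 343 L^2/((10^4 Φ)^2 ν)`. Dividing by `L > 0`:
`343 L^2 ≤ 343 * 15625^2 t^6 ≤ 0.1 * 10^12 t^6 ≤ 0.1 * 10^12 Φ^3` (`Φ ≥ t^2`) and
`343 L / ν ≤ 343 * 15625 t^3 / ν ≤ 0.1 * 10^8 Φ^2` (`Φ^2 ≥ t^2 * (t/ν) = t^3/ν`). So the right side is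
at most `0.2 L < L`. -/
theorem rank3_contra (t ν L : ℝ) (ht : 1 ≤ t) (hν : 0 < ν) (hν1 : ν ≤ 1) (hL : 0 < L)
    (hL1 : L ≤ 15625 * t ^ 3)
    (h : L ≤ (7 / (10000 * (t ^ 2 + t / ν) / L)) ^ 3 *
      (1 + (10000 * (t ^ 2 + t / ν) / L) / ν)) : False := by
  set Φ : ℝ := t ^ 2 + t / ν with hΦ
  have ht0 : 0 < t := by linarith
  have hΦ0 : 0 < Φ := by positivity
  have hΦ1 : t ^ 2 ≤ Φ := by
    have : 0 ≤ t / ν := by positivity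
    linarith
  have hΦ2 : t / ν ≤ Φ := by
    have : 0 ≤ t ^ 2 := by positivity
    linarith
  have e0 : (7 / (10000 * Φ / L)) ^ 3 * (1 + (10000 * Φ / L) / ν) =
      L * (343 * L ^ 2 / (10 ^ 12 * Φ ^ 3) + 343 * L / (10 ^ 8 * Φ ^ 2 * ν)) := by
    field_simp
    ring
  rw [e0] at h
  have h1 : L ^ 2 ≤ 15625 ^ 2 * t ^ 6 := by
    calc L ^ 2 ≤ (15625 * t ^ 3) ^ 2 := pow_le_pow_left₀ hL.le hL1 2
      _ = _ := by ring
  have h2 : t ^ 6 ≤ Φ ^ 3 := by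
    calc t ^ 6 = (t ^ 2) ^ 3 := by ring
      _ ≤ Φ ^ 3 := pow_le_pow_left₀ (by positivity) hΦ1 3
  have h3 : t ^ 3 ≤ Φ ^ 2 * ν := by
    calc t ^ 3 = t ^ 2 * (t / ν) * ν := by field_simp
      _ ≤ Φ * Φ * ν := by
        apply mul_le_mul_of_nonneg_right _ hν.le
        exact mul_le_mul hΦ1 hΦ2 (by positivity) hΦ0.le
      _ = Φ ^ 2 * ν := by ring
  have h4 : 343 * L ^ 2 / (10 ^ 12 * Φ ^ 3) ≤ 1 / 10 := by
    rw [div_le_iff₀ (by positivity)]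
    have : (0 : ℝ) < Φ ^ 3 := by positivity
    linarith
  have h5 : 343 * L / (10 ^ 8 * Φ ^ 2 * ν) ≤ 1 / 10 := by
    rw [div_le_iff₀ (by positivity)]
    have : (0 : ℝ) < Φ ^ 2 * ν := by positivity
    have e : 1 / 10 * (10 ^ 8 * Φ ^ 2 * ν) = 10 ^ 7 * (Φ ^ 2 * ν) := by ring
    rw [e]
    linarith
  have h6 : L * (343 * L ^ 2 / (10 ^ 12 * Φ ^ 3) + 343 * L / (10 ^ 8 * Φ ^ 2 * ν)) ≤
      L * (1 / 10 + 1 / 10) := mul_le_mul_of_nonneg_left (add_le_add h4 h5) hL.le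
  linarith

/-- Case A bound for one `ρ`. If all determinants of `Lam3` vanish: `planar_sol` and
`1000 m / ν ≤ 20000 m (t^2 + t/ν)`. Otherwise let `L = #Lam3`, `Φ = t^2 + t/ν`, and suppose
`#Sol > 20000 m Φ + #Triv`. `sol_le_two_lam`: `2 L ≥ #Sol > 20000 m Φ`, so `L > 10000 Φ` (`m ≥ 1`,
even `m ≥ 2`), and `κ = 10000 Φ / L` satisfies `0 < κ ≤ 1`. If there is a lattice vector `f` with
`f.1 ≠ 0` of scaled norm `≤ κ` then `lemma1` gives `#Sol ≤ 2 m κ L + #Triv = 20000 m Φ + #Triv`, a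
contradiction. So `hno` of `cells3` holds with this `κ`; `hR` is `lbr_of_lbg` with `k = ν`. Hence
`L ≤ (7/κ)^3 (1 + κ/ν)`, `L ≤ 15625 t^3` (`lam3_rank3t`): `rank3_contra`. -/
theorem lemmaA {p : ℕ} [Fact p.Prime] {S : ℤ} {h m : ℕ} (H : Hyp p S h m) (t : ℝ)
    (ht : 1 ≤ t) (hΛ : (h : ℝ) ^ 4 ≤ t ^ 3 * p) (ρ : ZMod p) (hρ : ρ ≠ 0)
    (ν : ℝ) (hν : 0 < ν) (hν1 : ν ≤ 1) (hG : LBG p S h ρ ν) :
    ((Sol p S h ρ).card : ℝ) ≤ 20000 * m * (t ^ 2 + t / ν) + (Triv p S h ρ).card := by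
  have hm2 : (2 : ℝ) ≤ m := by exact_mod_cast two_le_of_hyp H
  have ht0 : 0 < t := by linarith
  have hT : (0 : ℝ) ≤ (Triv p S h ρ).card := Nat.cast_nonneg _
  by_cases hpl : ∀ a ∈ Lam3 p S h ρ, ∀ b ∈ Lam3 p S h ρ, ∀ c ∈ Lam3 p S h ρ, det3 a b c = 0
  · have h1 := planar_sol H ρ hρ hpl ν hν hν1 hG
    have h2 : 1000 * (m : ℝ) / ν ≤ 20000 * m * (t ^ 2 + t / ν) := by
      have e1 : 1000 * (m : ℝ) / ν = 1000 * m * (1 / ν) := by ring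
      have e2 : 1 / ν ≤ t / ν := div_le_div_of_nonneg_right ht hν.le
      have e3 : 0 ≤ t ^ 2 := by positivity
      have e4 : 0 ≤ t / ν := by positivity
      rw [e1]
      have e5 : (1000 : ℝ) * m ≤ 20000 * m := by linarith
      exact mul_le_mul e5 (by linarith) (by positivity) (by positivity)
    linarith
  · push Not at hpl
    by_contra hcon
    push Not at hcon
    set Φ : ℝ := t ^ 2 + t / ν with hΦ
    have hΦ0 : 0 < Φ := by positivity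
    set L : ℝ := ((Lam3 p S h ρ).card : ℝ) with hLdef
    have h2 : ((Sol p S h ρ).card : ℝ) ≤ 2 * L := by
      rw [hLdef]
      exact_mod_cast sol_le_two_lam H ρ
    have hmΦ : 2 * Φ ≤ m * Φ := mul_le_mul_of_nonneg_right hm2 hΦ0.le
    have hLbig : 10000 * Φ < L := by
      have e1 : 20000 * (m : ℝ) * Φ = 20000 * (m * Φ) := by ring
      rw [e1] at hcon
      linarith
    have hL0 : 0 < L := by linarith
    have hL1 : L ≤ 15625 * t ^ 3 := lam3_rank3t H t ht hΛ ρ hpl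
    have hκ0 : 0 < 10000 * Φ / L := by positivity
    have hκ1 : 10000 * Φ / L ≤ 1 := (div_le_one hL0).2 hLbig.le
    have hcell := cells3 H ρ ν (10000 * Φ / L) hν hκ0 hκ1 (lbr_of_lbg H ρ ν hν hν1 hG)
      (by
        intro f hf f1 f2 f3
        by_contra hfu
        have h3 := lemma1 H ρ hρ f (10000 * Φ / L) hκ0 hκ1 hf hfu f1 f2 f3
        rw [← hLdef] at h3
        have e1 : 2 * (m : ℝ) * (10000 * Φ / L) * L = 20000 * m * Φ := by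
          field_simp
          ring
        rw [e1] at h3
        linarith)
    exact rank3_contra t ν L ht hν hν1 hL0 hL1 hcell

end Pool.Agent.H.MP_03bc95_nt
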