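import Pool.Agent.H.MP_03bc95_nt.TDef

open Finset

namespace Pool.Agent.H.MP_03bc95_nt

/-- The pairs `(b,c)` for one leading coefficient `a`. `G` has differences `(b - b', c - c')` in the
lattice `b S + c = 0` modulo `p`, bounded by `(2 μ h^2, 2 μ h^3)`.

Proof. If all differences are proportional: `par2` with `x = (·.1)`, `y = (·.2)`, scales
`s1 = h`, `s2 = h^2`, `D = 2 μ h`, `r = 1 / t` (`hL` gives the lower bound of a nonzero difference):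
`#G ≤ 2 μ h t + 1`. Otherwise there are `i, j, k, l ∈ G` with
`(i.1 - j.1)(k.2 - l.2) ≠ (i.2 - j.2)(k.1 - l.1)`; fix `q0 ∈ G` and use `pack2` with `α = S`,
`β = 1`, `s1 = 2 μ h^2`, `s2 = 2 μ h^3` for the finset `G.image (· - q0)` (same cardinality) and the
vectors `i - j`, `k - l`: `p #G ≤ (12 μ h^2 + 1)(12 μ h^3 + 1) ≤ 169 μ^2 h^5` (`μ h ≥ 1`, `h ≥ 1`), and
`h^4 ≤ t^3 p` gives `169 μ^2 h^5 ≤ 169 μ^2 h t^3 p`; divide by `p`. -/
theorem gam_fibre {p : ℕ} [Fact p.Prime] {S : ℤ} {h m : ℕ} (H : Hyp p S h m) (t : ℝ)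
    (ht : 1 ≤ t) (hΛ : (h : ℝ) ^ 4 ≤ t ^ 3 * p) (hL : LBS p S h (1 / t)) (μ : ℝ)
    (hμ : 1 / (h : ℝ) ≤ μ) (G : Finset (ℤ × ℤ))
    (hG : ∀ q ∈ G, ∀ q' ∈ G, |((q.1 - q'.1 : ℤ) : ℝ)| ≤ 2 * μ * (h : ℝ) ^ 2 ∧
      |((q.2 - q'.2 : ℤ) : ℝ)| ≤ 2 * μ * (h : ℝ) ^ 3 ∧
      (((q.1 - q'.1) * S + (q.2 - q'.2) : ℤ) : ZMod p) = 0) :
    (G.card : ℝ) ≤ 1 + 2 * μ * h * t + 169 * μ ^ 2 * h * t ^ 3 := by
  classical
  have hh : (1 : ℝ) ≤ h := by exact_mod_cast H.hh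
  have hh0 : (0 : ℝ) < h := by linarith
  have ht0 : 0 < t := by linarith
  have hμ0 : 0 < μ := lt_of_lt_of_le (by positivity) hμ
  have hμh : 1 ≤ μ * h := (div_le_iff₀ hh0).1 hμ
  have hp : 100000 * (h : ℝ) ^ 3 ≤ p := by exact_mod_cast H.hp
  have hh3 : (1 : ℝ) ≤ (h : ℝ) ^ 3 := one_le_pow₀ hh
  have hp0 : (0 : ℝ) < p := by linarith
  by_cases hall : ∀ i ∈ G, ∀ j ∈ G, ∀ k ∈ G, ∀ l ∈ G,
      (i.1 - j.1) * (k.2 - l.2) = (i.2 - j.2) * (k.1 - l.1)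
  · have key := par2 G (fun q => q.1) (fun q => q.2) h ((h : ℝ) ^ 2) (2 * μ * h) (1 / t) hh0
      (by positivity) (by positivity) (by positivity) hall
      (by
        intro i hi j hj hij
        obtain ⟨a1, a2, a3⟩ := hG i hi j hj
        refine hL _ _ ?_ a3
        rintro ⟨b1, b2⟩
        exact hij (Prod.ext (sub_eq_zero.1 b1) (sub_eq_zero.1 b2)))
      (by
        intro i hi j hj
        obtain ⟨a1, a2, a3⟩ := hG i hi j hj
        constructor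
        · calc _ ≤ _ := a1
            _ = 2 * μ * h * h := by ring
        · calc _ ≤ _ := a2
            _ = 2 * μ * h * (h : ℝ) ^ 2 := by ring)
    have e1 : 2 * μ * h / (1 / t) + 1 = 1 + 2 * μ * h * t := by
      field_simp
      ring
    rw [e1] at key
    have e2 : 0 ≤ 169 * μ ^ 2 * h * t ^ 3 := by positivity
    linarith
  · push Not at hall
    obtain ⟨i, hi, j, hj, k, hk, l, hl, hne⟩ := hall
    set F : Finset (ℤ × ℤ) := G.image fun q => (q.1 - i.1, q.2 - i.2) with hF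
    have hcard : F.card = G.card := by
      apply Finset.card_image_of_injective
      intro a b hab
      simp only [Prod.mk.injEq] at hab
      exact Prod.ext (by linarith [hab.1]) (by linarith [hab.2])
    have lat : ∀ q ∈ G, ∀ q' ∈ G,
        ((S : ℤ) : ZMod p) * ((q.1 - q'.1 : ℤ) : ZMod p) + 1 * ((q.2 - q'.2 : ℤ) : ZMod p) = 0 := by
      intro q hq q' hq'
      obtain ⟨-, -, a3⟩ := hG q hq q' hq'
      push_cast at a3 ⊢
      linear_combination a3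
    have key := pack2 (p := p) ((S : ℤ) : ZMod p) 1 (Or.inr one_ne_zero) F
      (2 * μ * (h : ℝ) ^ 2) (2 * μ * (h : ℝ) ^ 3)
      (by
        intro f hf
        obtain ⟨q, hq, rfl⟩ := Finset.mem_image.1 hf
        obtain ⟨a1, a2, a3⟩ := hG q hq i hi
        exact ⟨a1, a2, lat q hq i hi⟩)
      (i.1 - j.1, i.2 - j.2) (k.1 - l.1, k.2 - l.2)
      ⟨(hG i hi j hj).1, (hG i hi j hj).2.1, lat i hi j hj⟩
      ⟨(hG k hk l hl).1, (hG k hk l hl).2.1, lat k hk l hl⟩ hne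
    rw [hcard] at key
    have g1 : (1 : ℝ) ≤ μ * (h : ℝ) ^ 2 := by
      calc (1 : ℝ) = 1 * 1 := by norm_num
        _ ≤ (μ * h) * h := mul_le_mul hμh hh zero_le_one (by positivity)
        _ = _ := by ring
    have g2 : (1 : ℝ) ≤ μ * (h : ℝ) ^ 3 := by
      calc (1 : ℝ) = 1 * 1 := by norm_num
        _ ≤ (μ * (h : ℝ) ^ 2) * h := mul_le_mul g1 hh zero_le_one (by positivity)
        _ = _ := by ring
    have g3 : (6 * (2 * μ * (h : ℝ) ^ 2) + 1) * (6 * (2 * μ * (h : ℝ) ^ 3) + 1) ≤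
        (13 * (μ * (h : ℝ) ^ 2)) * (13 * (μ * (h : ℝ) ^ 3)) := by
      apply mul_le_mul _ _ (by positivity) (by positivity)
      · linarith
      · linarith
    have g4 : (G.card : ℝ) * p ≤ (169 * μ ^ 2 * h * t ^ 3) * p := by
      calc (G.card : ℝ) * p = (p : ℝ) * G.card := by ring
        _ ≤ _ := key
        _ ≤ _ := g3
        _ = (169 * μ ^ 2 * h) * (h : ℝ) ^ 4 := by ring
        _ ≤ (169 * μ ^ 2 * h) * (t ^ 3 * p) := mul_le_mul_of_nonneg_left hΛ (by positivity)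
        _ = _ := by ring
    have g5 := le_of_mul_le_mul_right g4 hp0
    have e2 : 0 ≤ 2 * μ * h * t := by positivity
    linarith

/-- The number of `(a,b,c)` with `|a| ≤ μ h`, `|b| ≤ μ h^2`, `|c| ≤ μ h^3` and
`a S^2 + b S + c = 0` modulo `p`. There are at most `2 μ h + 1 ≤ 3 μ h` values of `a`
(the image of `F` under `(·.1)` is contained in `Icc (-⌊μ h⌋) ⌊μ h⌋`), and for each of them
`gam_fibre` for the finset of the pairs `q.2`, `q ∈ F` with `q.1 = a` (`Finset.image` under `(·.2)`,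
injective there). Total `3 μ h (1 + 2 μ h t + 169 μ^2 h t^3) ≤ 3 μ^2 h^2 t + 6 μ^2 h^2 t +
507 μ^3 h^2 t^3` because `1 ≤ μ h t`. Use `Finset.card_le_mul_card_image` with
`n = ⌊1 + 2 μ h t + 169 μ^2 h t^3⌋₊`. -/
theorem gam_card {p : ℕ} [Fact p.Prime] {S : ℤ} {h m : ℕ} (H : Hyp p S h m) (t : ℝ)
    (ht : 1 ≤ t) (hΛ : (h : ℝ) ^ 4 ≤ t ^ 3 * p) (hL : LBS p S h (1 / t)) (μ : ℝ)
    (hμ : 1 / (h : ℝ) ≤ μ) (F : Finset (ℤ × ℤ × ℤ))
    (hF : ∀ q ∈ F, |(q.1 : ℝ)| ≤ μ * h ∧ |(q.2.1 : ℝ)| ≤ μ * (h : ℝ) ^ 2 ∧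
      |(q.2.2 : ℝ)| ≤ μ * (h : ℝ) ^ 3 ∧
      ((q.1 * S ^ 2 + q.2.1 * S + q.2.2 : ℤ) : ZMod p) = 0) :
    (F.card : ℝ) ≤ 600 * (μ ^ 2 * (h : ℝ) ^ 2 * t + μ ^ 3 * (h : ℝ) ^ 2 * t ^ 3) := by
  classical
  have hh : (1 : ℝ) ≤ h := by exact_mod_cast H.hh
  have hh0 : (0 : ℝ) < h := by linarith
  have ht0 : 0 < t := by linarith
  have hμ0 : 0 < μ := lt_of_lt_of_le (by positivity) hμ
  have hμh : 1 ≤ μ * h := (div_le_iff₀ hh0).1 hμ
  set B : ℝ := 1 + 2 * μ * h * t + 169 * μ ^ 2 * h * t ^ 3 with hB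
  have hB0 : 0 ≤ B := by positivity
  have himg : ((F.image fun q => q.1).card : ℝ) ≤ 3 * (μ * h) := by
    have h1 : (F.image fun q => q.1) ⊆ Finset.Icc (-⌊μ * h⌋) ⌊μ * h⌋ := by
      intro a ha
      obtain ⟨q, hq, rfl⟩ := Finset.mem_image.1 ha
      obtain ⟨a1, -⟩ := hF q hq
      rw [abs_le] at a1
      rw [Finset.mem_Icc]
      constructor
      · have : -q.1 ≤ ⌊μ * h⌋ := by
          rw [Int.le_floor]
          push_cast
          linarith [a1.1]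
        linarith
      · rw [Int.le_floor]
        exact a1.2
    have h2 := Finset.card_le_card h1
    rw [Int.card_Icc] at h2
    have h3 : (0 : ℤ) ≤ ⌊μ * h⌋ := Int.floor_nonneg.2 (by linarith)
    have h4 : ((⌊μ * h⌋ + 1 - -⌊μ * h⌋).toNat : ℤ) = 2 * ⌊μ * h⌋ + 1 := by
      rw [Int.toNat_of_nonneg (by linarith)]
      ring
    have h5 : (((F.image fun q => q.1).card : ℤ)) ≤ 2 * ⌊μ * h⌋ + 1 := by
      rw [← h4]
      exact_mod_cast h2
    have h6 : ((F.image fun q => q.1).card : ℝ) ≤ 2 * (⌊μ * h⌋ : ℝ) + 1 := by exact_mod_cast h5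
    have h7 : (⌊μ * h⌋ : ℝ) ≤ μ * h := Int.floor_le _
    linarith
  have hfib : F.card ≤ ⌊B⌋₊ * (F.image fun q => q.1).card := by
    apply Finset.card_le_mul_card_image
    intro a ha
    apply Nat.le_floor
    have hinj : ((F.filter fun q => q.1 = a).image fun q => q.2).card
        = (F.filter fun q => q.1 = a).card := by
      apply Finset.card_image_of_injOn
      intro q hq q' hq' hqq
      have e1 := (Finset.mem_filter.1 (Finset.mem_coe.1 hq)).2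
      have e2 := (Finset.mem_filter.1 (Finset.mem_coe.1 hq')).2
      exact Prod.ext (e1.trans e2.symm) hqq
    rw [← hinj]
    apply gam_fibre H t ht hΛ hL μ hμ
    intro r hr r' hr'
    obtain ⟨q, hq, rfl⟩ := Finset.mem_image.1 hr
    obtain ⟨q', hq', rfl⟩ := Finset.mem_image.1 hr'
    obtain ⟨hq, hqa⟩ := Finset.mem_filter.1 hq
    obtain ⟨hq', hqa'⟩ := Finset.mem_filter.1 hq'
    obtain ⟨a1, a2, a3, a4⟩ := hF q hq
    obtain ⟨b1, b2, b3, b4⟩ := hF q' hq'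
    rw [hqa] at a4
    rw [hqa'] at b4
    refine ⟨?_, ?_, ?_⟩
    · push_cast
      calc |(q.2.1 : ℝ) - q'.2.1| ≤ |(q.2.1 : ℝ)| + |(q'.2.1 : ℝ)| := abs_sub _ _
        _ ≤ 2 * μ * (h : ℝ) ^ 2 := by linarith
    · push_cast
      calc |(q.2.2 : ℝ) - q'.2.2| ≤ |(q.2.2 : ℝ)| + |(q'.2.2 : ℝ)| := abs_sub _ _
        _ ≤ 2 * μ * (h : ℝ) ^ 3 := by linarith
    · push_cast at a4 b4 ⊢
      linear_combination a4 - b4
  have h3 : (F.card : ℝ) ≤ (⌊B⌋₊ : ℝ) * ((F.image fun q => q.1).card : ℝ) := by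
    exact_mod_cast hfib
  have h4 : (⌊B⌋₊ : ℝ) ≤ B := Nat.floor_le hB0
  have h5 : (F.card : ℝ) ≤ B * (3 * (μ * h)) :=
    h3.trans (mul_le_mul h4 himg (Nat.cast_nonneg _) hB0)
  refine h5.trans ?_
  have e1 : 1 ≤ (μ * h) * t := by
    calc (1 : ℝ) = 1 * 1 := by norm_num
      _ ≤ (μ * h) * t := mul_le_mul hμh ht zero_le_one (by positivity)
  have e2 : (μ * h) * 1 ≤ (μ * h) * ((μ * h) * t) :=
    mul_le_mul_of_nonneg_left e1 (by positivity)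
  have e3 : B * (3 * (μ * h)) = 3 * ((μ * h) * 1) + 6 * (μ ^ 2 * (h : ℝ) ^ 2 * t) +
      507 * (μ ^ 3 * (h : ℝ) ^ 2 * t ^ 3) := by
    rw [hB]
    ring
  have e4 : (μ * h) * ((μ * h) * t) = μ ^ 2 * (h : ℝ) ^ 2 * t := by ring
  rw [e4] at e2
  have e5 : 0 ≤ μ ^ 2 * (h : ℝ) ^ 2 * t := by positivity
  have e6 : 0 ≤ μ ^ 3 * (h : ℝ) ^ 2 * t ^ 3 := by positivity
  rw [e3]
  linarith

end Pool.Agent.H.MP_03bc95_nt
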