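import Pool.Agent.H.MP_03bc95_nt.Sb
import Pool.Agent.H.MP_03bc95_nt.P3
import Pool.Agent.H.MP_03bc95_nt.Eb
import Pool.Agent.H.MP_03bc95_nt.Ec

/-!
# MP_03bc95, second theorem: definitions

`I = S + {1..h}`, `t ≥ 1` real with `h^4 ≤ t^3 p`. Scales of the lattice `u S + v = ρ g`:
`(h, h^2, h)`.
-/

open Finset

namespace Pool.Agent.H.MP_03bc95_nt

/-- All coordinates are at most `k` times the scales. -/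
def SzLe (s1 s2 s3 k : ℝ) (w : ℤ × ℤ × ℤ) : Prop :=
  |(w.1 : ℝ)| ≤ k * s1 ∧ |(w.2.1 : ℝ)| ≤ k * s2 ∧ |(w.2.2 : ℝ)| ≤ k * s3

/-- Some coordinate is at least `k` times the scale. -/
def SzGe (s1 s2 s3 k : ℝ) (w : ℤ × ℤ × ℤ) : Prop :=
  k * s1 ≤ |(w.1 : ℝ)| ∨ k * s2 ≤ |(w.2.1 : ℝ)| ∨ k * s3 ≤ |(w.2.2 : ℝ)|

/-- Proportional vectors. -/
def Parl (w f : ℤ × ℤ × ℤ) : Prop :=
  w.1 * f.2.1 = w.2.1 * f.1 ∧ w.1 * f.2.2 = w.2.2 * f.1 ∧ w.2.1 * f.2.2 = w.2.2 * f.2.1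

/-- Every vector of the lattice `u S + v = ρ g` with `g ≠ 0` has scaled norm at least `ν`. -/
def LBG (p : ℕ) (S : ℤ) (h : ℕ) (ρ : ZMod p) (ν : ℝ) : Prop :=
  ∀ f : ℤ × ℤ × ℤ, InLam p S ρ f → f.2.2 ≠ 0 → SzGe h ((h : ℝ) ^ 2) h ν f

/-- The triples `(y2, x, y)` in `[1,h]^3` with `x ≠ y2`, `x ≠ y`. -/
noncomputable def Tri (h : ℕ) : Finset (ℤ × ℤ × ℤ) :=
  (Icc (1 : ℤ) h ×ˢ Icc (1 : ℤ) h ×ˢ Icc (1 : ℤ) h).filter fun z => z.2.1 ≠ z.1 ∧ z.2.1 ≠ z.2.2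

/-- The triples of `Tri` for which `LBG (ρ) μ` fails, `ρ = (S+y2)(S+y)/(S+x)`. -/
noncomputable def TG (p : ℕ) [Fact p.Prime] (S : ℤ) (h : ℕ) (μ : ℝ) : Finset (ℤ × ℤ × ℤ) := by
  classical
  exact (Tri h).filter fun z => ¬ LBG p S h (rho p S S z.1 z.2.1 z.2.2) μ

/-- Data of the structured case at scale `k`: `A S = B` modulo `p`, coprime, of scaled norm
exactly `k`. -/
structure ABk (p : ℕ) (S : ℤ) (h : ℕ) (k : ℝ) (A B : ℤ) : Prop where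
  hA0 : A ≠ 0
  hcop : IsCoprime A B
  hAB : ((A * S : ℤ) : ZMod p) = (B : ZMod p)
  hA : |(A : ℝ)| ≤ k * h
  hB : |(B : ℝ)| ≤ k * (h : ℝ) ^ 2
  hk : k * h ≤ |(A : ℝ)| ∨ k * (h : ℝ) ^ 2 ≤ |(B : ℝ)|

/-- The lattice `w = ρ' g` (with `ρ' = A ρ`) has all nonzero vectors of scaled norm at least `ν`
in the scales `(3 k h^3, h)`. -/
def LBWk (p : ℕ) (h : ℕ) (k : ℝ) (ρ' : ZMod p) (ν : ℝ) : Prop :=
  ∀ w g : ℤ, ¬ (w = 0 ∧ g = 0) → (w : ZMod p) = ρ' * (g : ZMod p) →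
    ν * (3 * k * (h : ℝ) ^ 3) ≤ |(w : ℝ)| ∨ ν * h ≤ |(g : ℝ)|

/-- The triples of `Tri` for which `LBWk (A ρ) ν` fails. -/
noncomputable def TWk (p : ℕ) [Fact p.Prime] (S : ℤ) (h : ℕ) (k : ℝ) (A : ℤ) (ν : ℝ) :
    Finset (ℤ × ℤ × ℤ) := by
  classical
  exact (Tri h).filter fun z => ¬ LBWk p h k ((A : ZMod p) * rho p S S z.1 z.2.1 z.2.2) ν

theorem mem_Tri {h : ℕ} {z : ℤ × ℤ × ℤ} :
    z ∈ Tri h ↔ ((1 ≤ z.1 ∧ z.1 ≤ h) ∧ (1 ≤ z.2.1 ∧ z.2.1 ≤ h) ∧ (1 ≤ z.2.2 ∧ z.2.2 ≤ h)) ∧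
      z.2.1 ≠ z.1 ∧ z.2.1 ≠ z.2.2 := by
  simp only [Tri, Finset.mem_filter, Finset.mem_product, Finset.mem_Icc]

theorem mem_TG {p : ℕ} [Fact p.Prime] {S : ℤ} {h : ℕ} {μ : ℝ} {z : ℤ × ℤ × ℤ} :
    z ∈ TG p S h μ ↔ z ∈ Tri h ∧ ¬ LBG p S h (rho p S S z.1 z.2.1 z.2.2) μ := by
  classical
  simp only [TG, Finset.mem_filter]

theorem mem_TWk {p : ℕ} [Fact p.Prime] {S : ℤ} {h : ℕ} {k : ℝ} {A : ℤ} {ν : ℝ} {z : ℤ × ℤ × ℤ} :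
    z ∈ TWk p S h k A ν ↔ z ∈ Tri h ∧
      ¬ LBWk p h k ((A : ZMod p) * rho p S S z.1 z.2.1 z.2.2) ν := by
  classical
  simp only [TWk, Finset.mem_filter]

end Pool.Agent.H.MP_03bc95_nt
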