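import Pool.Agent.H.MP_03bc95_nt.TD
import Pool.Agent.H.MP_03bc95_nt.TE0

open Finset

namespace Pool.Agent.H.MP_03bc95_nt

/-- Data of an exceptional triple `z = (y2, x, y)`. `¬ LBG μ` gives `f = (u,v,g)` with
`u S + v = ρ g` modulo `p`, `g ≠ 0`, `|u| < μ h`, `|v| < μ h^2`, `|g| < μ h`,
`ρ = (S+y2)(S+y)/(S+x)`. Multiply by `S + x` (nonzero modulo `p` by `H.hS`):
`(u S + v)(S + x) = g (S + y2)(S + y)`, i.e. `q.1 S^2 + q.2.1 S + q.2.2 = 0` for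
`q = (u - g, v + u x - g (y2 + y), v x - g y2 y)`. Bounds: `|u - g| ≤ 2 μ h`,
`|v + u x - g (y2+y)| ≤ μ h^2 + μ h^2 + 2 μ h^2 = 4 μ h^2`, `|v x - g y2 y| ≤ 2 μ h^3`.
The identity `q.1 x^2 - q.2.1 x + q.2.2 = - g (y2 - x) (y - x)` (`ring`); this integer is not `0`,
its absolute value is at most `μ h * h * h ≤ h^3` and it is divisible by `y2 - x` and by `y - x`. -/
theorem tg_data {p : ℕ} [Fact p.Prime] {S : ℤ} {h m : ℕ} (H : Hyp p S h m) (μ : ℝ)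
    (hμ : 0 < μ) (hμ1 : μ ≤ 1) (z : ℤ × ℤ × ℤ) (hz : z ∈ TG p S h μ) :
    ∃ q : ℤ × ℤ × ℤ, |(q.1 : ℝ)| ≤ (4 * μ) * h ∧ |(q.2.1 : ℝ)| ≤ (4 * μ) * (h : ℝ) ^ 2 ∧
      |(q.2.2 : ℝ)| ≤ (4 * μ) * (h : ℝ) ^ 3 ∧
      ((q.1 * S ^ 2 + q.2.1 * S + q.2.2 : ℤ) : ZMod p) = 0 ∧
      q.1 * z.2.1 ^ 2 - q.2.1 * z.2.1 + q.2.2 ≠ 0 ∧
      |q.1 * z.2.1 ^ 2 - q.2.1 * z.2.1 + q.2.2| ≤ (h : ℤ) ^ 3 ∧
      (z.1 - z.2.1) ∣ (q.1 * z.2.1 ^ 2 - q.2.1 * z.2.1 + q.2.2) ∧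
      (z.2.2 - z.2.1) ∣ (q.1 * z.2.1 ^ 2 - q.2.1 * z.2.1 + q.2.2) := by
  obtain ⟨y2, x, y⟩ := z
  rw [mem_TG, mem_Tri] at hz
  obtain ⟨⟨⟨⟨hy1, hy2⟩, ⟨hx1, hx2⟩, hy3, hy4⟩, hne1, hne2⟩, hL⟩ := hz
  simp only at hy1 hy2 hx1 hx2 hy3 hy4 hne1 hne2 hL ⊢
  unfold LBG at hL
  push Not at hL
  obtain ⟨⟨u, v, g⟩, hf, hg, hsz⟩ := hL
  unfold SzGe at hsz
  push Not at hsz
  obtain ⟨b1, b2, b3⟩ := hsz
  simp only at hg b1 b2 b3
  have hh : (1 : ℝ) ≤ h := by exact_mod_cast H.hh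
  have hh0 : (0 : ℝ) < h := by linarith
  have rx1 : (1 : ℝ) ≤ x := by exact_mod_cast hx1
  have rx2 : (x : ℝ) ≤ h := by exact_mod_cast hx2
  have ry1 : (1 : ℝ) ≤ y := by exact_mod_cast hy3
  have ry2 : (y : ℝ) ≤ h := by exact_mod_cast hy4
  have rz1 : (1 : ℝ) ≤ y2 := by exact_mod_cast hy1
  have rz2 : (y2 : ℝ) ≤ h := by exact_mod_cast hy2
  have ax : |(x : ℝ)| ≤ h := by rw [abs_le]; constructor <;> linarith
  have ay : |(y : ℝ)| ≤ h := by rw [abs_le]; constructor <;> linarith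
  have ay2 : |(y2 : ℝ)| ≤ h := by rw [abs_le]; constructor <;> linarith
  have ayy : |(y2 : ℝ) + y| ≤ 2 * h := by rw [abs_le]; constructor <;> linarith
  have hμh : 0 < μ * h := by positivity
  have hμh2 : 0 < μ * (h : ℝ) ^ 2 := by positivity
  have hid : (u - g) * x ^ 2 - (v + u * x - g * (y2 + y)) * x + (v * x - g * y2 * y)
      = -(g * ((y2 - x) * (y - x))) := by ring
  refine ⟨(u - g, v + u * x - g * (y2 + y), v * x - g * y2 * y), ?_, ?_, ?_, ?_, ?_, ?_, ?_, ?_⟩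
  · simp only
    push_cast
    calc |(u : ℝ) - g| ≤ |(u : ℝ)| + |(g : ℝ)| := abs_sub _ _
      _ ≤ 4 * μ * h := by linarith
  · simp only
    push_cast
    have e1 : |(u : ℝ) * x| ≤ (μ * h) * h := by
      rw [abs_mul]; exact mul_le_mul b1.le ax (abs_nonneg _) hμh.le
    have e2 : |(g : ℝ) * (y2 + y)| ≤ (μ * h) * (2 * h) := by
      rw [abs_mul]; exact mul_le_mul b3.le ayy (abs_nonneg _) hμh.le
    calc |(v : ℝ) + u * x - g * (y2 + y)| ≤ |(v : ℝ) + u * x| + |(g : ℝ) * (y2 + y)| :=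
          abs_sub _ _
      _ ≤ |(v : ℝ)| + |(u : ℝ) * x| + |(g : ℝ) * (y2 + y)| := by
          linarith [abs_add_le (v : ℝ) ((u : ℝ) * x)]
      _ ≤ μ * (h : ℝ) ^ 2 + (μ * h) * h + (μ * h) * (2 * h) := by linarith
      _ = 4 * μ * (h : ℝ) ^ 2 := by ring
  · simp only
    push_cast
    have e1 : |(v : ℝ) * x| ≤ (μ * (h : ℝ) ^ 2) * h := by
      rw [abs_mul]; exact mul_le_mul b2.le ax (abs_nonneg _) hμh2.le
    have e2 : |(g : ℝ) * y2 * y| ≤ ((μ * h) * h) * h := by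
      rw [abs_mul, abs_mul]
      exact mul_le_mul (mul_le_mul b3.le ay2 (abs_nonneg _) hμh.le) ay (abs_nonneg _)
        (by positivity)
    have e3 : 0 < μ * (h : ℝ) ^ 3 := by positivity
    calc |(v : ℝ) * x - g * y2 * y| ≤ |(v : ℝ) * x| + |(g : ℝ) * y2 * y| := abs_sub _ _
      _ ≤ (μ * (h : ℝ) ^ 2) * h + ((μ * h) * h) * h := add_le_add e1 e2
      _ = 2 * (μ * (h : ℝ) ^ 3) := by ring
      _ ≤ 4 * μ * (h : ℝ) ^ 3 := by linarith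
  · simp only
    have hSx := H.hS x hx1 hx2
    unfold InLam rho at hf
    simp only at hf
    have h2 : ((u * S + v : ℤ) : ZMod p) * ((S + x : ℤ) : ZMod p)
        = ((S + y2 : ℤ) : ZMod p) * ((S + y : ℤ) : ZMod p) * (g : ZMod p) := by
      rw [hf]
      have e1 : ((S + y2 : ℤ) : ZMod p) * ((S + y : ℤ) : ZMod p) * (((S + x : ℤ) : ZMod p))⁻¹
          * (g : ZMod p) * ((S + x : ℤ) : ZMod p)
          = ((S + y2 : ℤ) : ZMod p) * ((S + y : ℤ) : ZMod p) * (g : ZMod p)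
            * ((((S + x : ℤ) : ZMod p))⁻¹ * ((S + x : ℤ) : ZMod p)) := by ring
      rw [e1, inv_mul_cancel₀ hSx, mul_one]
    push_cast at h2 ⊢
    linear_combination h2
  · simp only
    rw [hid]
    apply neg_ne_zero.2
    apply mul_ne_zero hg (mul_ne_zero _ _)
    · exact sub_ne_zero.2 (Ne.symm hne1)
    · exact sub_ne_zero.2 (Ne.symm hne2)
  · simp only
    rw [hid, abs_neg, abs_mul, abs_mul]
    have g1 : |(g : ℝ)| ≤ h := by
      have : μ * h ≤ 1 * h := mul_le_mul_of_nonneg_right hμ1 hh0.le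
      linarith
    have g2 : |g| ≤ (h : ℤ) := by exact_mod_cast g1
    have g3 : |y2 - x| ≤ (h : ℤ) := by rw [abs_le]; constructor <;> linarith
    have g4 : |y - x| ≤ (h : ℤ) := by rw [abs_le]; constructor <;> linarith
    have h0 : (0 : ℤ) ≤ h := by positivity
    calc |g| * (|y2 - x| * |y - x|) ≤ h * (h * h) :=
          mul_le_mul g2 (mul_le_mul g3 g4 (abs_nonneg _) h0) (by positivity) h0
      _ = (h : ℤ) ^ 3 := by ring
  · simp only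
    rw [hid]
    exact (Dvd.intro (-(g * (y - x))) (by ring))
  · simp only
    rw [hid]
    exact (Dvd.intro (-(g * (y2 - x))) (by ring))

/-- Choose `q` for every `z ∈ TG` (`tg_data`, as a function `φ`). The map `z ↦ (φ z, z.2.1)` has
image in `F ×ˢ Icc 1 h` with `F = (TG ...).image φ`, and `#F` is bounded by `gam_card` with `4 μ`
(`1/h ≤ μ ≤ 4 μ`). Over a value `(q, x)` the triples `z` are determined by `(z.1, z.2.2)`, and
both differences with `x` divide `n = q.1 x^2 - q.2.1 x + q.2.2 ≠ 0`, `|n| ≤ h^3 ≤ 1000 h^6`, so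
there are at most `m^2` of them (`div_pair_card`). Hence
`#TG ≤ m^2 h #F ≤ 600 m^2 h (16 μ^2 h^2 t + 64 μ^3 h^2 t^3)`. -/
theorem tg_card {p : ℕ} [Fact p.Prime] {S : ℤ} {h m : ℕ} (H : Hyp p S h m) (t : ℝ)
    (ht : 1 ≤ t) (hΛ : (h : ℝ) ^ 4 ≤ t ^ 3 * p) (hL : LBS p S h (1 / t)) (μ : ℝ)
    (hμ : 1 / (h : ℝ) ≤ μ) (hμ1 : μ ≤ 1) :
    ((TG p S h μ).card : ℝ) ≤
      600 * (m : ℝ) ^ 2 * (h : ℝ) ^ 3 * (16 * μ ^ 2 * t + 64 * μ ^ 3 * t ^ 3) := by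
  classical
  have hh : (1 : ℝ) ≤ h := by exact_mod_cast H.hh
  have hh0 : (0 : ℝ) < h := by linarith
  have hμ0 : 0 < μ := lt_of_lt_of_le (by positivity) hμ
  have hdata : ∀ z : ℤ × ℤ × ℤ, ∃ q : ℤ × ℤ × ℤ, z ∈ TG p S h μ →
      |(q.1 : ℝ)| ≤ (4 * μ) * h ∧ |(q.2.1 : ℝ)| ≤ (4 * μ) * (h : ℝ) ^ 2 ∧
      |(q.2.2 : ℝ)| ≤ (4 * μ) * (h : ℝ) ^ 3 ∧
      ((q.1 * S ^ 2 + q.2.1 * S + q.2.2 : ℤ) : ZMod p) = 0 ∧
      q.1 * z.2.1 ^ 2 - q.2.1 * z.2.1 + q.2.2 ≠ 0 ∧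
      |q.1 * z.2.1 ^ 2 - q.2.1 * z.2.1 + q.2.2| ≤ (h : ℤ) ^ 3 ∧
      (z.1 - z.2.1) ∣ (q.1 * z.2.1 ^ 2 - q.2.1 * z.2.1 + q.2.2) ∧
      (z.2.2 - z.2.1) ∣ (q.1 * z.2.1 ^ 2 - q.2.1 * z.2.1 + q.2.2) := by
    intro z
    by_cases hz : z ∈ TG p S h μ
    · obtain ⟨q, hq⟩ := tg_data H μ hμ0 hμ1 z hz
      exact ⟨q, fun _ => hq⟩
    · exact ⟨0, fun h => absurd h hz⟩
  choose φ hφ using hdata
  set F : Finset (ℤ × ℤ × ℤ) := (TG p S h μ).image φ with hF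
  have hFc := gam_card H t ht hΛ hL (4 * μ) (by linarith) F (by
    intro q hq
    obtain ⟨z, hz, rfl⟩ := Finset.mem_image.1 hq
    obtain ⟨a1, a2, a3, a4, -⟩ := hφ z hz
    exact ⟨a1, a2, a3, a4⟩)
  have himg : ((TG p S h μ).image fun z => (φ z, z.2.1)).card ≤ F.card * h := by
    have h1 : ((TG p S h μ).image fun z => (φ z, z.2.1)) ⊆ F ×ˢ Finset.Icc (1 : ℤ) h := by
      intro q hq
      obtain ⟨z, hz, rfl⟩ := Finset.mem_image.1 hq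
      rw [Finset.mem_product]
      refine ⟨Finset.mem_image_of_mem _ hz, ?_⟩
      have := (mem_Tri.1 (mem_TG.1 hz).1).1.2.1
      exact Finset.mem_Icc.2 this
    have h2 := Finset.card_le_card h1
    rw [Finset.card_product, Int.card_Icc] at h2
    simpa using h2
  have hcard : (TG p S h μ).card ≤ m ^ 2 * ((TG p S h μ).image fun z => (φ z, z.2.1)).card := by
    apply Finset.card_le_mul_card_image
    intro b hb
    obtain ⟨z0, hz0, hb0⟩ := Finset.mem_image.1 hb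
    obtain ⟨-, -, -, -, c1, c2, -, -⟩ := hφ z0 hz0
    have hb1 : φ z0 = b.1 := congrArg Prod.fst hb0
    have hb2 : z0.2.1 = b.2 := congrArg Prod.snd hb0
    rw [hb1, hb2] at c1 c2
    have hinj : (((TG p S h μ).filter fun z => (φ z, z.2.1) = b).image
        fun z => (z.1, z.2.2)).card = ((TG p S h μ).filter fun z => (φ z, z.2.1) = b).card := by
      apply Finset.card_image_of_injOn
      intro q hq q' hq' hqq
      have e1 := (Finset.mem_filter.1 (Finset.mem_coe.1 hq)).2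
      have e2 := (Finset.mem_filter.1 (Finset.mem_coe.1 hq')).2
      have e3 : q.2.1 = q'.2.1 := congrArg Prod.snd (e1.trans e2.symm)
      simp only [Prod.mk.injEq] at hqq
      exact Prod.ext hqq.1 (Prod.ext e3 hqq.2)
    rw [← hinj]
    apply div_pair_card H.hm _ b.2 _ c1
    · have h1 : (1 : ℤ) ≤ h := by exact_mod_cast H.hh
      have h3 : (h : ℤ) ^ 3 ≤ (h : ℤ) ^ 6 := pow_le_pow_right₀ h1 (by norm_num)
      have h6 : (0 : ℤ) ≤ (h : ℤ) ^ 6 := by positivity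
      linarith
    · intro r hr
      obtain ⟨z, hz, rfl⟩ := Finset.mem_image.1 hr
      obtain ⟨hz, hzb⟩ := Finset.mem_filter.1 hz
      obtain ⟨-, -, -, -, -, -, d1, d2⟩ := hφ z hz
      have g1 : φ z = b.1 := congrArg Prod.fst hzb
      have g2 : z.2.1 = b.2 := congrArg Prod.snd hzb
      rw [g1, g2] at d1 d2
      exact ⟨d1, d2⟩
  have hfin : ((TG p S h μ).card : ℝ) ≤ (m : ℝ) ^ 2 * ((F.card : ℝ) * h) := by
    have : (TG p S h μ).card ≤ m ^ 2 * (F.card * h) :=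
      hcard.trans (Nat.mul_le_mul_left _ himg)
    exact_mod_cast this
  calc ((TG p S h μ).card : ℝ) ≤ (m : ℝ) ^ 2 * ((F.card : ℝ) * h) := hfin
    _ ≤ (m : ℝ) ^ 2 * ((600 * ((4 * μ) ^ 2 * (h : ℝ) ^ 2 * t + (4 * μ) ^ 3 * (h : ℝ) ^ 2 * t ^ 3))
        * h) := by
        apply mul_le_mul_of_nonneg_left _ (by positivity)
        exact mul_le_mul_of_nonneg_right hFc hh0.le
    _ = _ := by ring

/-- The linear bound. If `μ ≤ 1/t` (so `μ t ≤ 1`): `16 μ^2 t + 64 μ^3 t^3 ≤ 80 μ t` by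
`μ^2 t ≤ μ t` and `μ^3 t^3 = (μ t)^2 (μ t) ≤ μ t`; so `tg_card` gives `48000 m^2 h^3 t μ`.
If `μ ≥ 1/t`: `#TG ≤ #Tri ≤ h^3 ≤ h^3 t μ` and `m ≥ 1` (`two_le_of_hyp`). -/
theorem tg_lin {p : ℕ} [Fact p.Prime] {S : ℤ} {h m : ℕ} (H : Hyp p S h m) (t : ℝ)
    (ht : 1 ≤ t) (hΛ : (h : ℝ) ^ 4 ≤ t ^ 3 * p) (hL : LBS p S h (1 / t)) (μ : ℝ)
    (hμ : 1 / (h : ℝ) ≤ μ) (hμ1 : μ ≤ 1) :
    ((TG p S h μ).card : ℝ) ≤ 48000 * (m : ℝ) ^ 2 * (h : ℝ) ^ 3 * t * μ := by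
  have hh : (1 : ℝ) ≤ h := by exact_mod_cast H.hh
  have hh0 : (0 : ℝ) < h := by linarith
  have hμ0 : 0 < μ := lt_of_lt_of_le (by positivity) hμ
  have ht0 : 0 < t := by linarith
  have hm2 : (2 : ℝ) ≤ m := by exact_mod_cast two_le_of_hyp H
  by_cases hμt : μ * t ≤ 1
  · have h1 := tg_card H t ht hΛ hL μ hμ hμ1
    have e1 : 16 * μ ^ 2 * t + 64 * μ ^ 3 * t ^ 3 ≤ 80 * (μ * t) := by
      have f1 : μ * (μ * t) ≤ 1 * (μ * t) := mul_le_mul_of_nonneg_right hμ1 (by positivity)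
      have f2 : (μ * t) ^ 2 ≤ 1 := pow_le_one₀ (by positivity) hμt
      have f3 : (μ * t) ^ 2 * (μ * t) ≤ 1 * (μ * t) :=
        mul_le_mul_of_nonneg_right f2 (by positivity)
      have f4 : 16 * μ ^ 2 * t + 64 * μ ^ 3 * t ^ 3 = 16 * (μ * (μ * t)) +
          64 * ((μ * t) ^ 2 * (μ * t)) := by ring
      rw [f4]
      linarith
    calc ((TG p S h μ).card : ℝ) ≤ _ := h1
      _ ≤ 600 * (m : ℝ) ^ 2 * (h : ℝ) ^ 3 * (80 * (μ * t)) :=
          mul_le_mul_of_nonneg_left e1 (by positivity)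
      _ = _ := by ring
  · push Not at hμt
    have h1 : (TG p S h μ).card ≤ h ^ 3 := by
      classical
      have s1 : TG p S h μ ⊆ Finset.Icc (1 : ℤ) h ×ˢ Finset.Icc (1 : ℤ) h ×ˢ Finset.Icc (1 : ℤ) h := by
        intro z hz
        obtain ⟨⟨a1, a2, a3⟩, -⟩ := mem_Tri.1 (mem_TG.1 hz).1
        rw [Finset.mem_product, Finset.mem_product, Finset.mem_Icc, Finset.mem_Icc,
          Finset.mem_Icc]
        exact ⟨a1, a2, a3⟩
      have s2 := Finset.card_le_card s1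
      rw [Finset.card_product, Finset.card_product, Int.card_Icc] at s2
      calc (TG p S h μ).card ≤ _ := s2
        _ = h ^ 3 := by
          simp
          ring
    have h2 : ((TG p S h μ).card : ℝ) ≤ (h : ℝ) ^ 3 := by exact_mod_cast h1
    have e1 : (1 : ℝ) ≤ 48000 * (m : ℝ) ^ 2 := by
      have : (2 : ℝ) ^ 2 ≤ (m : ℝ) ^ 2 := pow_le_pow_left₀ (by norm_num) hm2 2
      linarith
    calc ((TG p S h μ).card : ℝ) ≤ (h : ℝ) ^ 3 := h2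
      _ = 1 * (h : ℝ) ^ 3 * 1 := by ring
      _ ≤ (48000 * (m : ℝ) ^ 2) * (h : ℝ) ^ 3 * (μ * t) := by
          apply mul_le_mul _ hμt.le zero_le_one (by positivity)
          exact mul_le_mul_of_nonneg_right e1 (by positivity)
      _ = _ := by ring

end Pool.Agent.H.MP_03bc95_nt
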