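import Pool.Agent.H.MP_03bc95_nt.TDef
import Pool.Agent.H.MP_03bc95_nt.Ea

open Finset

namespace Pool.Agent.H.MP_03bc95_nt

/-- `∑ R2 ((S+y)/(S+x)) = E4 1` (here only `≤` is needed, but equality holds): `R2 l` counts
`(x',y')` with `S + x' = l (S + y')`; for `l = (S+y)(S+x)⁻¹` (with `S + x ≠ 0`) this is
`(S+x')(S+x) = 1 * ((S+y)(S+y'))`, so the quadruples `(x', x, y, y')` are the solutions counted by
`E4 p S h 1`. E.g. inject the `Finset.sigma` / product into the filter of `E4`, or write both sides as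
sums of indicators over the fourfold product. -/
theorem r2_total {p : ℕ} [Fact p.Prime] {S : ℤ} {h m : ℕ} (H : Hyp p S h m) :
    ∑ x ∈ Icc (1 : ℤ) h, ∑ y ∈ Icc (1 : ℤ) h,
      R2 p S h (((S + y : ℤ) : ZMod p) * (((S + x : ℤ) : ZMod p))⁻¹) ≤ E4 p S h 1 := by
  classical
  have hmem : ∀ x y : ℤ, x ∈ Icc (1 : ℤ) h → y ∈ Icc (1 : ℤ) h →
      R2 p S h (((S + y : ℤ) : ZMod p) * (((S + x : ℤ) : ZMod p))⁻¹) =
      ((((Icc (1 : ℤ) h ×ˢ Icc (1 : ℤ) h ×ˢ Icc (1 : ℤ) h ×ˢ Icc (1 : ℤ) h).filter fun z =>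
        ((S + z.1 : ℤ) : ZMod p) * ((S + z.2.1 : ℤ) : ZMod p)
          = 1 * (((S + z.2.2.1 : ℤ) : ZMod p) * ((S + z.2.2.2 : ℤ) : ZMod p))).filter
            fun z => (z.2.1, z.2.2.1) = (x, y))).card := by
    intro x y hx hy
    unfold R2
    have hSx := H.hS x (Finset.mem_Icc.1 hx).1 (Finset.mem_Icc.1 hx).2
    refine Finset.card_bij' (fun z _ => (z.1, x, y, z.2)) (fun z _ => (z.1, z.2.2.2)) ?_ ?_ ?_ ?_
    · intro z hz
      simp only [Finset.mem_filter, Finset.mem_product] at hz ⊢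
      obtain ⟨⟨h1, h2⟩, h3⟩ := hz
      refine ⟨⟨⟨h1, hx, hy, h2⟩, ?_⟩, trivial⟩
      rw [h3]
      have e1 : ((S + y : ℤ) : ZMod p) * (((S + x : ℤ) : ZMod p))⁻¹ * ((S + z.2 : ℤ) : ZMod p)
          * ((S + x : ℤ) : ZMod p) = ((S + y : ℤ) : ZMod p) * ((S + z.2 : ℤ) : ZMod p)
          * ((((S + x : ℤ) : ZMod p))⁻¹ * ((S + x : ℤ) : ZMod p)) := by ring
      rw [e1, inv_mul_cancel₀ hSx]
      ring
    · intro z hz
      simp only [Finset.mem_filter, Finset.mem_product, Prod.mk.injEq] at hz ⊢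
      obtain ⟨⟨⟨h1, h2, h3, h4⟩, h5⟩, h6, h7⟩ := hz
      refine ⟨⟨h1, h4⟩, ?_⟩
      rw [h6, h7] at h5
      apply mul_right_cancel₀ hSx
      rw [h5]
      have e1 : ((S + y : ℤ) : ZMod p) * (((S + x : ℤ) : ZMod p))⁻¹ * ((S + z.2.2.2 : ℤ) : ZMod p)
          * ((S + x : ℤ) : ZMod p) = ((S + y : ℤ) : ZMod p) * ((S + z.2.2.2 : ℤ) : ZMod p)
          * ((((S + x : ℤ) : ZMod p))⁻¹ * ((S + x : ℤ) : ZMod p)) := by ring
      rw [e1, inv_mul_cancel₀ hSx]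
      ring
    · intro z _
      rfl
    · intro z hz
      simp only [Finset.mem_filter, Prod.mk.injEq] at hz
      obtain ⟨_, h6, h7⟩ := hz
      obtain ⟨z1, z2, z3, z4⟩ := z
      simp only at h6 h7 ⊢
      rw [h6, h7]
  apply le_of_eq
  rw [← Finset.sum_product']
  unfold E4
  rw [Finset.card_eq_sum_card_fiberwise (f := fun z : ℤ × ℤ × ℤ × ℤ => (z.2.1, z.2.2.1))
    (t := Icc (1 : ℤ) h ×ˢ Icc (1 : ℤ) h)]
  · apply Finset.sum_congr rfl
    rintro ⟨x, y⟩ hxy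
    obtain ⟨hx, hy⟩ := Finset.mem_product.1 hxy
    exact hmem x y hx hy
  · intro z hz
    have hz' := Finset.mem_coe.mp hz
    simp only [Finset.mem_filter, Finset.mem_product] at hz'
    exact Finset.mem_coe.mpr (Finset.mem_product.2 ⟨hz'.1.2.1, hz'.1.2.2.1⟩)

/-- The trivial solutions of all triples. `rho p S S y2 x y = l * (S + y2)` with
`l = (S+y)(S+x)⁻¹` (`mul_comm`); the sum over `Tri h` is at most the sum over all `(y2,x,y)` in
`[1,h]^3`, i.e. `∑ x, ∑ y, ∑ y2`; `triv_sum` bounds the inner sum by `2 h R2 l`, `r2_total` and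
`e4_one : E4 p S h 1 ≤ 2 m h^2`: total `≤ 2 h * 2 m h^2`. -/
theorem triv_total {p : ℕ} [Fact p.Prime] {S : ℤ} {h m : ℕ} (H : Hyp p S h m) :
    ∑ z ∈ Tri h, (Triv p S h (rho p S S z.1 z.2.1 z.2.2)).card ≤ 4 * m * h ^ 3 := by
  classical
  have h1 : ∑ z ∈ Tri h, (Triv p S h (rho p S S z.1 z.2.1 z.2.2)).card ≤
      ∑ z ∈ Icc (1 : ℤ) h ×ˢ Icc (1 : ℤ) h ×ˢ Icc (1 : ℤ) h,
        (Triv p S h (rho p S S z.1 z.2.1 z.2.2)).card :=
    Finset.sum_le_sum_of_subset (Finset.filter_subset _ _)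
  refine h1.trans ?_
  have h2 : ∑ z ∈ Icc (1 : ℤ) h ×ˢ Icc (1 : ℤ) h ×ˢ Icc (1 : ℤ) h,
        (Triv p S h (rho p S S z.1 z.2.1 z.2.2)).card =
      ∑ x ∈ Icc (1 : ℤ) h, ∑ y ∈ Icc (1 : ℤ) h, ∑ y2 ∈ Icc (1 : ℤ) h,
        (Triv p S h (rho p S S y2 x y)).card := by
    rw [Finset.sum_product, Finset.sum_comm' (s' := fun _ => Icc (1 : ℤ) h)
      (t' := Icc (1 : ℤ) h ×ˢ Icc (1 : ℤ) h) (by intro x y; tauto), Finset.sum_product]
  rw [h2]
  have h3 : ∀ x ∈ Icc (1 : ℤ) h, ∀ y ∈ Icc (1 : ℤ) h,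
      ∑ y2 ∈ Icc (1 : ℤ) h, (Triv p S h (rho p S S y2 x y)).card ≤
        2 * h * R2 p S h (((S + y : ℤ) : ZMod p) * (((S + x : ℤ) : ZMod p))⁻¹) := by
    intro x _ y _
    refine le_trans (le_of_eq ?_) (triv_sum p S h _)
    apply Finset.sum_congr rfl
    intro y2 _
    have : rho p S S y2 x y =
        ((S + y : ℤ) : ZMod p) * (((S + x : ℤ) : ZMod p))⁻¹ * ((S + y2 : ℤ) : ZMod p) := by
      unfold rho
      ring
    rw [this]
  calc ∑ x ∈ Icc (1 : ℤ) h, ∑ y ∈ Icc (1 : ℤ) h, ∑ y2 ∈ Icc (1 : ℤ) h,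
        (Triv p S h (rho p S S y2 x y)).card
      ≤ ∑ x ∈ Icc (1 : ℤ) h, ∑ y ∈ Icc (1 : ℤ) h,
        2 * h * R2 p S h (((S + y : ℤ) : ZMod p) * (((S + x : ℤ) : ZMod p))⁻¹) :=
        Finset.sum_le_sum fun x hx => Finset.sum_le_sum fun y hy => h3 x hx y hy
    _ = 2 * h * ∑ x ∈ Icc (1 : ℤ) h, ∑ y ∈ Icc (1 : ℤ) h,
        R2 p S h (((S + y : ℤ) : ZMod p) * (((S + x : ℤ) : ZMod p))⁻¹) := by
        rw [Finset.mul_sum]
        apply Finset.sum_congr rfl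
        intro x _
        rw [Finset.mul_sum]
    _ ≤ 2 * h * (2 * m * h ^ 2) := Nat.mul_le_mul_left _ ((r2_total H).trans (e4_one H))
    _ = 4 * m * h ^ 3 := by ring

/-- The diagonal triples: for `x = y2` (and `S + x ≠ 0`) `rho p S S x x y = S + y`, for `x = y`
`rho p S S y2 x x = S + y2`. The sum over all `(x,y,y2)` is at most the sum over `Tri h` plus
`∑ x, ∑ y, #Sol (S+y)` plus `∑ x, ∑ y2, #Sol (S+y2)`, and `∑ y, #Sol (1 * (S+y)) = E4 p S h 1`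
(`e4_eq`), `≤ 2 m h^2` (`e4_one`); so each of the two is at most `2 m h^3`. -/
theorem sol_total {p : ℕ} [Fact p.Prime] {S : ℤ} {h m : ℕ} (H : Hyp p S h m) :
    ∑ x ∈ Icc (1 : ℤ) h, ∑ y ∈ Icc (1 : ℤ) h, ∑ y2 ∈ Icc (1 : ℤ) h,
      (Sol p S h (rho p S S y2 x y)).card ≤
    ∑ z ∈ Tri h, (Sol p S h (rho p S S z.1 z.2.1 z.2.2)).card + 4 * m * h ^ 3 := by
  classical
  have h2 : ∑ x ∈ Icc (1 : ℤ) h, ∑ y ∈ Icc (1 : ℤ) h, ∑ y2 ∈ Icc (1 : ℤ) h,
        (Sol p S h (rho p S S y2 x y)).card =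
      ∑ z ∈ Icc (1 : ℤ) h ×ˢ Icc (1 : ℤ) h ×ˢ Icc (1 : ℤ) h,
        (Sol p S h (rho p S S z.1 z.2.1 z.2.2)).card := by
    rw [Finset.sum_product, Finset.sum_comm' (s' := fun _ => Icc (1 : ℤ) h)
      (t' := Icc (1 : ℤ) h ×ˢ Icc (1 : ℤ) h) (by intro x y; tauto), Finset.sum_product]
  rw [h2]
  have hE : ∑ y ∈ Icc (1 : ℤ) h, (Sol p S h ((S + y : ℤ) : ZMod p)).card ≤ 2 * m * h ^ 2 := by
    have := e4_eq p S h 1
    simp only [one_mul] at this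
    rw [← this]
    exact e4_one H
  have hsub : Icc (1 : ℤ) h ×ˢ Icc (1 : ℤ) h ×ˢ Icc (1 : ℤ) h ⊆
      Tri h ∪ (((Icc (1 : ℤ) h ×ˢ Icc (1 : ℤ) h).image fun q => (q.1, q.1, q.2)) ∪
        ((Icc (1 : ℤ) h ×ˢ Icc (1 : ℤ) h).image fun q => (q.2, q.1, q.1))) := by
    rintro ⟨y2, x, y⟩ hz
    have hz' := hz
    simp only [Finset.mem_product] at hz
    obtain ⟨a1, a2, a3⟩ := hz
    by_cases h1 : x = y2
    · apply Finset.mem_union_right
      apply Finset.mem_union_left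
      rw [Finset.mem_image]
      exact ⟨(x, y), Finset.mem_product.2 ⟨a2, a3⟩, by rw [h1]⟩
    by_cases h3 : x = y
    · apply Finset.mem_union_right
      apply Finset.mem_union_right
      rw [Finset.mem_image]
      exact ⟨(x, y2), Finset.mem_product.2 ⟨a2, a1⟩, by rw [h3]⟩
    · apply Finset.mem_union_left
      rw [Tri, Finset.mem_filter]
      exact ⟨hz', h1, h3⟩
  have hS1 : ∑ z ∈ (Icc (1 : ℤ) h ×ˢ Icc (1 : ℤ) h).image (fun q : ℤ × ℤ => (q.1, q.1, q.2)),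
      (Sol p S h (rho p S S z.1 z.2.1 z.2.2)).card ≤ 2 * m * h ^ 3 := by
    rw [Finset.sum_image (by
      intro a _ b _ hab
      simp only [Prod.mk.injEq] at hab
      exact Prod.ext hab.1 hab.2.2), Finset.sum_product]
    calc ∑ x ∈ Icc (1 : ℤ) h, ∑ y ∈ Icc (1 : ℤ) h, (Sol p S h (rho p S S x x y)).card
        = ∑ x ∈ Icc (1 : ℤ) h, ∑ y ∈ Icc (1 : ℤ) h, (Sol p S h ((S + y : ℤ) : ZMod p)).card := by
          apply Finset.sum_congr rfl
          intro x hx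
          apply Finset.sum_congr rfl
          intro y _
          have hSx := H.hS x (Finset.mem_Icc.1 hx).1 (Finset.mem_Icc.1 hx).2
          have : rho p S S x x y = ((S + y : ℤ) : ZMod p) := by
            unfold rho
            have e1 : ((S + x : ℤ) : ZMod p) * ((S + y : ℤ) : ZMod p) * (((S + x : ℤ) : ZMod p))⁻¹
              = ((S + y : ℤ) : ZMod p) * ((((S + x : ℤ) : ZMod p))⁻¹ * ((S + x : ℤ) : ZMod p)) := by
              ring
            rw [e1, inv_mul_cancel₀ hSx, mul_one]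
          rw [this]
      _ ≤ ∑ _x ∈ Icc (1 : ℤ) h, 2 * m * h ^ 2 := Finset.sum_le_sum fun _ _ => hE
      _ = 2 * m * h ^ 3 := by
          rw [Finset.sum_const, Int.card_Icc, smul_eq_mul]
          simp
          ring
  have hS2 : ∑ z ∈ (Icc (1 : ℤ) h ×ˢ Icc (1 : ℤ) h).image (fun q : ℤ × ℤ => (q.2, q.1, q.1)),
      (Sol p S h (rho p S S z.1 z.2.1 z.2.2)).card ≤ 2 * m * h ^ 3 := by
    rw [Finset.sum_image (by
      intro a _ b _ hab
      simp only [Prod.mk.injEq] at hab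
      exact Prod.ext hab.2.1 hab.1), Finset.sum_product]
    calc ∑ x ∈ Icc (1 : ℤ) h, ∑ y ∈ Icc (1 : ℤ) h, (Sol p S h (rho p S S y x x)).card
        = ∑ x ∈ Icc (1 : ℤ) h, ∑ y ∈ Icc (1 : ℤ) h, (Sol p S h ((S + y : ℤ) : ZMod p)).card := by
          apply Finset.sum_congr rfl
          intro x hx
          apply Finset.sum_congr rfl
          intro y _
          have hSx := H.hS x (Finset.mem_Icc.1 hx).1 (Finset.mem_Icc.1 hx).2
          have : rho p S S y x x = ((S + y : ℤ) : ZMod p) := by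
            unfold rho
            have e1 : ((S + y : ℤ) : ZMod p) * ((S + x : ℤ) : ZMod p) * (((S + x : ℤ) : ZMod p))⁻¹
              = ((S + y : ℤ) : ZMod p) * ((((S + x : ℤ) : ZMod p))⁻¹ * ((S + x : ℤ) : ZMod p)) := by
              ring
            rw [e1, inv_mul_cancel₀ hSx, mul_one]
          rw [this]
      _ ≤ ∑ _x ∈ Icc (1 : ℤ) h, 2 * m * h ^ 2 := Finset.sum_le_sum fun _ _ => hE
      _ = 2 * m * h ^ 3 := by
          rw [Finset.sum_const, Int.card_Icc, smul_eq_mul]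
          simp
          ring
  refine (Finset.sum_le_sum_of_subset hsub).trans ?_
  have u1 := Finset.sum_union_inter (s₁ := Tri h)
    (s₂ := (((Icc (1 : ℤ) h ×ˢ Icc (1 : ℤ) h).image fun q : ℤ × ℤ => (q.1, q.1, q.2)) ∪
        ((Icc (1 : ℤ) h ×ˢ Icc (1 : ℤ) h).image fun q : ℤ × ℤ => (q.2, q.1, q.1))))
    (f := fun z : ℤ × ℤ × ℤ => (Sol p S h (rho p S S z.1 z.2.1 z.2.2)).card)
  have u2 := Finset.sum_union_inter
    (s₁ := (Icc (1 : ℤ) h ×ˢ Icc (1 : ℤ) h).image fun q : ℤ × ℤ => (q.1, q.1, q.2))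
    (s₂ := (Icc (1 : ℤ) h ×ˢ Icc (1 : ℤ) h).image fun q : ℤ × ℤ => (q.2, q.1, q.1))
    (f := fun z : ℤ × ℤ × ℤ => (Sol p S h (rho p S S z.1 z.2.1 z.2.2)).card)
  have e : 4 * m * h ^ 3 = 2 * m * h ^ 3 + 2 * m * h ^ 3 := by ring
  rw [e]
  omega

end Pool.Agent.H.MP_03bc95_nt
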