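import Pool.Agent.H.MP_03bc95_nt.TC
import Pool.Agent.H.MP_03bc95_nt.TE
import Pool.Agent.H.MP_03bc95_nt.TF0
import Pool.Agent.H.MP_03bc95_nt.TF1

open Finset

namespace Pool.Agent.H.MP_03bc95_nt

/-- `Tri h` has at most `h^3` elements. -/
theorem TF_tri (h : ℕ) : ((Tri h).card : ℝ) ≤ (h : ℝ) ^ 3 := by
  classical
  have s2 := Finset.card_filter_le (Icc (1 : ℤ) h ×ˢ Icc (1 : ℤ) h ×ˢ Icc (1 : ℤ) h)
    (fun z : ℤ × ℤ × ℤ => z.2.1 ≠ z.1 ∧ z.2.1 ≠ z.2.2)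
  rw [Finset.card_product, Finset.card_product, Int.card_Icc] at s2
  have s3 : (Tri h).card ≤ h ^ 3 := by
    unfold Tri
    calc _ ≤ _ := s2
      _ = h ^ 3 := by
        simp
        ring
  exact_mod_cast s3

/-- `rho` does not vanish on the triples. -/
theorem TF_rho {p : ℕ} [Fact p.Prime] {S : ℤ} {h m : ℕ} (H : Hyp p S h m) {z : ℤ × ℤ × ℤ}
    (hz : z ∈ Tri h) : rho p S S z.1 z.2.1 z.2.2 ≠ 0 := by
  obtain ⟨⟨a1, a2, a3⟩, -⟩ := mem_Tri.1 hz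
  unfold rho
  exact mul_ne_zero (mul_ne_zero (H.hS _ a1.1 a1.2) (H.hS _ a3.1 a3.2))
    (inv_ne_zero (H.hS _ a2.1 a2.2))

/-- Case A: no short vector of the lattice `a S + b = 0`. `dyadic_sum` with `T = Tri h`,
`Q z ν = LBG p S h (rho p S S z.1 z.2.1 z.2.2) ν`, `f z = #Sol`, `c z = #Triv`,
`a = 20000 m t^2`, `b = 20000 m t`, `K = 48000 m^2 h^3 t`:
* `hQ0`: `lbg_one_div`; `hf`: `lemmaA` (`rho ≠ 0` because `S + y2`, `S + y`, `S + x` are nonzero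
  modulo `p`); `hK`: a finset `G ⊆ Tri h` of elements with `¬ Q z ν` is contained in `TG p S h ν`,
  `tg_lin`.
* `#Tri ≤ h^3` and `a + b ≤ 40000 m t^2`; `2 b K (1 + log) = 1920000000 m^3 h^3 t^2 (1 + log)`;
  `∑ c ≤ 4 m h^3` (`triv_total`). Total at most `10^10 m^3 h^3 t^2 (1 + log)` (`m ≥ 1`, `t ≥ 1`). -/
theorem caseA_sum {p : ℕ} [Fact p.Prime] {S : ℤ} {h m : ℕ} (H : Hyp p S h m) (t : ℝ)
    (ht : 1 ≤ t) (hΛ : (h : ℝ) ^ 4 ≤ t ^ 3 * p) (hL : LBS p S h (1 / t)) :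
    ((∑ z ∈ Tri h, (Sol p S h (rho p S S z.1 z.2.1 z.2.2)).card : ℕ) : ℝ) ≤
      10 ^ 10 * (m : ℝ) ^ 3 * (h : ℝ) ^ 3 * t ^ 2 * (1 + Nat.log 2 h) := by
  classical
  have hh : (1 : ℝ) ≤ h := by exact_mod_cast H.hh
  have hh0 : (0 : ℝ) < h := by linarith
  have ht0 : 0 < t := by linarith
  have hm2 : (2 : ℝ) ≤ m := by exact_mod_cast two_le_of_hyp H
  have hm0 : (0 : ℝ) < m := by linarith
  have key := dyadic_sum (Tri h) (fun z ν => LBG p S h (rho p S S z.1 z.2.1 z.2.2) ν)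
    (fun z => ((Sol p S h (rho p S S z.1 z.2.1 z.2.2)).card : ℝ))
    (fun z => ((Triv p S h (rho p S S z.1 z.2.1 z.2.2)).card : ℝ))
    (20000 * m * t ^ 2) (20000 * m * t) (48000 * (m : ℝ) ^ 2 * (h : ℝ) ^ 3 * t) h H.hh
    (by positivity) (by positivity) (by positivity)
    (fun z _ => lbg_one_div H _)
    (by
      intro z hz ν hν hν1 hQ
      have := lemmaA H t ht hΛ _ (TF_rho H hz) ν hν hν1 hQ
      calc _ ≤ _ := this
        _ = 20000 * m * t ^ 2 + 20000 * m * t / ν +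
            ((Triv p S h (rho p S S z.1 z.2.1 z.2.2)).card : ℝ) := by ring)
    (by
      intro ν G hG hGQ hν hν1
      have h1 : G ⊆ TG p S h ν := by
        intro z hz
        rw [mem_TG]
        exact ⟨hG hz, hGQ z hz⟩
      have h2 : (G.card : ℝ) ≤ (TG p S h ν).card := by exact_mod_cast Finset.card_le_card h1
      exact h2.trans (tg_lin H t ht hΛ hL ν hν hν1))
  have hT := triv_total H
  have hT' : ∑ z ∈ Tri h, ((Triv p S h (rho p S S z.1 z.2.1 z.2.2)).card : ℝ) ≤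
      4 * m * (h : ℝ) ^ 3 := by exact_mod_cast hT
  have hN := TF_tri h
  rw [Nat.cast_sum]
  set L : ℝ := 1 + Nat.log 2 h with hL'
  have hL1 : 1 ≤ L := by
    have : (0 : ℝ) ≤ Nat.log 2 h := Nat.cast_nonneg _
    linarith
  have hL0 : 0 < L := by linarith
  set X : ℝ := (m : ℝ) ^ 3 * (h : ℝ) ^ 3 * t ^ 2 * L with hX
  have hm1 : (1 : ℝ) ≤ (m : ℝ) ^ 2 := one_le_pow₀ (by linarith)
  have ht2 : (1 : ℝ) ≤ t ^ 2 := one_le_pow₀ ht
  have htt : t ≤ t ^ 2 := by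
    calc t = t * 1 := by ring
      _ ≤ t * t := mul_le_mul_of_nonneg_left ht ht0.le
      _ = t ^ 2 := by ring
  have b1 : m * (h : ℝ) ^ 3 * t ^ 2 ≤ X := by
    calc m * (h : ℝ) ^ 3 * t ^ 2 = (m * (h : ℝ) ^ 3 * t ^ 2) * (1 * 1) := by ring
      _ ≤ (m * (h : ℝ) ^ 3 * t ^ 2) * ((m : ℝ) ^ 2 * L) := by
          apply mul_le_mul_of_nonneg_left _ (by positivity)
          exact mul_le_mul hm1 hL1 zero_le_one (by positivity)
      _ = X := by rw [hX]; ring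
  have b2 : m * (h : ℝ) ^ 3 ≤ X := by
    refine le_trans ?_ b1
    calc m * (h : ℝ) ^ 3 = m * (h : ℝ) ^ 3 * 1 := by ring
      _ ≤ _ := mul_le_mul_of_nonneg_left ht2 (by positivity)
  have b3 : ((Tri h).card : ℝ) * (20000 * m * t ^ 2 + 20000 * m * t) ≤ 40000 * X := by
    calc ((Tri h).card : ℝ) * (20000 * m * t ^ 2 + 20000 * m * t) ≤
          (h : ℝ) ^ 3 * (40000 * m * t ^ 2) := by
          apply mul_le_mul hN _ (by positivity) (by positivity)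
          have := mul_le_mul_of_nonneg_left htt (by positivity : (0 : ℝ) ≤ 20000 * m)
          linarith
      _ = 40000 * (m * (h : ℝ) ^ 3 * t ^ 2) := by ring
      _ ≤ 40000 * X := by linarith
  have b4 : 2 * (20000 * m * t) * (48000 * (m : ℝ) ^ 2 * (h : ℝ) ^ 3 * t) * L =
      1920000000 * X := by rw [hX]; ring
  have b5 : 10 ^ 10 * (m : ℝ) ^ 3 * (h : ℝ) ^ 3 * t ^ 2 * L = 10 ^ 10 * X := by rw [hX]; ring
  have hX0 : 0 ≤ X := by positivity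
  rw [b5]
  rw [b4] at key
  linarith

end Pool.Agent.H.MP_03bc95_nt
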