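import Pool.Agent.H.MP_03bc95_nt.TG1

open Finset

namespace Pool.Agent.H.MP_03bc95_nt

/-- Data of an exceptional triple `z = (y2, x, y)` in the structured case. `¬ LBWk` gives
`(w,g) ≠ 0` with `w = A ρ g` modulo `p`, `|w| < 3 k h^3 ν`, `|g| < ν h`,
`ρ = (S+y2)(S+y)/(S+x)`. `g ≠ 0`: otherwise `w = 0` modulo `p` and `|w| < 3 h^3 < p`, so `w = 0`.
Put `X = B + A x`, `Y2 = B + A y2`, `Y = B + A y` (`abk_X`: they are `A (S + ·)` modulo `p`).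
Multiplying by `A (S + x)`: `w X = g Y2 Y` modulo `p`. Let `w X - g Y2 Y = p j` (integers).
`|w X - g Y2 Y| ≤ 3 k h^3 ν * 2 k h^2 + ν h * (2 k h^2)^2 = 10 k^2 h^5 ν` (`abk_X_ne`), and
`p |j| ≤ 10 k^2 h^5 ν ≤ 10 k^2 h ν t^3 p`. Put `n = g (y2 - x)(y - x)`: nonzero, `|n| ≤ ν h * h^2`.
As `Y2 = X + A (y2 - x)`, `Y = X + A (y - x)`: `g Y2 Y = X * (...) + A^2 n`, so
`A^2 n + j p = w X - X * (...)` is divisible by `X`. -/
theorem tw_data {p : ℕ} [Fact p.Prime] {S : ℤ} {h m : ℕ} (H : Hyp p S h m) (t : ℝ)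
    (ht : 1 ≤ t) (hΛ : (h : ℝ) ^ 4 ≤ t ^ 3 * p) {k : ℝ} (hk0 : 0 < k) (hk1 : k ≤ 1)
    {A B : ℤ} (hAB : ABk p S h k A B) (ν : ℝ) (hν : 0 < ν) (hν1 : ν ≤ 1)
    (z : ℤ × ℤ × ℤ) (hz : z ∈ TWk p S h k A ν) :
    ∃ n j : ℤ, n ≠ 0 ∧ |(n : ℝ)| ≤ (h : ℝ) ^ 3 * ν ∧ |(j : ℝ)| ≤ 10 * k ^ 2 * h * t ^ 3 * ν ∧
      (z.1 - z.2.1) ∣ n ∧ (z.2.2 - z.2.1) ∣ n ∧ (B + A * z.2.1) ∣ (A ^ 2 * n + j * p) := by
  obtain ⟨y2, x, y⟩ := z
  rw [mem_TWk, mem_Tri] at hz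
  obtain ⟨⟨⟨⟨hy1, hy2⟩, ⟨hx1, hx2⟩, hy3, hy4⟩, hne1, hne2⟩, hL⟩ := hz
  simp only at hy1 hy2 hx1 hx2 hy3 hy4 hne1 hne2 hL ⊢
  unfold LBWk at hL
  push Not at hL
  obtain ⟨w, g, hne, hwg, hw, hg⟩ := hL
  have hh : (1 : ℝ) ≤ h := by exact_mod_cast H.hh
  have hh0 : (0 : ℝ) < h := by linarith
  have ht0 : 0 < t := by linarith
  have hpR : (100000 : ℝ) * (h : ℝ) ^ 3 ≤ p := by exact_mod_cast H.hp
  have hh3 : (1 : ℝ) ≤ (h : ℝ) ^ 3 := one_le_pow₀ hh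
  have hp0 : (0 : ℝ) < p := by linarith
  have hA := abk_A_ne H hk1 hAB
  have hSx := H.hS x hx1 hx2
  have hg0 : g ≠ 0 := by
    intro h0
    have hw0 : (w : ZMod p) = 0 := by rw [hwg, h0]; simp
    have hwp : |(w : ℝ)| < p := by
      have e1 : ν * (3 * k * (h : ℝ) ^ 3) ≤ 3 * (h : ℝ) ^ 3 := by
        have e2 : ν * k ≤ 1 * 1 := mul_le_mul hν1 hk1 hk0.le zero_le_one
        have e3 := mul_le_mul_of_nonneg_right e2 (by positivity : (0 : ℝ) ≤ 3 * (h : ℝ) ^ 3)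
        calc ν * (3 * k * (h : ℝ) ^ 3) = ν * k * (3 * (h : ℝ) ^ 3) := by ring
          _ ≤ 1 * 1 * (3 * (h : ℝ) ^ 3) := e3
          _ = _ := by ring
      linarith
    exact hne (La.eq_zero_of_cast (p := p) w hw0 (by exact_mod_cast hwp)) h0
  obtain ⟨-, hXa⟩ := abk_X_ne H hk1 hAB x hx1 hx2
  obtain ⟨-, hY2a⟩ := abk_X_ne H hk1 hAB y2 hy1 hy2
  obtain ⟨-, hYa⟩ := abk_X_ne H hk1 hAB y hy3 hy4
  -- the congruence
  have hcong : ((w * (B + A * x) - g * (B + A * y2) * (B + A * y) : ℤ) : ZMod p) = 0 := by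
    have x1 := abk_X hAB x
    have x2 := abk_X hAB y2
    have x3 := abk_X hAB y
    rw [Int.cast_sub, Int.cast_mul, Int.cast_mul, Int.cast_mul, x1, x2, x3, hwg]
    unfold rho
    have e1 : (A : ZMod p) * (((S + y2 : ℤ) : ZMod p) * ((S + y : ℤ) : ZMod p)
        * (((S + x : ℤ) : ZMod p))⁻¹) * (g : ZMod p) * ((A : ZMod p) * ((S + x : ℤ) : ZMod p))
        = (g : ZMod p) * ((A : ZMod p) * ((S + y2 : ℤ) : ZMod p)) *
          ((A : ZMod p) * ((S + y : ℤ) : ZMod p))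
          * ((((S + x : ℤ) : ZMod p))⁻¹ * ((S + x : ℤ) : ZMod p)) := by ring
    rw [e1, inv_mul_cancel₀ hSx, mul_one, sub_self]
  obtain ⟨j, hj⟩ := (ZMod.intCast_zmod_eq_zero_iff_dvd _ _).1 hcong
  have hws : |(w : ℝ)| ≤ 3 * k * (h : ℝ) ^ 3 * ν := by linarith
  have hgs : |(g : ℝ)| ≤ h * ν := by linarith
  have hjb : |(j : ℝ)| ≤ 10 * k ^ 2 * h * t ^ 3 * ν := by
    have e1 : |((w * (B + A * x) - g * (B + A * y2) * (B + A * y) : ℤ) : ℝ)| ≤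
        10 * k ^ 2 * (h : ℝ) ^ 5 * ν := by
      have e2 : ((w * (B + A * x) - g * (B + A * y2) * (B + A * y) : ℤ) : ℝ)
          = (w : ℝ) * ((B + A * x : ℤ) : ℝ) -
            (g : ℝ) * ((B + A * y2 : ℤ) : ℝ) * ((B + A * y : ℤ) : ℝ) := by push_cast; ring
      rw [e2]
      calc |(w : ℝ) * ((B + A * x : ℤ) : ℝ) -
            (g : ℝ) * ((B + A * y2 : ℤ) : ℝ) * ((B + A * y : ℤ) : ℝ)|
          ≤ |(w : ℝ) * ((B + A * x : ℤ) : ℝ)| +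
            |(g : ℝ) * ((B + A * y2 : ℤ) : ℝ) * ((B + A * y : ℤ) : ℝ)| := abs_sub _ _
        _ = |(w : ℝ)| * |((B + A * x : ℤ) : ℝ)| +
            |(g : ℝ)| * |((B + A * y2 : ℤ) : ℝ)| * |((B + A * y : ℤ) : ℝ)| := by
            rw [abs_mul, abs_mul, abs_mul]
        _ ≤ (3 * k * (h : ℝ) ^ 3 * ν) * (2 * k * (h : ℝ) ^ 2) +
            (h * ν) * (2 * k * (h : ℝ) ^ 2) * (2 * k * (h : ℝ) ^ 2) := by
            apply add_le_add
            · exact mul_le_mul hws hXa (abs_nonneg _) (by positivity)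
            · exact mul_le_mul (mul_le_mul hgs hY2a (abs_nonneg _) (by positivity)) hYa
                (abs_nonneg _) (by positivity)
        _ = _ := by ring
    have e3 : ((w * (B + A * x) - g * (B + A * y2) * (B + A * y) : ℤ) : ℝ) = (p : ℝ) * j := by
      rw [hj]
      push_cast
      ring
    rw [e3, abs_mul, abs_of_pos hp0] at e1
    have e4 : |(j : ℝ)| * p ≤ (10 * k ^ 2 * h * t ^ 3 * ν) * p := by
      calc |(j : ℝ)| * p = (p : ℝ) * |(j : ℝ)| := by ring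
        _ ≤ _ := e1
        _ = (10 * k ^ 2 * h * ν) * (h : ℝ) ^ 4 := by ring
        _ ≤ (10 * k ^ 2 * h * ν) * (t ^ 3 * p) := mul_le_mul_of_nonneg_left hΛ (by positivity)
        _ = _ := by ring
    exact le_of_mul_le_mul_right e4 hp0
  refine ⟨g * ((y2 - x) * (y - x)), j, ?_, ?_, hjb, ?_, ?_, ?_⟩
  · apply mul_ne_zero hg0 (mul_ne_zero _ _)
    · exact sub_ne_zero.2 (Ne.symm hne1)
    · exact sub_ne_zero.2 (Ne.symm hne2)
  · have rx1 : (1 : ℝ) ≤ x := by exact_mod_cast hx1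
    have rx2 : (x : ℝ) ≤ h := by exact_mod_cast hx2
    have ry1 : (1 : ℝ) ≤ y := by exact_mod_cast hy3
    have ry2 : (y : ℝ) ≤ h := by exact_mod_cast hy4
    have rz1 : (1 : ℝ) ≤ y2 := by exact_mod_cast hy1
    have rz2 : (y2 : ℝ) ≤ h := by exact_mod_cast hy2
    have g3 : |(y2 : ℝ) - x| ≤ h := by rw [abs_le]; constructor <;> linarith
    have g4 : |(y : ℝ) - x| ≤ h := by rw [abs_le]; constructor <;> linarith
    push_cast
    rw [abs_mul, abs_mul]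
    calc |(g : ℝ)| * (|(y2 : ℝ) - x| * |(y : ℝ) - x|) ≤ (h * ν) * (h * h) :=
          mul_le_mul hgs (mul_le_mul g3 g4 (abs_nonneg _) hh0.le) (by positivity) (by positivity)
      _ = (h : ℝ) ^ 3 * ν := by ring
  · exact Dvd.intro (g * (y - x)) (by ring)
  · exact Dvd.intro (g * (y2 - x)) (by ring)
  · refine ⟨w - g * (B + A * x) - g * A * (y2 - x) - g * A * (y - x), ?_⟩
    linear_combination -hj

end Pool.Agent.H.MP_03bc95_nt
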