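import Pool.Agent.H.MP_03bc95_nt.TO
import Pool.Agent.H.MP_03bc95_nt.TN
import Pool.Agent.H.MP_03bc95_nt.Mc

open Finset
open scoped Pointwise

namespace Pool.Agent.H.MP_03bc95_nt

/-- One factor: with `μ = min h ((p^2 h)^(1/9))`, `h^3 ≤ p`:
`μ^(3 (1-ε)) * (C h^(3+ε) Λ^(2/3)) ≤ C h^6`, `Λ = max 1 (h^4/p)`.
Proof: `h^3 / Λ^(2/3) ≥ μ^3`: `Λ^(2/3) = max 1 ((h^4/p)^(2/3))` and `μ^3 = min (h^3) (p^(2/3) h^(1/3))`,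
`h^3 (p/h^4)^(2/3) = p^(2/3) h^(1/3)`. So `μ^3 Λ^(2/3) ≤ h^3`. And `h ≤ μ^3` (`h ≤ h^3`,
`h^3 ≤ p^2 h` because `h ≤ p`), so `h^ε ≤ μ^(3ε)` and
`μ^(3-3ε) h^(3+ε) Λ^(2/3) ≤ μ^3 Λ^(2/3) h^3 (h^ε/μ^(3ε)) ≤ h^6`. -/
theorem one_factor (ε : ℝ) (hε : 0 < ε) (h p : ℝ) (hh : 1 ≤ h) (hp : h ^ 3 ≤ p) :
    ((min h ((p ^ 2 * h) ^ ((1 : ℝ) / 9))) ^ (1 - ε)) ^ 3 *
      (h ^ (3 + ε) * (max 1 (h ^ 4 / p)) ^ ((2 : ℝ) / 3)) ≤ h ^ 6 := by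
  have hh0 : 0 < h := by linarith
  have hh3 : h ≤ h ^ 3 := le_self_pow₀ hh (by norm_num)
  have hp0 : 0 < p := lt_of_lt_of_le (pow_pos hh0 3) hp
  obtain ⟨Λ, hΛ⟩ : ∃ Λ : ℝ, Λ = max 1 (h ^ 4 / p) := ⟨_, rfl⟩
  obtain ⟨v, hv⟩ : ∃ v : ℝ, v = (p ^ 2 * h) ^ ((1 : ℝ) / 9) := ⟨_, rfl⟩
  obtain ⟨μ, hμ⟩ : ∃ μ : ℝ, μ = min h v := ⟨_, rfl⟩
  rw [← hΛ, ← hv, ← hμ]
  have hΛ1 : 1 ≤ Λ := hΛ ▸ le_max_left _ _
  have hv9 : v ^ 9 = p ^ 2 * h := by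
    rw [hv, ← Real.rpow_natCast, ← Real.rpow_mul (by positivity)]
    norm_num
  have hv0 : 0 < v := by
    rw [hv]
    positivity
  have hμ0 : 0 < μ := hμ ▸ lt_min hh0 hv0
  have hμh : μ ≤ h := hμ ▸ min_le_left _ _
  have hμv : μ ≤ v := hμ ▸ min_le_right _ _
  have hμ3 : h ≤ μ ^ 3 := by
    rw [hμ]
    rcases min_choice h v with h1 | h1
    · rw [h1]
      exact hh3
    · rw [h1]
      have h2 : h ^ 3 ≤ (v ^ 3) ^ 3 := by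
        rw [← pow_mul, hv9]
        have h3 : h ≤ p := hh3.trans hp
        have h4 : h ^ 2 ≤ p ^ 2 := pow_le_pow_left₀ hh0.le h3 2
        nlinarith
      exact le_of_pow_le_pow_left₀ (by norm_num) (by positivity) h2
  have hX : μ ^ 3 * Λ ^ ((2 : ℝ) / 3) ≤ h ^ 3 := by
    refine le_of_pow_le_pow_left₀ (n := 3) (by norm_num) (by positivity) ?_
    have h5 : (Λ ^ ((2 : ℝ) / 3)) ^ 3 = Λ ^ 2 := by
      rw [← Real.rpow_natCast, ← Real.rpow_mul (by linarith)]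
      norm_num
    rw [mul_pow, h5, ← pow_mul, ← pow_mul]
    rw [hΛ]
    rcases max_choice 1 (h ^ 4 / p) with h1 | h1
    · rw [h1, one_pow, mul_one]
      exact pow_le_pow_left₀ hμ0.le hμh _
    · rw [h1]
      have h6 : μ ^ (3 * 3) ≤ p ^ 2 * h := by
        rw [← hv9]
        exact pow_le_pow_left₀ hμ0.le hμv _
      calc μ ^ (3 * 3) * (h ^ 4 / p) ^ 2 ≤ p ^ 2 * h * (h ^ 4 / p) ^ 2 :=
            mul_le_mul_of_nonneg_right h6 (by positivity)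
        _ = h ^ (3 * 3) := by
            field_simp
  have hY : (μ ^ (1 - ε)) ^ 3 ≤ μ ^ 3 * h ^ (-ε) := by
    have h7 : (μ ^ (1 - ε)) ^ 3 = μ ^ 3 * (μ ^ 3) ^ (-ε) := by
      rw [← Real.rpow_natCast (μ ^ (1 - ε)), ← Real.rpow_mul hμ0.le, ← Real.rpow_natCast μ 3,
        ← Real.rpow_mul hμ0.le, ← Real.rpow_add hμ0]
      congr 1
      push_cast
      ring
    rw [h7]
    refine mul_le_mul_of_nonneg_left ?_ (by positivity)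
    exact Real.rpow_le_rpow_of_nonpos hh0 hμ3 (by linarith)
  have hZ : h ^ (3 + ε) = h ^ 3 * h ^ ε := by
    rw [Real.rpow_add hh0, ← Real.rpow_natCast]
    norm_num
  have hW : h ^ (-ε) * h ^ ε = 1 := by
    rw [← Real.rpow_add hh0, neg_add_cancel, Real.rpow_zero]
  rw [hZ]
  calc (μ ^ (1 - ε)) ^ 3 * (h ^ 3 * h ^ ε * Λ ^ ((2 : ℝ) / 3))
      ≤ (μ ^ 3 * h ^ (-ε)) * (h ^ 3 * h ^ ε * Λ ^ ((2 : ℝ) / 3)) :=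
        mul_le_mul_of_nonneg_right hY (by positivity)
    _ = (μ ^ 3 * Λ ^ ((2 : ℝ) / 3)) * h ^ 3 * (h ^ (-ε) * h ^ ε) := by ring
    _ = (μ ^ 3 * Λ ^ ((2 : ℝ) / 3)) * h ^ 3 := by rw [hW, mul_one]
    _ ≤ h ^ 3 * h ^ 3 := mul_le_mul_of_nonneg_right hX (by positivity)
    _ = h ^ 6 := by ring

/-- Three intervals. `prod_card`: `(h1 h2 h3)^2 ≤ |I1 I2 I3| M`, `M = M6 I1 I2 I3`, and `m6_cube`,
`m6_final ε`: `M^3 ≤ ∏ C h_i^(3+ε) Λ_i^(2/3)`. So with `Y = ∏ μ_i^(1-ε)`, by `one_factor`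
`Y^3 M^3 ≤ C^3 (h1 h2 h3)^6 ≤ C^3 |I1 I2 I3|^3 M^3`, and `M > 0`, so `Y ≤ C |I1 I2 I3|`.
(`Itv` has `h` elements: `itv_card` in `Mc.lean`, `0 ∉ Itv`: `zero_notMem_itv`.) -/
theorem clean2 (ε : ℝ) (hε : 0 < ε) : ∃ c : ℝ, 0 < c ∧ ∀ (p : ℕ) [Fact p.Prime]
    (S1 S2 S3 : ℤ) (h1 h2 h3 : ℕ), 1 ≤ h1 → 1 ≤ h2 → 1 ≤ h3 →
    100000 * h1 ^ 3 ≤ p → 100000 * h2 ^ 3 ≤ p → 100000 * h3 ^ 3 ≤ p →
    (∀ x : ℤ, 1 ≤ x → x ≤ h1 → ((S1 + x : ℤ) : ZMod p) ≠ 0) →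
    (∀ x : ℤ, 1 ≤ x → x ≤ h2 → ((S2 + x : ℤ) : ZMod p) ≠ 0) →
    (∀ x : ℤ, 1 ≤ x → x ≤ h3 → ((S3 + x : ℤ) : ZMod p) ≠ 0) →
    c * ((min (h1 : ℝ) (((p : ℝ) ^ 2 * h1) ^ ((1 : ℝ) / 9))) ^ (1 - ε) *
      (min (h2 : ℝ) (((p : ℝ) ^ 2 * h2) ^ ((1 : ℝ) / 9))) ^ (1 - ε) *
      (min (h3 : ℝ) (((p : ℝ) ^ 2 * h3) ^ ((1 : ℝ) / 9))) ^ (1 - ε)) ≤
      ((Itv p S1 h1 * Itv p S2 h2 * Itv p S3 h3).card : ℝ) := by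
  obtain ⟨C, hC1, hC⟩ := m6_final ε hε
  have hC0 : 0 < C := by linarith
  refine ⟨C⁻¹, inv_pos.2 hC0, fun p hpp S1 S2 S3 h1 h2 h3 hh1 hh2 hh3 hp1 hp2 hp3 hS1 hS2 hS3 => ?_⟩
  have hfac : ∀ (h : ℕ) (S : ℤ), 1 ≤ h → 100000 * h ^ 3 ≤ p →
      (∀ x : ℤ, 1 ≤ x → x ≤ h → ((S + x : ℤ) : ZMod p) ≠ 0) →
      ((min (h : ℝ) (((p : ℝ) ^ 2 * h) ^ ((1 : ℝ) / 9))) ^ (1 - ε)) ^ 3 *
        (M6 (Itv p S h) (Itv p S h) (Itv p S h) : ℝ) ≤ C * (h : ℝ) ^ 6 := by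
    intro h S hh hp hS
    have h4 := hC p S h hh hp hS
    have hhr : (1 : ℝ) ≤ h := by exact_mod_cast hh
    have h5 := one_factor ε hε (h : ℝ) (p : ℝ) hhr (by
      have : h ^ 3 ≤ p := by omega
      exact_mod_cast this)
    have h6 : 0 ≤ ((min (h : ℝ) (((p : ℝ) ^ 2 * h) ^ ((1 : ℝ) / 9))) ^ (1 - ε)) ^ 3 := by
      have : 0 ≤ min (h : ℝ) (((p : ℝ) ^ 2 * h) ^ ((1 : ℝ) / 9)) :=
        le_min (by linarith) (by positivity)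
      positivity
    calc _ ≤ ((min (h : ℝ) (((p : ℝ) ^ 2 * h) ^ ((1 : ℝ) / 9))) ^ (1 - ε)) ^ 3 *
          (C * (h : ℝ) ^ (3 + ε) * (max 1 ((h : ℝ) ^ 4 / p)) ^ ((2 : ℝ) / 3)) :=
          mul_le_mul_of_nonneg_left h4 h6
      _ = C * (((min (h : ℝ) (((p : ℝ) ^ 2 * h) ^ ((1 : ℝ) / 9))) ^ (1 - ε)) ^ 3 *
          ((h : ℝ) ^ (3 + ε) * (max 1 ((h : ℝ) ^ 4 / p)) ^ ((2 : ℝ) / 3))) := by ring
      _ ≤ C * (h : ℝ) ^ 6 := mul_le_mul_of_nonneg_left h5 hC0.le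
  have hcard : ∀ (h : ℕ) (S : ℤ), 1 ≤ h → 100000 * h ^ 3 ≤ p → (Itv p S h).card = h := by
    intro h S hh hp
    refine itv_card S ?_
    have : h ≤ h ^ 3 := Nat.le_self_pow (by norm_num) h
    omega
  have k1 := hfac h1 S1 hh1 hp1 hS1
  have k2 := hfac h2 S2 hh2 hp2 hS2
  have k3 := hfac h3 S3 hh3 hp3 hS3
  have hpc := prod_card (Itv p S1 h1) (Itv p S2 h2) (Itv p S3 h3)
  rw [hcard h1 S1 hh1 hp1, hcard h2 S2 hh2 hp2, hcard h3 S3 hh3 hp3] at hpc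
  have hcube := m6_cube (Itv p S1 h1) (Itv p S2 h2) (Itv p S3 h3) (zero_notMem_itv hS1)
    (zero_notMem_itv hS2) (zero_notMem_itv hS3)
  generalize (Itv p S1 h1 * Itv p S2 h2 * Itv p S3 h3).card = n at hpc ⊢
  generalize M6 (Itv p S1 h1) (Itv p S2 h2) (Itv p S3 h3) = M at hpc hcube
  generalize M6 (Itv p S1 h1) (Itv p S1 h1) (Itv p S1 h1) = M1 at k1 hcube
  generalize M6 (Itv p S2 h2) (Itv p S2 h2) (Itv p S2 h2) = M2 at k2 hcube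
  generalize M6 (Itv p S3 h3) (Itv p S3 h3) (Itv p S3 h3) = M3 at k3 hcube
  have hy : ∀ h : ℕ, 0 ≤ (min (h : ℝ) (((p : ℝ) ^ 2 * h) ^ ((1 : ℝ) / 9))) ^ (1 - ε) := by
    intro h
    have : 0 ≤ min (h : ℝ) (((p : ℝ) ^ 2 * h) ^ ((1 : ℝ) / 9)) :=
      le_min (Nat.cast_nonneg h) (by positivity)
    positivity
  have y1 := hy h1
  have y2 := hy h2
  have y3 := hy h3
  generalize (min (h1 : ℝ) (((p : ℝ) ^ 2 * h1) ^ ((1 : ℝ) / 9))) ^ (1 - ε) = Y1 at k1 y1 ⊢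
  generalize (min (h2 : ℝ) (((p : ℝ) ^ 2 * h2) ^ ((1 : ℝ) / 9))) ^ (1 - ε) = Y2 at k2 y2 ⊢
  generalize (min (h3 : ℝ) (((p : ℝ) ^ 2 * h3) ^ ((1 : ℝ) / 9))) ^ (1 - ε) = Y3 at k3 y3 ⊢
  have hM0 : 0 < M := by
    rcases Nat.eq_zero_or_pos M with h | h
    · rw [h, mul_zero] at hpc
      have : 0 < (h1 * h2 * h3) ^ 2 := by positivity
      omega
    · exact h
  have hMr : (0 : ℝ) < M := by exact_mod_cast hM0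
  have hpc' : ((h1 : ℝ) * h2 * h3) ^ 2 ≤ n * M := by exact_mod_cast hpc
  have hcube' : (M : ℝ) ^ 3 ≤ M1 * M2 * M3 := by exact_mod_cast hcube
  have hfin : (Y1 * Y2 * Y3 * M) ^ 3 ≤ (C * (n * M)) ^ 3 := by
    have e1 : (Y1 ^ 3 * M1) * (Y2 ^ 3 * M2) ≤ (C * (h1 : ℝ) ^ 6) * (C * (h2 : ℝ) ^ 6) :=
      mul_le_mul k1 k2 (by positivity) (by positivity)
    have e2 : (Y1 ^ 3 * M1) * (Y2 ^ 3 * M2) * (Y3 ^ 3 * M3) ≤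
        (C * (h1 : ℝ) ^ 6) * (C * (h2 : ℝ) ^ 6) * (C * (h3 : ℝ) ^ 6) :=
      mul_le_mul e1 k3 (by positivity) (by positivity)
    calc (Y1 * Y2 * Y3 * M) ^ 3 = (Y1 ^ 3 * Y2 ^ 3 * Y3 ^ 3) * (M : ℝ) ^ 3 := by ring
      _ ≤ (Y1 ^ 3 * Y2 ^ 3 * Y3 ^ 3) * (M1 * M2 * M3) :=
          mul_le_mul_of_nonneg_left hcube' (by positivity)
      _ = (Y1 ^ 3 * M1) * (Y2 ^ 3 * M2) * (Y3 ^ 3 * M3) := by ring
      _ ≤ (C * (h1 : ℝ) ^ 6) * (C * (h2 : ℝ) ^ 6) * (C * (h3 : ℝ) ^ 6) := e2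
      _ = C ^ 3 * (((h1 : ℝ) * h2 * h3) ^ 2) ^ 3 := by ring
      _ ≤ C ^ 3 * (n * M) ^ 3 :=
          mul_le_mul_of_nonneg_left (pow_le_pow_left₀ (by positivity) hpc' 3) (by positivity)
      _ = (C * (n * M)) ^ 3 := by ring
  have hfin2 : Y1 * Y2 * Y3 * M ≤ C * (n * M) :=
    le_of_pow_le_pow_left₀ (by norm_num) (by positivity) hfin
  have hfin3 : Y1 * Y2 * Y3 ≤ C * n := by
    have : Y1 * Y2 * Y3 * M ≤ C * n * M := by linarith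
    exact le_of_mul_le_mul_right this hMr
  rw [inv_mul_le_iff₀ hC0]
  exact hfin3

end Pool.Agent.H.MP_03bc95_nt
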